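import Pool.Agent.Lib.MP_41050a_ag.Coef0

/-! Primes and points; Dickson's lemma. -/

namespace Pool.Agent.Lib.MP_41050a_ag

open Polynomial

set_option linter.unusedSectionVars false

noncomputable section

variable {k : Type} [Field k]

/-- Primes between `J` and a point off the other components contain `P`. -/
theorem exists_sep {A : Type} [CommRing A] [IsNoetherianRing A] {J P : Ideal A}
    (hP : P ∈ J.minimalPrimes) :
    ∃ h ∉ P, ∀ P' : Ideal A, P'.IsPrime → J ≤ P' → h ∉ P' → P ≤ P' := by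
  classical
  have hp : P.IsPrime := hP.1.1
  have hf := Ideal.finite_minimalPrimes_of_isNoetherianRing A J
  have h1 : ¬(hf.toFinset.erase P).inf id ≤ P := fun h => by
    obtain ⟨Q, hQ, hle⟩ := hp.inf_le'.1 h
    obtain ⟨h2, h3⟩ := Finset.mem_erase.1 hQ
    have h4 : Q ∈ J.minimalPrimes := hf.mem_toFinset.1 h3
    exact h2 (le_antisymm hle (hP.2 h4.1 hle))
  obtain ⟨h, h2, h3⟩ := SetLike.not_le_iff_exists.1 h1
  refine ⟨h, h3, fun P' hP' hJ hh => ?_⟩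
  obtain ⟨Q, hQ, hle⟩ := Ideal.exists_minimalPrimes_le hJ
  by_contra hn
  have h4 : Q ∈ hf.toFinset.erase P :=
    Finset.mem_erase.2 ⟨fun e => hn (e ▸ hle), hf.mem_toFinset.2 hQ⟩
  exact hh (hle ((Finset.inf_le (f := id) h4 :) h2))

theorem exists_closed [IsAlgClosed k] {σ : Type} [Finite σ] {P : Ideal (MvPolynomial σ k)}
    (hP : P.IsPrime) {h : MvPolynomial σ k} (hh : h ∉ P) :
    ∃ a : σ → k, (∀ g ∈ P, MvPolynomial.aeval a g = 0) ∧ MvPolynomial.aeval a h ≠ 0 := by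
  by_contra hn
  refine hh ?_
  rw [← hP.radical, ← MvPolynomial.vanishingIdeal_zeroLocus_eq_radical (K := k)]
  exact fun a ha => by_contra fun h0 => hn ⟨a, ha, h0⟩

/-- A generic point with values in an algebraically closed field. -/
theorem exists_generic {σ : Type} {P : Ideal (MvPolynomial σ k)} (hP : P.IsPrime) :
    ∃ (Λ : Type) (_ : Field Λ) (_ : Algebra k Λ) (_ : IsAlgClosed Λ) (ξ : σ → Λ),
      ∀ g, MvPolynomial.aeval ξ g = 0 ↔ g ∈ P := by
  let A := MvPolynomial σ k ⧸ P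
  let Λ := AlgebraicClosure (FractionRing A)
  let φ : MvPolynomial σ k →ₐ[k] Λ :=
    ((IsScalarTower.toAlgHom k (FractionRing A) Λ).comp
      (IsScalarTower.toAlgHom k A (FractionRing A))).comp (Ideal.Quotient.mkₐ k P)
  refine ⟨Λ, inferInstance, inferInstance, inferInstance, φ ∘ MvPolynomial.X,
    fun g => ?_⟩
  rw [← MvPolynomial.aeval_unique φ, ← Ideal.Quotient.eq_zero_iff_mem]
  exact (map_eq_zero_iff _ (algebraMap (FractionRing A) Λ).injective).trans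
    (map_eq_zero_iff _ (IsFractionRing.injective A (FractionRing A)))

theorem coef_sum {σ T M : Type} [Fintype T] [DecidableEq T] [AddCommMonoid M] (τ : σ → T)
    (B : Finset σ) (f : T → M) :
    ∑ p ∈ B, f (τ p) = ∑ t, (B.filter fun p => τ p = t).card • f t := by
  rw [← Finset.sum_fiberwise' B τ f]
  simp only [Finset.sum_const]

theorem coef_sub {σ T : Type} [Fintype σ] [DecidableEq σ] [Fintype T] [DecidableEq T] (τ : σ → T)
    (m : T → ℕ) (h : ∀ t, m t ≤ (Finset.univ.filter fun p => τ p = t).card) :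
    ∃ B : Finset σ, ∀ t, (B.filter fun p => τ p = t).card = m t := by
  choose S h1 h2 using fun t => Finset.exists_subset_card_eq (h t)
  refine ⟨Finset.univ.biUnion S, fun t => ?_⟩
  rw [← h2 t]
  refine congrArg _ (Finset.ext fun p => ?_)
  simp only [Finset.mem_filter, Finset.mem_biUnion, Finset.mem_univ, true_and]
  constructor
  · rintro ⟨⟨t', h3⟩, rfl⟩
    rwa [(Finset.mem_filter.1 (h1 t' h3)).2]
  · exact fun h3 => ⟨⟨t, h3⟩, (Finset.mem_filter.1 (h1 t h3)).2⟩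

theorem coef_split {T : Type} [Fintype T] [DecidableEq T] {r : ℕ} (w : T → ℕ) (v : T → Fin r → ℤ) :
    ∃ c : ℕ, ∀ (σ : Type) [Fintype σ] [DecidableEq σ] (τ : σ → T), (∀ i, ∑ p, v (τ p) i = 0) →
      c ≤ ∑ p, w (τ p) → ∃ B : Finset σ, (∀ i, ∑ p ∈ B, v (τ p) i = 0) ∧ 0 < ∑ p ∈ B, w (τ p) ∧
        0 < ∑ p ∈ Bᶜ, w (τ p) := by
  obtain ⟨Z, hZ⟩ : ∃ Z : (T → ℕ) → Prop, ∀ m, Z m ↔
    (∀ i, ∑ t, m t • v t i = 0) ∧ 0 < ∑ t, m t • w t := ⟨_, fun _ => Iff.rfl⟩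
  have hf : {m | Minimal Z m}.Finite :=
    WellQuasiOrderedLE.finite_of_isAntichain (setOfPred_minimal_antichain Z)
  obtain ⟨c, hc⟩ := (hf.image fun m => ∑ t, m t • w t).bddAbove
  refine ⟨c + 1, fun σ _ _ τ h1 h2 => ?_⟩
  obtain ⟨m, h3, h4⟩ := exists_minimal_le_of_wellFoundedLT Z
    (fun t => (Finset.univ.filter fun p => τ p = t).card) ((hZ _).2
      ⟨fun i => (coef_sum τ _ fun t => v t i).symm.trans (h1 i),
        ((Nat.succ_pos c).trans_le h2).trans_eq (coef_sum τ _ w)⟩)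
  obtain ⟨B, hB⟩ := coef_sub τ m h3
  have h5 := (hZ m).1 h4.1
  have h6 : ∑ t, m t • w t ≤ c := hc ⟨m, h4, rfl⟩
  have h7 : ∑ p ∈ B, w (τ p) = ∑ t, m t • w t := by
    rw [coef_sum τ B w]
    simp only [hB]
  have h8 := Finset.sum_add_sum_compl B fun p => w (τ p)
  refine ⟨B, fun i => ?_, h7 ▸ h5.2, by omega⟩
  rw [coef_sum τ B fun t => v t i]
  simp only [hB]
  exact h5.1 i

/-- Dickson's lemma. -/
theorem exists_split (C r : ℕ) : ∃ c : ℕ, ∀ (σ : Type) [Fintype σ] [DecidableEq σ] (ee : σ → ℕ)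
    (d : σ → Fin r → ℤ), (∀ p, ee p ≤ C) → (∀ p i, |d p i| ≤ C) → (∀ i, ∑ p, d p i = 0) →
      c ≤ ∑ p, ee p → ∃ B : Finset σ, (∀ i, ∑ p ∈ B, d p i = 0) ∧ 0 < ∑ p ∈ B, ee p ∧
        0 < ∑ p ∈ Bᶜ, ee p := by
  classical
  obtain ⟨c, hc⟩ := coef_split (T := Finset.Iic C × (Fin r → Finset.Icc (-C : ℤ) C)) (r := r)
    (fun t => t.1) fun t i => t.2 i
  exact ⟨c, fun σ _ _ ee d h1 h2 => hc σ fun p =>
    (⟨ee p, Finset.mem_Iic.2 (h1 p)⟩, fun i => ⟨d p i, Finset.mem_Icc.2 (abs_le.1 (h2 p i))⟩)⟩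

end

end Pool.Agent.Lib.MP_41050a_ag
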