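import Pool.Agent.Lib.MP_41050a_ag.Grp

/-! The space of coefficients. -/

namespace Pool.Agent.Lib.MP_41050a_ag

open Polynomial

set_option linter.unusedSectionVars false

noncomputable section

variable {k : Type} [Field k] {N : ℕ} {I : Ideal (Pk k N)} {e : ℕ}
  {R S : Type} [CommRing R] [Algebra k R] [CommRing S] [Algebra k S]

/-- The indices of the coefficients. -/
abbrev Ix (N e : ℕ) : Type := Fin (N + 1) × Fin (e + 1)

/-- The universal tuple. -/
abbrev UU (k : Type) [Field k] (N e : ℕ) : V (MvPolynomial (Ix N e) k)[X] N := pol MvPolynomial.X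

theorem pol_coeff (c : Ix N e → R) (i : Fin (N + 1)) (j : Fin (e + 1)) :
    (pol c i).coeff j = c (i, j) := by
  unfold pol
  rw [finsetSum_coeff, Finset.sum_eq_single j]
  · rw [coeff_monomial, if_pos rfl]
  · intro b _ hb
    rw [coeff_monomial, if_neg fun h => hb (Fin.ext h)]
  · intro h
    exact absurd (Finset.mem_univ j) h

theorem pol_deg (c : Ix N e → R) (i : Fin (N + 1)) : (pol c i).natDegree ≤ e := by
  unfold pol
  exact natDegree_sum_le_of_forall_le _ _ fun j _ =>
    (natDegree_monomial_le _).trans (Nat.lt_succ_iff.mp j.2)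

theorem pol_map (c : Ix N e → R) (φ : R →+* S) (i : Fin (N + 1)) :
    (pol c i).map φ = pol (φ ∘ c) i := by
  unfold pol
  rw [Polynomial.map_sum]
  exact Finset.sum_congr rfl fun j _ => by rw [map_monomial, Function.comp_apply]

theorem exists_pol {F : V R[X] N} (h : ∀ i, (F i).natDegree ≤ e) :
    ∃ c : Ix N e → R, pol c = F := by
  refine ⟨fun x => (F x.1).coeff x.2, funext fun i => Polynomial.ext fun m => ?_⟩
  by_cases hm : m ≤ e
  · exact pol_coeff (fun x : Ix N e => (F x.1).coeff x.2) i ⟨m, Nat.lt_succ_of_le hm⟩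
  · rw [coeff_eq_zero_of_natDegree_lt ((pol_deg _ i).trans_lt (not_le.mp hm)),
      coeff_eq_zero_of_natDegree_lt ((h i).trans_lt (not_le.mp hm))]

theorem pol_inj {c c' : Ix N e → R} (h : pol c = pol c') : c = c' := by
  funext x
  obtain ⟨i, j⟩ := x
  rw [← pol_coeff c i j, h, pol_coeff]

theorem map_aev_poly (φ : R →ₐ[k] S) (F : V R[X] N) (Φ : Pk k N) :
    (MvPolynomial.aeval F Φ).map (φ : R →+* S) =
      MvPolynomial.aeval (fun i => (F i).map (φ : R →+* S)) Φ := by
  exact map_aev (Polynomial.mapAlgHom φ) F Φ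

theorem map_aev_UU (c : Ix N e → R) (Φ : Pk k N) :
    (MvPolynomial.aeval (UU k N e) Φ).map
      (MvPolynomial.aeval c : MvPolynomial (Ix N e) k →ₐ[k] R) = MvPolynomial.aeval (pol c) Φ := by
  rw [map_aev_poly]
  congr 2
  funext i
  rw [pol_map]
  congr 1
  funext x
  simp

theorem eval_aev (F : V R[X] N) (a : R) (Φ : Pk k N) : (MvPolynomial.aeval F Φ).eval a =
    MvPolynomial.aeval (fun i => (F i).eval a) Φ := by
  exact map_aev ((Polynomial.aeval a : R[X] →ₐ[R] R).restrictScalars k) F Φ

theorem eqs_iff {c : Ix N e → R} :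
    (∀ g ∈ eqs I e, MvPolynomial.aeval c g = 0) ↔ On I (pol c) := by
  constructor
  · intro h Φ hΦ
    rw [← map_aev_UU]
    refine Polynomial.ext fun m => ?_
    rw [coeff_map, coeff_zero]
    exact h _ (Ideal.subset_span ⟨Φ, hΦ, m, rfl⟩)
  · intro h g hg
    have hle : eqs I e ≤ RingHom.ker
        (MvPolynomial.aeval c : MvPolynomial (Ix N e) k →ₐ[k] R) := by
      refine Ideal.span_le.mpr ?_
      rintro _ ⟨Φ, hΦ, m, rfl⟩
      have h1 := congrArg (fun f => Polynomial.coeff f m) (map_aev_UU c Φ)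
      simp only [coeff_map] at h1
      rw [h Φ hΦ, coeff_zero] at h1
      exact h1
    exact hle hg

theorem coef0_prod {F : V R[X] N} (h : ∀ i, (F i).natDegree ≤ e) (s : Fin (N + 1) → ℕ)
    (t : Finset (Fin (N + 1))) : (∏ i ∈ t, F i ^ s i).natDegree ≤ (∑ i ∈ t, s i) * e ∧
      (∏ i ∈ t, F i ^ s i).coeff ((∑ i ∈ t, s i) * e) = ∏ i ∈ t, (F i).coeff e ^ s i := by
  induction t using Finset.induction_on with
  | empty => simp
  | insert a t ha ih =>
    have h1 : (F a ^ s a).natDegree ≤ s a * e := natDegree_pow_le_of_le _ (h a)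
    rw [Finset.prod_insert ha, Finset.prod_insert ha, Finset.sum_insert ha, add_mul]
    refine ⟨natDegree_mul_le.trans (add_le_add h1 ih.1), ?_⟩
    rw [coeff_mul_add_eq_of_natDegree_le h1 ih.1, ih.2, coeff_pow_of_natDegree_le (h a)]

/-- The top coefficient of a homogeneous polynomial of a tuple. -/
theorem coeff_aev {Φ : Pk k N} {d : ℕ} (hΦ : Φ.IsHomogeneous d) {F : V R[X] N}
    (h : ∀ i, (F i).natDegree ≤ e) : (MvPolynomial.aeval F Φ).natDegree ≤ d * e ∧
      (MvPolynomial.aeval F Φ).coeff (d * e) =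
        MvPolynomial.aeval (fun i => (F i).coeff e) Φ := by
  have hs : ∀ s ∈ Φ.support, ∑ i ∈ s.support, s i = d := fun s hs =>
    (hΦ.degree_eq_sum_deg_support hs).symm
  have e1 : MvPolynomial.aeval F Φ = ∑ s ∈ Φ.support,
      C (algebraMap k R (MvPolynomial.coeff s Φ)) * ∏ i ∈ s.support, F i ^ s i := by
    rw [MvPolynomial.aeval_def, MvPolynomial.eval₂_eq]
    rfl
  have e2 : MvPolynomial.aeval (fun i => (F i).coeff e) Φ = ∑ s ∈ Φ.support,
      algebraMap k R (MvPolynomial.coeff s Φ) * ∏ i ∈ s.support, (F i).coeff e ^ s i := by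
    rw [MvPolynomial.aeval_def, MvPolynomial.eval₂_eq]
  rw [e1, e2]
  constructor
  · refine natDegree_sum_le_of_forall_le _ _ fun s hs' => (natDegree_C_mul_le _ _).trans ?_
    rw [← hs s hs']
    exact (coef0_prod h s s.support).1
  · rw [finsetSum_coeff]
    refine Finset.sum_congr rfl fun s hs' => ?_
    rw [coeff_C_mul, ← hs s hs', (coef0_prod h s s.support).2]

theorem val_map (φ : R →+* S) (p : Option R) (f : R[X]) :
    val e (p.map φ) (f.map φ) = φ (val e p f) := by
  cases p with
  | none => exact coeff_map φ e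
  | some a => exact eval_map_apply φ a

theorem val_add (p : Option R) (f g : R[X]) : val e p (f + g) = val e p f + val e p g := by
  cases p with
  | none => exact coeff_add f g e
  | some a => exact eval_add

theorem val_smul (p : Option R) (c : R) (f : R[X]) : val e p (c • f) = c * val e p f := by
  cases p with
  | none => exact coeff_smul c f e
  | some a => exact eval_smul c f a

end

end Pool.Agent.Lib.MP_41050a_ag
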