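import Pool.Agent.Lib.MP_41050a_ag.Dat0

/-! Good curves have data of bounded type. -/

namespace Pool.Agent.Lib.MP_41050a_ag

open Polynomial

set_option linter.unusedSectionVars false

noncomputable section

variable {k : Type} [Field k] [IsAlgClosed k] [CharZero k] {N : ℕ} {I : Ideal (Pk k N)}
  {x' : V k N} {j₀ : Fin (N + 1)}

theorem dat_am {σ : Type} [Fintype σ] (pt : σ → k) (a : kˣ) (m : σ → ℕ) :
    algebraMap k[X] (RatFunc k) (C (a : k) * ∏ p, (X - C (pt p)) ^ m p) =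
      ((cu a * ∏ p, lin (pt p) ^ m p : (RatFunc k)ˣ) : RatFunc k) := by
  simp [cu, lin]

theorem dat_deg {σ : Type} [Fintype σ] (pt : σ → k) (a : kˣ) (m : σ → ℕ) :
    (C (a : k) * ∏ p, (X - C (pt p)) ^ m p).natDegree = ∑ p, m p := by
  rw [natDegree_C_mul a.ne_zero, natDegree_prod_of_monic _ _ fun p _ => (monic_X_sub_C _).pow _]
  simp

theorem dat_mem {σ : Type} [Fintype σ] (pt : σ → k) (a : kˣ) (m : σ → ℕ) {g : k[X]}
    (hg : g.natDegree ≤ ∑ p, m p) : algebraMap k[X] (RatFunc k) g *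
      ((cu a * ∏ p, lin (pt p) ^ m p)⁻¹ : (RatFunc k)ˣ) ∈ GK pt := by
  have h := (GK pt).mul_mem (div_mem_GK pt m hg) ((GK pt).algebraMap_mem ((a⁻¹ : kˣ) : k))
  rw [mul_inv_rev, Units.val_mul, ← mul_assoc, cu, ← map_inv]
  exact h

theorem dat_rel {σ ι : Type} [Fintype σ] [Fintype ι] (pt : σ → k) (κ : ι → kˣ) (d : σ → ι → ℤ)
    (a : ι → ℤ) : ∏ i, (cu (κ i) * ∏ p, lin (pt p) ^ d p i : (RatFunc k)ˣ) ^ a i =
      cu (∏ i, κ i ^ a i) * ∏ p, lin (pt p) ^ ∑ i, a i * d p i := by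
  simp only [cu, mul_zpow, Finset.prod_mul_distrib, map_prod, map_zpow, ← Finset.prod_zpow,
    ← zpow_mul]
  rw [Finset.prod_comm]
  congr 1
  refine Finset.prod_congr rfl fun p _ => ?_
  simp only [mul_comm (d p _)]
  exact (map_prod (zpowersMulHom (RatFunc k)ˣ (lin (pt p)) :
    Multiplicative ℤ →* _) (fun i => Multiplicative.ofAdd (a i * d p i)) _).symm

/-- A unit whose numerator and denominator divide a power of `Q`. -/
theorem dat_unit {Q g g' w : k[X]} {μ n : ℕ} (hQ : ∀ t : k, ¬ (X - C t) ^ (μ + 1) ∣ Q)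
    {S : Finset k} (hS : ∀ t, Q.eval t = 0 → t ∈ S) (hw : w ∣ Q ^ n) {u : (RatFunc k)ˣ}
    (h : u * algebraMap k[X] (RatFunc k) w = algebraMap k[X] (RatFunc k) g)
    (h' : (u⁻¹ : (RatFunc k)ˣ) * algebraMap k[X] (RatFunc k) w = algebraMap k[X] (RatFunc k) g') :
    ∃ (a : kˣ) (d : S → ℤ), (∀ p, |d p| ≤ (2 * n * μ : ℕ)) ∧
      u = cu a * ∏ p : S, lin (p : k) ^ d p := by
  have h1 : g * g' = w * w := by
    refine RatFunc.algebraMap_injective k ?_
    rw [map_mul, map_mul, ← h, ← h', mul_mul_mul_comm, Units.mul_inv, one_mul]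
  have h2 : g ∣ Q ^ (2 * n) := by
    rw [two_mul, pow_add]
    exact (Dvd.intro _ h1).trans (mul_dvd_mul hw hw)
  obtain ⟨a, m, hm, rfl⟩ := exists_factor hQ h2 hS
  obtain ⟨b, l, hl, rfl⟩ := exists_factor hQ hw hS
  refine ⟨a * b⁻¹, fun p => m p - l p, fun p => ?_, ?_⟩
  · have h3 := hm p
    have h4 := hl p
    rw [mul_assoc] at h3 ⊢
    rw [abs_le]
    dsimp only
    omega
  · rw [dat_am, dat_am, ← Units.val_mul, Units.val_inj, ← eq_mul_inv_iff_mul_eq] at h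
    rw [h]
    simp only [cu, map_mul, map_inv, zpow_sub, zpow_natCast, Finset.prod_mul_distrib,
      Finset.prod_inv_distrib, mul_inv]
    exact mul_mul_mul_comm _ _ _ _

theorem exists_dat (hV : SmoothVar I) {Δ : Pk k N} {D m : ℕ} {Y Y' : Fin (N + 1) → Pk k N}
    (hΔ : Δ.IsHomogeneous D) (hG : Gen I x' j₀ Δ m Y Y') (μ : ℕ) {D' : ℕ}
    (hY : ∀ i, (Y i).totalDegree ≤ D') (hY' : ∀ i, (Y' i).totalDegree ≤ D') :
    ∀ (e : ℕ) (F : V k[X] N), IsMap I e F →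
      (MvPolynomial.aeval F (Δ * MvPolynomial.X j₀)).coeff ((D + 1) * e) ≠ 0 →
      (∀ t : k, ¬ (X - C t) ^ (μ + 1) ∣ MvPolynomial.aeval F (Δ * MvPolynomial.X j₀)) →
      ∃ (S : Finset k) (𝒟 : Dat I x' j₀ F S), ∑ p, 𝒟.ee p = e ∧
        (∀ p, 𝒟.ee p ≤ μ + 2 * (m + D') * μ) ∧
        ∀ p i, |𝒟.d p i| ≤ (μ + 2 * (m + D') * μ : ℕ) := by
  classical
  intro e F hF hc hQ
  rw [map_mul, MvPolynomial.aeval_X] at hc hQ
  have hQ0 : MvPolynomial.aeval F Δ * F j₀ ≠ 0 := fun h => hc (by rw [h, coeff_zero])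
  have hd := (coeff_aev hΔ hF.deg).1
  rw [add_mul, one_mul, coeff_mul_add_eq_of_natDegree_le hd (hF.deg j₀)] at hc
  have hd1 := le_antisymm hd (le_natDegree_of_ne_zero (left_ne_zero_of_mul hc))
  have hd0 := le_antisymm (hF.deg j₀) (le_natDegree_of_ne_zero (right_ne_zero_of_mul hc))
  obtain ⟨S, hS⟩ : ∃ S : Finset k, ∀ t, (MvPolynomial.aeval F Δ * F j₀).eval t = 0 → t ∈ S :=
    ⟨_, fun t ht => Multiset.mem_toFinset.2 ((mem_roots hQ0).2 ht)⟩
  obtain ⟨c, ee, hee, h0⟩ := exists_factor (g := F j₀) (n := 1) hQ (by simp) hS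
  obtain ⟨a, l, -, h1⟩ := exists_factor (g := MvPolynomial.aeval F Δ) (n := 1) hQ (by simp) hS
  have he : ∑ p, ee p = e := by rw [← hd0, h0, dat_deg]
  have hl : ∑ p, l p = D * e := by rw [← hd1, h1, dat_deg]
  obtain ⟨u, hu⟩ : ∃ u : (RatFunc k)ˣ, u = cu c * ∏ p : S, lin (p : k) ^ ee p := ⟨_, rfl⟩
  have hu0 : algebraMap k[X] (RatFunc k) (F j₀) = u := by rw [h0, dat_am, hu]
  obtain ⟨z, hz⟩ : ∃ z : V (GK (Subtype.val : S → k)) N,
      (GK _).val ∘ z = ((u⁻¹ : (RatFunc k)ˣ) : RatFunc k) • am F :=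
    ⟨fun i => ⟨_, dat_mem Subtype.val c ee (he ▸ hF.deg i)⟩, funext fun i => by
      rw [hu]; exact mul_comm _ _⟩
  have inj : Function.Injective (GK (Subtype.val : S → k)).val := Subtype.val_injective
  have hon : On I z := On.of_map inj (hz ▸ On.smul hV (hF.on.map (amH k k)) _)
  have hz0 : z j₀ = 1 := inj (by
    rw [map_one, ← u.inv_mul, ← hu0]; exact congrFun hz j₀)
  have hev : ∀ {Φ : Pk k N} {d : ℕ}, Φ.IsHomogeneous d →
      (GK _).val (MvPolynomial.aeval z Φ) * u ^ d =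
        algebraMap k[X] (RatFunc k) (MvPolynomial.aeval F Φ) := fun {Φ d} hΦ => by
    rw [map_aev, hz, aev_smul hΦ, mul_right_comm, ← mul_pow, u.inv_mul, one_pow, one_mul]
    exact (map_aev (amH k k) F Φ).symm
  have hun : IsUnit (MvPolynomial.aeval z Δ) := by
    refine IsUnit.of_mul_eq_one ⟨_, dat_mem Subtype.val a l (g := F j₀ ^ D) ?_⟩ (inj ?_)
    · rw [hl, natDegree_pow, hd0]
    · rw [map_mul, map_one]
      change _ * (algebraMap k[X] (RatFunc k) _ * _) = 1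
      rw [map_pow, hu0, ← mul_assoc, hev hΔ, h1, dat_am, Units.mul_inv]
  obtain ⟨n, η, hn, hη, hzn, hf⟩ := hG _ z hon hz0 hun
  have key : ∀ {y : GK (Subtype.val : S → k)} {G : Pk k N}, G.totalDegree ≤ D' →
      y * MvPolynomial.aeval z Δ ^ m = MvPolynomial.aeval z G → ∃ g, (GK _).val y *
        algebraMap k[X] (RatFunc k) (MvPolynomial.aeval F Δ ^ m * F j₀ ^ D') =
          algebraMap k[X] (RatFunc k) g := fun {y G} h2 h3 => by
    obtain ⟨G', h4, h5⟩ := exists_homog G j₀ h2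
    refine ⟨MvPolynomial.aeval F G' * F j₀ ^ (D * m), ?_⟩
    simp only [map_mul, map_pow]
    rw [hu0, ← hev hΔ, ← hev h4, h5 _ z hz0, ← h3, map_mul, map_pow]
    ring
  have hw : MvPolynomial.aeval F Δ ^ m * F j₀ ^ D' ∣ (MvPolynomial.aeval F Δ * F j₀) ^ (m + D') := by
    rw [mul_pow]
    exact mul_dvd_mul (pow_dvd_pow _ (Nat.le_add_right _ _)) (pow_dvd_pow _ (Nat.le_add_left _ _))
  have hall : ∀ i, ∃ (κ : kˣ) (d : S → ℤ), (∀ p, |d p| ≤ (2 * (m + D') * μ : ℕ)) ∧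
      um (GK _).val η i = cu κ * ∏ p : S, lin (p : k) ^ d p := fun i => by
    obtain ⟨g, hg⟩ := key (hY i) (hf i).1
    obtain ⟨g', hg'⟩ := key (hY' i) (hf i).2
    exact dat_unit hQ hS hw (u := um (GK _).val η i) hg hg'
  choose κ d hb hκ using hall
  have hrel : ∀ b, Rel I b → (∀ i, x' i = 0 → b i = 0) →
      (∀ p, ∑ i, b i * d i p = 0) ∧ ∏ i, κ i ^ b i = 1 := fun b h2 h3 => by
    refine lin_zpow_inj (pt := (Subtype.val : S → k)) Subtype.val_injective ?_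
    rw [← dat_rel Subtype.val κ (fun p i => d i p) b, ← hη.map (GK _).val b h2 h3]
    simp only [hκ]
  refine ⟨S, ⟨Subtype.val, Subtype.val_injective, ee, fun p i => d i p, c, κ, n, h0,
    fun i => sum_eq_zero_of_unit (hκ i), fun p b h2 h3 => (hrel b h2 h3).1 p,
    fun b h2 h3 => (hrel b h2 h3).2, hn, ?_⟩, he, fun p => ?_, fun p i => ?_⟩
  · rw [← funext hκ, ← map_tw, ← map_mulVec, ← hzn, hz, smul_smul, am, hu0, u.mul_inv, one_smul]
  · have := hee p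
    dsimp only
    omega
  · exact (hb i p).trans (Nat.cast_le.2 (Nat.le_add_left _ _))

theorem free_of_orb (hV : SmoothVar I) (hB : Base I x' j₀) {Λ : Type} [Field Λ] [Algebra k Λ]
    [IsAlgClosed Λ] {e : ℕ} {F : V Λ[X] N} (hF : IsMap I e F) (h : Orb I x' (am F)) :
    Free I e F := by
  refine GS.free hV hF fun v hv => Submodule.span_mono ?_ (h.span hV hB hv)
  rintro _ ⟨A, hA, rfl⟩
  refine ⟨(A.map (Algebra.linearMap k Λ[X])).mulVec F, fun i => ?_, (hA.lin _).tg hV hF.on, ?_⟩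
  · exact natDegree_sum_le_of_forall_le (S := Λ) Finset.univ _ fun j _ =>
      (natDegree_C_mul_le (algebraMap k Λ (A i j)) (F j)).trans (hF.deg j)
  · rw [← amH_comp (k := k) (Matrix.mulVec _ F), map_mulVec, amH_comp, Matrix.map_map]
    exact congrArg (fun f => (A.map f).mulVec (am F)) (funext fun a => ((amH k Λ).commutes a).symm)

end

end Pool.Agent.Lib.MP_41050a_ag
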