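import Pool.Agent.Lib.MP_41050a_ag.Free0

/-! Free curves. -/

namespace Pool.Agent.Lib.MP_41050a_ag

open Polynomial

set_option linter.unusedSectionVars false

noncomputable section

variable {k : Type} [Field k] [IsAlgClosed k] [CharZero k] {N : ℕ} {I : Ideal (Pk k N)}
  {Λ : Type} [Field Λ] [Algebra k Λ] {e : ℕ} {F : V Λ[X] N}

theorem free_amH_inj : Function.Injective (amH k Λ) :=
  IsFractionRing.injective Λ[X] (RatFunc Λ)

theorem free_reg_add {p : Option Λ} {a b : RatFunc Λ} (ha : Reg e p a) (hb : Reg e p b) :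
    Reg e p (a + b) := by
  obtain ⟨o, rfl⟩ := ha
  obtain ⟨o', rfl⟩ := hb
  exact ⟨o + o', by rw [map_add, add_mul]⟩

theorem free_reg_sub {p : Option Λ} {a b : RatFunc Λ} (ha : Reg e p a) (hb : Reg e p b) :
    Reg e p (a - b) := by
  obtain ⟨o, rfl⟩ := ha
  obtain ⟨o', rfl⟩ := hb
  exact ⟨o - o', by rw [map_sub, sub_mul]⟩

theorem free_val_add (p : Option Λ) (f g : Λ[X]) :
    val e p (f + g) = val e p f + val e p g := by
  cases p with
  | none => exact coeff_add f g e
  | some a => exact eval_add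

theorem GS.free [IsAlgClosed Λ] (hV : SmoothVar I) (hF : IsMap I e F) (h : GS I e F) :
    Free I e F := by
  intro p v hv
  obtain ⟨o, hov, hu⟩ := exists_local hV hF p hv
  obtain ⟨s, hs, hreg, o', G, ho', hdeg, hG, hres⟩ := exists_cut (h _ hu) p
  have hsp : ∀ i, io p (o i - o' i) * om e p = s i := fun i => by
    rw [map_sub, sub_mul, ho' i]
    ring
  have hall : ∀ i p', Reg e p' (s i) := fun i p' => by
    by_cases hp : p' = p
    · subst hp
      exact ⟨_, hsp i⟩
    · exact hreg p' hp i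
  choose G0 hd0 hG0 using fun i => exists_poly (hall i)
  have hs0 : am G0 = s := funext hG0
  have hT0 : Tg I F G0 := by
    refine Tg.of_map (φ := amH k Λ) free_amH_inj ?_
    rw [amH_comp, amH_comp, hs0]
    exact hs
  refine ⟨G0 + G, fun i => ?_, hT0.add hG, fun i => ?_⟩
  · exact (natDegree_add_le _ _).trans (max_le (hd0 i) (hdeg i))
  · obtain ⟨o2, h1, h2⟩ := exists_loc (hd0 i) p
    have h3 : o2 = o i - o' i := by
      apply io_inj p
      apply mul_right_cancel₀ (om_ne e p)
      rw [h1, hG0 i, hsp i]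
    rw [Pi.add_apply, free_val_add, ← h2, h3, map_sub, hov i, hres i]
    ring

theorem free_clear (c : V (RatFunc Λ) N) : ∃ (b : Λ[X]) (l : V Λ[X] N), b ≠ 0 ∧
    am l = algebraMap Λ[X] (RatFunc Λ) b • c := by
  obtain ⟨b, hb⟩ := IsLocalization.exist_integer_multiples_of_finite (nonZeroDivisors Λ[X]) c
  choose l hl using hb
  refine ⟨b, l, nonZeroDivisors.coe_ne_zero b, funext fun i => ?_⟩
  have := hl i
  rw [Algebra.smul_def] at this
  exact this

theorem Free.gs [IsAlgClosed Λ] (h : Free I e F) : GS I e F := by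
  intro v hv
  by_contra hn
  obtain ⟨f, hf, hbot⟩ := Submodule.exists_dual_map_eq_bot_of_notMem hn inferInstance
  obtain ⟨b, l, hb, hl⟩ := free_clear fun i => f (Pi.single i 1)
  obtain ⟨b', u, hb', hu⟩ := free_clear v
  have key : ∀ G : V Λ[X] N, algebraMap Λ[X] (RatFunc Λ) (∑ i, l i * G i) =
      algebraMap Λ[X] (RatFunc Λ) b * f (am G) := fun G => by
    rw [LinearMap.pi_apply_eq_sum_univ f (am G), map_sum, Finset.mul_sum]
    refine Finset.sum_congr rfl fun i _ => ?_
    have h1 : algebraMap Λ[X] (RatFunc Λ) (l i) =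
        algebraMap Λ[X] (RatFunc Λ) b * f (Pi.single i 1) := congrFun hl i
    have h2 : (fun j => if i = j then (1 : RatFunc Λ) else 0) = Pi.single i 1 := by
      funext j
      rw [Pi.single_apply]
      by_cases hij : i = j
      · rw [if_pos hij, if_pos hij.symm]
      · rw [if_neg hij, if_neg fun e' => hij e'.symm]
    rw [map_mul, h1, h2, smul_eq_mul]
    change _ * am G i = _
    ring
  have hinj := IsFractionRing.injective Λ[X] (RatFunc Λ)
  have hd : ∑ i, l i * u i ≠ 0 := fun h0 => by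
    have h1 := key u
    rw [h0, map_zero, hu, map_smul, smul_eq_mul] at h1
    exact mul_ne_zero ((map_ne_zero_iff _ hinj).2 hb)
      (mul_ne_zero ((map_ne_zero_iff _ hinj).2 hb') hf) h1.symm
  have hTu : Tg I F u := by
    refine Tg.of_map (φ := amH k Λ) free_amH_inj ?_
    rw [amH_comp, amH_comp, hu]
    exact hv.smul _
  obtain ⟨a, ha⟩ : ∃ a, (∑ i, l i * u i).eval a ≠ 0 := by
    by_contra hne
    exact hd (Polynomial.funext fun a => by
      rw [eval_zero]
      exact not_not.1 fun h1 => hne ⟨a, h1⟩)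
  have hTa : Tg I (fun i => val e (some a) (F i)) fun i => (u i).eval a := by
    have h1 := hTu.map ((aeval a : Λ[X] →ₐ[Λ] Λ).restrictScalars k)
    have h2 : ∀ G : V Λ[X] N, ((aeval a : Λ[X] →ₐ[Λ] Λ).restrictScalars k) ∘ G =
        fun i => (G i).eval a := fun G => funext fun i => coe_aeval_eq_eval a ▸ rfl
    rw [h2, h2] at h1
    exact h1
  obtain ⟨G, hdeg, hG, hval⟩ := h (some a) _ hTa
  have h0 : f (am G) = 0 := by
    have h1 : f (am G) ∈ Submodule.map f (Submodule.span (RatFunc Λ) (Sec I e F)) :=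
      Submodule.mem_map_of_mem (Submodule.subset_span ⟨G, hdeg, hG, rfl⟩)
    rw [hbot] at h1
    exact (Submodule.mem_bot _).1 h1
  have h1 : ∑ i, l i * G i = 0 := hinj (by rw [key, h0, mul_zero, map_zero])
  apply ha
  have h2 := congrArg (eval a) h1
  rw [eval_zero, eval_finsetSum] at h2
  rw [eval_finsetSum, ← h2]
  refine Finset.sum_congr rfl fun i _ => ?_
  rw [eval_mul, eval_mul, ← hval i]
  rfl

theorem free_patch (h : GS I e F) (w : Option Λ → V (RatFunc Λ) N)
    (hw : ∀ p i, Reg e p (w p i)) (T : Finset (Option Λ)) :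
    ∀ u : V (RatFunc Λ) N, (∀ p, Tg I (am F) (u - w p)) → (∀ p ∉ T, ∀ i, Reg e p (u i)) →
      ∃ u' : V (RatFunc Λ) N, (∀ p, Tg I (am F) (u' - w p)) ∧ ∀ i p, Reg e p (u' i) := by
  classical
  induction T using Finset.induction_on with
  | empty => exact fun u h1 h2 => ⟨u, h1, fun i p => h2 p (Finset.notMem_empty p) i⟩
  | insert p T hp ih =>
    intro u h1 h2
    obtain ⟨s, hs, hreg, o, -, ho, -⟩ := exists_cut (h _ (h1 p)) p
    refine ih (u - s) (fun q => ?_) fun q hq i => ?_
    · rw [sub_right_comm]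
      exact (h1 q).sub hs
    · by_cases hqp : q = p
      · subst hqp
        have h3 : (u - s) i = w q i + io q (o i) * om e q := by
          rw [ho i, Pi.sub_apply, Pi.sub_apply]
          ring
        rw [h3]
        exact free_reg_add (hw q i) ⟨_, rfl⟩
      · refine free_reg_sub (h2 q (fun hm => ?_) i) (hreg q hqp i)
        rcases Finset.mem_insert.1 hm with h4 | h4
        · exact hqp h4
        · exact hq h4

/-- Local solutions that differ by tangent vectors patch to a global one. -/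
theorem GS.patch [IsAlgClosed Λ] (h : GS I e F) (w : Option Λ → V (RatFunc Λ) N)
    (hw : ∀ p i, Reg e p (w p i)) (hd : ∀ p p', Tg I (am F) (w p - w p')) :
    ∃ G : V Λ[X] N, (∀ i, (G i).natDegree ≤ e) ∧ ∀ p, Tg I (am F) (am G - w p) := by
  have hfin : (⋃ i, {p | ¬ Reg e p (w none i)}).Finite :=
    Set.finite_iUnion fun i => finite_poles e (w none i)
  obtain ⟨u, h1, h2⟩ := free_patch h w hw hfin.toFinset (w none) (hd none) fun p hp i => by
    by_contra hn
    exact hp (hfin.mem_toFinset.2 (Set.mem_iUnion.2 ⟨i, hn⟩))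
  choose G hdeg hG using fun i => exists_poly (h2 i)
  have h3 : am G = u := funext hG
  exact ⟨G, hdeg, fun p => h3 ▸ h1 p⟩

end

end Pool.Agent.Lib.MP_41050a_ag
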