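import Pool.Agent.Lib.MP_41050a_ag.Span
import Pool.Agent.Lib.MP_41050a_ag.Free
import Pool.Agent.Lib.MP_41050a_ag.Coef

/-! The data attached to a good curve. -/

namespace Pool.Agent.Lib.MP_41050a_ag

open Polynomial

set_option linter.unusedSectionVars false

noncomputable section

variable {k : Type} [Field k] [IsAlgClosed k] [CharZero k] {N : ℕ} {I : Ideal (Pk k N)}
  {x' : V k N} {j₀ : Fin (N + 1)}

/-- The function `t - a` as a unit. -/
def lin (a : k) : (RatFunc k)ˣ := Units.mk0 (RatFunc.X - RatFunc.C a) (by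
  simpa [lp] using aeval_lp_ne (some a) (h := X) X_ne_zero)

/-- Rational functions with poles only at the given points. -/
def GK {σ : Type} (pt : σ → k) : Subalgebra k (RatFunc k) :=
  Algebra.adjoin k (Set.range fun p => (((lin (pt p))⁻¹ : (RatFunc k)ˣ) : RatFunc k))

/-- A constant as a unit. -/
def cu {E : Type} [CommRing E] [Algebra k E] (a : kˣ) : Eˣ :=
  Units.map (algebraMap k E : k →* E) a

/-- A curve written as a unipotent matrix times a point of the torus orbit. -/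
structure Dat (I : Ideal (Pk k N)) (x' : V k N) (j₀ : Fin (N + 1)) (F : V k[X] N) (σ : Type)
    [Fintype σ] where
  pt : σ → k
  inj : Function.Injective pt
  ee : σ → ℕ
  d : σ → Fin (N + 1) → ℤ
  c : kˣ
  κ : Fin (N + 1) → kˣ
  n : Mt (GK pt) N
  F0 : F j₀ = C (c : k) * ∏ p, (X - C (pt p)) ^ ee p
  sum_d : ∀ i, ∑ p, d p i = 0
  rel_d : ∀ p a, Rel I a → (∀ i, x' i = 0 → a i = 0) → ∑ i, a i * d p i = 0
  rel_κ : RelS I x' κ
  nn : NN I n
  eq : am F = am F j₀ • (n.map (GK pt).val).mulVec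
    (tw x' fun i => cu (κ i) * ∏ p, lin (pt p) ^ d p i)

theorem dat0_lin (a : k) : ((lin a : (RatFunc k)ˣ) : RatFunc k) =
    algebraMap k[X] (RatFunc k) (X - C a) := by
  simp [lin]

theorem dat0_step {σ : Type} (pt : σ → k) (p : σ) {n : ℕ} {u : (RatFunc k)ˣ}
    (h : ∀ g : k[X], g.natDegree ≤ n → algebraMap k[X] (RatFunc k) g * u ∈ GK pt) (g : k[X])
    (hg : g.natDegree ≤ n + 1) :
    algebraMap k[X] (RatFunc k) g * ((lin (pt p))⁻¹ * u : (RatFunc k)ˣ) ∈ GK pt := by
  have h1 := h (g /ₘ (X - C (pt p))) (by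
    rw [natDegree_divByMonic _ (monic_X_sub_C _), natDegree_X_sub_C]
    omega)
  have h2 := h (C (g.eval (pt p))) (by simp)
  have h3 : (((lin (pt p))⁻¹ : (RatFunc k)ˣ) : RatFunc k) ∈ GK pt := Algebra.subset_adjoin ⟨p, rfl⟩
  have e := congrArg (algebraMap k[X] (RatFunc k)) (modByMonic_add_div g (X - C (pt p)))
  rw [modByMonic_X_sub_C_eq_C_eval, map_add, map_mul, ← dat0_lin] at e
  have e2 : algebraMap k[X] (RatFunc k) g * ((lin (pt p))⁻¹ * u : (RatFunc k)ˣ) =
      algebraMap k[X] (RatFunc k) (g /ₘ (X - C (pt p))) * u +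
        ((lin (pt p))⁻¹ : (RatFunc k)ˣ) * (algebraMap k[X] (RatFunc k) (C (g.eval (pt p))) * u) := by
    rw [Units.val_mul]
    linear_combination (-((lin (pt p))⁻¹ : (RatFunc k)ˣ) * u : RatFunc k) * e +
      algebraMap k[X] (RatFunc k) (g /ₘ (X - C (pt p))) * u * (lin (pt p)).inv_mul
  rw [e2]
  exact add_mem h1 (mul_mem h3 h2)

theorem dat0_pow {σ : Type} (pt : σ → k) (p : σ) {n : ℕ} {u : (RatFunc k)ˣ}
    (h : ∀ g : k[X], g.natDegree ≤ n → algebraMap k[X] (RatFunc k) g * u ∈ GK pt) (m : ℕ) :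
    ∀ g : k[X], g.natDegree ≤ m + n →
      algebraMap k[X] (RatFunc k) g * ((lin (pt p))⁻¹ ^ m * u : (RatFunc k)ˣ) ∈ GK pt := by
  induction m with
  | zero => simpa using h
  | succ m ih =>
    intro g hg
    rw [pow_succ', mul_assoc]
    exact dat0_step pt p ih g (by omega)

theorem dat0_sum {σ G : Type} [CommGroup G] (w : G) (d : σ → ℤ) (s : Finset σ) :
    w ^ ∑ p ∈ s, d p = ∏ p ∈ s, w ^ d p := by
  induction s using Finset.cons_induction with
  | empty => simp
  | cons a s ha ih => rw [Finset.sum_cons, Finset.prod_cons, zpow_add, ih]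

/-- The units of the local ring at a place. -/
def dat0_H (P : Option k) : Subgroup (RatFunc k)ˣ :=
  (Units.map (io P : LO k →* RatFunc k)).range

theorem dat0_cu (P : Option k) (a : kˣ) : cu a ∈ dat0_H P :=
  ⟨cu a, Units.ext ((io P).commutes (a : k))⟩

theorem dat0_poly (P : Option k) {h : k[X]} (h0 : h.eval 0 ≠ 0) {u : (RatFunc k)ˣ}
    (e : (u : RatFunc k) = aeval (lp P) h) : u ∈ dat0_H P :=
  ⟨(isUnit_of_res (o := algebraMap k[X] (LO k) h) (by rwa [res_am])).unit,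
    Units.ext ((io_am P h).trans e.symm)⟩

theorem dat0_zpow (P : Option k) {w : (RatFunc k)ˣ} (e : (w : RatFunc k) = lp P) {n : ℤ}
    (h : w ^ n ∈ dat0_H P) : n = 0 := by
  obtain ⟨o, ho⟩ := h
  refine zpow_lp_unit P o.mul_inv ?_
  rw [← e, ← Units.val_zpow_eq_zpow_val, ← ho]
  rfl

theorem div_mem_GK {σ : Type} [Fintype σ] (pt : σ → k) (m : σ → ℕ) {g : k[X]}
    (hg : g.natDegree ≤ ∑ p, m p) : algebraMap k[X] (RatFunc k) g *
      ((∏ p, lin (pt p) ^ m p)⁻¹ : (RatFunc k)ˣ) ∈ GK pt := by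
  classical
  have key : ∀ s : Finset σ, ∀ g : k[X], g.natDegree ≤ ∑ p ∈ s, m p →
      algebraMap k[X] (RatFunc k) g * (∏ p ∈ s, (lin (pt p))⁻¹ ^ m p : (RatFunc k)ˣ) ∈ GK pt := by
    intro s
    induction s using Finset.induction_on with
    | empty =>
      intro g hg
      rw [Finset.sum_empty, Nat.le_zero] at hg
      rw [Finset.prod_empty, Units.val_one, mul_one, eq_C_of_natDegree_eq_zero hg]
      exact (GK pt).algebraMap_mem _
    | insert p s hp ih =>
      rw [Finset.sum_insert hp, Finset.prod_insert hp]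
      exact dat0_pow pt p ih _
  simpa only [inv_pow, Finset.prod_inv_distrib] using key Finset.univ g hg

theorem GK_le {σ : Type} (pt : σ → k) : GK pt ≤ (io (none : Option k)).range := by
  refine Algebra.adjoin_le ?_
  rintro _ ⟨p, rfl⟩
  have := inv_lp_mem (p := some (pt p)) (p' := none) (by simp)
  simpa [lin, lp] using this

theorem lin_zpow_inj {σ : Type} [Fintype σ] {pt : σ → k} (h : Function.Injective pt) {a : kˣ}
    {d : σ → ℤ} (e : cu a * ∏ p, lin (pt p) ^ d p = 1) : (∀ p, d p = 0) ∧ a = 1 := by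
  classical
  have h0 : ∀ p, d p = 0 := fun p => by
    refine dat0_zpow (some (pt p)) (w := lin (pt p)) rfl ?_
    rw [← Finset.mul_prod_erase _ _ (Finset.mem_univ p), mul_left_comm,
      mul_eq_one_iff_eq_inv] at e
    rw [e]
    refine inv_mem (mul_mem (dat0_cu _ _) (prod_mem fun q hq => zpow_mem ?_ _))
    refine dat0_poly _ (h := X + C (pt p - pt q)) ?_ ?_
    · simpa [sub_eq_zero] using fun e => Finset.ne_of_mem_erase hq (h e).symm
    · simp [lin, lp]
  refine ⟨h0, ?_⟩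
  simp only [h0, zpow_zero, Finset.prod_const_one, mul_one] at e
  exact Units.ext ((algebraMap k (RatFunc k)).injective
    ((congrArg Units.val e).trans (map_one _).symm))

theorem sum_eq_zero_of_unit {σ : Type} [Fintype σ] {pt : σ → k} {a : kˣ} {d : σ → ℤ}
    {η : (GK pt)ˣ} (e : Units.map ((GK pt).val : GK pt →* RatFunc k) η =
      cu a * ∏ p, lin (pt p) ^ d p) : ∑ p, d p = 0 := by
  have hX : (RatFunc.X : RatFunc k) ≠ 0 := RatFunc.X_ne_zero
  let w : (RatFunc k)ˣ := Units.mk0 RatFunc.X⁻¹ (inv_ne_zero hX)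
  refine dat0_zpow none (w := w) rfl ?_
  obtain ⟨o, ho⟩ := GK_le pt (η : GK pt).2
  obtain ⟨o', ho'⟩ := GK_le pt ((η⁻¹ : (GK pt)ˣ) : GK pt).2
  have h1 : o * o' = 1 := io_inj none (by
    rw [map_mul, map_one]
    exact (congrArg₂ (· * ·) ho ho').trans (congrArg Subtype.val η.mul_inv))
  have h2 : cu a * ∏ p, lin (pt p) ^ d p ∈ dat0_H none :=
    ⟨Units.mkOfMulEqOne o o' h1, e ▸ Units.ext ho⟩
  have h3 : ∏ p, (lin (pt p) * w) ^ d p ∈ dat0_H none := by
    refine prod_mem fun q _ => zpow_mem (dat0_poly _ (h := 1 - C (pt q) * X) (by simp) ?_) _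
    simp [lin, lp, w, sub_mul, hX]
  have h4 : w ^ ∑ p, d p = cu a * (∏ p, (lin (pt p) * w) ^ d p) *
      (cu a * ∏ p, lin (pt p) ^ d p)⁻¹ := by
    simp only [mul_zpow, Finset.prod_mul_distrib]
    rw [eq_mul_inv_iff_mul_eq, mul_comm, mul_assoc, dat0_sum]
  rw [h4]
  exact mul_mem (mul_mem (dat0_cu _ _) h3) (inv_mem h2)

/-- Divisors of a power of `Q`. -/
theorem exists_factor {Q g : k[X]} {μ n : ℕ} (hQ : ∀ t : k, ¬ (X - C t) ^ (μ + 1) ∣ Q)
    (hg : g ∣ Q ^ n) {S : Finset k} (hS : ∀ t, Q.eval t = 0 → t ∈ S) :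
    ∃ (a : kˣ) (m : S → ℕ), (∀ p, m p ≤ n * μ) ∧
      g = C (a : k) * ∏ p : S, (X - C (p : k)) ^ m p := by
  classical
  have Q0 : Q ≠ 0 := fun e => hQ 0 (e ▸ dvd_zero _)
  have Qn := pow_ne_zero n Q0
  have g0 : g ≠ 0 := ne_zero_of_dvd_ne_zero Qn hg
  have hr := roots.le_of_dvd Qn hg
  rw [roots_pow] at hr
  refine ⟨Units.mk0 _ (leadingCoeff_ne_zero.2 g0), fun p => g.roots.count (p : k), fun p => ?_, ?_⟩
  · refine (Multiset.count_le_of_le _ hr).trans ?_
    rw [Multiset.count_nsmul, count_roots]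
    exact Nat.mul_le_mul_left _ ((rootMultiplicity_le_iff Q0 _ _).2 (hQ _))
  · rw [Finset.prod_coe_sort S fun p => (X - C p) ^ g.roots.count p,
      ← Finset.prod_subset (s₁ := g.roots.toFinset), ← Finset.prod_multiset_map_count]
    · exact (C_leadingCoeff_mul_prod_multiset_X_sub_C IsAlgClosed.card_roots_eq_natDegree).symm
    · intro t ht
      exact hS t (isRoot_of_mem_roots (Multiset.mem_of_mem_nsmul
        (Multiset.mem_of_le hr (Multiset.mem_toFinset.1 ht))))
    · intro t _ ht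
      rw [Multiset.count_eq_zero_of_notMem fun k => ht (Multiset.mem_toFinset.2 k), pow_zero]

end

end Pool.Agent.Lib.MP_41050a_ag
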