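import Pool.Agent.Lib.MP_41050a_ag.Free
import Pool.Agent.Lib.MP_41050a_ag.Coef

/-! Formal deformations of free curves. -/

namespace Pool.Agent.Lib.MP_41050a_ag

open Polynomial

set_option linter.unusedSectionVars false

noncomputable section

variable {k : Type} [Field k] [IsAlgClosed k] [CharZero k] {N : ℕ} {I : Ideal (Pk k N)}
  {Λ : Type} [Field Λ] [Algebra k Λ] [IsAlgClosed Λ] {e : ℕ} {F : V Λ[X] N}

/-- A deformation up to order `n`. -/
structure Df (I : Ideal (Pk k N)) (e : ℕ) (F : V Λ[X] N) (n : ℕ) (G : ℕ → V Λ[X] N) : Prop where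
  zero : G 0 = F
  deg : ∀ j i, (G j i).natDegree ≤ e
  on : ∀ Φ ∈ I, PowerSeries.X ^ n ∣
    MvPolynomial.aeval (fun i => PowerSeries.mk fun j => G j i) Φ

section

variable {R S : Type} [CommRing R] [Algebra k R] [CommRing S] [Algebra k S] {n : ℕ}

/-- The series lie on the cone up to order `n`. -/
def deform_Dv (I : Ideal (Pk k N)) (n : ℕ) (y : V (PowerSeries R) N) : Prop :=
  ∀ Φ ∈ I, PowerSeries.X ^ n ∣ MvPolynomial.aeval y Φ

theorem deform_coeff (φ : R →ₐ[k] S) (y : V (PowerSeries R) N) {y' : V (PowerSeries S) N}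
    (h : ∀ i j, PowerSeries.coeff j (y' i) = φ (PowerSeries.coeff j (y i))) (Φ : Pk k N) (j : ℕ) :
    PowerSeries.coeff j (MvPolynomial.aeval y' Φ) =
      φ (PowerSeries.coeff j (MvPolynomial.aeval y Φ)) := by
  have e1 : y' = PowerSeries.mapAlgHom φ ∘ y := by
    funext i
    ext j
    rw [h, Function.comp_apply, PowerSeries.mapAlgHom_apply, PowerSeries.coeff_map]
    rfl
  rw [e1, ← map_aev, PowerSeries.mapAlgHom_apply, PowerSeries.coeff_map]
  rfl

theorem deform_map (φ : R →ₐ[k] S) {y : V (PowerSeries R) N} {y' : V (PowerSeries S) N}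
    (h : ∀ i j, PowerSeries.coeff j (y' i) = φ (PowerSeries.coeff j (y i)))
    (hy : deform_Dv I n y) : deform_Dv I n y' := fun Φ hΦ =>
  PowerSeries.X_pow_dvd_iff.2 fun j hj => by
    rw [deform_coeff φ y h, PowerSeries.X_pow_dvd_iff.1 (hy Φ hΦ) j hj, map_zero]

theorem deform_of_map (φ : R →ₐ[k] S) (hφ : Function.Injective φ) {y : V (PowerSeries R) N}
    {y' : V (PowerSeries S) N}
    (h : ∀ i j, PowerSeries.coeff j (y' i) = φ (PowerSeries.coeff j (y i)))
    (hy : deform_Dv I n y') : deform_Dv I n y := fun Φ hΦ =>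
  PowerSeries.X_pow_dvd_iff.2 fun j hj => hφ (by
    rw [← deform_coeff φ y h, PowerSeries.X_pow_dvd_iff.1 (hy Φ hΦ) j hj, map_zero])

theorem deform_smul (hV : SmoothVar I) {y : V (PowerSeries R) N} (hy : deform_Dv I n y)
    (c : PowerSeries R) : deform_Dv I n (c • y) := fun Φ hΦ =>
  Ideal.mem_span_singleton.1 (hV.smul_mem (J := Ideal.span {PowerSeries.X ^ n})
    (fun Ψ hΨ => Ideal.mem_span_singleton.2 (hy Ψ hΨ)) c Φ hΦ)

theorem deform_congr {y y' : V (PowerSeries R) N}
    (h : ∀ i, ∀ j < n, PowerSeries.coeff j (y' i) = PowerSeries.coeff j (y i))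
    (hy : deform_Dv I n y) : deform_Dv I n y' := fun Φ hΦ => by
  have h1 := Ideal.mem_span_singleton.1 (aev_congr (J := Ideal.span {PowerSeries.X ^ n})
    (z := y') (w := y) (fun i => Ideal.mem_span_singleton.2 (PowerSeries.X_pow_dvd_iff.2
      fun j hj => by rw [map_sub, h i j hj, sub_self])) Φ)
  simpa only [sub_add_cancel] using dvd_add h1 (hy Φ hΦ)

/-- The constant coefficient as a map of algebras. -/
def deform_cc (k R : Type) [Field k] [CommRing R] [Algebra k R] : PowerSeries R →ₐ[k] R where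
  toRingHom := PowerSeries.constantCoeff
  commutes' a := by
    change PowerSeries.constantCoeff (algebraMap k (PowerSeries R) a) = _
    rw [PowerSeries.algebraMap_apply, PowerSeries.constantCoeff_C]

theorem deform_key (hn : 0 < n) {y y' : V (PowerSeries R) N} {z v : V R N}
    (h : ∀ i, ∀ j < n, PowerSeries.coeff j (y' i) = PowerSeries.coeff j (y i))
    (hz : ∀ i, PowerSeries.coeff 0 (y i) = z i)
    (hv : ∀ i, PowerSeries.coeff n (y' i) - PowerSeries.coeff n (y i) = v i)
    (hy : deform_Dv I (n + 1) y) : deform_Dv I (n + 1) y' ↔ Tg I z v := by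
  have h1 : ∀ i, PowerSeries.X ^ n ∣ y' i - y i := fun i =>
    PowerSeries.X_pow_dvd_iff.2 fun j hj => by rw [map_sub, h i j hj, sub_self]
  choose w hw using h1
  have e1 : y' = y + (PowerSeries.X ^ n : PowerSeries R) • w := by
    funext i
    rw [Pi.add_apply, Pi.smul_apply, smul_eq_mul, ← hw, add_sub_cancel]
  have e2 : ∀ i, PowerSeries.constantCoeff (w i) = v i := fun i => by
    have h2 := PowerSeries.coeff_X_pow_mul (w i) n 0
    rw [← hw, zero_add, map_sub, hv, PowerSeries.coeff_zero_eq_constantCoeff_apply] at h2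
    exact h2.symm
  have e3 : deform_cc k R ∘ y = z := funext fun i =>
    (PowerSeries.coeff_zero_eq_constantCoeff_apply _).symm.trans (hz i)
  refine forall₂_congr fun Φ hΦ => ?_
  have h3 : (PowerSeries.X : PowerSeries R) ^ (n + 1) ∣ (PowerSeries.X ^ n) ^ 2 := by
    rw [← pow_mul]
    exact pow_dvd_pow _ (by omega)
  have h4 := dvd_add (h3.trans (taylor_dvd y w (PowerSeries.X ^ n) Φ)) (hy Φ hΦ)
  rw [← e1, sub_right_comm, sub_add_cancel] at h4
  have h5 : ∀ T : PowerSeries R,
      PowerSeries.X ^ (n + 1) ∣ PowerSeries.X ^ n * T ↔ PowerSeries.X ∣ T := fun T =>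
    ⟨fun ⟨b, hb⟩ => ⟨b, PowerSeries.X_pow_mul_cancel (k := n) (by rw [hb, pow_succ, mul_assoc])⟩,
      fun hT => pow_succ (PowerSeries.X : PowerSeries R) n ▸ mul_dvd_mul_left _ hT⟩
  rw [dvd_iff_dvd_of_dvd_sub h4, h5, PowerSeries.X_dvd_iff, map_sum]
  refine Eq.congr_left (Finset.sum_congr rfl fun i _ => ?_)
  rw [map_mul, e2, ← e3, ← map_aev]
  rfl

end

theorem deform_loc (hV : SmoothVar I) {n : ℕ} {G : ℕ → V Λ[X] N} (h : Df I e F n G)
    (p : Option Λ) : ∃ o : ℕ → V (LO Λ) N, (∀ j i, io p (o j i) * om e p = am (G j) i) ∧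
      (∀ j i, res (o j i) = val e p (G j i)) ∧
      deform_Dv I n fun i => PowerSeries.mk fun j => o j i := by
  choose o h1 h2 using fun j i => exists_loc (h.deg j i) p
  refine ⟨o, h1, h2, ?_⟩
  have h3 : deform_Dv I n fun i => PowerSeries.mk fun j => am (G j) i :=
    deform_map (amH k Λ) (fun i j => by simp only [PowerSeries.coeff_mk]; rfl) h.on
  refine deform_of_map ((io p).restrictScalars k) (io_inj p) (fun i j => ?_)
    (deform_smul hV h3 (PowerSeries.C (om e p)⁻¹))
  rw [Pi.smul_apply, smul_eq_mul, PowerSeries.coeff_C_mul, PowerSeries.coeff_mk,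
    PowerSeries.coeff_mk, AlgHom.restrictScalars_apply, inv_mul_eq_iff_eq_mul₀ (om_ne e p),
    mul_comm, h1]
  rfl

theorem deform_local (hV : SmoothVar I) (hF : IsMap I e F) {n : ℕ} {G : ℕ → V Λ[X] N}
    (h : Df I e F n G) (hn : 0 < n) (p : Option Λ) : ∃ y : V (PowerSeries (RatFunc Λ)) N,
      deform_Dv I (n + 1) y ∧ (∀ i, ∀ j < n, PowerSeries.coeff j (y i) = am (G j) i) ∧
        ∀ i, Reg e p (PowerSeries.coeff n (y i)) := by
  obtain ⟨o, h1, h2, h3⟩ := deform_loc hV h p
  obtain ⟨i0, hi0⟩ := hF.bpf p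
  have hu : IsUnit (PowerSeries.mk fun j => o j i0) := by
    rw [PowerSeries.isUnit_iff_constantCoeff, PowerSeries.constantCoeff_mk]
    exact isUnit_of_res (by rwa [h2, h.zero])
  obtain ⟨z, hz1, hz2⟩ := hV.lift (𝔞 := Ideal.span {PowerSeries.X ^ n})
    (𝔟 := Ideal.span {PowerSeries.X ^ (n + 1)}) (n := 2)
    (z := fun i => PowerSeries.mk fun j => o j i)
    (by
      rw [Ideal.span_singleton_pow, Ideal.span_singleton_le_span_singleton, ← pow_mul]
      exact pow_dvd_pow _ (by omega))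
    (fun Φ hΦ => Ideal.mem_span_singleton.2 (h3 Φ hΦ)) (i := i0) hu
  have h4 : deform_Dv I (n + 1) fun i => PowerSeries.mk fun j => io p (PowerSeries.coeff j (z i)) :=
    deform_map ((io p).restrictScalars k) (fun i j => by rw [PowerSeries.coeff_mk]; rfl)
      fun Φ hΦ => Ideal.mem_span_singleton.1 (hz2 Φ hΦ)
  refine ⟨_, deform_smul hV h4 (PowerSeries.C (om e p)), fun i j hj => ?_, fun i => ?_⟩
  · have h5 := PowerSeries.X_pow_dvd_iff.1 (Ideal.mem_span_singleton.1 (hz1 i)) j hj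
    rw [map_sub, PowerSeries.coeff_mk, sub_eq_zero] at h5
    rw [Pi.smul_apply, smul_eq_mul, PowerSeries.coeff_C_mul, PowerSeries.coeff_mk, h5, mul_comm, h1]
  · refine ⟨PowerSeries.coeff n (z i), ?_⟩
    rw [Pi.smul_apply, smul_eq_mul, PowerSeries.coeff_C_mul, PowerSeries.coeff_mk, mul_comm]

theorem deform_update {n : ℕ} {G : ℕ → V Λ[X] N} (hn : 0 < n) (h : Df I e F n G) {W : V Λ[X] N}
    (hW : ∀ i, (W i).natDegree ≤ e)
    (ho : deform_Dv I (n + 1) fun i => PowerSeries.mk fun j => Function.update G n W j i) :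
    Df I e F (n + 1) (Function.update G n W) := by
  refine ⟨by rw [Function.update_of_ne hn.ne, h.zero], fun j i => ?_, ho⟩
  rcases eq_or_ne j n with rfl | hj
  · rw [Function.update_self]; exact hW i
  · rw [Function.update_of_ne hj]; exact h.deg j i

theorem Df.step (hV : SmoothVar I) (hF : IsMap I e F) (hf : Free I e F) {n : ℕ}
    {G : ℕ → V Λ[X] N} (hn : 0 < n) (h : Df I e F n G) :
    ∃ W, Df I e F (n + 1) (Function.update G n W) := by
  choose y h1 h2 h3 using deform_local hV hF h hn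
  have h0 : ∀ p i, PowerSeries.coeff 0 (y p i) = am F i := fun p i => by
    rw [h2 p i 0 hn, h.zero]
  obtain ⟨W, hW, hT⟩ := hf.gs.patch (fun p i => PowerSeries.coeff n (y p i)) h3 fun p p' =>
    (deform_key hn (fun i j hj => by rw [h2 p i j hj, h2 p' i j hj]) (h0 p') (fun _ => rfl)
      (h1 p')).1 (h1 p)
  refine ⟨W, deform_update hn h hW (deform_of_map (amH k Λ) (RatFunc.algebraMap_injective Λ)
    (y' := fun i => PowerSeries.mk fun j => am (Function.update G n W j) i)
    (fun i j => by simp only [PowerSeries.coeff_mk]; rfl) ?_)⟩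
  refine (deform_key hn (fun i j hj => ?_) (h0 none) (fun i => ?_) (h1 none)).2 (hT none)
  · rw [PowerSeries.coeff_mk, Function.update_of_ne hj.ne, h2 none i j hj]
  · rw [PowerSeries.coeff_mk, Function.update_self]
    rfl

theorem Df.val (hV : SmoothVar I) {n : ℕ} {G : ℕ → V Λ[X] N} (h : Df I e F n G) (p : Option Λ) :
    ∀ Φ ∈ I, PowerSeries.X ^ n ∣
      MvPolynomial.aeval (fun i => PowerSeries.mk fun j => val e p (G j i)) Φ := by
  obtain ⟨o, -, h2, h3⟩ := deform_loc hV h p
  exact deform_map (res.restrictScalars k)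
    (fun i j => by rw [PowerSeries.coeff_mk, PowerSeries.coeff_mk, ← h2]; rfl) h3

theorem Df.step_val (hV : SmoothVar I) (hF : IsMap I e F) (hf : Free I e F) {n : ℕ}
    {G : ℕ → V Λ[X] N} (hn : 0 < n) (h : Df I e F n G) (p : Option Λ) {γ : V (PowerSeries Λ) N}
    (h0 : ∀ j < n, ∀ i, PowerSeries.coeff j (γ i) = MP_41050a_ag.val e p (G j i))
    (hγ : ∀ Φ ∈ I, PowerSeries.X ^ (n + 1) ∣ MvPolynomial.aeval γ Φ) :
    ∃ W, Df I e F (n + 1) (Function.update G n W) ∧
      ∀ i, PowerSeries.coeff n (γ i) = MP_41050a_ag.val e p (W i) := by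
  obtain ⟨W, hW⟩ := h.step hV hF hf hn
  have h1 : Tg I (fun i => MP_41050a_ag.val e p (F i))
      fun i => PowerSeries.coeff n (γ i) - MP_41050a_ag.val e p (W i) := by
    refine (deform_key hn (fun i j hj => ?_) (fun i => ?_) (fun i => ?_) (hW.val hV p)).1 hγ
    · rw [PowerSeries.coeff_mk, Function.update_of_ne hj.ne, h0 j hj]
    · rw [PowerSeries.coeff_mk, hW.zero]
    · rw [PowerSeries.coeff_mk, Function.update_self]
  obtain ⟨H, hH1, hH2, hH3⟩ := hf p _ h1
  have hd : ∀ i, (W i).natDegree ≤ e := fun i => by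
    simpa only [Function.update_self] using hW.deg n i
  refine ⟨W + H, deform_update hn h
    (fun i => (natDegree_add_le _ _).trans (max_le (hd i) (hH1 i))) ?_, fun i => ?_⟩
  · refine (deform_key hn (fun i j hj => ?_) (fun i => ?_) (fun i => ?_) hW.on).2 hH2
    · rw [PowerSeries.coeff_mk, PowerSeries.coeff_mk, Function.update_of_ne hj.ne,
        Function.update_of_ne hj.ne]
    · rw [PowerSeries.coeff_mk, hW.zero]
    · rw [PowerSeries.coeff_mk, PowerSeries.coeff_mk, Function.update_self, Function.update_self,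
        Pi.add_apply, add_sub_cancel_left]
  · rw [Pi.add_apply, val_add, hH3, add_sub_cancel]

theorem deform_lim (hV : SmoothVar I) (hF : IsMap I e F) (hf : Free I e F) (p : Option Λ) {m : ℕ}
    {γ : V (PowerSeries Λ) N} (h0 : ∀ i, PowerSeries.constantCoeff (γ i) = val e p (F i))
    (hγ : ∀ Φ ∈ I, PowerSeries.X ^ (m + 1) ∣ MvPolynomial.aeval γ Φ) :
    ∃ L : ℕ → V Λ[X] N, L 0 = F ∧ (∀ j i, (L j i).natDegree ≤ e) ∧
      On I (fun i => PowerSeries.mk fun j => L j i) ∧
      ∀ j ≤ m, ∀ i, PowerSeries.coeff j (γ i) = val e p (L j i) := by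
  let P : ℕ → (ℕ → V Λ[X] N) → Prop := fun n G => Df I e F (n + 1) G ∧
    ∀ j ≤ n, j ≤ m → ∀ i, PowerSeries.coeff j (γ i) = val e p (G j i)
  have base : P 0 fun _ => F := by
    refine ⟨⟨rfl, fun _ => hF.deg, fun Φ hΦ => ?_⟩, fun j hj _ i => ?_⟩
    · rw [zero_add, pow_one, PowerSeries.X_dvd_iff]
      refine (map_aev (deform_cc k Λ[X]) _ Φ).trans (Eq.trans ?_ (hF.on Φ hΦ))
      congr 2
    · rw [Nat.le_zero.1 hj, PowerSeries.coeff_zero_eq_constantCoeff_apply, h0]
  have step : ∀ n G, P n G → ∃ G', P (n + 1) G' ∧ ∀ j ≤ n, G' j = G j := by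
    intro n G hG
    have h1 : ∃ W, Df I e F (n + 1 + 1) (Function.update G (n + 1) W) ∧
        (n + 1 ≤ m → ∀ i, PowerSeries.coeff (n + 1) (γ i) = val e p (W i)) := by
      by_cases hm : n + 1 ≤ m
      · obtain ⟨W, h2, h3⟩ := hG.1.step_val hV hF hf n.succ_pos p
          (fun j hj => hG.2 j (by omega) (by omega))
          fun Φ hΦ => (pow_dvd_pow _ (by omega)).trans (hγ Φ hΦ)
        exact ⟨W, h2, fun _ => h3⟩
      · obtain ⟨W, h2⟩ := hG.1.step hV hF hf n.succ_pos
        exact ⟨W, h2, fun h3 => absurd h3 hm⟩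
    obtain ⟨W, h2, h3⟩ := h1
    refine ⟨_, ⟨h2, fun j hj hm i => ?_⟩, fun j hj => Function.update_of_ne (by omega) _ _⟩
    rcases eq_or_ne j (n + 1) with rfl | hj'
    · rw [Function.update_self, h3 hm]
    · rw [Function.update_of_ne hj', hG.2 j (by omega) hm]
  choose f hf1 hf2 using step
  let s : (n : ℕ) → {G // P n G} := fun n =>
    Nat.rec ⟨fun _ => F, base⟩ (fun n x => ⟨f n x.1 x.2, hf1 n x.1 x.2⟩) n
  have stab : ∀ j n, j ≤ n → (s n).1 j = (s j).1 j := by
    intro j n hjn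
    induction n, hjn using Nat.le_induction with
    | base => rfl
    | succ n hn ih => exact (hf2 n (s n).1 (s n).2 j hn).trans ih
  refine ⟨fun j => (s j).1 j, rfl, fun j => (s j).2.1.deg j, fun Φ hΦ => ?_,
    fun j hj => (s j).2.2 j le_rfl hj⟩
  refine PowerSeries.ext fun n => ?_
  refine PowerSeries.X_pow_dvd_iff.1 (deform_congr (fun i j hj => ?_) (s n).2.1.on Φ hΦ) n
    n.lt_succ_self
  rw [PowerSeries.coeff_mk, PowerSeries.coeff_mk, stab j n (by omega)]

/-- Exchange of the two variables. -/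
def deform_sw (k Λ : Type) [Field k] [Field Λ] [Algebra k Λ] :
    (PowerSeries Λ)[X] →ₐ[k] PowerSeries Λ[X] :=
  aevalTower (PowerSeries.mapAlgHom CAlgHom) (PowerSeries.C X)

theorem deform_sw_coeff (q : (PowerSeries Λ)[X]) (n a : ℕ) :
    (PowerSeries.coeff n (deform_sw k Λ q)).coeff a = PowerSeries.coeff n (q.coeff a) := by
  induction q using Polynomial.induction_on' with
  | add q r hq hr => simp only [map_add, coeff_add, hq, hr]
  | monomial b s =>
    rw [← C_mul_X_pow_eq_monomial, map_mul, map_pow, deform_sw, aevalTower_C, aevalTower_X,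
      ← map_pow, PowerSeries.coeff_mul_C, PowerSeries.mapAlgHom_apply, PowerSeries.coeff_map,
      coeff_C_mul_X_pow]
    refine (coeff_C_mul_X_pow (PowerSeries.coeff n s) b a).trans ?_
    split_ifs
    · rfl
    · exact (map_zero _).symm

theorem deform (hV : SmoothVar I) (hF : IsMap I e F) (hf : Free I e F) (p : Option Λ) {m : ℕ}
    {γ : V (PowerSeries Λ) N} (h0 : ∀ i, PowerSeries.constantCoeff (γ i) = val e p (F i))
    (hγ : ∀ Φ ∈ I, PowerSeries.X ^ (m + 1) ∣ MvPolynomial.aeval γ Φ) :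
    ∃ c : Ix N e → PowerSeries Λ, On I (pol c) ∧
      (∀ i, (pol c i).map PowerSeries.constantCoeff = F i) ∧
      ∀ i, PowerSeries.X ^ (m + 1) ∣ val e (p.map PowerSeries.C) (pol c i) - γ i := by
  obtain ⟨L, h1, h2, h3, h4⟩ := deform_lim hV hF hf p h0 hγ
  let c : Ix N e → PowerSeries Λ := fun x => PowerSeries.mk fun n => (L n x.1).coeff x.2
  have hc : ∀ i a n, PowerSeries.coeff n ((pol c i).coeff a) = (L n i).coeff a := by
    intro i a n
    by_cases ha : a < e + 1
    · rw [pol_coeff c i ⟨a, ha⟩, PowerSeries.coeff_mk]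
    · rw [coeff_eq_zero_of_natDegree_lt ((pol_deg c i).trans_lt (by omega)),
        coeff_eq_zero_of_natDegree_lt ((h2 n i).trans_lt (by omega)), map_zero]
  refine ⟨c, On.of_map (φ := deform_sw k Λ) (fun q r hqr => ?_) ?_, fun i => ?_, fun i => ?_⟩
  · ext a n
    rw [← deform_sw_coeff (k := k), hqr, deform_sw_coeff]
  · have e1 : deform_sw k Λ ∘ pol c = fun i => PowerSeries.mk fun j => L j i := by
      funext i
      ext n a
      rw [Function.comp_apply, deform_sw_coeff, hc, PowerSeries.coeff_mk]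
    rwa [e1]
  · ext a
    rw [coeff_map, ← PowerSeries.coeff_zero_eq_constantCoeff_apply, hc, h1]
  · refine PowerSeries.X_pow_dvd_iff.2 fun n hn => ?_
    rw [map_sub, h4 n (by omega), sub_eq_zero]
    cases p with
    | none => exact hc i e n
    | some a =>
      change PowerSeries.coeff n ((pol c i).eval (PowerSeries.C a)) = (L n i).eval a
      rw [eval_eq_sum_range' (Nat.lt_succ_of_le (pol_deg c i)),
        eval_eq_sum_range' (Nat.lt_succ_of_le (h2 n i)), map_sum]
      exact Finset.sum_congr rfl fun b _ => by rw [← map_pow, PowerSeries.coeff_mul_C, hc]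

end

end Pool.Agent.Lib.MP_41050a_ag
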