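import Mathlib

/-! Rational curves on a projective variety, in coordinates. -/

namespace Pool.Agent.Lib.MP_41050a_ag

open Polynomial

noncomputable section

/-- The homogeneous coordinate ring of projective `N`-space. -/
abbrev Pk (k : Type) [Field k] (N : ℕ) : Type := MvPolynomial (Fin (N + 1)) k

variable {k : Type} [Field k] {N : ℕ}

/-- `I` is a homogeneous prime ideal. -/
structure Cone (I : Ideal (Pk k N)) : Prop where
  prime : I.IsPrime
  hom : ∀ Φ ∈ I, ∀ d, MvPolynomial.homogeneousComponent d Φ ∈ I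

/-- `I` is the homogeneous ideal of a smooth irreducible projective variety: the affine cone is
smooth away from the vertex. -/
structure SmoothVar (I : Ideal (Pk k N)) : Prop extends Cone I where
  smooth : ∀ i, Algebra.Smooth k (Localization.Away (Ideal.Quotient.mk I (MvPolynomial.X i)))

/-- `I` is generated by polynomials of degree at most `d`. -/
def GenDeg (I : Ideal (Pk k N)) (d : ℕ) : Prop :=
  I ≤ Ideal.span {Φ | Φ ∈ I ∧ Φ.totalDegree ≤ d}

section

variable (I : Ideal (Pk k N)) {R : Type} [CommRing R] [Algebra k R]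

/-- `x` is a point of the affine cone with coordinates in `R`. -/
def On (x : Fin (N + 1) → R) : Prop := ∀ Φ ∈ I, MvPolynomial.aeval x Φ = 0

/-- `v` is tangent to the affine cone at `x`. -/
def Tg (x v : Fin (N + 1) → R) : Prop :=
  ∀ Φ ∈ I, ∑ i, MvPolynomial.aeval x (MvPolynomial.pderiv i Φ) * v i = 0

/-- The value of a binary form of degree `e`, written as a polynomial, at a point of the
projective line (`none` is the point at infinity). -/
def val {R : Type} [CommRing R] (e : ℕ) : Option R → R[X] → R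
  | some a, f => f.eval a
  | none, f => f.coeff e

/-- `F` is a morphism of degree `e` from the projective line to the variety. -/
structure IsMap (e : ℕ) (F : Fin (N + 1) → R[X]) : Prop where
  deg : ∀ i, (F i).natDegree ≤ e
  on : On I F
  bpf : ∀ p, ∃ i, val e p (F i) ≠ 0

/-- The pull-back of the tangent bundle is generated by global sections. -/
def Free (e : ℕ) (F : Fin (N + 1) → R[X]) : Prop :=
  ∀ p v, Tg I (fun i => val e p (F i)) v → ∃ G : Fin (N + 1) → R[X],
    (∀ i, (G i).natDegree ≤ e) ∧ Tg I F G ∧ ∀ i, val e p (G i) = v i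

end

/-- The tuple of polynomials of degree at most `e` with coefficients `c`. -/
def pol {R : Type} [CommRing R] {e : ℕ} (c : Fin (N + 1) × Fin (e + 1) → R) (i : Fin (N + 1)) :
    R[X] := ∑ j : Fin (e + 1), monomial j (c (i, j))

variable (I : Ideal (Pk k N))

/-- The equations of the space of tuples of degree `e` that lie on the cone. -/
def eqs (e : ℕ) : Ideal (MvPolynomial (Fin (N + 1) × Fin (e + 1)) k) :=
  Ideal.span {a | ∃ Φ ∈ I, ∃ m, a = (MvPolynomial.aeval
    (pol (MvPolynomial.X : _ → MvPolynomial (Fin (N + 1) × Fin (e + 1)) k)) Φ).coeff m}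

/-- The general point of the zero set of `P` is a free rational curve of degree `e`. -/
def GenFree (e : ℕ) (P : Ideal (MvPolynomial (Fin (N + 1) × Fin (e + 1)) k)) : Prop :=
  ∃ h ∉ P, ∀ a : Fin (N + 1) × Fin (e + 1) → k, (∀ g ∈ P, MvPolynomial.aeval a g = 0) →
    MvPolynomial.aeval a h ≠ 0 → IsMap I e (pol a) ∧ Free I e (pol a)

/-- There is a family `F(s, t)` over `k⟦s⟧` in the zero set of `P` whose limit stable map at
`s = 0` consists of two free curves `F₁` (the main component) and `F₂` (a bubble at `t = q`, seen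
in the coordinate `u` with `t = q + s u`). -/
def Breaks (e : ℕ) (P : Ideal (MvPolynomial (Fin (N + 1) × Fin (e + 1)) k)) : Prop :=
  ∃ (e₁ e₂ : ℕ) (q : k) (F₁ F₂ : Fin (N + 1) → k[X])
    (c : Fin (N + 1) × Fin (e + 1) → PowerSeries k) (H : Fin (N + 1) → (PowerSeries k)[X]),
    0 < e₁ ∧ 0 < e₂ ∧ e₁ + e₂ = e ∧ IsMap I e₁ F₁ ∧ Free I e₁ F₁ ∧ IsMap I e₂ F₂ ∧ Free I e₂ F₂ ∧
    (∀ g ∈ P, MvPolynomial.aeval c g = 0) ∧
    (∀ i, (pol c i).map PowerSeries.constantCoeff = (X - C q) ^ e₂ * F₁ i) ∧
    (∀ i, (pol c i).comp (C (PowerSeries.C q) + C PowerSeries.X * X) =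
      C PowerSeries.X ^ e₂ * H i) ∧
    ∀ i, (H i).map PowerSeries.constantCoeff = F₂ i

/-- A unipotent upper triangular matrix that preserves the cone. -/
def Uni (g : Matrix (Fin (N + 1)) (Fin (N + 1)) k) : Prop :=
  (∀ a b, b ≤ a → (g - 1) a b = 0) ∧ ∀ x, On I x → On I (g.mulVec x)

/-- An invertible diagonal matrix that preserves the cone. -/
def Tor (τ : Fin (N + 1) → kˣ) : Prop :=
  ∀ x : Fin (N + 1) → k, On I x → On I fun i => τ i * x i

/-- The points `g τ x₀` with `g` unipotent upper triangular and `τ` diagonal, both preserving the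
cone, are Zariski dense in the cone. -/
structure DenseOrbit (x₀ : Fin (N + 1) → k) : Prop where
  ne : x₀ ≠ 0
  on : On I x₀
  dense : ∀ G : Pk k N, (∀ g τ, Uni I g → Tor I τ →
    MvPolynomial.aeval (g.mulVec fun i => τ i * x₀ i) G = 0) → G ∈ I

end

end Pool.Agent.Lib.MP_41050a_ag
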