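import Pool.Agent.Lib.MP_41050a_ag.Grp

/-! Exponentials and logarithms; factorisation in the unipotent group. -/

namespace Pool.Agent.Lib.MP_41050a_ag

open Polynomial

set_option linter.unusedSectionVars false

noncomputable section

variable {k : Type} [Field k] [IsAlgClosed k] [CharZero k] {N : ℕ} {I : Ideal (Pk k N)}
  {R : Type} [CommRing R] [Algebra k R] {g A : Mt R N}

theorem exp_su (hA : SU A) (j : ℕ) : SU (A ^ (j + 1)) := by
  induction j with
  | zero => rwa [zero_add, pow_one]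
  | succ j ih => exact pow_succ A (j + 1) ▸ ih.mul hA

theorem exp_split (hA : SU A) (c : ℕ → R) : ∃ S : Mt R N, SU S ∧ SU ((c 1 • 1 + S) * A) ∧
    ∑ j ∈ Finset.range (N + 2), c j • A ^ j = c 0 • 1 + (c 1 • 1 + S) * A := by
  have h : SU (∑ j ∈ Finset.range N, c (j + 1 + 1) • A ^ (j + 1)) :=
    Finset.sum_induction _ SU (fun _ _ => SU.add) (fun _ _ _ => rfl)
      fun j _ => (exp_su hA j).smul _
  refine ⟨_, h, ?_, ?_⟩
  · rw [add_mul, smul_mul_assoc, one_mul]
    exact (hA.smul _).add (h.mul hA)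
  · rw [Finset.sum_range_succ', Finset.sum_range_succ', add_mul, Finset.sum_mul]
    simp only [smul_mul_assoc, ← pow_succ, zero_add, pow_one, pow_zero, one_mul]
    abel

theorem exp_chain (z : V R[X] N) (Φ : Pk k N) : derivative (MvPolynomial.aeval z Φ) =
    ∑ i, MvPolynomial.aeval z (MvPolynomial.pderiv i Φ) * derivative (z i) := by
  induction Φ using MvPolynomial.induction_on with
  | C a => simp [Polynomial.algebraMap_apply]
  | add p q hp hq => simp only [map_add, hp, hq, add_mul, Finset.sum_add_distrib]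
  | mul_X p j hp =>
    simp only [map_mul, MvPolynomial.aeval_X, derivative_mul, hp, MvPolynomial.pderiv_mul,
      MvPolynomial.pderiv_X, map_add, add_mul, Finset.sum_add_distrib, Finset.sum_mul]
    refine congrArg₂ (· + ·) (Finset.sum_congr rfl fun i _ => mul_right_comm _ _ _) ?_
    rw [Finset.sum_eq_single j (fun i _ hi => by simp [hi]) (by simp)]
    simp

variable (k) in
include k in
theorem exp_ideal {J : Ideal R[X]} (h0 : ∀ p ∈ J, p.coeff 0 = 0) (h1 : ∀ p ∈ J, derivative p ∈ J)
    (j : ℕ) : ∀ p ∈ J, p.coeff j = 0 := by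
  induction j with
  | zero => exact h0
  | succ j ih =>
    intro p hp
    have h2 := ih _ (h1 p hp)
    have h3 := (IsUnit.mk0 ((j : k) + 1) (Nat.cast_add_one_ne_zero j)).map (algebraMap k R)
    rw [map_add, map_natCast, map_one] at h3
    rwa [coeff_derivative, h3.mul_left_eq_zero] at h2

theorem exp_on (hV : Cone I) (hT : Tan I A) {γ : V R[X] N}
    (h0 : On I fun i => (γ i).coeff 0) (h1 : ∀ i, derivative (γ i) = (A.map C).mulVec γ i) :
    On I γ := by
  obtain ⟨J, hJ⟩ : ∃ J : Ideal R[X], J = Ideal.span {p | ∃ Φ ∈ I, MvPolynomial.aeval γ Φ = p} :=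
    ⟨_, rfl⟩
  have h2 : ∀ Φ ∈ I, MvPolynomial.aeval γ Φ ∈ J := fun Φ hΦ => hJ ▸ Ideal.subset_span ⟨Φ, hΦ, rfl⟩
  have h3 : On I (Ideal.Quotient.mkₐ k J ∘ γ) := fun Φ hΦ => by
    rw [← map_aev]
    exact Ideal.Quotient.eq_zero_iff_mem.2 (h2 Φ hΦ)
  have h4 := (hT.lin ((Ideal.Quotient.mkₐ k J).comp CAlgHom).toLinearMap).tg hV h3
  refine fun Φ hΦ => Polynomial.ext fun j => exp_ideal k (fun p hp => ?_) (fun p hp => ?_) j _ (h2 Φ hΦ)
  · rw [hJ] at hp
    induction hp using Submodule.span_induction with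
    | mem p hp =>
      obtain ⟨Φ, hΦ, rfl⟩ := hp
      have h5 := map_aev ((aeval (0 : R) : R[X] →ₐ[R] R).restrictScalars k) γ Φ
      rw [coeff_zero_eq_aeval_zero]
      refine h5.trans (Eq.trans ?_ (h0 Φ hΦ))
      simp only [coeff_zero_eq_aeval_zero]
      rfl
    | zero => rfl
    | add a b _ _ ha hb => rw [coeff_add, ha, hb, add_zero]
    | smul a b _ hb => rw [smul_eq_mul, mul_coeff_zero, hb, mul_zero]
  · rw [hJ] at hp
    induction hp using Submodule.span_induction with
    | mem p hp =>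
      obtain ⟨Φ, hΦ, rfl⟩ := hp
      refine Ideal.Quotient.eq_zero_iff_mem.1 (Eq.trans ?_ (h4 Φ hΦ))
      rw [exp_chain, ← Ideal.Quotient.mkₐ_eq_mk k, map_sum]
      refine Finset.sum_congr rfl fun i _ => ?_
      rw [map_mul, map_aev, h1]
      exact congrArg _ (congrFun (map_mulVec _ _ γ) i)
    | zero => rw [derivative_zero]; exact zero_mem _
    | add a b _ _ ha hb => rw [derivative_add]; exact add_mem ha hb
    | smul a b h5 hb =>
      rw [smul_eq_mul, derivative_mul]
      exact add_mem (J.mul_mem_left _ (hJ ▸ h5)) (J.mul_mem_left _ hb)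

theorem exists_exp (hV : Cone I) (hA : SU A) (hT : Tan I A) :
    ∃ g S : Mt R N, NN I g ∧ SU S ∧ g - 1 = (1 + S) * A := by
  obtain ⟨c, hc⟩ : ∃ c : ℕ → R, c = fun j => algebraMap k R (j.factorial : k)⁻¹ := ⟨_, rfl⟩
  have h0 : c 0 = 1 := by simp [hc]
  have h1 : c 1 = 1 := by simp [hc]
  have h2 : ∀ j : ℕ, c (j + 1) * (j + 1) = c j := fun j => by
    have h3 : ((j : k) + 1) ≠ 0 := Nat.cast_add_one_ne_zero j
    rw [hc, ← map_natCast (algebraMap k R), ← map_one (algebraMap k R), ← map_add, ← map_mul,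
      Nat.factorial_succ, Nat.cast_mul, mul_inv, Nat.cast_add_one, mul_right_comm,
      inv_mul_cancel₀ h3, one_mul]
  obtain ⟨S, h3, h4, h5⟩ := exp_split hA c
  rw [h1, one_smul] at h4 h5
  rw [h0, one_smul] at h5
  refine ⟨1 + (1 + S) * A, S, ⟨by rwa [add_sub_cancel_left], fun x hx => ?_⟩, h3,
    add_sub_cancel_left _ _⟩
  obtain ⟨γ, hγ⟩ : ∃ γ : V R[X] N, γ = fun i => ∑ j ∈ Finset.range (N + 2),
    monomial j (c j * (A ^ j).mulVec (cs R x) i) := ⟨_, rfl⟩
  have h6 : ∀ i n, (γ i).coeff n = c n * (A ^ n).mulVec (cs R x) i := fun i n => by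
    simp only [hγ, finsetSum_coeff, coeff_monomial, Finset.sum_ite_eq', Finset.mem_range]
    split_ifs with h7
    · rfl
    · rw [pow_eq_zero_of_le (by omega) hA.pow_eq_zero, Matrix.zero_mulVec, Pi.zero_apply, mul_zero]
  have h7 : On I γ := exp_on hV hT (by simpa [h6, h0] using hx.cs) fun i => by
    ext n
    rw [coeff_derivative, h6, mul_right_comm, h2, pow_succ', ← Matrix.mulVec_mulVec]
    simp only [Matrix.mulVec, dotProduct, Matrix.map_apply, finsetSum_coeff, coeff_C_mul, h6]
    rw [Finset.mul_sum]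
    exact Finset.sum_congr rfl fun l _ => mul_left_comm _ _ _
  have h8 := h7.map ((aeval (1 : R) : R[X] →ₐ[R] R).restrictScalars k)
  have h9 : (aeval (1 : R) : R[X] →ₐ[R] R).restrictScalars k ∘ γ =
      (1 + (1 + S) * A).mulVec (cs R x) := by
    funext i
    rw [← h5, Matrix.sum_mulVec, Finset.sum_apply]
    simp [hγ, Matrix.smul_mulVec, eval_finsetSum]
  rwa [h9] at h8

variable (k) in
include k in
theorem exp_nat {p : R[X]} (h : ∀ m : ℕ, p.eval (m : R) = 0) : p = 0 := by
  refine Polynomial.ext fun n => eq_zero_of_forms (k := k) fun ℓ => ?_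
  have h1 : p.sum (fun j a => monomial j (ℓ a)) = 0 := by
    refine eq_zero_of_infinite_isRoot _ (Set.infinite_of_injective_forall_mem
      (f := (Nat.cast : ℕ → k)) Nat.cast_injective fun m => ?_)
    have h2 := congrArg ℓ (h m)
    rw [eval_eq_sum, Polynomial.sum, map_sum, map_zero] at h2
    refine Eq.trans ?_ h2
    rw [Polynomial.sum, eval_finsetSum]
    refine Finset.sum_congr rfl fun j _ => ?_
    rw [eval_monomial, ← map_natCast (algebraMap k R), ← map_pow, mul_comm (p.coeff j),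
      ← Algebra.smul_def, map_smul, smul_eq_mul, mul_comm]
  have h2 := congrArg (coeff · n) h1
  simp only [Polynomial.sum, finsetSum_coeff, coeff_monomial, Finset.sum_ite_eq',
    coeff_zero] at h2
  split_ifs at h2 with h3
  · exact h2
  · rw [notMem_support_iff.1 h3, map_zero]

variable (k) in
/-- The power of `1 + A` with exponent `t`. -/
def exp_pw (A : Mt R N) (t : R) : Mt R N :=
  ∑ j ∈ Finset.range (N + 2), aeval t (C (j.factorial : k)⁻¹ * descPochhammer k j) • A ^ j

theorem exp_map {S : Type} [CommRing S] [Algebra k S] (φ : R →ₐ[k] S) (A : Mt R N) (t : R) :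
    (exp_pw k A t).map φ = exp_pw k (A.map φ) (φ t) := by
  refine (map_sum φ.mapMatrix.toRingHom _ _).trans (Finset.sum_congr rfl fun j _ => ?_)
  rw [aeval_algHom_apply]
  exact (Matrix.map_smul' φ _ _ (map_mul φ)).trans (congrArg _ (map_pow φ.mapMatrix A j))

theorem exp_eval {S : Type} [CommRing S] [Algebra k S] [Algebra R S] [IsScalarTower k R S]
    (A : Mt R N) (p : R[X]) (t : S) :
    (exp_pw k (A.map C) p).map ((aeval t : R[X] →ₐ[R] S).restrictScalars k) =
      exp_pw k (A.map (algebraMap R S)) (aeval t p) := by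
  rw [exp_map]
  exact congrArg₂ (exp_pw k) (Matrix.ext fun a b => aeval_C t _) rfl

theorem exp_pow (hg : SU (g - 1)) (m : ℕ) : exp_pw k (g - 1) (m : R) = g ^ m := by
  have h1 := (Commute.one_right (g - 1)).add_pow m
  rw [sub_add_cancel] at h1
  rw [h1, exp_pw, Finset.sum_subset (Finset.range_subset_range.2 (by omega : N + 2 ≤ m + N + 2))
    fun j _ hj => by rw [pow_eq_zero_of_le (by simp at hj; omega) hg.pow_eq_zero, smul_zero],
    Finset.sum_subset (Finset.range_subset_range.2 (by omega : m + 1 ≤ m + N + 2))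
    fun j _ hj => by rw [Nat.choose_eq_zero_of_lt (by simpa using hj), Nat.cast_zero, mul_zero]]
  refine Finset.sum_congr rfl fun j _ => ?_
  rw [← map_natCast (algebraMap k R), aeval_algebraMap_apply_eq_algebraMap_eval, eval_mul, eval_C,
    descPochhammer_eval_eq_descFactorial, Nat.descFactorial_eq_factorial_mul_choose, Nat.cast_mul,
    inv_mul_cancel_left₀ (Nat.cast_ne_zero.2 j.factorial_ne_zero), map_natCast, one_pow, mul_one,
    Nat.cast_smul_eq_nsmul, nsmul_eq_mul']

theorem exp_pres (hV : Cone I) (hg : NN I g) {S : Type} [CommRing S] [Algebra k S]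
    [Algebra R S] [IsScalarTower k R S] (t : S) :
    Pres I (exp_pw k ((g - 1).map (algebraMap R S)) t) := by
  have h1 : ∀ m : ℕ, Pres I (g ^ m) := fun m => by
    induction m with
    | zero => exact pow_zero g ▸ pres_one
    | succ m ih => exact pow_succ g m ▸ ih.mul hV hg.pres
  have h2 : Pres I (exp_pw k ((g - 1).map C) X) := fun x hx Φ hΦ => exp_nat k fun m => by
    have h3 := map_aev ((aeval (m : R) : R[X] →ₐ[R] R).restrictScalars k)
      ((exp_pw k ((g - 1).map C) X).mulVec (cs R[X] x)) Φ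
    rw [map_mulVec, map_cs, exp_eval, aeval_X, Algebra.algebraMap_self, RingHom.coe_id,
      Matrix.map_id, exp_pow hg.su, h1 m x hx Φ hΦ] at h3
    rw [← coe_aeval_eq_eval]
    exact h3
  have h3 := h2.map ((aeval t : R[X] →ₐ[R] S).restrictScalars k)
  rwa [exp_eval, aeval_X] at h3

theorem NN.exists_log (hV : Cone I) (hg : NN I g) :
    ∃ S : Mt R N, SU S ∧ Tan I ((1 + S) * (g - 1)) := by
  have h1 := exp_map (TrivSqZeroExt.fstHom k R R) ((g - 1).map (algebraMap R (DualNumber R)))
    DualNumber.eps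
  have h2 := exp_pow (k := k) hg.su 0
  rw [Nat.cast_zero, pow_zero] at h2
  have h3 := tan_of_du (exp_pres hV hg (DualNumber.eps : DualNumber R)) (h1.trans h2)
  obtain ⟨S, h4, -, h5⟩ := exp_split hg.su fun j => TrivSqZeroExt.snd
    (aeval (DualNumber.eps : DualNumber R) (C (j.factorial : k)⁻¹ * descPochhammer k j))
  refine ⟨S, h4, ?_⟩
  have h6 : (exp_pw k ((g - 1).map (algebraMap R (DualNumber R))) DualNumber.eps).map
      TrivSqZeroExt.snd = (1 + S) * (g - 1) := by
    refine Eq.trans ?_ (h5.trans (by simp))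
    ext a b
    simp only [exp_pw, Matrix.map_apply, Matrix.sum_apply, TrivSqZeroExt.snd_sum, Matrix.smul_apply,
      smul_eq_mul]
    refine Finset.sum_congr rfl fun j _ => ?_
    have h7 : (g - 1).map (algebraMap R (DualNumber R)) ^ j =
        ((g - 1) ^ j).map (algebraMap R (DualNumber R)) :=
      (map_pow (algebraMap R (DualNumber R)).mapMatrix _ j).symm
    rw [h7, Matrix.map_apply, mul_comm, ← Algebra.smul_def, TrivSqZeroExt.snd_smul, smul_eq_mul,
      mul_comm]
  rwa [h6] at h3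

theorem NN.inv (hV : Cone I) (hg : NN I g) : ∃ g', NN I g' ∧ g * g' = 1 ∧ g' * g = 1 := by
  have h1 : ∀ t : R, (exp_pw k ((g - 1).map C) X * g.map C - exp_pw k ((g - 1).map C) (X + 1)).map
      ((aeval t : R[X] →ₐ[R] R).restrictScalars k) =
      exp_pw k (g - 1) t * g - exp_pw k (g - 1) (t + 1) := fun t => by
    rw [Matrix.map_sub _ (map_sub _), Matrix.map_mul, exp_eval, exp_eval, aeval_X, map_add, aeval_X,
      map_one, Algebra.algebraMap_self, RingHom.coe_id, Matrix.map_id]
    exact congrArg (fun M => exp_pw k (g - 1) t * M - _) (Matrix.ext fun a b => aeval_C t _)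
  have h2 : exp_pw k ((g - 1).map C) X * g.map C - exp_pw k ((g - 1).map C) (X + 1) = 0 := by
    refine Matrix.ext fun a b => exp_nat k fun m => ?_
    have h3 := h1 m
    rw [← Nat.cast_add_one, exp_pow hg.su, exp_pow hg.su, ← pow_succ, sub_self] at h3
    rw [← coe_aeval_eq_eval]
    exact congrFun₂ h3 a b
  have h3 := h1 (-1)
  have h4 := exp_pow (k := k) hg.su 0
  rw [Nat.cast_zero, pow_zero] at h4
  rw [h2, Matrix.map_zero _ (map_zero _), neg_add_cancel, h4, eq_comm, sub_eq_zero] at h3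
  refine ⟨_, ⟨?_, exp_pres hV hg (-1 : R)⟩, mul_eq_one_comm.1 h3, h3⟩
  obtain ⟨S, -, h5, h6⟩ := exp_split hg.su fun j =>
    aeval (-1 : R) (C (j.factorial : k)⁻¹ * descPochhammer k j)
  rw [Nat.factorial_zero, descPochhammer_zero, Nat.cast_one, inv_one, C_1, mul_one, map_one,
    one_smul, ← sub_eq_iff_eq_add'] at h6
  exact h6 ▸ h5

end

end Pool.Agent.Lib.MP_41050a_ag
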