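import Pool.Agent.Lib.MP_41050a_ag.Exp

/-! Strong approximation in the unipotent group. -/

namespace Pool.Agent.Lib.MP_41050a_ag

open Polynomial

set_option linter.unusedSectionVars false

noncomputable section

variable {k : Type} [Field k] [IsAlgClosed k] [CharZero k] {N : ℕ} {I : Ideal (Pk k N)}

/-- The rank of a position; lower rows come first. -/
def fact_rk (a b : Fin (N + 1)) : ℕ := (N - a) * (N + 1) + b

theorem fact_rk_lt {a c : Fin (N + 1)} (b : Fin (N + 1)) (h : a < c) :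
    fact_rk c b < fact_rk a b := by
  have h1 : N - c.1 < N - a.1 := by
    have := c.2
    have : a.1 < c.1 := h
    omega
  exact Nat.add_lt_add_right (Nat.mul_lt_mul_of_pos_right h1 N.succ_pos) _

theorem fact_rk_inj {a b a' b' : Fin (N + 1)} (h : fact_rk a b = fact_rk a' b') :
    a = a' ∧ b = b' := by
  have h1 := congrArg (· % (N + 1)) h
  simp only [fact_rk, Nat.mul_add_mod_of_lt b.2, Nat.mul_add_mod_of_lt b'.2] at h1
  rw [fact_rk, fact_rk, h1, Nat.add_right_cancel_iff] at h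
  have h2 := Nat.eq_of_mul_eq_mul_right N.succ_pos h
  have := a.2
  have := a'.2
  exact ⟨Fin.ext (by omega), Fin.ext h1⟩

theorem fact_rk_top (a b : Fin (N + 1)) : fact_rk a b < (N + 1) * (N + 1) := by
  have h1 : (N - a.1) * (N + 1) ≤ N * (N + 1) := Nat.mul_le_mul_right _ (Nat.sub_le _ _)
  have := b.2
  rw [fact_rk, Nat.succ_mul]
  omega

section

variable {R : Type} [CommRing R] [Algebra k R] {i : ℕ}

theorem fact_mul {A B : Mt R N} (hA : SU A) (hB : ∀ a b, fact_rk a b < i → B a b = 0)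
    {a b : Fin (N + 1)} (h : fact_rk a b ≤ i) : ((1 + A) * B) a b = B a b := by
  rw [add_mul, one_mul, Matrix.add_apply,
    hA.mul_apply fun c hc => hB c b ((fact_rk_lt b hc).trans_le h), add_zero]

theorem fact_add {g h : Mt R N} (hg : NN I g) (hh : ∀ a b, fact_rk a b < i → (h - 1) a b = 0)
    {a b : Fin (N + 1)} (e : fact_rk a b ≤ i) :
    (g * h - 1) a b = (g - 1) a b + (h - 1) a b := by
  have : g * h - 1 = (g - 1) + (1 + (g - 1)) * (h - 1) := by noncomm_ring
  rw [this, Matrix.add_apply, fact_mul hg.su hh e]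

theorem fact_exp (hV : Cone I) {A : Mt k N} (hA : SU A) (hT : Tan I A)
    (hZ : ∀ a b, fact_rk a b < i → A a b = 0) (x : R) : ∃ g : Mt R N, NN I g ∧
      ∀ a b, fact_rk a b ≤ i → (g - 1) a b = x * algebraMap k R (A a b) := by
  obtain ⟨g, S, hg, hS, e⟩ := exists_exp hV ((hA.map (f := Algebra.linearMap k R)
    (map_zero _)).smul x) ((hT.lin (Algebra.linearMap k R)).smul x)
  refine ⟨g, hg, fun a b h => ?_⟩
  rw [e, fact_mul hS (fun a b h => by simp [hZ a b h]) h]
  rfl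

theorem fact_zero (hV : Cone I) {g : Mt R N} (hg : NN I g)
    (hZ : ∀ a b, fact_rk a b < i → (g - 1) a b = 0) {a b : Fin (N + 1)} (h : fact_rk a b = i)
    (hn : ∀ A : Mt k N, SU A → Tan I A → (∀ a b, fact_rk a b < i → A a b = 0) → A a b ≠ 1) :
    (g - 1) a b = 0 := by
  obtain ⟨S, hS, hT⟩ := hg.exists_log hV
  refine eq_zero_of_forms (k := k) fun ℓ => by_contra fun e => ?_
  have h1 : SU ((1 + S) * (g - 1)) := by
    rw [add_mul, one_mul]
    exact hg.su.add (hS.mul hg.su)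
  refine hn ((ℓ ((g - 1) a b))⁻¹ • ((1 + S) * (g - 1)).map ℓ) ((h1.map (map_zero ℓ)).smul _)
    ((hT.lin ℓ).smul _) (fun a' b' h' => ?_) ?_
  · rw [Matrix.smul_apply, Matrix.map_apply, fact_mul hS hZ h'.le, hZ a' b' h', map_zero,
      smul_zero]
  · rw [Matrix.smul_apply, Matrix.map_apply, fact_mul hS hZ h.le, smul_eq_mul, inv_mul_cancel₀ e]

theorem fact_map {S : Type} [CommRing S] [Algebra k S] (φ : R →ₐ[k] S) (g : Mt R N)
    (a b : Fin (N + 1)) : (g.map φ - 1) a b = φ ((g - 1) a b) := by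
  simp only [Matrix.sub_apply, Matrix.map_apply, Matrix.one_apply, map_sub]
  split_ifs <;> simp

end

theorem fact_step (hV : Cone I) {A O G : Type} [CommRing A] [Algebra k A] [CommRing O]
    [Algebra k O] [CommRing G] [Algebra k G] (o : O →ₐ[k] A) (γ : G →ₐ[k] A)
    (h : ∀ a, ∃ x y, a = o x + γ y) {g : Mt A N} (hg : NN I g) {i : ℕ}
    (hZ : ∀ a b, fact_rk a b < i → (g - 1) a b = 0) :
    ∃ (u : Mt O N) (v : Mt G N), NN I u ∧ NN I v ∧
      ∀ a b, fact_rk a b < i + 1 → (u.map o * g * v.map γ - 1) a b = 0 := by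
  by_cases hP : ∃ (a b : Fin (N + 1)) (B : Mt k N), fact_rk a b = i ∧ SU B ∧ Tan I B ∧
      (∀ a b, fact_rk a b < i → B a b = 0) ∧ B a b = 1
  · obtain ⟨a0, b0, B, e0, hB, hT, hBZ, e1⟩ := hP
    obtain ⟨x, y, e⟩ := h (-(g - 1) a0 b0)
    obtain ⟨u, hu, eu⟩ := fact_exp hV hB hT hBZ x
    obtain ⟨v, hv, ev⟩ := fact_exp hV hB hT hBZ y
    refine ⟨u, v, hu, hv, fun a b hab => ?_⟩
    have hab' : fact_rk a b ≤ i := Nat.lt_succ_iff.1 hab
    rw [fact_add ((hu.map o).mul hV hg)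
      (fun a b k => by rw [fact_map, ev a b k.le, hBZ a b k, map_zero, mul_zero, map_zero]) hab',
      fact_add (hu.map o) hZ hab', fact_map, fact_map, eu a b hab', ev a b hab']
    rcases hab'.lt_or_eq with c | c
    · simp [hBZ a b c, hZ a b c]
    · obtain ⟨rfl, rfl⟩ := fact_rk_inj (c.trans e0.symm)
      rw [e1, map_one, map_one, mul_one, mul_one]
      linear_combination -e
  · refine ⟨1, 1, nn_one, nn_one, fun a b hab => ?_⟩
    rw [Matrix.map_one _ (map_zero o) (map_one o), Matrix.map_one _ (map_zero γ) (map_one γ),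
      one_mul, mul_one]
    rcases (Nat.lt_succ_iff.1 hab).lt_or_eq with c | c
    · exact hZ a b c
    · exact fact_zero hV hg hZ c fun B h1 h2 h3 h4 => hP ⟨a, b, B, c, h1, h2, h3, h4⟩

theorem fact (hV : Cone I) {A O G : Type} [CommRing A] [Algebra k A] [CommRing O] [Algebra k O]
    [CommRing G] [Algebra k G] (o : O →ₐ[k] A) (γ : G →ₐ[k] A) (h : ∀ a, ∃ x y, a = o x + γ y)
    {g : Mt A N} (hg : NN I g) :
    ∃ (a : Mt O N) (b : Mt G N), NN I a ∧ NN I b ∧ b.map γ = a.map o * g := by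
  have key : ∀ i : ℕ, ∃ (u : Mt O N) (v : Mt G N), NN I u ∧ NN I v ∧
      ∀ a b, fact_rk a b < i → (u.map o * g * v.map γ - 1) a b = 0 := by
    intro i
    induction i with
    | zero => exact ⟨1, 1, nn_one, nn_one, fun a b k => absurd k (Nat.not_lt_zero _)⟩
    | succ i ih =>
      obtain ⟨u, v, hu, hv, hZ⟩ := ih
      obtain ⟨u', v', hu', hv', hZ'⟩ :=
        fact_step hV o γ h (((hu.map o).mul hV hg).mul hV (hv.map γ)) hZ
      refine ⟨u' * u, v * v', hu'.mul hV hu, hv.mul hV hv', ?_⟩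
      simpa only [Matrix.map_mul, mul_assoc] using hZ'
  obtain ⟨u, v, hu, hv, hZ⟩ := key ((N + 1) * (N + 1))
  obtain ⟨v', hv', e, -⟩ := hv.inv hV
  have e1 : u.map o * g * v.map γ = 1 :=
    sub_eq_zero.1 (Matrix.ext fun a b => hZ a b (fact_rk_top a b))
  refine ⟨u, v', hu, hv', ?_⟩
  rw [← one_mul (v'.map γ), ← e1, mul_assoc, ← Matrix.map_mul, e,
    Matrix.map_one _ (map_zero γ) (map_one γ), mul_one]

end

end Pool.Agent.Lib.MP_41050a_ag
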