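import Pool.Agent.Lib.MP_41050a_ag.Grp

/-! Clearing the denominators of a sum of principal parts. -/

namespace Pool.Agent.Lib.MP_41050a_ag

open Polynomial

set_option linter.unusedSectionVars false

noncomputable section

variable {R E E' σ : Type} [CommRing R] [CommRing E] [CommRing E'] [Fintype σ] [DecidableEq σ]

/-- `(∏ π ^ ee) (c + ∑ ζ P (ζ))` for `ζ = ν / π`. -/
def th (c : R) (P : σ → R[X]) (ee : σ → ℕ) (κ : R →+* E) (π ν : σ → E) : E :=
  κ c * ∏ p, π p ^ ee p + ∑ p, (∑ j ∈ Finset.range (ee p),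
    κ ((P p).coeff j) * ν p ^ (j + 1) * π p ^ (ee p - (j + 1))) *
      ∏ p' ∈ Finset.univ.erase p, π p' ^ ee p'

variable {c : R} {P : σ → R[X]} {ee : σ → ℕ}

theorem th_eq (hP : ∀ p, (P p).degree < ee p) (κ : R →+* E) {π ν ζ : σ → E}
    (h : ∀ p, ζ p * π p = ν p) :
    th c P ee κ π ν = (∏ p, π p ^ ee p) * (κ c + ∑ p, ζ p * (P p).eval₂ κ (ζ p)) := by
  rw [th, mul_add, mul_comm, Finset.mul_sum]
  refine congrArg _ (Finset.sum_congr rfl fun p _ => ?_)
  have e : (P p).eval₂ κ (ζ p) = ∑ j ∈ Finset.range (ee p), κ ((P p).coeff j) * ζ p ^ j := by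
    by_cases h0 : P p = 0
    · simp [h0]
    · exact eval₂_eq_sum_range' κ ((natDegree_lt_iff_degree_lt h0).2 (hP p)) _
  rw [← Finset.mul_prod_erase _ (fun p => π p ^ ee p) (Finset.mem_univ p), e, mul_right_comm,
    Finset.mul_sum, Finset.mul_sum]
  refine congrArg (· * _) (Finset.sum_congr rfl fun j hj => ?_)
  obtain ⟨m, hm⟩ := Nat.exists_eq_add_of_le (Nat.succ_le_of_lt (Finset.mem_range.1 hj))
  rw [hm, Nat.add_sub_cancel_left, ← h p]
  simp only [Nat.succ_eq_add_one]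
  ring

theorem th_map (φ : E →+* E') (κ : R →+* E) (π ν : σ → E) :
    φ (th c P ee κ π ν) = th c P ee (φ.comp κ) (fun p => φ (π p)) fun p => φ (ν p) := by
  simp only [th, map_add, map_mul, map_sum, map_prod, map_pow, RingHom.comp_apply]

theorem th_scale (κ : R →+* E) (π ν l : σ → E) :
    th c P ee κ (fun p => l p * π p) (fun p => l p * ν p) =
      (∏ p, l p ^ ee p) * th c P ee κ π ν := by
  simp only [th, mul_pow, Finset.prod_mul_distrib]
  rw [mul_add, Finset.mul_sum, mul_left_comm]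
  refine congrArg _ (Finset.sum_congr rfl fun p _ => ?_)
  rw [← Finset.mul_prod_erase _ (fun p => l p ^ ee p) (Finset.mem_univ p), mul_mul_mul_comm,
    ← mul_assoc, ← mul_assoc, Finset.mul_sum]
  refine congrArg (· * _ * _) (Finset.sum_congr rfl fun j hj => ?_)
  obtain ⟨m, hm⟩ := Nat.exists_eq_add_of_le (Nat.succ_le_of_lt (Finset.mem_range.1 hj))
  rw [hm, Nat.add_sub_cancel_left]
  simp only [Nat.succ_eq_add_one]
  ring

theorem th_deg (κ : R →+* E) {π ν : σ → E[X]} {w : σ → ℕ} (h1 : ∀ p, (π p).natDegree ≤ w p)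
    (h2 : ∀ p, (ν p).natDegree ≤ w p) :
    (th c P ee (C.comp κ) π ν).natDegree ≤ ∑ p, ee p * w p := by
  have k : ∀ s : Finset σ, (∏ p ∈ s, π p ^ ee p).natDegree ≤ ∑ p ∈ s, ee p * w p := fun s =>
    (natDegree_prod_le _ _).trans (Finset.sum_le_sum fun p _ => natDegree_pow_le_of_le _ (h1 p))
  refine natDegree_add_le_of_degree_le ((natDegree_C_mul_le _ _).trans (k _))
    (natDegree_sum_le_of_forall_le _ _ fun p _ => natDegree_mul_le.trans ?_)
  rw [← Finset.add_sum_erase _ (fun p => ee p * w p) (Finset.mem_univ p)]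
  refine add_le_add (natDegree_sum_le_of_forall_le _ _ fun j hj => natDegree_mul_le.trans ?_) (k _)
  obtain ⟨m, hm⟩ := Nat.exists_eq_add_of_le (Nat.succ_le_of_lt (Finset.mem_range.1 hj))
  rw [hm, Nat.add_sub_cancel_left, add_mul]
  exact add_le_add ((natDegree_C_mul_le _ _).trans (natDegree_pow_le_of_le _ (h2 p)))
    (natDegree_pow_le_of_le _ (h1 p))

end

end Pool.Agent.Lib.MP_41050a_ag
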