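import Pool.Agent.Lib.MP_41050a_ag.Sol
import Pool.Agent.Lib.MP_41050a_ag.Th

/-! The degenerating family. -/

namespace Pool.Agent.Lib.MP_41050a_ag

open Polynomial

set_option linter.unusedSectionVars false

noncomputable section

variable {k R σ : Type} [Field k] [IsAlgClosed k] [CharZero k] [CommRing R] [Algebra k R]
  [Fintype σ] [DecidableEq σ] {N : ℕ} {I : Ideal (Pk k N)} {x' : V k N} {j₀ : Fin (N + 1)}

/-- A family over `R` with fibre `F` at `s = 1` that breaks at `s = 0`. -/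
structure Fam (I : Ideal (Pk k N)) (x' : V k N) (T : Par k R) (q : k) (e₁ e₂ : ℕ)
    (F F₁ F₂ : V k[X] N) (G H : V R[X] N) : Prop where
  deg : ∀ i, (G i).natDegree ≤ e₁ + e₂
  on : On I G
  one : ∀ i, (G i).map (T.ψ : R →+* k) = F i
  map₁ : IsMap I e₁ F₁
  map₂ : IsMap I e₂ F₂
  orb₁ : Orb I x' (am F₁)
  orb₂ : Orb I x' (am F₂)
  zero : ∀ i, (G i).map (T.s0 : R →+* k) = (X - C q) ^ e₂ * F₁ i
  comp : ∀ i, (G i).comp (C (algebraMap k R q) + C T.s * X) = C T.s ^ e₂ * H i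
  zero' : ∀ i, (H i).map (T.s0 : R →+* k) = F₂ i

/-- A tuple that is a multiple of a point of the orbit by a product of linear factors. -/
theorem isMap_of (hV : Cone I) {F : V k[X] N} {y : V (RatFunc k) N} (hy : On I y)
    (ho : Orb I x' y) {c : k} (hc : c ≠ 0) (h0 : y j₀ = algebraMap k _ c) (S : Finset σ)
    (a : σ → k) (ee : σ → ℕ) {c' : k} (hc' : c' ≠ 0) (hF : ∀ i, am F i =
      algebraMap k[X] (RatFunc k) (C c' * ∏ p ∈ S, (X - C (a p)) ^ ee p) * y i)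
    (hdeg : ∀ i, (F i).natDegree ≤ ∑ p ∈ S, ee p) (hb : ∀ p ∈ S, ∃ i, (F i).eval (a p) ≠ 0) :
    IsMap I (∑ p ∈ S, ee p) F ∧ Orb I x' (am F) := by
  have hW : (C c' * ∏ p ∈ S, (X - C (a p)) ^ ee p : k[X]) ≠ 0 :=
    mul_ne_zero (C_ne_zero.2 hc') (Finset.prod_ne_zero_iff.2 fun p _ =>
      pow_ne_zero _ (X_sub_C_ne_zero _))
  have e1 : am F = algebraMap k[X] (RatFunc k) (C c' * ∏ p ∈ S, (X - C (a p)) ^ ee p) • y :=
    funext hF
  have e2 : F j₀ = C (c * c') * ∏ p ∈ S, (X - C (a p)) ^ ee p := by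
    apply IsFractionRing.injective k[X] (RatFunc k)
    have := hF j₀
    rw [h0, IsScalarTower.algebraMap_apply k k[X] (RatFunc k), ← map_mul, algebraMap_eq] at this
    exact this.trans (by congr 1; rw [C_mul]; ring)
  refine ⟨⟨hdeg, On.of_map (φ := amH k k) (IsFractionRing.injective k[X] (RatFunc k)) ?_,
    fun p => ?_⟩, ?_⟩
  · rw [amH_comp, e1]
    exact hy.smul hV _
  · rcases p with _ | t
    · refine ⟨j₀, ?_⟩
      have hm : (∏ p ∈ S, (X - C (a p)) ^ ee p : k[X]).Monic :=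
        monic_prod_of_monic _ _ fun p _ => (monic_X_sub_C _).pow _
      have hd : (∏ p ∈ S, (X - C (a p)) ^ ee p : k[X]).natDegree = ∑ p ∈ S, ee p := by
        rw [natDegree_prod_of_monic _ _ fun p _ => (monic_X_sub_C _).pow _]
        exact Finset.sum_congr rfl fun p _ => by rw [natDegree_pow, natDegree_X_sub_C, mul_one]
      change (F j₀).coeff _ ≠ 0
      rw [e2, coeff_C_mul, ← hd, hm.coeff_natDegree, mul_one]
      exact mul_ne_zero hc hc'
    · by_cases ht : ∃ p ∈ S, a p = t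
      · obtain ⟨p, hp, rfl⟩ := ht
        exact hb p hp
      · refine ⟨j₀, ?_⟩
        change (F j₀).eval t ≠ 0
        rw [e2, eval_mul, eval_C, eval_prod]
        refine mul_ne_zero (mul_ne_zero hc hc') (Finset.prod_ne_zero_iff.2 fun p hp => ?_)
        rw [eval_pow, eval_sub, eval_X, eval_C]
        exact pow_ne_zero _ (sub_ne_zero.2 fun e => ht ⟨p, hp, e.symm⟩)
  · rw [e1]
    exact ho.smul hV (Ne.isUnit (RatFunc.algebraMap_ne_zero hW))

namespace Cf

variable (𝒞 : Cf k R σ)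

/-- The sections in the coordinate `t`. -/
def πt (p : σ) : R[X] := X - C (𝒞.bp p)

/-- The numerators in the coordinate `t`. -/
def νt (p : σ) : R[X] := if p ∈ 𝒞.B then C 𝒞.T.s else 1

/-- The sections in the coordinate `u`. -/
def πw (p : σ) : R[X] := if p ∈ 𝒞.B then X - C (algebraMap k R (𝒞.pt p - 𝒞.q))
  else C (algebraMap k R 𝒞.q) + C 𝒞.T.s * X - C (algebraMap k R (𝒞.pt p))

/-- A point given by a value of the coordinate `t`. -/
def admT {E : Type} [CommRing E] [Algebra k E] (φ : R[X] →ₐ[k] E)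
    (h : ∀ p, IsUnit (φ (𝒞.πt p))) : 𝒞.Adm E where
  κ := φ.comp (IsScalarTower.toAlgHom k R R[X])
  t := φ X
  u := φ X - algebraMap k E 𝒞.q
  v := φ (C 𝒞.T.s)
  eq := mul_comm _ _
  unit := fun p => by
    have e : ∀ a : k, algebraMap k E a = φ (C (algebraMap k R a)) := fun a => (φ.commutes a).symm
    have := h p
    unfold πt bp at this
    split_ifs at this ⊢
    · rw [e, e]
      simp only [map_add, map_mul, map_sub] at this ⊢
      exact (congrArg IsUnit (by ring)).mp this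
    · rwa [e, ← map_sub]

theorem admT_π {E : Type} [CommRing E] [Algebra k E] (φ : R[X] →ₐ[k] E)
    (h : ∀ p, IsUnit (φ (𝒞.πt p))) (p : σ) : (𝒞.admT φ h).π p = φ (𝒞.πt p) := by
  have e : ∀ a : k, algebraMap k E a = φ (C (algebraMap k R a)) := fun a => (φ.commutes a).symm
  unfold Adm.π πt bp admT
  dsimp only
  split_ifs
  · rw [e, e]
    simp only [map_add, map_mul, map_sub]
    ring
  · rw [e, ← map_sub]

theorem admT_ν {E : Type} [CommRing E] [Algebra k E] (φ : R[X] →ₐ[k] E)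
    (h : ∀ p, IsUnit (φ (𝒞.πt p))) (p : σ) : (𝒞.admT φ h).ν p = φ (𝒞.νt p) := by
  unfold Adm.ν νt admT
  split_ifs
  · rfl
  · rw [map_one]

/-- A point given by a value of the coordinate `u`. -/
def admU {E : Type} [CommRing E] [Algebra k E] (φ : R[X] →ₐ[k] E)
    (h : ∀ p, IsUnit (φ (𝒞.πw p))) : 𝒞.Adm E where
  κ := φ.comp (IsScalarTower.toAlgHom k R R[X])
  t := algebraMap k E 𝒞.q + φ (C 𝒞.T.s) * φ X
  u := φ X
  v := 1
  eq := by
    rw [mul_one, add_sub_cancel_left]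
    rfl
  unit := fun p => by
    have e : ∀ a : k, algebraMap k E a = φ (C (algebraMap k R a)) := fun a => (φ.commutes a).symm
    have := h p
    unfold πw at this
    split_ifs at this ⊢
    · rwa [e, mul_one, ← map_sub]
    · rwa [e, e, ← map_mul, ← map_add, ← map_sub]

theorem admU_π {E : Type} [CommRing E] [Algebra k E] (φ : R[X] →ₐ[k] E)
    (h : ∀ p, IsUnit (φ (𝒞.πw p))) (p : σ) : (𝒞.admU φ h).π p = φ (𝒞.πw p) := by
  have e : ∀ a : k, algebraMap k E a = φ (C (algebraMap k R a)) := fun a => (φ.commutes a).symm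
  unfold Adm.π πw admU
  dsimp only
  split_ifs
  · rw [e, mul_one, ← map_sub]
  · rw [e, e, ← map_mul, ← map_add, ← map_sub]

theorem admU_ν {E : Type} [CommRing E] [Algebra k E] (φ : R[X] →ₐ[k] E)
    (h : ∀ p, IsUnit (φ (𝒞.πw p))) (p : σ) : (𝒞.admU φ h).ν p = 1 := by
  unfold Adm.ν admU
  split_ifs <;> rfl

theorem ev_th {E E₀ : Type} [CommRing E] [Algebra k E] [CommRing E₀] (A : 𝒞.Adm E) {c : R}
    {P : σ → R[X]} {ee : σ → ℕ} (hP : ∀ p, (P p).degree < ee p) (φ : E₀ →+* E) {κ : R →+* E₀}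
    (hκ : φ.comp κ = (A.κ : R →+* E)) {π ν : σ → E₀}
    (h : ∀ p, A.ev (𝒞.zeta p) * φ (π p) = φ (ν p)) :
    φ (th c P ee κ π ν) = (∏ p, φ (π p) ^ ee p) *
      A.ev (algebraMap R 𝒞.GG c + ∑ p, 𝒞.zeta p * aeval (𝒞.zeta p) (P p)) := by
  rw [th_map, hκ, th_eq hP _ h, A.ev_rep]
  rfl

theorem lt_πt {p₀ : σ} (h : p₀ ∉ 𝒞.B) (p : σ) :
    eval₂RingHom PowerSeries.C (𝒞.lt p₀) (𝒞.πt p) = 𝒞.lπ p₀ p ∧
    eval₂RingHom PowerSeries.C (𝒞.lt p₀) (𝒞.νt p) = 𝒞.lν p₀ p := by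
  have e : ∀ a : k, algebraMap k (PowerSeries R) a = PowerSeries.C (algebraMap k R a) :=
    fun a => PowerSeries.algebraMap_apply
  unfold πt νt lπ lν lu lv lt bp
  rw [if_neg h, if_neg h, if_neg h]
  split_ifs
  · simp only [coe_eval₂RingHom, eval₂_X, eval₂_C, e, map_add, map_mul, map_sub,
      and_true]
    ring
  · simp only [coe_eval₂RingHom, eval₂_sub, eval₂_X, eval₂_C, e, eval₂_one, and_self]

theorem lu_πw {p₀ : σ} (h : p₀ ∈ 𝒞.B) (p : σ) :
    eval₂RingHom PowerSeries.C (𝒞.lu p₀) (𝒞.πw p) = 𝒞.lπ p₀ p ∧ 𝒞.lν p₀ p = 1 := by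
  have e : ∀ a : k, algebraMap k (PowerSeries R) a = PowerSeries.C (algebraMap k R a) :=
    fun a => PowerSeries.algebraMap_apply
  unfold πw lπ lν lu lv lt bp
  rw [if_pos h, if_pos h, if_pos h]
  split_ifs
  · simp only [coe_eval₂RingHom, eval₂_sub, eval₂_X, eval₂_C, e, mul_one, and_self]
  · simp only [coe_eval₂RingHom, eval₂_sub, eval₂_add, eval₂_mul, eval₂_X, eval₂_C, e, map_add,
      map_mul, and_true]
    ring

theorem s0_πt (p : σ) : (𝒞.πt p).map (𝒞.T.s0 : R →+* k) =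
    X - C (if p ∈ 𝒞.B then 𝒞.q else 𝒞.pt p) := by
  unfold πt bp
  rw [Polynomial.map_sub, map_X, map_C]
  split_ifs
  · simp only [RingHom.coe_coe, map_add, map_mul, AlgHom.commutes, 𝒞.T.s0_s, zero_mul, add_zero,
      Algebra.algebraMap_self, RingHom.id_apply]
  · simp only [RingHom.coe_coe, AlgHom.commutes, Algebra.algebraMap_self, RingHom.id_apply]

theorem s0_νt (p : σ) : (𝒞.νt p).map (𝒞.T.s0 : R →+* k) = if p ∈ 𝒞.B then 0 else 1 := by
  unfold νt
  split_ifs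
  · rw [map_C, RingHom.coe_coe, 𝒞.T.s0_s, C_0]
  · rw [Polynomial.map_one]

theorem s0_πw (p : σ) : (𝒞.πw p).map (𝒞.T.s0 : R →+* k) =
    if p ∈ 𝒞.B then X - C (𝒞.pt p - 𝒞.q) else C (𝒞.q - 𝒞.pt p) := by
  unfold πw
  split_ifs
  · simp only [Polynomial.map_sub, map_X, map_C, RingHom.coe_coe, AlgHom.commutes,
      Algebra.algebraMap_self, RingHom.id_apply]
  · simp only [Polynomial.map_sub, Polynomial.map_add, Polynomial.map_mul, map_X, map_C,
      RingHom.coe_coe, AlgHom.commutes, Algebra.algebraMap_self, RingHom.id_apply, 𝒞.T.s0_s, C_0,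
      zero_mul, add_zero, C_sub]

theorem ψ_πt (p : σ) : (𝒞.πt p).map (𝒞.T.ψ : R →+* k) = X - C (𝒞.pt p) := by
  unfold πt bp
  rw [Polynomial.map_sub, map_X, map_C]
  split_ifs
  · simp only [RingHom.coe_coe, map_add, map_mul, AlgHom.commutes, 𝒞.T.ψ_s, one_mul,
      Algebra.algebraMap_self, RingHom.id_apply, add_sub_cancel]
  · simp only [RingHom.coe_coe, AlgHom.commutes, Algebra.algebraMap_self, RingHom.id_apply]

theorem ψ_νt (p : σ) : (𝒞.νt p).map (𝒞.T.ψ : R →+* k) = 1 := by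
  unfold νt
  split_ifs
  · rw [map_C, RingHom.coe_coe, 𝒞.T.ψ_s, C_1]
  · rw [Polynomial.map_one]

theorem comp_πt (p : σ) : (𝒞.πt p).comp (C (algebraMap k R 𝒞.q) + C 𝒞.T.s * X) =
    𝒞.νt p * 𝒞.πw p ∧ (𝒞.νt p).comp (C (algebraMap k R 𝒞.q) + C 𝒞.T.s * X) = 𝒞.νt p * 1 := by
  unfold πt νt πw bp
  split_ifs
  · simp only [sub_comp, X_comp, C_comp, C_add, C_mul, add_comp, mul_comp, mul_one, and_true]
    ring
  · simp only [sub_comp, X_comp, C_comp, one_comp, one_mul, and_self]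

theorem exists_reps {ee : σ → ℕ} {g : 𝒞.GG} (h : ∀ p₀, ∃ Γ : PowerSeries R,
    ps k R Γ = (∏ p, (𝒞.loc p₀).π p ^ ee p) * (𝒞.loc p₀).ev g) :
    ∃ (c : R) (P : σ → R[X]), (∀ p, (P p).degree < ee p) ∧
      g = algebraMap R 𝒞.GG c + ∑ p, 𝒞.zeta p * aeval (𝒞.zeta p) (P p) := by
  refine 𝒞.gg_rep fun p₀ => ?_
  obtain ⟨Γ, hΓ⟩ := h p₀
  obtain ⟨U, hU⟩ : IsUnit (∏ p ∈ Finset.univ.erase p₀, 𝒞.lπ p₀ p ^ ee p) :=
    Finset.prod_induction _ IsUnit (fun _ _ => IsUnit.mul) isUnit_one fun p hp =>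
      (𝒞.isUnit_lπ (Finset.ne_of_mem_erase hp)).pow _
  refine ⟨(U⁻¹ : (PowerSeries R)ˣ) * Γ, ?_⟩
  simp only [loc_π, ← map_pow, ← map_prod] at hΓ
  rw [← Finset.mul_prod_erase _ _ (Finset.mem_univ p₀), lπ_self, ← hU] at hΓ
  rw [map_mul, hΓ, ← mul_assoc, ← map_mul, mul_left_comm, Units.inv_mul, mul_one, map_pow]

theorem loc_th {ee : σ → ℕ} {c : R} {P : σ → R[X]} (hP : ∀ p, (P p).degree < ee p) (p₀ : σ)
    {Γ : PowerSeries R} (hΓ : ps k R Γ = (∏ p, (𝒞.loc p₀).π p ^ ee p) *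
      (𝒞.loc p₀).ev (algebraMap R 𝒞.GG c + ∑ p, 𝒞.zeta p * aeval (𝒞.zeta p) (P p)))
    {a : PowerSeries R} {π ν : σ → R[X]}
    (h1 : ∀ p, eval₂RingHom PowerSeries.C a (π p) = 𝒞.lπ p₀ p)
    (h2 : ∀ p, eval₂RingHom PowerSeries.C a (ν p) = 𝒞.lν p₀ p) :
    𝒞.T.s0 (PowerSeries.constantCoeff Γ) =
      ((th c P ee C π ν).map (𝒞.T.s0 : R →+* k)).eval (𝒞.T.s0 (PowerSeries.constantCoeff a)) := by
  have e : Γ = eval₂RingHom PowerSeries.C a (th c P ee C π ν) := by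
    apply ps_inj (k := k)
    have := 𝒞.ev_th (𝒞.loc p₀) (c := c) hP
      ((ps k R : PowerSeries R →+* La R).comp (eval₂RingHom PowerSeries.C a)) (κ := C)
      (π := π) (ν := ν) (RingHom.ext fun r => by
        rw [loc_κ, RingHom.comp_apply, RingHom.comp_apply, coe_eval₂RingHom, eval₂_C]
        rfl) fun p => by
        rw [RingHom.comp_apply, RingHom.comp_apply, h1, h2, RingHom.coe_coe, ← loc_π, ← loc_ν]
        exact (𝒞.loc p₀).ev_zeta p
    simp only [RingHom.comp_apply, h1, RingHom.coe_coe, ← loc_π] at this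
    rw [hΓ, this]
  rw [e, coe_eval₂RingHom, eval_map]
  have := hom_eval₂ (th c P ee C π ν) PowerSeries.C
    ((𝒞.T.s0 : R →+* k).comp PowerSeries.constantCoeff) a
  rw [RingHom.comp_assoc, PowerSeries.constantCoeff_comp_C, RingHom.comp_id] at this
  exact this

end Cf

theorem exists_fam (hV : Cone I) (𝒞 : Cf k R σ) {F : V k[X] N} {ee : σ → ℕ} {y : V 𝒞.GG N}
    (ho : Orb I x' y) (hy : On I y) {c : k} (hc : c ≠ 0) (h0 : y j₀ = algebraMap k _ c)
    (h1 : ∀ i, (∏ p, 𝒞.one.π p ^ ee p) * 𝒞.one.ev (y i) = am F i)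
    (hΓ : ∀ p₀, ∃ Γ : V (PowerSeries R) N,
      (∀ i, ps k R (Γ i) = (∏ p, (𝒞.loc p₀).π p ^ ee p) * (𝒞.loc p₀).ev (y i)) ∧
      ∃ i, 𝒞.T.s0 (PowerSeries.constantCoeff (Γ i)) ≠ 0) :
    ∃ F₁ F₂ G H, Fam I x' 𝒞.T 𝒞.q (∑ p ∈ 𝒞.Bᶜ, ee p) (∑ p ∈ 𝒞.B, ee p) F F₁ F₂ G H := by
  choose Γ hΓ hΓ' using hΓ
  choose c₀ P hP hy' using fun i => 𝒞.exists_reps (ee := ee) (g := y i) fun p₀ => ⟨Γ p₀ i, hΓ p₀ i⟩
  let s0 : R →+* k := 𝒞.T.s0
  let π₁ : σ → k[X] := fun p => if p ∈ 𝒞.B then 1 else X - C (𝒞.pt p)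
  let ν₁ : σ → k[X] := fun p => if p ∈ 𝒞.B then 0 else 1
  let φ : R[X] →ₐ[k] RatFunc k :=
    { (algebraMap k[X] (RatFunc k)).comp (mapRingHom s0) with
      commutes' := fun a => by
        change algebraMap k[X] (RatFunc k) ((C (algebraMap k R a)).map s0) = _
        rw [map_C]
        exact congrArg (fun b => algebraMap k[X] (RatFunc k) (C b)) (𝒞.T.s0.commutes a) }
  have hφ : ∀ g, φ g = algebraMap k[X] (RatFunc k) (g.map s0) := fun g => rfl
  have hκ : (algebraMap k[X] (RatFunc k)).comp (C.comp s0) =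
      (φ.comp (IsScalarTower.toAlgHom k R R[X]) : R →+* RatFunc k) := RingHom.ext fun r => by
    change _ = φ (C r)
    rw [hφ, map_C]
    rfl
  have hC : (mapRingHom s0).comp C = C.comp s0 := mapRingHom_comp_C s0
  have hq : ∀ p, 𝒞.q - 𝒞.pt p ≠ 0 := fun p => sub_ne_zero.2 (𝒞.q_ne p).symm
  have u1 : ∀ p, IsUnit (φ (𝒞.πt p)) := fun p => by
    rw [hφ, 𝒞.s0_πt]
    exact Ne.isUnit (RatFunc.algebraMap_ne_zero (X_sub_C_ne_zero _))
  have u2 : ∀ p, IsUnit (φ (𝒞.πw p)) := fun p => by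
    rw [hφ, 𝒞.s0_πw]
    refine Ne.isUnit (RatFunc.algebraMap_ne_zero ?_)
    split_ifs
    · exact X_sub_C_ne_zero _
    · exact C_ne_zero.2 (hq p)
  have z1 : ∀ i, (th (c₀ i) (P i) ee C 𝒞.πt 𝒞.νt).map s0 =
      (X - C 𝒞.q) ^ (∑ p ∈ 𝒞.B, ee p) * th (c₀ i) (P i) ee (C.comp s0) π₁ ν₁ := fun i => by
    have e := th_scale (c := c₀ i) (P := P i) (ee := ee) (C.comp s0) π₁ ν₁
      fun p => if p ∈ 𝒞.B then X - C 𝒞.q else 1
    have e' : ∏ p, (if p ∈ 𝒞.B then X - C 𝒞.q else 1 : k[X]) ^ ee p =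
        (X - C 𝒞.q) ^ ∑ p ∈ 𝒞.B, ee p := by
      simp only [ite_pow, one_pow, Finset.prod_ite_mem, Finset.univ_inter,
        Finset.prod_pow_eq_pow_sum]
    rw [← e', ← e, ← coe_mapRingHom, th_map, hC]
    congr 1 <;> funext p
    · rw [coe_mapRingHom, 𝒞.s0_πt]
      simp only [π₁]
      split_ifs
      · rw [mul_one]
      · rw [one_mul]
    · rw [coe_mapRingHom, 𝒞.s0_νt]
      simp only [ν₁]
      split_ifs
      · rw [mul_zero]
      · rw [mul_one]
  have m1 := isMap_of (F := fun i => th (c₀ i) (P i) ee (C.comp s0) π₁ ν₁) (j₀ := j₀) hV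
    (hy.map (𝒞.admT φ u1).ev) (ho.map (𝒞.admT φ u1).ev) hc
    (by rw [Function.comp_apply, h0, AlgHom.commutes]) 𝒞.Bᶜ 𝒞.pt ee one_ne_zero
    (fun i => by
      have e := 𝒞.ev_th (𝒞.admT φ u1) (c := c₀ i) (hP i) (algebraMap k[X] (RatFunc k)) hκ
        (π := π₁) (ν := ν₁) fun p => by
          have e := (𝒞.admT φ u1).ev_zeta p
          rw [Cf.admT_π, Cf.admT_ν, hφ, hφ, 𝒞.s0_πt, 𝒞.s0_νt] at e
          simp only [π₁, ν₁]
          split_ifs at e ⊢
          · rw [map_zero] at e ⊢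
            rw [(mul_eq_zero.1 e).resolve_right
              (RatFunc.algebraMap_ne_zero (X_sub_C_ne_zero _)), zero_mul]
          · exact e
      rw [← hy'] at e
      refine e.trans ?_
      rw [C_1, one_mul, ← Finset.prod_mul_prod_compl 𝒞.B, map_prod,
        Finset.prod_eq_one (s := 𝒞.B) fun p hp => by simp only [π₁, if_pos hp, map_one, one_pow],
        one_mul]
      congr 1
      exact Finset.prod_congr rfl fun p hp => by
        simp only [π₁, if_neg (Finset.mem_compl.1 hp), map_pow])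
    (fun i => by
      refine (th_deg s0 (w := fun p => if p ∈ 𝒞.Bᶜ then 1 else 0) (fun p => ?_)
        fun p => ?_).trans (le_of_eq ?_)
      · simp only [π₁, Finset.mem_compl, ite_not]
        split_ifs
        · rw [natDegree_one]
        · rw [natDegree_X_sub_C]
      · simp only [ν₁]
        split_ifs <;> simp only [natDegree_zero, natDegree_one, zero_le, le_refl]
      · simp only [mul_ite, mul_one, mul_zero, Finset.sum_ite_mem, Finset.univ_inter])
    fun p hp => by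
      have hp' := Finset.mem_compl.1 hp
      obtain ⟨i, hi⟩ := hΓ' p
      refine ⟨i, fun e => hi ?_⟩
      have e1 := hΓ p i
      rw [hy' i] at e1
      rw [𝒞.loc_th (hP i) p e1 (fun p' => (𝒞.lt_πt hp' p').1) fun p' => (𝒞.lt_πt hp' p').2, z1,
        eval_mul]
      have e2 : 𝒞.T.s0 (PowerSeries.constantCoeff (𝒞.lt p)) = 𝒞.pt p := by
        simp only [Cf.lt, Cf.bp, if_neg hp', map_add, PowerSeries.constantCoeff_C,
          PowerSeries.constantCoeff_X, add_zero, AlgHom.commutes, Algebra.algebraMap_self,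
          RingHom.id_apply]
      rw [e2, e, mul_zero]
  have m2 := isMap_of (F := fun i => (th (c₀ i) (P i) ee C 𝒞.πw fun _ => 1).map s0) (j₀ := j₀) hV
    (hy.map (𝒞.admU φ u2).ev) (ho.map (𝒞.admU φ u2).ev) hc
    (by rw [Function.comp_apply, h0, AlgHom.commutes]) 𝒞.B (fun p => 𝒞.pt p - 𝒞.q) ee
    (c' := ∏ p ∈ 𝒞.Bᶜ, (𝒞.q - 𝒞.pt p) ^ ee p)
    (Finset.prod_ne_zero_iff.2 fun p _ => pow_ne_zero _ (hq p))
    (fun i => by
      have e := 𝒞.ev_th (𝒞.admU φ u2) (c := c₀ i) (hP i) (φ : R[X] →+* RatFunc k) (κ := C) rfl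
        (π := 𝒞.πw) (ν := fun _ => 1) fun p => by
          rw [map_one, RingHom.coe_coe, ← 𝒞.admU_π φ u2, ← 𝒞.admU_ν φ u2 p]
          exact (𝒞.admU φ u2).ev_zeta p
      rw [← hy'] at e
      refine e.trans ?_
      rw [← Finset.prod_mul_prod_compl 𝒞.B, mul_comm (∏ p ∈ 𝒞.B, _), map_mul, map_prod, map_prod,
        map_prod]
      congr 2
      · exact Finset.prod_congr rfl fun p hp => by
          rw [RingHom.coe_coe, hφ, 𝒞.s0_πw, if_neg (Finset.mem_compl.1 hp), C_pow, map_pow]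
      · exact Finset.prod_congr rfl fun p hp => by
          rw [RingHom.coe_coe, hφ, 𝒞.s0_πw, if_pos hp, map_pow])
    (fun i => by
      change ((mapRingHom s0) _).natDegree ≤ _
      rw [th_map, hC]
      refine (th_deg s0 (w := fun p => if p ∈ 𝒞.B then 1 else 0) (fun p => ?_)
        fun p => ?_).trans (le_of_eq ?_)
      · rw [coe_mapRingHom, 𝒞.s0_πw]
        split_ifs
        · rw [natDegree_X_sub_C]
        · rw [natDegree_C]
      · rw [map_one, natDegree_one]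
        exact zero_le
      · simp only [mul_ite, mul_one, mul_zero, Finset.sum_ite_mem, Finset.univ_inter])
    fun p hp => by
      obtain ⟨i, hi⟩ := hΓ' p
      refine ⟨i, fun e => hi ?_⟩
      have e1 := hΓ p i
      rw [hy' i] at e1
      rw [𝒞.loc_th (hP i) p e1 (ν := fun _ => 1) (fun p' => (𝒞.lu_πw hp p').1) fun p' => by
        rw [map_one, (𝒞.lu_πw hp p').2]]
      have e2 : 𝒞.T.s0 (PowerSeries.constantCoeff (𝒞.lu p)) = 𝒞.pt p - 𝒞.q := by
        simp only [Cf.lu, map_add, PowerSeries.constantCoeff_C, PowerSeries.constantCoeff_X,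
          add_zero, AlgHom.commutes, Algebra.algebraMap_self, RingHom.id_apply]
      rw [e2]
      exact e
  refine ⟨_, _, fun i => th (c₀ i) (P i) ee C 𝒞.πt 𝒞.νt,
    fun i => th (c₀ i) (P i) ee C 𝒞.πw fun _ => 1, fun i => ?_, ?_, fun i => ?_, m1.1, m2.1,
    m1.2, m2.2, z1, fun i => ?_, fun i => rfl⟩
  · rw [← RingHom.comp_id (C : R →+* R[X])]
    refine (th_deg (RingHom.id R) (w := fun _ => 1) (fun p => natDegree_X_sub_C_le _)
      fun p => ?_).trans (le_of_eq ?_)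
    · unfold Cf.νt
      split_ifs
      · rw [natDegree_C]
        exact zero_le
      · rw [natDegree_one]
        exact zero_le
    · simp only [mul_one]
      rw [add_comm, Finset.sum_add_sum_compl]
  · let φ' := IsScalarTower.toAlgHom k R[X] (FractionRing R[X])
    have u : ∀ p, IsUnit (φ' (𝒞.πt p)) := fun p => IsLocalization.map_units (FractionRing R[X])
      (⟨_, (monic_X_sub_C (𝒞.bp p)).mem_nonZeroDivisors⟩ : nonZeroDivisors R[X])
    refine On.of_map (φ := φ') (IsFractionRing.injective R[X] (FractionRing R[X])) ?_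
    have e : (φ' ∘ fun i => th (c₀ i) (P i) ee C 𝒞.πt 𝒞.νt) =
        (∏ p, φ' (𝒞.πt p) ^ ee p) • ((𝒞.admT φ' u).ev ∘ y) := funext fun i => by
      have e := 𝒞.ev_th (𝒞.admT φ' u) (c := c₀ i) (hP i) (φ' : R[X] →+* FractionRing R[X])
        (κ := C) rfl (π := 𝒞.πt) (ν := 𝒞.νt) fun p => by
          rw [RingHom.coe_coe, ← 𝒞.admT_π φ' u, ← 𝒞.admT_ν φ' u p]
          exact (𝒞.admT φ' u).ev_zeta p
      rw [← hy'] at e
      exact e
    rw [e]
    exact (hy.map _).smul hV _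
  · apply IsFractionRing.injective k[X] (RatFunc k)
    have hπ : ∀ p, ((algebraMap k[X] (RatFunc k)).comp (mapRingHom (𝒞.T.ψ : R →+* k)))
        (𝒞.πt p) = 𝒞.one.π p := fun p => by
      rw [RingHom.comp_apply, coe_mapRingHom, 𝒞.ψ_πt, ← Cf.Adm.πu_val, 𝒞.one_πu, map_sub,
        RatFunc.algebraMap_X, RatFunc.algebraMap_C]
      rfl
    have e := 𝒞.ev_th 𝒞.one (c := c₀ i) (hP i)
      ((algebraMap k[X] (RatFunc k)).comp (mapRingHom (𝒞.T.ψ : R →+* k))) (κ := C)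
      (RingHom.ext fun r => by
        rw [RingHom.comp_apply, RingHom.comp_apply, coe_mapRingHom, map_C]
        rfl) (π := 𝒞.πt) (ν := 𝒞.νt) fun p => by
      rw [hπ, 𝒞.one.ev_zeta, 𝒞.one_ν, RingHom.comp_apply, coe_mapRingHom, 𝒞.ψ_νt, map_one]
    rw [← hy'] at e
    simp only [hπ] at e
    exact e.trans (h1 i)
  · have e := th_scale (c := c₀ i) (P := P i) (ee := ee) C 𝒞.πw (fun _ => 1) 𝒞.νt
    have e' : ∏ p, 𝒞.νt p ^ ee p = C 𝒞.T.s ^ ∑ p ∈ 𝒞.B, ee p := by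
      simp only [Cf.νt, ite_pow, one_pow, Finset.prod_ite_mem, Finset.univ_inter,
        Finset.prod_pow_eq_pow_sum]
    rw [← e', ← e, ← coe_compRingHom_apply, th_map]
    congr 1
    · exact RingHom.ext fun r => C_comp
    · exact funext fun p => (𝒞.comp_πt p).1
    · exact funext fun p => (𝒞.comp_πt p).2

end

end Pool.Agent.Lib.MP_41050a_ag
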