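import Pool.Agent.Lib.MP_41050a_ag.Defs

/-! Multiple roots. -/

namespace Pool.Agent.Lib.MP_41050a_ag

open Polynomial

set_option linter.unusedSectionVars false

noncomputable section

/-- A multiple root in an extension gives a power of the minimal polynomial. -/
theorem minpoly_pow_dvd {L Λ : Type} [Field L] [CharZero L] [Field Λ] [Algebra L Λ] {Q : L[X]}
    {τ : Λ} (hτ : IsIntegral L τ) {m : ℕ} (h : (X - C τ) ^ m ∣ Q.map (algebraMap L Λ)) :
    minpoly L τ ^ m ∣ Q := by
  have hsep : ((minpoly L τ).map (algebraMap L Λ)).Separable :=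
    (minpoly.irreducible hτ).separable.map
  have hroot : (X - C τ) ∣ (minpoly L τ).map (algebraMap L Λ) := by
    rw [dvd_iff_isRoot, IsRoot, eval_map_algebraMap]
    exact minpoly.aeval L τ
  obtain ⟨π₁, hπ₁⟩ := hroot
  have hcop : IsCoprime (X - C τ) π₁ := by
    rw [hπ₁] at hsep
    exact hsep.isCoprime
  induction m generalizing Q with
  | zero => simp
  | succ m ih =>
    have h1 : (X - C τ) ∣ Q.map (algebraMap L Λ) :=
      (dvd_pow_self _ (Nat.succ_ne_zero m)).trans h
    rw [dvd_iff_isRoot, IsRoot, eval_map_algebraMap] at h1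
    obtain ⟨Q₁, rfl⟩ := minpoly.dvd L τ h1
    rw [Polynomial.map_mul, hπ₁, pow_succ', mul_assoc,
      mul_dvd_mul_iff_left (X_sub_C_ne_zero τ)] at h
    have h2 : (X - C τ) ^ m ∣ Q₁.map (algebraMap L Λ) :=
      (IsCoprime.pow_left hcop).dvd_of_dvd_mul_left h
    rw [pow_succ']
    exact mul_dvd_mul_left _ (ih h2)

/-- Clearing denominators. -/
theorem mema_clear {A : Type} [CommRing A] [IsDomain A] (p : (FractionRing A)[X]) :
    ∃ b : A, b ≠ 0 ∧ ∃ p' : A[X], p'.map (algebraMap A (FractionRing A)) =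
      C (algebraMap A (FractionRing A) b) * p := by
  obtain ⟨b, hb, h⟩ := IsLocalization.integerNormalization_spec (nonZeroDivisors A) p
  refine ⟨b, nonZeroDivisors.ne_zero hb, _, h.trans ?_⟩
  rw [← IsScalarTower.algebraMap_smul (FractionRing A) b p, smul_eq_C_mul]

/-- Along a deformation that stays at the generic point a root keeps its multiplicity. -/
theorem pow_dvd_of_root {A Λ : Type} [CommRing A] [IsDomain A] [CharZero A] [Field Λ]
    (φ : A →+* PowerSeries Λ) (hφ : Function.Injective (PowerSeries.constantCoeff.comp φ))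
    {Q : A[X]} {τ : Λ} {m : ℕ}
    (h : (X - C τ) ^ m ∣ Q.map (PowerSeries.constantCoeff.comp φ)) :
    PowerSeries.X ^ m ∣ (Q.map φ).eval (PowerSeries.C τ) := by
  rcases eq_or_ne Q 0 with rfl | hQ
  · simp
  rcases Nat.eq_zero_or_pos m with rfl | hm
  · simp
  set ψ : A →+* Λ := PowerSeries.constantCoeff.comp φ with hψ
  let _ : Algebra (FractionRing A) Λ :=
    (IsFractionRing.lift (K := FractionRing A) hφ).toAlgebra
  have hal : ∀ x : A, algebraMap (FractionRing A) Λ (algebraMap A (FractionRing A) x) = ψ x :=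
    fun x => IsFractionRing.lift_algebraMap (K := FractionRing A) hφ x
  have hcomp : (algebraMap (FractionRing A) Λ).comp (algebraMap A (FractionRing A)) = ψ :=
    RingHom.ext hal
  have hinj : Function.Injective (algebraMap A (FractionRing A)) := IsFractionRing.injective A _
  have hQ' : Q.map (algebraMap A (FractionRing A)) ≠ 0 :=
    (Polynomial.map_ne_zero_iff hinj).2 hQ
  have h' : (X - C τ) ^ m ∣
      (Q.map (algebraMap A (FractionRing A))).map (algebraMap (FractionRing A) Λ) := by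
    rwa [Polynomial.map_map, hcomp]
  have hτ : IsIntegral (FractionRing A) τ := by
    refine IsAlgebraic.isIntegral ⟨_, hQ', ?_⟩
    have h1 := (dvd_pow_self _ hm.ne').trans h'
    rwa [dvd_iff_isRoot, IsRoot, eval_map_algebraMap] at h1
  obtain ⟨R, hR⟩ := minpoly_pow_dvd hτ h'
  obtain ⟨c, hc, π', hπ'⟩ := mema_clear (minpoly (FractionRing A) τ)
  obtain ⟨d, hd, R', hR'⟩ := mema_clear R
  have key : C (c ^ m * d) * Q = π' ^ m * R' := by
    apply Polynomial.map_injective _ hinj
    rw [Polynomial.map_mul, Polynomial.map_mul, Polynomial.map_pow, hπ', hR', hR, map_C, map_mul,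
      map_pow, C_mul, C_pow]
    ring
  have hu : IsUnit (φ (c ^ m * d)) := by
    rw [PowerSeries.isUnit_iff_constantCoeff, isUnit_iff_ne_zero]
    have : ψ (c ^ m * d) ≠ 0 :=
      (map_ne_zero_iff ψ hφ).2 (mul_ne_zero (pow_ne_zero _ hc) hd)
    exact this
  have hX : PowerSeries.X ∣ (π'.map φ).eval (PowerSeries.C τ) := by
    rw [PowerSeries.X_dvd_iff, eval_map, hom_eval₂, PowerSeries.constantCoeff_C, ← hψ, ← hcomp,
      ← eval₂_map, hπ', eval₂_mul, ← aeval_def τ (minpoly _ τ), minpoly.aeval, mul_zero]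
  have e : φ (c ^ m * d) * (Q.map φ).eval (PowerSeries.C τ) =
      (π'.map φ).eval (PowerSeries.C τ) ^ m * (R'.map φ).eval (PowerSeries.C τ) := by
    have := congrArg (fun p => (p.map φ).eval (PowerSeries.C τ)) key
    simpa only [Polynomial.map_mul, Polynomial.map_pow, map_C, eval_mul, eval_pow, eval_C]
      using this
  rw [← hu.dvd_mul_left, e]
  exact (pow_dvd_pow_of_dvd hX m).mul_right _

/-- The absence of multiple roots spreads out from the generic point. -/
theorem exists_bez {A Λ : Type} [CommRing A] [Field Λ] [IsAlgClosed Λ] [CharZero Λ] (ξ : A →+* Λ)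
    {Q : A[X]} {μ : ℕ} (h : ∀ τ : Λ, ¬ (X - C τ) ^ (μ + 1) ∣ Q.map ξ) : ∃ h₀ : A, ξ h₀ ≠ 0 ∧
      ∀ (κ : Type) [Field κ] (a : A →+* κ), (∀ g, ξ g = 0 → a g = 0) → a h₀ ≠ 0 →
        ∀ t : κ, ¬ (X - C t) ^ (μ + 1) ∣ Q.map a := by
  have hsub : Function.Injective ξ.range.subtype := Subtype.val_injective
  let j : FractionRing ξ.range →+* Λ := IsFractionRing.lift hsub
  let q : A →+* FractionRing ξ.range :=
    (algebraMap ξ.range (FractionRing ξ.range)).comp ξ.rangeRestrict
  have hjq : ∀ x, j (q x) = ξ x := fun x =>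
    IsFractionRing.lift_algebraMap (K := FractionRing ξ.range) hsub _
  have hcomp : j.comp q = ξ := RingHom.ext hjq
  have hQ0 : Q.map ξ ≠ 0 := fun h0 => h 0 (h0 ▸ dvd_zero _)
  let S : Set (FractionRing ξ.range)[X] := {p | ∃ i ≤ μ, p = derivative^[i] (Q.map q)}
  have htop : Ideal.span S = ⊤ := by
    by_contra hne
    obtain ⟨g, hg⟩ := (IsPrincipalIdealRing.principal (Ideal.span S)).principal
    have hdvd : ∀ i ≤ μ, g ∣ derivative^[i] (Q.map q) := by
      intro i hi
      have : derivative^[i] (Q.map q) ∈ Ideal.span S := Ideal.subset_span ⟨i, hi, rfl⟩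
      rw [hg] at this
      exact Ideal.mem_span_singleton.1 this
    have hdeg : g.degree ≠ 0 := by
      intro h0
      apply hne
      rw [hg]
      exact Ideal.span_singleton_eq_top.2 (isUnit_iff_degree_eq_zero.2 h0)
    obtain ⟨τ, hτ⟩ := IsAlgClosed.exists_eval₂_eq_zero j g hdeg
    apply h τ
    rw [← le_rootMultiplicity_iff hQ0]
    apply lt_rootMultiplicity_of_isRoot_iterate_derivative hQ0
    intro i hi
    obtain ⟨r, hr⟩ := hdvd i hi
    rw [← hcomp, ← Polynomial.map_map, iterate_derivative_map, hr, IsRoot, eval_map, eval₂_mul,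
      hτ, zero_mul]
  let J : Ideal A[X] := Ideal.span {p | ∃ i ≤ μ, p = derivative^[i] Q}
  have key : ∀ p ∈ Ideal.span S, ∃ b : A, ξ b ≠ 0 ∧ ∃ p' ∈ J, p'.map q = C (q b) * p := by
    intro p hp
    induction hp using Submodule.span_induction with
    | mem p hp =>
      obtain ⟨i, hi, rfl⟩ := hp
      refine ⟨1, by simp, derivative^[i] Q, Ideal.subset_span ⟨i, hi, rfl⟩, ?_⟩
      rw [map_one, C_1, one_mul, iterate_derivative_map]
    | zero => exact ⟨1, by simp, 0, J.zero_mem, by simp⟩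
    | add p₁ p₂ _ _ h₁ h₂ =>
      obtain ⟨b₁, hb₁, r₁, hr₁, e₁⟩ := h₁
      obtain ⟨b₂, hb₂, r₂, hr₂, e₂⟩ := h₂
      refine ⟨b₁ * b₂, by rw [map_mul]; exact mul_ne_zero hb₁ hb₂, C b₂ * r₁ + C b₁ * r₂,
        J.add_mem (J.mul_mem_left _ hr₁) (J.mul_mem_left _ hr₂), ?_⟩
      rw [Polynomial.map_add, Polynomial.map_mul, Polynomial.map_mul, e₁, e₂, map_C, map_C,
        map_mul, C_mul]
      ring
    | smul c p _ h₁ =>
      obtain ⟨b₁, hb₁, r₁, hr₁, e₁⟩ := h₁
      obtain ⟨b, hb, c', hc'⟩ := mema_clear c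
      obtain ⟨b', rfl⟩ := ξ.rangeRestrict_surjective b
      obtain ⟨c'', rfl⟩ := Polynomial.map_surjective _ ξ.rangeRestrict_surjective c'
      have hb' : ξ b' ≠ 0 := fun h0 => hb (Subtype.ext h0)
      refine ⟨b' * b₁, by rw [map_mul]; exact mul_ne_zero hb' hb₁, c'' * r₁,
        J.mul_mem_left _ hr₁, ?_⟩
      rw [Polynomial.map_map] at hc'
      have hc2 : c''.map q = C (q b') * c := hc'
      rw [Polynomial.map_mul, hc2, e₁, map_mul, C_mul, smul_eq_mul]
      ring
  obtain ⟨b, hb, p', hp', e⟩ := key 1 (htop ▸ Submodule.mem_top)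
  refine ⟨b, hb, fun κ _ a ha hab t ht => hab ?_⟩
  have h1 : (p' - C b).map a = 0 := by
    ext n
    rw [coeff_map, coeff_zero]
    apply ha
    rw [← hjq, ← coeff_map, Polynomial.map_sub, e, map_C, mul_one, sub_self, coeff_zero, map_zero]
  have h2 : ∀ p ∈ J, (p.map a).eval t = 0 := by
    intro p hp
    induction hp using Submodule.span_induction with
    | mem p hp =>
      obtain ⟨i, hi, rfl⟩ := hp
      have h3 := pow_sub_dvd_iterate_derivative_of_pow_dvd i ht
      have h4 := (dvd_pow_self (X - C t) (by omega : μ + 1 - i ≠ 0)).trans h3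
      rw [iterate_derivative_map] at h4
      exact dvd_iff_isRoot.1 h4
    | zero => simp
    | add p₁ p₂ _ _ h₁ h₂ => rw [Polynomial.map_add, eval_add, h₁, h₂, add_zero]
    | smul c p _ h₁ => rw [smul_eq_mul, Polynomial.map_mul, eval_mul, h₁, mul_zero]
  have h5 := h2 p' hp'
  rw [Polynomial.map_sub, sub_eq_zero, map_C] at h1
  rwa [h1, eval_C] at h5

end

end Pool.Agent.Lib.MP_41050a_ag
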