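import Pool.Agent.Lib.MP_41050a_ag.Deform
import Pool.Agent.Lib.MP_41050a_ag.MemA

/-! A good member of a component. -/

namespace Pool.Agent.Lib.MP_41050a_ag

open Polynomial

set_option linter.unusedSectionVars false

noncomputable section

variable {k : Type} [Field k] [IsAlgClosed k] [CharZero k] {N : ℕ} {I : Ideal (Pk k N)} {e : ℕ}
  {P : Ideal (MvPolynomial (Ix N e) k)} {Δ : Pk k N} {D : ℕ}

theorem member_cc {σ Λ : Type} [Field Λ] [Algebra k Λ] (c : σ → PowerSeries Λ)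
    (g : MvPolynomial σ k) : PowerSeries.constantCoeff (MvPolynomial.aeval c g) =
      MvPolynomial.aeval (PowerSeries.constantCoeff ∘ c) g := by
  induction g using MvPolynomial.induction_on with
  | C a => simp [PowerSeries.algebraMap_apply]
  | add p q hp hq => simp only [map_add, hp, hq]
  | mul_X p i hp => simp only [map_mul, hp, MvPolynomial.aeval_X, Function.comp]

theorem member_top {R : Type} [CommRing R] [Algebra k R] (c : Ix N e → R) :
    MvPolynomial.aeval c (MvPolynomial.aeval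
      (fun i => (MvPolynomial.X (i, Fin.last e) : MvPolynomial (Ix N e) k)) Δ) =
      MvPolynomial.aeval (fun i => (pol c i).coeff e) Δ := by
  rw [map_aev]
  refine congrArg (fun z => MvPolynomial.aeval z Δ) (funext fun i => ?_)
  exact (MvPolynomial.aeval_X c _).trans (pol_coeff c i (Fin.last e)).symm

theorem member_val {T R : Type} [CommRing R] [Algebra k R] (η : Option (Ix N e) → R)
    (p : Option T) (i : Fin (N + 1)) :
    MvPolynomial.aeval η (val e (p.map fun _ => MvPolynomial.X none)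
      (pol (fun j => (MvPolynomial.X (some j) : MvPolynomial (Option (Ix N e)) k)) i)) =
      val e (p.map fun _ => η none) (pol (η ∘ some) i) := by
  refine (val_map (MvPolynomial.aeval η : MvPolynomial (Option (Ix N e)) k →ₐ[k] R).toRingHom
    _ _).symm.trans ?_
  rw [pol_map, Option.map_map]
  refine congrArg₂ (fun u v => val e (p.map u) (pol v i)) (funext fun _ => ?_) (funext fun j => ?_)
  · exact MvPolynomial.aeval_X η _
  · exact MvPolynomial.aeval_X η _

/-- A deformation inside the component along which `Δ` has bounded order. -/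
theorem member_def (hV : SmoothVar I) {h1 : MvPolynomial (Ix N e) k}
    (h1s : ∀ P' : Ideal (MvPolynomial (Ix N e) k), P'.IsPrime → eqs I e ≤ P' → h1 ∉ P' → P ≤ P')
    {Λ : Type} [Field Λ] [Algebra k Λ] [IsAlgClosed Λ] {μ : ℕ}
    (hμ : ∀ x : V Λ N, On I x → x ≠ 0 → ∃ m ≤ μ,
      ∃ γ : V (PowerSeries Λ) N, (∀ i, PowerSeries.constantCoeff (γ i) = x i) ∧
        (∀ Φ ∈ I, PowerSeries.X ^ (m + 1) ∣ MvPolynomial.aeval γ Φ) ∧
        ¬ PowerSeries.X ^ (m + 1) ∣ MvPolynomial.aeval γ Δ)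
    {a : Ix N e → Λ} (hF : IsMap I e (pol a)) (hf : Free I e (pol a))
    (ha : MvPolynomial.aeval a h1 ≠ 0) (p : Option Λ) :
    ∃ m ≤ μ, ∃ c : Ix N e → PowerSeries Λ, (∀ g ∈ P, MvPolynomial.aeval c g = 0) ∧
      (∀ g : MvPolynomial (Ix N e) k,
        PowerSeries.constantCoeff (MvPolynomial.aeval c g) = MvPolynomial.aeval a g) ∧
      ¬ PowerSeries.X ^ (m + 1) ∣
        MvPolynomial.aeval (fun i => val e (p.map PowerSeries.C) (pol c i)) Δ := by
  obtain ⟨m, hm, γ, h0, hγ, hd⟩ := hμ _ (On.val hV hF p) fun h => by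
    obtain ⟨i, hi⟩ := hF.bpf p
    exact hi (congrFun h i)
  obtain ⟨c, hc, hc0, hc1⟩ := deform hV hF hf p h0 hγ
  have e1 : PowerSeries.constantCoeff ∘ c = a :=
    pol_inj (funext fun i => (pol_map c PowerSeries.constantCoeff i).symm.trans (hc0 i))
  have e2 : ∀ g : MvPolynomial (Ix N e) k,
      PowerSeries.constantCoeff (MvPolynomial.aeval c g) = MvPolynomial.aeval a g := fun g => by
    rw [member_cc, e1]
  refine ⟨m, hm, c, h1s (RingHom.ker
    (MvPolynomial.aeval c : MvPolynomial (Ix N e) k →ₐ[k] PowerSeries Λ)) (RingHom.ker_isPrime _)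
    (eqs_iff.2 hc) fun h => ha ?_, e2, fun h => hd ?_⟩
  · rw [← e2, RingHom.mem_ker.1 h, map_zero]
  · have h2 := Ideal.mem_span_singleton.1
      (aev_congr (fun i => Ideal.mem_span_singleton.2 (hc1 i)) Δ)
    exact (dvd_sub_right h).1 h2

theorem lead_notMem (hV : SmoothVar I) (hI : Δ ∉ I) (hP : P ∈ (eqs I e).minimalPrimes)
    (hg : GenFree I e P) :
    MvPolynomial.aeval (fun i => MvPolynomial.X (i, Fin.last e)) Δ ∉ P := by
  intro hl
  obtain ⟨h0, h0P, h0s⟩ := hg
  obtain ⟨h1, h1P, h1s⟩ := exists_sep hP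
  obtain ⟨μ, hμ⟩ := hV.jets hI
  obtain ⟨a, ha, ha'⟩ := exists_closed hP.1.1 (h := h0 * h1)
    fun h => (hP.1.1.mem_or_mem h).elim h0P h1P
  rw [map_mul] at ha'
  obtain ⟨hF, hf⟩ := h0s a ha (left_ne_zero_of_mul ha')
  obtain ⟨m, -, c, hc, -, hd⟩ := member_def hV h1s (hμ k) hF hf (right_ne_zero_of_mul ha') none
  have h2 := hc _ hl
  rw [member_top] at h2
  exact hd (Dvd.intro 0 ((mul_zero _).trans h2.symm))

theorem generic_isMap (hP : P ∈ (eqs I e).minimalPrimes) (hg : GenFree I e P) {Λ : Type} [Field Λ]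
    [Algebra k Λ] {ξ : Ix N e → Λ} (hξ : ∀ g, MvPolynomial.aeval ξ g = 0 ↔ g ∈ P) :
    IsMap I e (pol ξ) := by
  refine ⟨pol_deg ξ, eqs_iff.1 fun g h => (hξ g).2 (hP.1.2 h), fun p => ?_⟩
  by_contra hp
  obtain ⟨h0, h0P, h0s⟩ := hg
  obtain ⟨b, hb, hb'⟩ := exists_closed (RingHom.ker_isPrime (MvPolynomial.aeval
    (fun o : Option (Ix N e) => o.elim (p.getD 0) ξ) : MvPolynomial (Option (Ix N e)) k →ₐ[k] Λ))
    (h := MvPolynomial.rename some h0) fun h => h0P ((hξ h0).1 (by
      rwa [RingHom.mem_ker, MvPolynomial.aeval_rename] at h))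
  rw [MvPolynomial.aeval_rename] at hb'
  obtain ⟨i, hi⟩ := (h0s (b ∘ some) (fun g h => by
    rw [← MvPolynomial.aeval_rename]
    refine hb _ ?_
    rw [RingHom.mem_ker, MvPolynomial.aeval_rename]
    exact (hξ g).2 h) hb').1.bpf (p.map fun _ => b none)
  rw [← member_val (k := k)] at hi
  refine hi (hb _ ?_)
  rw [RingHom.mem_ker, member_val]
  refine Eq.trans ?_ (not_not.1 fun h => hp ⟨i, h⟩)
  cases p <;> rfl

theorem exists_member (hV : SmoothVar I) (hΔ : Δ.IsHomogeneous D) (hI : Δ ∉ I)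
    (horb : ∀ (Λ : Type) [Field Λ] [Algebra k Λ] [IsAlgClosed Λ] (e : ℕ) (F : V Λ[X] N),
      IsMap I e F → MvPolynomial.aeval F Δ ≠ 0 → Free I e F) {μ : ℕ} (hμ : Jets I Δ μ) :
    ∀ (e : ℕ) (P : Ideal (MvPolynomial (Ix N e) k)), P ∈ (eqs I e).minimalPrimes → GenFree I e P →
      ∃ a : Ix N e → k, IsMap I e (pol a) ∧ (MvPolynomial.aeval (pol a) Δ).coeff (D * e) ≠ 0 ∧
        (∀ t : k, ¬ (X - C t) ^ (μ + 1) ∣ MvPolynomial.aeval (pol a) Δ) ∧
        ∀ P' : Ideal (MvPolynomial (Ix N e) k), P'.IsPrime → eqs I e ≤ P' →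
          (∀ g ∈ P', MvPolynomial.aeval a g = 0) → P ≤ P' := by
  intro e P hP hg
  have := hP.1.1
  have hl := lead_notMem hV hI hP hg
  obtain ⟨Λ, _, _, _, ξ, hξ⟩ := exists_generic hP.1.1
  have hF := generic_isMap hP hg hξ
  obtain ⟨h0, h0P, h0s⟩ := hg
  obtain ⟨h1, h1P, h1s⟩ := exists_sep hP
  have hf := horb Λ e _ hF fun h => hl ((hξ _).1 (by
    rw [member_top, ← (coeff_aev hΔ (pol_deg ξ)).2, h, coeff_zero]))
  have : CharZero Λ := charZero_of_injective_algebraMap (algebraMap k Λ).injective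
  have : CharZero (MvPolynomial (Ix N e) k ⧸ P) :=
    charZero_of_injective_algebraMap (algebraMap k _).injective
  obtain ⟨h3, h3P, h3s⟩ := exists_bez
    (MvPolynomial.aeval ξ : MvPolynomial (Ix N e) k →ₐ[k] Λ).toRingHom
    (Q := MvPolynomial.aeval (UU k N e) Δ) (μ := μ) fun τ hτ => by
      obtain ⟨m, hm, c, hc, hcc, hd⟩ := member_def hV h1s (hμ Λ) hF hf
        (fun h => h1P ((hξ h1).1 h)) (some τ)
      have e1 : (Ideal.Quotient.lift P
          (MvPolynomial.aeval c : MvPolynomial (Ix N e) k →ₐ[k] PowerSeries Λ).toRingHom hc).comp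
          (Ideal.Quotient.mk P) = (MvPolynomial.aeval c).toRingHom := rfl
      have e2 : (PowerSeries.constantCoeff.comp (Ideal.Quotient.lift P
          (MvPolynomial.aeval c : MvPolynomial (Ix N e) k →ₐ[k] PowerSeries Λ).toRingHom hc)).comp
          (Ideal.Quotient.mk P) = (MvPolynomial.aeval ξ).toRingHom := RingHom.ext hcc
      have h4 := pow_dvd_of_root (Ideal.Quotient.lift P
          (MvPolynomial.aeval c : MvPolynomial (Ix N e) k →ₐ[k] PowerSeries Λ).toRingHom hc)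
        ((injective_iff_map_eq_zero _).2 fun x hx => by
          obtain ⟨g, rfl⟩ := Ideal.Quotient.mk_surjective x
          exact Ideal.Quotient.eq_zero_iff_mem.2 ((hξ g).1 ((hcc g).symm.trans hx)))
        (Q := (MvPolynomial.aeval (UU k N e) Δ).map (Ideal.Quotient.mk P)) (τ := τ) (m := m + 1)
        (by
          rw [Polynomial.map_map, e2]
          exact (pow_dvd_pow _ (by omega)).trans hτ)
      rw [Polynomial.map_map, e1, AlgHom.toRingHom_eq_coe, map_aev_UU, eval_aev] at h4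
      exact hd h4
  obtain ⟨a, ha, ha'⟩ := exists_closed hP.1.1 (h := h0 * h1 *
    MvPolynomial.aeval (fun i => MvPolynomial.X (i, Fin.last e)) Δ * h3) fun h =>
      (hP.1.1.mem_or_mem h).elim (fun h => (hP.1.1.mem_or_mem h).elim
        (fun h => (hP.1.1.mem_or_mem h).elim h0P h1P) hl) fun h => h3P ((hξ h3).2 h)
  rw [map_mul, map_mul, map_mul, mul_ne_zero_iff, mul_ne_zero_iff, mul_ne_zero_iff] at ha'
  refine ⟨a, (h0s a ha ha'.1.1.1).1, ?_, fun t => ?_,
    fun P' hP' hle hv => h1s P' hP' hle fun h => ha'.1.1.2 (hv _ h)⟩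
  · rw [(coeff_aev hΔ (pol_deg a)).2, ← member_top]
    exact ha'.1.2
  · rw [← map_aev_UU]
    exact h3s k (MvPolynomial.aeval a : MvPolynomial (Ix N e) k →ₐ[k] k).toRingHom
      (fun g h => ha g ((hξ g).1 h)) ha'.2 t

end

end Pool.Agent.Lib.MP_41050a_ag
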