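import Pool.Agent.Lib.MP_41050a_ag.UE

/-! From points with values in the field to all points. -/

namespace Pool.Agent.Lib.MP_41050a_ag

open Polynomial Filter

set_option linter.unusedSectionVars false

noncomputable section

variable {k : Type} [Field k] [IsAlgClosed k] [CharZero k] {N : ℕ} {I : Ideal (Pk k N)}
  {x' : V k N} {j₀ : Fin (N + 1)} {Δ : Pk k N} {D m : ℕ} {Y Y' : Fin (N + 1) → Pk k N}

theorem Cone.vanish (hV : Cone I) (hΔ : Δ.IsHomogeneous D) {Ψ : Pk k N}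
    (h : ∀ z : V k N, On I z → z j₀ = 1 → MvPolynomial.aeval z Δ ≠ 0 →
      MvPolynomial.aeval z Ψ = 0) {E : Type} [CommRing E] [Algebra k E] {z : V E N} (hz : On I z)
    (h0 : z j₀ = 1) (h1 : IsUnit (MvPolynomial.aeval z Δ)) : MvPolynomial.aeval z Ψ = 0 := by
  obtain ⟨Ψ', k1, k2⟩ := exists_homog Ψ j₀ le_rfl
  have k3 : Ψ' * Δ * MvPolynomial.X j₀ ∈ I := by
    by_contra hn
    obtain ⟨w, hw, hw'⟩ := exists_closed hV.prime hn
    rw [map_mul, map_mul, MvPolynomial.aeval_X, mul_ne_zero_iff, mul_ne_zero_iff] at hw'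
    have k4 : ((w j₀)⁻¹ • w) j₀ = 1 := inv_mul_cancel₀ hw'.2
    have k5 := h _ (On.smul hV hw (w j₀)⁻¹) k4 (by
      rw [aev_smul hΔ]
      exact mul_ne_zero (pow_ne_zero _ (inv_ne_zero hw'.2)) hw'.1.2)
    rw [← k2 k _ k4, aev_smul k1] at k5
    exact mul_ne_zero (pow_ne_zero _ (inv_ne_zero hw'.2)) hw'.1.1 k5
  have k4 := hz _ k3
  rwa [map_mul, map_mul, MvPolynomial.aeval_X, h0, mul_one, h1.mul_left_eq_zero, k2 E z h0] at k4

section

variable {F : Type} [CommRing F] [Algebra k F] {u : V F N} {η : Fin (N + 1) → Fˣ} {n : Mt F N}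
  {Z : Mt (Pk k N) N} {d e : F}

theorem uf_zpow (η : Fˣ) (c : ℤ) : η ^ c = η ^ c.toNat * η⁻¹ ^ (-c).toNat := by
  rw [inv_pow, ← zpow_natCast, ← zpow_natCast, ← zpow_sub, Int.toNat_sub_toNat_neg]

theorem uf_rel (h : ∀ i, (η i : F) * d = MvPolynomial.aeval u (Y i) ∧
    ((η i)⁻¹ : Fˣ) * d = MvPolynomial.aeval u (Y' i)) (c : Fin (N + 1) → ℤ) :
    MvPolynomial.aeval u (∏ i, Y i ^ (c i).toNat * Y' i ^ (-c i).toNat) =
      (∏ i, η i ^ c i : Fˣ) * d ^ ∑ i, ((c i).toNat + (-c i).toNat) := by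
  rw [map_prod, Units.coe_prod, ← Finset.prod_pow_eq_pow_sum, ← Finset.prod_mul_distrib]
  refine Finset.prod_congr rfl fun i _ => ?_
  rw [map_mul, map_pow, map_pow, ← (h i).1, ← (h i).2, uf_zpow, Units.val_mul,
    Units.val_pow_eq_pow_val, Units.val_pow_eq_pow_val]
  ring

theorem uf_vec (hn : ∀ a b, n a b * e = MvPolynomial.aeval u (Z a b)) (v : V (Pk k N) N) :
    MvPolynomial.aeval u ∘ Z.mulVec v = e • n.mulVec (MvPolynomial.aeval u ∘ v) := by
  rw [map_mulVec, ← Matrix.smul_mulVec]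
  congr 1
  ext a b
  exact (hn a b).symm.trans (mul_comm _ _)

theorem uf_orb (hn : ∀ a b, n a b * e = MvPolynomial.aeval u (Z a b))
    (h : ∀ i, (η i : F) * d = MvPolynomial.aeval u (Y i)) (a : Fin (N + 1)) :
    MvPolynomial.aeval u (Z.mulVec (fun b => Y b * MvPolynomial.C (x' b)) a) =
      e * d * n.mulVec (tw x' η) a := by
  have h1 : MvPolynomial.aeval u ∘ (fun b => Y b * MvPolynomial.C (x' b)) = d • tw x' η := by
    funext b
    rw [Function.comp_apply, map_mul, MvPolynomial.aeval_C, ← h b, Pi.smul_apply, tw, smul_eq_mul]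
    ring
  refine (congrFun (uf_vec hn _) a).trans ?_
  rw [h1, Matrix.mulVec_smul, Pi.smul_apply, Pi.smul_apply, smul_eq_mul, smul_eq_mul, mul_assoc]

theorem uf_one (u : V F N) (a b : Fin (N + 1)) :
    MvPolynomial.aeval u ((1 : Mt (Pk k N) N) a b) = (1 : Mt F N) a b := by
  rw [Matrix.one_apply, Matrix.one_apply]
  split_ifs
  exacts [map_one _, map_zero _]

end

theorem PG.gen (hV : Cone I) (hΔ : Δ.IsHomogeneous D) {M : ℕ} {Z : Mt (Pk k N) N}
    (h : PG I x' j₀ Δ m Y Y' M Z) : Gen I x' j₀ Δ m Y Y' := by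
  intro E _ _ z hz h0 h1
  have T : ∀ A B : Pk k N, (∀ (w : V k N) (n : Mt k N) (η : Fin (N + 1) → kˣ), NN I n →
      RelS I x' η → w = n.mulVec (tw x' η) →
      (∀ i, (η i : k) * MvPolynomial.aeval w Δ ^ m = MvPolynomial.aeval w (Y i) ∧
        ((η i)⁻¹ : kˣ) * MvPolynomial.aeval w Δ ^ m = MvPolynomial.aeval w (Y' i)) →
      (∀ a b, n a b * MvPolynomial.aeval w Δ ^ M = MvPolynomial.aeval w (Z a b)) →
      MvPolynomial.aeval w A = MvPolynomial.aeval w B) →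
      MvPolynomial.aeval z A = MvPolynomial.aeval z B := fun A B H => by
    rw [← sub_eq_zero, ← map_sub]
    refine hV.vanish hΔ (fun w w1 w2 w3 => ?_) hz h0 h1
    obtain ⟨n, η, a1, a2, a3, a4, a5⟩ := h w w1 w2 w3
    rw [map_sub, H w n η a1 a2 a3 a4 a5, sub_self]
  obtain ⟨δ, hδ⟩ := id h1
  have c1 : ∀ (r : ℕ) (y : E), ((δ⁻¹ : Eˣ) : E) ^ r * y * MvPolynomial.aeval z Δ ^ r = y :=
    fun r y => by rw [← hδ, mul_right_comm, ← mul_pow, Units.inv_mul, one_pow, one_mul]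
  have c2 : ∀ i, ((δ⁻¹ : Eˣ) : E) ^ m * MvPolynomial.aeval z (Y i) *
      (((δ⁻¹ : Eˣ) : E) ^ m * MvPolynomial.aeval z (Y' i)) = 1 := fun i => by
    have c3 := T (Y i * Y' i) (Δ ^ m * Δ ^ m) fun w n η _ _ _ a4 _ => by
      rw [map_mul, map_mul, map_pow, ← (a4 i).1, ← (a4 i).2, mul_mul_mul_comm, Units.mul_inv,
        one_mul]
    rw [mul_mul_mul_comm, ← map_mul, c3, map_mul, map_pow, mul_mul_mul_comm, ← hδ, ← mul_pow,
      Units.inv_mul, one_pow, one_mul]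
  let η : Fin (N + 1) → Eˣ := fun i => ⟨_, _, c2 i, (mul_comm _ _).trans (c2 i)⟩
  let n : Mt E N := fun a b => ((δ⁻¹ : Eˣ) : E) ^ M * MvPolynomial.aeval z (Z a b)
  have hη : ∀ i, (η i : E) * MvPolynomial.aeval z Δ ^ m = MvPolynomial.aeval z (Y i) ∧
      ((η i)⁻¹ : Eˣ) * MvPolynomial.aeval z Δ ^ m = MvPolynomial.aeval z (Y' i) :=
    fun i => ⟨c1 _ _, c1 _ _⟩
  have hn : ∀ a b, n a b * MvPolynomial.aeval z Δ ^ M = MvPolynomial.aeval z (Z a b) :=
    fun a b => c1 _ _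
  clear_value η n
  refine ⟨n, η, ⟨fun a b hab => ?_, fun x hx => ?_⟩, fun c hc hs => ?_, funext fun a => ?_, hη⟩
  · have c3 := T (Z a b) ((1 : Mt (Pk k N) N) a b * Δ ^ M) fun w n η a1 _ _ _ a5 => by
      rw [← a5, map_mul, map_pow, uf_one, sub_eq_zero.1 (a1.su a b hab)]
    rw [← hn, map_mul, map_pow, uf_one, (h1.pow M).mul_left_inj] at c3
    exact sub_eq_zero.2 c3
  · have c3 : On I (MvPolynomial.aeval z Δ ^ M • n.mulVec (cs E x)) := fun Φ hΦ => by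
      have c4 := T (MvPolynomial.aeval (Z.mulVec (cs (Pk k N) x)) Φ) 0 fun w n η a1 _ _ _ a5 => by
        rw [map_aev, uf_vec a5, map_cs, map_zero]
        exact (a1.pres x hx).smul hV _ Φ hΦ
      rwa [map_aev, uf_vec hn, map_cs, map_zero] at c4
    have c4 := c3.smul hV (((δ⁻¹ : Eˣ) : E) ^ M)
    rwa [smul_smul, ← hδ, ← mul_pow, Units.inv_mul, one_pow, one_smul] at c4
  · have c3 := T (∏ i, Y i ^ (c i).toNat * Y' i ^ (-c i).toNat)
      ((Δ ^ m) ^ ∑ i, ((c i).toNat + (-c i).toNat)) fun w n η _ a2 _ a4 _ => by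
        rw [uf_rel a4, a2 c hc hs, Units.val_one, one_mul, map_pow, map_pow]
    rw [uf_rel hη, map_pow, map_pow, ((h1.pow m).pow _).mul_eq_right] at c3
    exact Units.ext c3
  · have c3 := T (Δ ^ M * Δ ^ m * MvPolynomial.X a)
      (Z.mulVec (fun b => Y b * MvPolynomial.C (x' b)) a) fun w n η _ _ a3 a4 a5 => by
        rw [uf_orb a5 fun i => (a4 i).1, ← a3, map_mul, map_mul, map_pow, map_pow,
          MvPolynomial.aeval_X]
    rwa [uf_orb hn fun i => (hη i).1, map_mul, map_mul, map_pow, map_pow, MvPolynomial.aeval_X,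
      ((h1.pow M).mul (h1.pow m)).mul_right_inj] at c3

end

end Pool.Agent.Lib.MP_41050a_ag
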