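import Pool.Agent.Lib.MP_41050a_ag.Gen
import Pool.Agent.Lib.MP_41050a_ag.Coef

/-! The description of the orbit, tested on points with values in the field. -/

namespace Pool.Agent.Lib.MP_41050a_ag

open Polynomial Filter

set_option linter.unusedSectionVars false

noncomputable section

variable {k : Type} [Field k] {N : ℕ} {I : Ideal (Pk k N)} {x' : V k N} {j₀ : Fin (N + 1)}
  {Δ : Pk k N} {m : ℕ} {Y Y' : Fin (N + 1) → Pk k N}

/-- The pointwise form of `Gen`, with formulas for the unipotent part. -/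
def PG (I : Ideal (Pk k N)) (x' : V k N) (j₀ : Fin (N + 1)) (Δ : Pk k N) (m : ℕ)
    (Y Y' : Fin (N + 1) → Pk k N) (M : ℕ) (Z : Mt (Pk k N) N) : Prop :=
  ∀ z : V k N, On I z → z j₀ = 1 → MvPolynomial.aeval z Δ ≠ 0 →
    ∃ (n : Mt k N) (η : Fin (N + 1) → kˣ), NN I n ∧ RelS I x' η ∧ z = n.mulVec (tw x' η) ∧
      (∀ i, (η i : k) * MvPolynomial.aeval z Δ ^ m = MvPolynomial.aeval z (Y i) ∧
        ((η i)⁻¹ : kˣ) * MvPolynomial.aeval z Δ ^ m = MvPolynomial.aeval z (Y' i)) ∧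
      ∀ a b, n a b * MvPolynomial.aeval z Δ ^ M = MvPolynomial.aeval z (Z a b)

/-- The universal algebra in which `J` vanishes and `d` is a unit. -/
theorem ue_univ {P : Type} [CommRing P] [Algebra k P] (J : Ideal P) (d : P) :
    ∃ (E : Type) (_ : CommRing E) (_ : Algebra k E) (π : P →ₐ[k] E), (∀ p ∈ J, π p = 0) ∧
      IsUnit (π d) ∧ (∀ e, ∃ (n : ℕ) (p : P), e * π d ^ n = π p) ∧
      ∀ h : P →ₐ[k] k, (∀ p ∈ J, h p = 0) → h d ≠ 0 → ∃ φ : E →ₐ[k] k, ∀ p, φ (π p) = h p := by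
  refine ⟨Localization.Away (Ideal.Quotient.mk J d), inferInstance, inferInstance,
    (IsScalarTower.toAlgHom k (P ⧸ J) _).comp (Ideal.Quotient.mkₐ k J), fun p hp => ?_,
    IsLocalization.Away.algebraMap_isUnit (Ideal.Quotient.mk J d), fun e => ?_,
    fun h h0 hd => ?_⟩
  · change algebraMap (P ⧸ J) _ (Ideal.Quotient.mk J p) = 0
    rw [Ideal.Quotient.eq_zero_iff_mem.2 hp, map_zero]
  · obtain ⟨n, a, e1⟩ := IsLocalization.Away.surj (Ideal.Quotient.mk J d) e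
    obtain ⟨p, rfl⟩ := Ideal.Quotient.mk_surjective a
    exact ⟨n, p, e1⟩
  · have h1 : ∀ y : Submonoid.powers (Ideal.Quotient.mk J d),
        IsUnit (Ideal.Quotient.liftₐ J h h0 y) := by
      rintro ⟨_, n, rfl⟩
      change IsUnit (Ideal.Quotient.liftₐ J h h0 (Ideal.Quotient.mk J d ^ n))
      rw [map_pow]
      exact hd.isUnit.pow n
    exact ⟨IsLocalization.liftAlgHom h1, fun p =>
      IsLocalization.lift_eq h1 (Ideal.Quotient.mk J p)⟩

/-- Apply `Gen` to the universal point. -/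
theorem Gen.pg (h : Gen I x' j₀ Δ m Y Y') : ∃ M Z, PG I x' j₀ Δ m Y Y' M Z := by
  obtain ⟨E, _, _, π, h0, hu, hs, hφ⟩ :=
    ue_univ (k := k) (I ⊔ Ideal.span {MvPolynomial.X j₀ - 1}) Δ
  have hπ : ∀ p, MvPolynomial.aeval (π ∘ MvPolynomial.X) p = π p := fun p => by
    rw [← map_aev, MvPolynomial.aeval_X_left_apply]
  obtain ⟨n, η, hn, hη, e, hY⟩ := h E (π ∘ MvPolynomial.X)
    (fun Φ hΦ => (hπ Φ).trans (h0 Φ (Ideal.mem_sup_left hΦ)))
    (by
      have h1 := h0 _ (Ideal.mem_sup_right (Ideal.mem_span_singleton_self _))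
      rwa [map_sub, map_one, sub_eq_zero] at h1) (by rwa [hπ])
  choose r p hp using fun a : Fin (N + 1) × Fin (N + 1) => hs (n a.1 a.2)
  refine ⟨Finset.univ.sup r, fun a b => p (a, b) * Δ ^ (Finset.univ.sup r - r (a, b)),
    fun z hz h1 hd => ?_⟩
  obtain ⟨φ, hφ⟩ := hφ (MvPolynomial.aeval z) (fun q hq => by
    refine (sup_le (c := RingHom.ker (MvPolynomial.aeval z : Pk k N →ₐ[k] k)) (fun Φ hΦ => hz Φ hΦ)
      ((Ideal.span_singleton_le_iff_mem _).2 ?_)) hq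
    rw [RingHom.mem_ker, map_sub, map_one, MvPolynomial.aeval_X, h1, sub_self]) hd
  refine ⟨n.map φ, um φ η, hn.map φ, hη.map φ, ?_, fun i => ?_, fun a b => ?_⟩
  · rw [← map_tw, ← map_mulVec, ← e]
    funext i
    exact ((hφ _).trans (MvPolynomial.aeval_X z i)).symm
  · obtain ⟨e1, e2⟩ := hY i
    rw [hπ, hπ] at e1 e2
    have e3 := congrArg φ e1
    have e4 := congrArg φ e2
    rw [map_mul, map_pow, hφ, hφ] at e3 e4
    exact ⟨e3, e4⟩
  · have e1 := congrArg φ (hp (a, b))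
    rw [map_mul, map_pow, hφ, hφ] at e1
    rw [map_mul, map_pow, ← e1, mul_assoc, ← pow_add,
      Nat.add_sub_cancel' (Finset.le_sup (Finset.mem_univ _))]
    rfl

end

end Pool.Agent.Lib.MP_41050a_ag
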