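import Pool.Agent.Lib.MP_41050a_ag.UD
import Pool.Agent.Lib.MP_41050a_ag.UE

/-! The description of the orbit descends from the limit. -/

namespace Pool.Agent.Lib.MP_41050a_ag

open Polynomial Filter

set_option linter.unusedSectionVars false

noncomputable section

variable {k : ℕ → Type} [∀ j, Field (k j)] {K : Type} [Field K] {N d : ℕ}
  {I : ∀ j, Ideal (Pk (k j) N)}

theorem ug_eq (U : Ul k K) (z : ∀ j, V (k j) N) (a : ∀ j, k j) (Δ Φ : SP k N) (m : ℕ)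
    (h : U.ρ a * MvPolynomial.aeval (U.lv z) (U.pl Δ) ^ m =
      MvPolynomial.aeval (U.lv z) (U.pl Φ)) :
    ∀ᶠ j in (U.F : Filter ℕ), a j * MvPolynomial.aeval (z j) (pj j Δ) ^ m =
      MvPolynomial.aeval (z j) (pj j Φ) := by
  rw [U.aev_pl, U.aev_pl, ← map_pow, ← map_mul, U.ρ_eq] at h
  exact h

theorem ug_rel [IsAlgClosed K] (U : Ul k K) (hd : ∀ j, GenDeg (I j) d) {x' : ∀ j, V (k j) N}
    {η : ∀ j, Fin (N + 1) → (k j)ˣ} (h : RelS (U.lim I) (U.lv x') (U.lu η)) :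
    ∀ᶠ j in (U.F : Filter ℕ), RelS (I j) (x' j) (η j) := by
  obtain ⟨θ, h1, -, h2⟩ := exists_tt (rt_field K) h fun _ => Subgroup.mem_top _
  obtain ⟨τ, rfl⟩ := U.lu_surj θ
  have h3 : ∀ i, ∀ᶠ j in (U.F : Filter ℕ), x' j i ≠ 0 → η j i = τ j i := fun i => by
    by_cases hi : U.lv x' i = 0
    · exact ((U.ker _).1 hi).mono fun j e ne => absurd e ne
    · have e := congrArg Units.val (h2 i hi)
      rw [U.lu_val, U.lu_val, U.ρ_eq] at e
      exact e.mono fun j e _ => Units.ext e.symm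
  filter_upwards [(U.tor_iff hd τ).1 h1.tor, eventually_all.2 h3] with j a b
  exact (tt_of_tor a).relS.congr b

theorem Ul.pg_back [IsAlgClosed K] (U : Ul k K) (hd : ∀ j, GenDeg (I j) d)
    {x' : ∀ j, V (k j) N} {j₀ : Fin (N + 1)} {Δ : SP k N} {m M : ℕ} {Y Y' : Fin (N + 1) → SP k N}
    {Z : Mt (SP k N) N} (h : PG (U.lim I) (U.lv x') j₀ (U.pl Δ) m (fun i => U.pl (Y i))
      (fun i => U.pl (Y' i)) M (Z.map U.pl)) :
    ∀ᶠ j in (U.F : Filter ℕ), PG (I j) (x' j) j₀ (pj j Δ) m (fun i => pj j (Y i))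
      (fun i => pj j (Y' i)) M (Z.map (pj j)) := by
  by_contra hc
  rw [← Ultrafilter.eventually_not] at hc
  simp only [PG, not_forall] at hc
  obtain ⟨z, hz⟩ := U.choice hc
  have h1 : On (U.lim I) (U.lv z) := (U.on_iff hd z).2 (hz.mono fun j ⟨a, _⟩ => a)
  have h2 : U.lv z j₀ = 1 :=
    ((U.ρ_eq _ 1).2 (hz.mono fun j ⟨_, a, _⟩ => a)).trans (map_one _)
  have h3 : MvPolynomial.aeval (U.lv z) (U.pl Δ) ≠ 0 := fun e => by
    rw [U.aev_pl, U.ker] at e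
    obtain ⟨j, ⟨_, _, a, _⟩, b⟩ := (hz.and e).exists
    exact a b
  obtain ⟨n, η, a1, a2, a3, a4, a5⟩ := h _ h1 h2 h3
  obtain ⟨g, rfl⟩ := U.lm_surj n
  obtain ⟨η, rfl⟩ := U.lu_surj η
  rw [U.lv_tw, U.lm_mulVec, U.lv_eq] at a3
  have b4 := eventually_all.2 fun i =>
    (ug_eq U z _ Δ (Y i) m (a4 i).1).and (ug_eq U z _ Δ (Y' i) m (a4 i).2)
  have b5 := eventually_all.2 fun a => eventually_all.2 fun b =>
    ug_eq U z (fun j => g j a b) Δ (Z a b) M (a5 a b)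
  obtain ⟨j, ⟨_, _, _, c0⟩, c1, c2, c3, c4, c5⟩ :=
    (hz.and (((U.nn_lim hd g).1 a1).and ((ug_rel U hd a2).and (a3.and (b4.and b5))))).exists
  exact c0 ⟨g j, η j, c1, c2, c3, c4, c5⟩

end

end Pool.Agent.Lib.MP_41050a_ag
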