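import Pool.Agent.Lib.MP_41050a_ag.Lift0

/-! Jets of bounded order. -/

namespace Pool.Agent.Lib.MP_41050a_ag

open Polynomial

set_option linter.unusedSectionVars false

noncomputable section

variable {k : Type} [Field k] [IsAlgClosed k] [CharZero k] {N : ℕ} {I : Ideal (Pk k N)}

/-- The line through `x` in the direction `c`. -/
def lift_line {B : Type} [CommRing B] (x c : V B N) : V B[X] N :=
  fun j => C (x j) + X * C (c j)

theorem lift_line_map {B B' : Type} [CommRing B] [Algebra k B] [CommRing B'] [Algebra k B']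
    (φ : B →ₐ[k] B') (x c : V B N) :
    (Polynomial.mapAlgHom φ) ∘ lift_line x c = lift_line (φ ∘ x) (φ ∘ c) := by
  funext j
  simp [lift_line]

/-- The line is deformed to a jet on the cone. -/
theorem lift_univ (hV : SmoothVar I) {B : Type} [CommRing B] [Algebra k B] {x : V B N}
    (c : V B N) (hx : On I x) {i : Fin (N + 1)} (hi : IsUnit (x i)) (m : ℕ) :
    ∃ w : V B[X] N, (∀ j, (w j).coeff 0 = x j) ∧
      (∀ j, w j - lift_line x c j ∈
        I.map (MvPolynomial.aeval (lift_line x c)) ⊔ Ideal.span {X ^ (m + 1)}) ∧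
      ∀ Φ ∈ I, X ^ (m + 1) ∣ MvPolynomial.aeval w Φ := by
  set z := lift_line x c with hz
  set J : Ideal B[X] := I.map (MvPolynomial.aeval z) with hJ
  set K : Ideal B[X] := Ideal.span {X ^ (m + 1)} with hK
  have hJX : J ≤ Ideal.span {X} := by
    rw [hJ, Ideal.map_le_iff_le_comap]
    intro Φ hΦ
    have h1 : On I ((Polynomial.CAlgHom : B →ₐ[k] B[X]) ∘ x) := hx.map _
    have h2 := aev_congr (J := Ideal.span {X}) (z := z)
      (w := (Polynomial.CAlgHom : B →ₐ[k] B[X]) ∘ x) (fun j => by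
        rw [Ideal.mem_span_singleton]
        exact ⟨C (c j), by simp [hz, lift_line]⟩) Φ
    rw [h1 Φ hΦ, sub_zero] at h2
    exact h2
  have hKX : K ≤ Ideal.span {X} :=
    Ideal.span_singleton_le_span_singleton.2 (dvd_pow_self _ (Nat.succ_ne_zero m))
  have hX : (Ideal.Quotient.mk K X) ^ (m + 1) = 0 := by
    rw [← map_pow, Ideal.Quotient.eq_zero_iff_mem]
    exact Ideal.mem_span_singleton_self _
  have hpow : (J.map (Ideal.Quotient.mk K)) ^ (m + 1) ≤ ⊥ := by
    refine le_trans (Ideal.pow_right_mono (Ideal.map_mono hJX) _) ?_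
    rw [Ideal.map_span, Set.image_singleton, Ideal.span_singleton_pow, hX]
    simp
  have hu : IsUnit (((Ideal.Quotient.mkₐ k K) ∘ z) i) := by
    have h1 : IsUnit (Ideal.Quotient.mk K (C (x i))) := (hi.map C).map _
    have h2 : IsNilpotent (Ideal.Quotient.mk K X * Ideal.Quotient.mk K (C (c i))) :=
      ⟨m + 1, by rw [mul_pow, hX, zero_mul]⟩
    have h3 := h2.isUnit_add_left_of_commute h1 (Commute.all _ _)
    rw [← map_mul, ← map_add] at h3
    exact h3
  obtain ⟨z', h1, h2⟩ := hV.lift hpow (z := (Ideal.Quotient.mkₐ k K) ∘ z) (fun Φ hΦ => by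
    rw [← map_aev]
    exact Ideal.mem_map_of_mem _ (Ideal.mem_map_of_mem _ hΦ)) hu
  choose w hw using fun j => Ideal.Quotient.mk_surjective (z' j)
  have h3 : ∀ j, w j - z j ∈ J ⊔ K := fun j => by
    rw [← Ideal.mem_quotient_iff_mem_sup, map_sub, hw]
    exact h1 j
  refine ⟨w, fun j => ?_, h3, fun Φ hΦ => ?_⟩
  · have h4 := Ideal.mem_span_singleton.1 (sup_le hJX hKX (h3 j))
    rw [Polynomial.X_dvd_iff, coeff_sub, sub_eq_zero] at h4
    rw [h4]
    simp [hz, lift_line]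
  · have h4 : z' = (Ideal.Quotient.mkₐ k K) ∘ w := funext fun j => (hw j).symm
    have h5 := h2 Φ hΦ
    rw [h4, ← map_aev, Ideal.mem_bot] at h5
    exact Ideal.mem_span_singleton.1 (Ideal.Quotient.eq_zero_iff_mem.1 h5)

/-- The intersection theorem for a principal ideal. -/
theorem lift_abs {S : Type} [CommRing S] [IsNoetherianRing S] {J : Ideal S} {t f : S}
    (h : ∀ m : ℕ, f ∈ J ⊔ Ideal.span {t ^ (m + 1)}) : ∃ s, (1 - t * s) * f ∈ J := by
  have h1 : Ideal.Quotient.mk J f ∈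
      (⨅ n : ℕ, (Ideal.span {Ideal.Quotient.mk J t}) ^ n • ⊤ : Submodule (S ⧸ J) (S ⧸ J)) := by
    rw [Submodule.mem_iInf]
    intro n
    obtain ⟨a, ha, b, hb, rfl⟩ := Submodule.mem_sup.1 (h n)
    obtain ⟨c, rfl⟩ := Ideal.mem_span_singleton.1 hb
    rw [map_add, Ideal.Quotient.eq_zero_iff_mem.2 ha, zero_add, pow_succ, mul_assoc, map_mul,
      map_pow]
    exact Submodule.smul_mem_smul (Ideal.pow_mem_pow (Ideal.mem_span_singleton_self _) n)
      Submodule.mem_top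
  obtain ⟨⟨r, hr⟩, h2⟩ := (Ideal.mem_iInf_smul_pow_eq_bot_iff _ _).1 h1
  obtain ⟨s, rfl⟩ := Ideal.mem_span_singleton.1 hr
  obtain ⟨s, rfl⟩ := Ideal.Quotient.mk_surjective s
  refine ⟨s, ?_⟩
  rw [← Ideal.Quotient.eq_zero_iff_mem, map_mul, map_sub, map_one, map_mul, sub_mul, one_mul,
    sub_eq_zero]
  exact h2.symm

/-- A form that vanishes to every order along the general line lies in the ideal. -/
theorem lift_krull (hI : I.IsPrime) {a : V k N} (ha : On I a) {Δ : Pk k N}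
    (h : ∀ m : ℕ, MvPolynomial.aeval
      (lift_line (fun j => MvPolynomial.C (a j)) MvPolynomial.X : V (Pk k N)[X] N) Δ ∈
        I.map (MvPolynomial.aeval
          (lift_line (fun j => MvPolynomial.C (a j)) MvPolynomial.X : V (Pk k N)[X] N)) ⊔
          Ideal.span {X ^ (m + 1)}) : Δ ∈ I := by
  set z : V (Pk k N)[X] N := lift_line (fun j => MvPolynomial.C (a j)) MvPolynomial.X with hz
  set J : Ideal (Pk k N)[X] := I.map (MvPolynomial.aeval z) with hJ
  obtain ⟨s, h3⟩ := lift_abs h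
  let κ : Pk k N →ₐ[k] k := MvPolynomial.aeval 0
  have h4 : X * (1 - X * s).map (κ : Pk k N →+* k) ≠ 0 := by
    refine mul_ne_zero X_ne_zero fun h0 => ?_
    have := congrArg (fun p => p.coeff 0) h0
    simp at this
  obtain ⟨t, ht⟩ : ∃ t, (X * (1 - X * s).map (κ : Pk k N →+* k)).eval t ≠ 0 := by
    by_contra h0
    push Not at h0
    exact h4 (Polynomial.zero_of_eval_zero _ h0)
  rw [eval_mul, eval_X] at ht
  have ht0 : t ≠ 0 := left_ne_zero_of_mul ht
  let ψ : (Pk k N)[X] →ₐ[k] Pk k N := Polynomial.aevalTower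
    (MvPolynomial.aeval fun j => MvPolynomial.C t⁻¹ * (MvPolynomial.X j - MvPolynomial.C (a j)))
    (MvPolynomial.C t)
  have h5 : ψ ∘ z = MvPolynomial.X := by
    funext j
    have : (MvPolynomial.C t : Pk k N) * MvPolynomial.C t⁻¹ = 1 := by
      rw [← map_mul, mul_inv_cancel₀ ht0, map_one]
    simp only [hz, lift_line, ψ, Function.comp, map_add, map_mul, aevalTower_C, aevalTower_X,
      MvPolynomial.aeval_C, MvPolynomial.aeval_X, MvPolynomial.algebraMap_eq]
    linear_combination (MvPolynomial.X j - MvPolynomial.C (a j)) * this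
  have h6 : ∀ Φ, ψ (MvPolynomial.aeval z Φ) = Φ := fun Φ => by
    rw [map_aev, h5, MvPolynomial.aeval_X_left_apply]
  have h7 : J ≤ I.comap ψ := by
    rw [hJ, Ideal.map_le_iff_le_comap]
    intro Φ hΦ
    rw [Ideal.mem_comap, Ideal.mem_comap, h6]
    exact hΦ
  have h8 := h7 h3
  rw [Ideal.mem_comap, map_mul, h6] at h8
  refine (hI.mem_or_mem h8).resolve_left fun h9 => right_ne_zero_of_mul ht ?_
  have h10 : ∀ p, MvPolynomial.aeval a (ψ p) = (p.map (κ : Pk k N →+* k)).eval t := by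
    have h11 : (MvPolynomial.aeval a).comp (MvPolynomial.aeval fun j =>
        (MvPolynomial.C t⁻¹ * (MvPolynomial.X j - MvPolynomial.C (a j)) : Pk k N)) = κ := by
      ext j
      simp [κ]
    intro p
    induction p using Polynomial.induction_on' with
    | add p q hp hq => rw [map_add, map_add, hp, hq, Polynomial.map_add, eval_add]
    | monomial n b =>
      rw [← C_mul_X_pow_eq_monomial, ← h11]
      simp [ψ]
  rw [← h10]
  exact ha _ h9

/-- A proper ideal of an algebra of finite type vanishes at some point. -/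
theorem lift_point {A : Type} [CommRing A] [Algebra k A] [Algebra.FiniteType k A] {T : Ideal A}
    (hT : T ≠ ⊤) : ∃ φ : A →ₐ[k] k, ∀ a ∈ T, φ a = 0 := by
  obtain ⟨𝔪, h𝔪, hle⟩ := Ideal.exists_le_maximal T hT
  let := Ideal.Quotient.field 𝔪
  have : Module.Finite k (A ⧸ 𝔪) := finite_of_finite_type_of_isJacobsonRing k (A ⧸ 𝔪)
  refine ⟨(IsAlgClosed.lift : A ⧸ 𝔪 →ₐ[k] k).comp (Ideal.Quotient.mkₐ k 𝔪), fun a ha => ?_⟩
  rw [AlgHom.comp_apply, Ideal.Quotient.mkₐ_eq_mk, Ideal.Quotient.eq_zero_iff_mem.2 (hle ha),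
    map_zero]

/-- The bound on one chart. -/
theorem lift_chart (hV : SmoothVar I) {Δ : Pk k N} (hΔ : Δ ∉ I) {A : Type} [CommRing A]
    [Algebra k A] [Algebra.FiniteType k A] {x : V A N} (hx : On I x) {i : Fin (N + 1)}
    (hi : IsUnit (x i)) : ∃ μ : ℕ, ∀ (Λ : Type) [Field Λ] [Algebra k Λ] (φ : A →ₐ[k] Λ),
      ∃ m ≤ μ, ∃ γ : V (PowerSeries Λ) N, (∀ j, PowerSeries.constantCoeff (γ j) = φ (x j)) ∧
        (∀ Φ ∈ I, PowerSeries.X ^ (m + 1) ∣ MvPolynomial.aeval γ Φ) ∧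
        ¬ PowerSeries.X ^ (m + 1) ∣ MvPolynomial.aeval γ Δ := by
  let ι : A →ₐ[k] MvPolynomial (Fin (N + 1)) A := IsScalarTower.toAlgHom k A _
  choose w h0 h1 h2 using fun m => lift_univ hV (x := ι ∘ x) MvPolynomial.X (hx.map ι)
    (i := i) (hi.map ι) m
  let T : ℕ → Ideal A := fun μ => Ideal.span {a | ∃ m ≤ μ, ∃ n ≤ m, ∃ d,
    a = MvPolynomial.coeff d ((MvPolynomial.aeval (w m) Δ).coeff n)}
  have hmono : Monotone T := fun μ μ' hμ => Ideal.span_mono fun a ⟨m, hm, h⟩ =>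
    ⟨m, hm.trans hμ, h⟩
  obtain ⟨μ, hμ⟩ : ∃ μ, T μ = ⊤ := by
    by_contra hne
    push Not at hne
    have hT : ⨆ μ, T μ ≠ ⊤ := fun h => by
      obtain ⟨μ, hμ⟩ := (Submodule.mem_iSup_of_directed T hmono.directed_le).1
        ((Ideal.eq_top_iff_one _).1 h)
      exact hne μ ((Ideal.eq_top_iff_one _).2 hμ)
    obtain ⟨φ, hφ⟩ := lift_point (k := k) hT
    refine hΔ (lift_krull hV.prime (hx.map φ) fun m => ?_)
    let ρ := Polynomial.mapAlgHom (MvPolynomial.mapAlgHom (σ := Fin (N + 1)) φ)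
    have h3 : ρ ∘ lift_line (ι ∘ x) MvPolynomial.X =
        lift_line (fun j => MvPolynomial.C ((φ ∘ x) j)) MvPolynomial.X := by
      rw [lift_line_map]
      congr 1 <;> funext j <;> simp [ι]
    have h4 : ρ (MvPolynomial.aeval (w m) Δ) ∈ Ideal.span {X ^ (m + 1)} := by
      rw [Ideal.mem_span_singleton, Polynomial.X_pow_dvd_iff]
      intro n hn
      ext d
      have := hφ _ (le_iSup T m (Ideal.subset_span ⟨m, le_rfl, n, Nat.lt_succ_iff.1 hn, d, rfl⟩))
      simpa [ρ, MvPolynomial.coeff_map] using this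
    have h5 := Ideal.mem_map_of_mem ρ (aev_congr (h1 m) Δ)
    rw [Ideal.map_sup, Ideal.map_span, Set.image_singleton, map_pow, map_sub] at h5
    have h6 : ρ X = X := by simp [ρ]
    have h7 : (I.map (MvPolynomial.aeval (lift_line (ι ∘ x) MvPolynomial.X))).map ρ ≤
        I.map (MvPolynomial.aeval
          (lift_line (fun j => MvPolynomial.C ((φ ∘ x) j)) MvPolynomial.X : V (Pk k N)[X] N)) := by
      rw [Ideal.map_le_iff_le_comap, Ideal.map_le_iff_le_comap]
      intro Φ hΦ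
      rw [Ideal.mem_comap, Ideal.mem_comap, map_aev, h3]
      exact Ideal.mem_map_of_mem _ hΦ
    rw [h6, map_aev ρ (lift_line _ _), h3] at h5
    have h8 := Ideal.sub_mem _ (Ideal.mem_sup_right h4) (sup_le_sup_right h7 _ h5)
    rwa [sub_sub_cancel] at h8
  refine ⟨μ, fun Λ _ _ φ => ?_⟩
  obtain ⟨m, hm, n, hn, d, hd⟩ : ∃ m ≤ μ, ∃ n ≤ m, ∃ d,
      φ (MvPolynomial.coeff d ((MvPolynomial.aeval (w m) Δ).coeff n)) ≠ 0 := by
    by_contra hne
    push Not at hne
    have : T μ ≤ RingHom.ker φ := Ideal.span_le.2 fun a ⟨m, hm, n, hn, d, h⟩ => by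
      rw [h]
      exact hne m hm n hn d
    rw [hμ] at this
    exact one_ne_zero ((map_one φ).symm.trans (this Submodule.mem_top))
  have : Infinite Λ := Infinite.of_injective _ (algebraMap k Λ).injective
  obtain ⟨c, hc⟩ : ∃ c, MvPolynomial.eval c
      (MvPolynomial.map (φ : A →+* Λ) ((MvPolynomial.aeval (w m) Δ).coeff n)) ≠ 0 := by
    by_contra hne
    push Not at hne
    have h3 := MvPolynomial.funext (q := 0) fun c => (hne c).trans (map_zero _).symm
    refine hd ?_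
    have h4 := congrArg (MvPolynomial.coeff d) h3
    rwa [MvPolynomial.coeff_map, MvPolynomial.coeff_zero] at h4
  let χ : MvPolynomial (Fin (N + 1)) A →ₐ[k] Λ := MvPolynomial.aevalTower φ c
  let Ψ : (MvPolynomial (Fin (N + 1)) A)[X] →ₐ[k] PowerSeries Λ :=
    ((Polynomial.coeToPowerSeries.algHom Λ).restrictScalars k).comp (Polynomial.mapAlgHom χ)
  have hΨ : ∀ p n, PowerSeries.coeff n (Ψ p) = χ (p.coeff n) := fun p n => by
    simp [Ψ, Polynomial.coeToPowerSeries.algHom_apply]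
  refine ⟨m, hm, Ψ ∘ w m, fun j => ?_, fun Φ hΦ => ?_, fun h => hc ?_⟩
  · rw [← PowerSeries.coeff_zero_eq_constantCoeff_apply, Function.comp, hΨ, h0]
    simp [χ, ι]
  · rw [← map_aev, PowerSeries.X_pow_dvd_iff]
    intro n hn
    rw [hΨ, Polynomial.X_pow_dvd_iff.1 (h2 m Φ hΦ) n hn, map_zero]
  · rw [← map_aev, PowerSeries.X_pow_dvd_iff] at h
    have h3 := h n (Nat.lt_succ_of_le hn)
    rw [hΨ] at h3
    rw [MvPolynomial.eval_map]
    exact h3

/-- Through every point there is a jet along which `Δ` has order at most `μ`. -/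
def Jets (I : Ideal (Pk k N)) (Δ : Pk k N) (μ : ℕ) : Prop :=
  ∀ (Λ : Type) [Field Λ] [Algebra k Λ] (x : V Λ N), On I x → x ≠ 0 → ∃ m ≤ μ,
    ∃ γ : V (PowerSeries Λ) N, (∀ i, PowerSeries.constantCoeff (γ i) = x i) ∧
      (∀ Φ ∈ I, PowerSeries.X ^ (m + 1) ∣ MvPolynomial.aeval γ Φ) ∧
      ¬ PowerSeries.X ^ (m + 1) ∣ MvPolynomial.aeval γ Δ

/-- Through every point there is a jet along which `Δ` has bounded order. -/
theorem SmoothVar.jets (hV : SmoothVar I) {Δ : Pk k N} (hΔ : Δ ∉ I) : ∃ μ : ℕ, Jets I Δ μ := by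
  have key : ∀ i : Fin (N + 1), ∃ μ : ℕ, ∀ (Λ : Type) [Field Λ] [Algebra k Λ] (x : V Λ N),
      On I x → x i ≠ 0 → ∃ m ≤ μ,
      ∃ γ : V (PowerSeries Λ) N, (∀ i, PowerSeries.constantCoeff (γ i) = x i) ∧
        (∀ Φ ∈ I, PowerSeries.X ^ (m + 1) ∣ MvPolynomial.aeval γ Φ) ∧
        ¬ PowerSeries.X ^ (m + 1) ∣ MvPolynomial.aeval γ Δ := by
    intro i
    have := hV.smooth i
    let A := Localization.Away (Ideal.Quotient.mk I (MvPolynomial.X i))
    let π : Pk k N →ₐ[k] A := (IsScalarTower.toAlgHom k (Pk k N ⧸ I) A).comp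
      (Ideal.Quotient.mkₐ k I)
    have hx : On I (π ∘ MvPolynomial.X) := fun Φ hΦ => by
      rw [← map_aev, MvPolynomial.aeval_X_left_apply, AlgHom.comp_apply,
        Ideal.Quotient.mkₐ_eq_mk, Ideal.Quotient.eq_zero_iff_mem.2 hΦ, map_zero]
    obtain ⟨μ, hμ⟩ := lift_chart hV hΔ hx (i := i)
      (IsLocalization.Away.algebraMap_isUnit (S := A) (Ideal.Quotient.mk I (MvPolynomial.X i)))
    refine ⟨μ, fun Λ _ _ y hy hi => ?_⟩
    let f : (Pk k N ⧸ I) →ₐ[k] Λ := Ideal.Quotient.liftₐ I (MvPolynomial.aeval y) hy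
    have hf : ∀ s : Submonoid.powers (Ideal.Quotient.mk I (MvPolynomial.X i)), IsUnit (f s) := by
      rintro ⟨_, n, rfl⟩
      refine IsUnit.mk0 _ ?_
      simp [f, hi]
    obtain ⟨m, hm, γ, h1, h2⟩ := hμ Λ (IsLocalization.liftAlgHom (S := A) hf)
    refine ⟨m, hm, γ, fun j => ?_, h2⟩
    rw [h1]
    simp [π, f]
  choose μ hμ using key
  refine ⟨Finset.univ.sup μ, fun Λ _ _ x hx h0 => ?_⟩
  obtain ⟨i, hi⟩ := Function.ne_iff.1 h0
  obtain ⟨m, hm, h⟩ := hμ i Λ x hx hi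
  exact ⟨m, hm.trans (Finset.le_sup (f := μ) (Finset.mem_univ i)), h⟩

end

end Pool.Agent.Lib.MP_41050a_ag
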