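import Pool.Agent.Lib.MP_41050a_ag.UH
import Pool.Agent.Lib.MP_41050a_ag.Lift

/-! Jets from a bound for the order of vanishing. -/

namespace Pool.Agent.Lib.MP_41050a_ag

open Polynomial Filter

set_option linter.unusedSectionVars false

noncomputable section

variable {k : Type} [Field k] [IsAlgClosed k] [CharZero k] {N : ℕ} {I : Ideal (Pk k N)}
  {Δ : Pk k N} {μ : ℕ}

/-- The coefficient of weight `n` vanishes to order `n`. -/
def ui_Good {S : Type} [CommRing S] (M : Ideal S) (f : LaurentPolynomial S) : Prop :=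
  ∀ n : ℤ, f.coeff n ∈ M ^ n.toNat

theorem ui_add {S : Type} [CommRing S] {M : Ideal S} {f g : LaurentPolynomial S}
    (hf : ui_Good M f) (hg : ui_Good M g) : ui_Good M (f + g) := fun n => by
  rw [AddMonoidAlgebra.coeff_add]
  exact Ideal.add_mem _ (hf n) (hg n)

theorem ui_C {S : Type} [CommRing S] (M : Ideal S) (r : S) :
    ui_Good M (LaurentPolynomial.C r) := fun n => by
  rw [LaurentPolynomial.C_apply]
  split_ifs with hn
  · simp [hn]
  · exact Ideal.zero_mem _

theorem ui_single {S : Type} [CommRing S] {M : Ideal S} {f : LaurentPolynomial S}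
    (hf : ui_Good M f) {g : ℤ} {r : S} (hr : r ∈ M ^ g.toNat) :
    ui_Good M (f * AddMonoidAlgebra.single g r) := fun n => by
  rw [AddMonoidAlgebra.coeff_mul_single_apply]
  have h := Ideal.mul_mem_mul (hf (n + -g)) hr
  rw [← pow_add] at h
  exact Ideal.pow_le_pow_right (by omega) h

/-- The substitution of the inverse weight for the parameter of the line. -/
def ui_th (a : V k N) : (Pk k N)[X] →ₐ[k] LaurentPolynomial (Pk k N) :=
  Polynomial.aevalTower (MvPolynomial.aeval fun j =>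
    (AddMonoidAlgebra.single 1 (MvPolynomial.X j - MvPolynomial.C (a j)) :
      LaurentPolynomial (Pk k N))) (LaurentPolynomial.T (-1))

theorem ui_th_X (a : V k N) : ui_th a X = LaurentPolynomial.T (-1) :=
  Polynomial.aevalTower_X _ _

theorem ui_th_CX (a : V k N) (j : Fin (N + 1)) : ui_th a (C (MvPolynomial.X j)) =
    AddMonoidAlgebra.single 1 (MvPolynomial.X j - MvPolynomial.C (a j)) := by
  rw [ui_th, Polynomial.aevalTower_C, MvPolynomial.aeval_X]

theorem ui_th_CC (a : V k N) (c : k) : ui_th a (C (MvPolynomial.C c)) =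
    LaurentPolynomial.C (MvPolynomial.C c) := by
  rw [ui_th, Polynomial.aevalTower_C, MvPolynomial.aeval_C, LaurentPolynomial.algebraMap_apply,
    MvPolynomial.algebraMap_eq]

theorem ui_good (a : V k N) (p : (Pk k N)[X]) : ui_Good (mx a) (ui_th a p) := by
  have h1 : ∀ b : Pk k N, ui_Good (mx a) (ui_th a (C b)) := fun b => by
    induction b using MvPolynomial.induction_on with
    | C c =>
      rw [ui_th_CC]
      exact ui_C _ _
    | add p q hp hq =>
      rw [map_add, map_add]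
      exact ui_add hp hq
    | mul_X p j hp =>
      rw [map_mul, map_mul, ui_th_CX]
      refine ui_single hp ?_
      rw [Int.toNat_one, pow_one]
      exact Ideal.subset_span ⟨j, rfl⟩
  induction p using Polynomial.induction_on' with
  | add p q hp hq =>
    rw [map_add]
    exact ui_add hp hq
  | monomial n b =>
    rw [← C_mul_X_pow_eq_monomial, map_mul, map_pow, ui_th_X, LaurentPolynomial.T_pow,
      LaurentPolynomial.T]
    refine ui_single (h1 b) ?_
    have : ((n : ℤ) * -1).toNat = 0 := by omega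
    rw [this, pow_zero, Ideal.one_eq_top]
    exact Submodule.mem_top

theorem ui_th_line (a : V k N) (Φ : Pk k N) : ui_th a (MvPolynomial.aeval
    (lift_line (fun j => MvPolynomial.C (a j)) MvPolynomial.X : V (Pk k N)[X] N) Φ) =
      LaurentPolynomial.C Φ := by
  have h1 : ui_th a ∘ (lift_line (fun j => MvPolynomial.C (a j)) MvPolynomial.X :
      V (Pk k N)[X] N) = (IsScalarTower.toAlgHom k (Pk k N) (LaurentPolynomial (Pk k N))) ∘
        MvPolynomial.X := by
    funext j
    have h2 : (LaurentPolynomial.T (-1) : LaurentPolynomial (Pk k N)) * LaurentPolynomial.T 1 = 1 := by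
      rw [← LaurentPolynomial.T_add]
      simp
    rw [Function.comp, Function.comp, lift_line, map_add, map_mul, ui_th_CC, ui_th_X, ui_th_CX,
      LaurentPolynomial.single_eq_C_mul_T, IsScalarTower.toAlgHom_apply,
      ← LaurentPolynomial.C_eq_algebraMap, map_sub]
    linear_combination (LaurentPolynomial.C (MvPolynomial.X j : Pk k N) -
      LaurentPolynomial.C (MvPolynomial.C (a j) : Pk k N)) * h2
  rw [map_aev, h1, ← map_aev, MvPolynomial.aeval_X_left_apply, IsScalarTower.toAlgHom_apply,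
    LaurentPolynomial.C_eq_algebraMap]

/-- Take the part of weight zero. -/
theorem line_mem {a : V k N} (h : MvPolynomial.aeval
    (lift_line (fun j => MvPolynomial.C (a j)) MvPolynomial.X : V (Pk k N)[X] N) Δ ∈
      I.map (MvPolynomial.aeval
        (lift_line (fun j => MvPolynomial.C (a j)) MvPolynomial.X : V (Pk k N)[X] N)) ⊔
        Ideal.span {X ^ (μ + 1)}) : Δ ∈ I ⊔ mx a ^ (μ + 1) := by
  obtain ⟨u, hu, v, hv, huv⟩ := Submodule.mem_sup.1 h
  obtain ⟨r, rfl⟩ := Ideal.mem_span_singleton'.1 hv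
  have h1 : I.map (MvPolynomial.aeval
      (lift_line (fun j => MvPolynomial.C (a j)) MvPolynomial.X : V (Pk k N)[X] N)) ≤
      (RingHom.ker (AddMonoidAlgebra.mapRingHom ℤ (Ideal.Quotient.mk I))).comap (ui_th a) := by
    rw [Ideal.map_le_iff_le_comap]
    intro Φ hΦ
    rw [Ideal.mem_comap, Ideal.mem_comap, ui_th_line, RingHom.mem_ker,
      ← LaurentPolynomial.single_eq_C, AddMonoidAlgebra.mapRingHom_single,
      Ideal.Quotient.eq_zero_iff_mem.2 hΦ, AddMonoidAlgebra.single_zero]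
  have h2 : (ui_th a u).coeff 0 ∈ I := by
    have h3 := h1 hu
    rw [Ideal.mem_comap, RingHom.mem_ker] at h3
    rw [← Ideal.Quotient.eq_zero_iff_mem, ← AddMonoidAlgebra.coeff_mapRingHom, h3]
    rfl
  have h3 : (ui_th a (r * X ^ (μ + 1))).coeff 0 ∈ mx a ^ (μ + 1) := by
    rw [map_mul, map_pow, ui_th_X, LaurentPolynomial.T_pow, LaurentPolynomial.T,
      AddMonoidAlgebra.coeff_mul_single_apply, mul_one]
    have h4 := ui_good a r (0 + -(((μ + 1 : ℕ) : ℤ) * -1))
    have h5 : (0 + -(((μ + 1 : ℕ) : ℤ) * -1)).toNat = μ + 1 := by omega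
    rwa [h5] at h4
  have h4 := congrArg (fun p => (ui_th a p).coeff 0) huv
  simp only [map_add, ui_th_line, AddMonoidAlgebra.coeff_add, Finsupp.add_apply,
    LaurentPolynomial.C_apply, if_true] at h4
  rw [← h4]
  exact Submodule.add_mem_sup h2 h3

/-- The bound on one chart. -/
theorem ui_chart (hV : SmoothVar I) (h : QQ I Δ μ) {A : Type} [CommRing A]
    [Algebra k A] [Algebra.FiniteType k A] {x : V A N} (hx : On I x) {i : Fin (N + 1)}
    (hi : IsUnit (x i)) (Λ : Type) [Field Λ] [Algebra k Λ] (φ : A →ₐ[k] Λ) :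
    ∃ γ : V (PowerSeries Λ) N, (∀ j, PowerSeries.constantCoeff (γ j) = φ (x j)) ∧
      (∀ Φ ∈ I, PowerSeries.X ^ (μ + 1) ∣ MvPolynomial.aeval γ Φ) ∧
      ¬ PowerSeries.X ^ (μ + 1) ∣ MvPolynomial.aeval γ Δ := by
  let ι : A →ₐ[k] MvPolynomial (Fin (N + 1)) A := IsScalarTower.toAlgHom k A _
  obtain ⟨w, h0, h1, h2⟩ := lift_univ hV (x := ι ∘ x) MvPolynomial.X (hx.map ι)
    (i := i) (hi.map ι) μ
  let T : Ideal A := Ideal.span {a | ∃ n ≤ μ, ∃ d,
    a = MvPolynomial.coeff d ((MvPolynomial.aeval w Δ).coeff n)}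
  have hμ : T = ⊤ := by
    by_contra hT
    obtain ⟨φ, hφ⟩ := lift_point (k := k) hT
    refine h (φ ∘ x) (hx.map φ) (fun h0 => (hi.map φ).ne_zero (congrFun h0 i)) (line_mem ?_)
    let ρ := Polynomial.mapAlgHom (MvPolynomial.mapAlgHom (σ := Fin (N + 1)) φ)
    have h3 : ρ ∘ lift_line (ι ∘ x) MvPolynomial.X =
        lift_line (fun j => MvPolynomial.C ((φ ∘ x) j)) MvPolynomial.X := by
      rw [lift_line_map]
      congr 1 <;> funext j <;> simp [ι]
    have h4 : ρ (MvPolynomial.aeval w Δ) ∈ Ideal.span {X ^ (μ + 1)} := by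
      rw [Ideal.mem_span_singleton, Polynomial.X_pow_dvd_iff]
      intro n hn
      ext d
      have := hφ _ (Ideal.subset_span ⟨n, Nat.lt_succ_iff.1 hn, d, rfl⟩)
      simpa [ρ, MvPolynomial.coeff_map] using this
    have h5 := Ideal.mem_map_of_mem ρ (aev_congr h1 Δ)
    rw [Ideal.map_sup, Ideal.map_span, Set.image_singleton, map_pow, map_sub] at h5
    have h6 : ρ X = X := by simp [ρ]
    have h7 : (I.map (MvPolynomial.aeval (lift_line (ι ∘ x) MvPolynomial.X))).map ρ ≤
        I.map (MvPolynomial.aeval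
          (lift_line (fun j => MvPolynomial.C ((φ ∘ x) j)) MvPolynomial.X : V (Pk k N)[X] N)) := by
      rw [Ideal.map_le_iff_le_comap, Ideal.map_le_iff_le_comap]
      intro Φ hΦ
      rw [Ideal.mem_comap, Ideal.mem_comap, map_aev, h3]
      exact Ideal.mem_map_of_mem _ hΦ
    rw [h6, map_aev ρ (lift_line _ _), h3] at h5
    have h8 := Ideal.sub_mem _ (Ideal.mem_sup_right h4) (sup_le_sup_right h7 _ h5)
    rwa [sub_sub_cancel] at h8
  obtain ⟨n, hn, d, hd⟩ : ∃ n ≤ μ, ∃ d,
      φ (MvPolynomial.coeff d ((MvPolynomial.aeval w Δ).coeff n)) ≠ 0 := by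
    by_contra hne
    push Not at hne
    have : T ≤ RingHom.ker φ := Ideal.span_le.2 fun a ⟨n, hn, d, h⟩ => by
      rw [h]
      exact hne n hn d
    rw [hμ] at this
    exact one_ne_zero ((map_one φ).symm.trans (this Submodule.mem_top))
  have : Infinite Λ := Infinite.of_injective _ (algebraMap k Λ).injective
  obtain ⟨c, hc⟩ : ∃ c, MvPolynomial.eval c
      (MvPolynomial.map (φ : A →+* Λ) ((MvPolynomial.aeval w Δ).coeff n)) ≠ 0 := by
    by_contra hne
    push Not at hne
    have h3 := MvPolynomial.funext (q := 0) fun c => (hne c).trans (map_zero _).symm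
    refine hd ?_
    have h4 := congrArg (MvPolynomial.coeff d) h3
    rwa [MvPolynomial.coeff_map, MvPolynomial.coeff_zero] at h4
  let χ : MvPolynomial (Fin (N + 1)) A →ₐ[k] Λ := MvPolynomial.aevalTower φ c
  let Ψ : (MvPolynomial (Fin (N + 1)) A)[X] →ₐ[k] PowerSeries Λ :=
    ((Polynomial.coeToPowerSeries.algHom Λ).restrictScalars k).comp (Polynomial.mapAlgHom χ)
  have hΨ : ∀ p n, PowerSeries.coeff n (Ψ p) = χ (p.coeff n) := fun p n => by
    simp [Ψ, Polynomial.coeToPowerSeries.algHom_apply]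
  refine ⟨Ψ ∘ w, fun j => ?_, fun Φ hΦ => ?_, fun h => hc ?_⟩
  · rw [← PowerSeries.coeff_zero_eq_constantCoeff_apply, Function.comp, hΨ, h0]
    simp [χ, ι]
  · rw [← map_aev, PowerSeries.X_pow_dvd_iff]
    intro n hn
    rw [hΨ, Polynomial.X_pow_dvd_iff.1 (h2 Φ hΦ) n hn, map_zero]
  · rw [← map_aev, PowerSeries.X_pow_dvd_iff] at h
    have h3 := h n (Nat.lt_succ_of_le hn)
    rw [hΨ] at h3
    rw [MvPolynomial.eval_map]
    exact h3

theorem QQ.jets (hV : SmoothVar I) (h : QQ I Δ μ) : Jets I Δ μ := by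
  intro Λ _ _ y hy h0
  obtain ⟨i, hi⟩ := Function.ne_iff.1 h0
  have := hV.smooth i
  let A := Localization.Away (Ideal.Quotient.mk I (MvPolynomial.X i))
  let π : Pk k N →ₐ[k] A := (IsScalarTower.toAlgHom k (Pk k N ⧸ I) A).comp
    (Ideal.Quotient.mkₐ k I)
  have hx : On I (π ∘ MvPolynomial.X) := fun Φ hΦ => by
    rw [← map_aev, MvPolynomial.aeval_X_left_apply, AlgHom.comp_apply,
      Ideal.Quotient.mkₐ_eq_mk, Ideal.Quotient.eq_zero_iff_mem.2 hΦ, map_zero]
  let f : (Pk k N ⧸ I) →ₐ[k] Λ := Ideal.Quotient.liftₐ I (MvPolynomial.aeval y) hy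
  have hf : ∀ s : Submonoid.powers (Ideal.Quotient.mk I (MvPolynomial.X i)), IsUnit (f s) := by
    rintro ⟨_, n, rfl⟩
    refine IsUnit.mk0 _ ?_
    have hi' : y i ≠ 0 := hi
    simp [f, hi']
  obtain ⟨γ, h1, h2⟩ := ui_chart hV h hx (i := i)
    (IsLocalization.Away.algebraMap_isUnit (S := A) (Ideal.Quotient.mk I (MvPolynomial.X i)))
    Λ (IsLocalization.liftAlgHom (S := A) hf)
  refine ⟨μ, le_rfl, γ, fun j => ?_, h2⟩
  rw [h1]
  simp [π, f]

end

end Pool.Agent.Lib.MP_41050a_ag
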