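import Pool.Agent.Lib.MP_41050a_ag.UB

/-! Points and tangent vectors of the limit. -/

namespace Pool.Agent.Lib.MP_41050a_ag

open Polynomial Filter

set_option linter.unusedSectionVars false

noncomputable section

theorem GenDeg.on {k R : Type} [Field k] [CommRing R] [Algebra k R] {N d : ℕ}
    {I : Ideal (Pk k N)} (hd : GenDeg I d) {x : V R N}
    (h : ∀ Φ ∈ I, Φ.totalDegree ≤ d → MvPolynomial.aeval x Φ = 0) : On I x := by
  have h1 : Ideal.span {Φ | Φ ∈ I ∧ Φ.totalDegree ≤ d} ≤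
      RingHom.ker (MvPolynomial.aeval x : Pk k N →ₐ[k] R) :=
    Ideal.span_le.2 fun Φ hΦ => RingHom.mem_ker.2 (h Φ hΦ.1 hΦ.2)
  exact fun Φ hΦ => RingHom.mem_ker.1 (h1 (hd hΦ))

theorem GenDeg.tg {k R : Type} [Field k] [CommRing R] [Algebra k R] {N d : ℕ}
    {I : Ideal (Pk k N)} (hd : GenDeg I d) {x v : V R N} (hx : On I x)
    (h : ∀ Φ ∈ I, Φ.totalDegree ≤ d →
      ∑ i, MvPolynomial.aeval x (MvPolynomial.pderiv i Φ) * v i = 0) : Tg I x v :=
  (on_du.1 (hd.on fun Φ hΦ hD => by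
    rw [aev_du, hx Φ hΦ, h Φ hΦ hD, TrivSqZeroExt.inl_zero, TrivSqZeroExt.inr_zero, add_zero])).2

theorem uc_hom {σ R S : Type} [CommRing R] [CommRing S] (f : R →+* S) (n : ℕ)
    (Φ : MvPolynomial σ R) : MvPolynomial.map f (MvPolynomial.homogeneousComponent n Φ) =
      MvPolynomial.homogeneousComponent n (MvPolynomial.map f Φ) := by
  ext s
  rw [MvPolynomial.coeff_map, MvPolynomial.coeff_homogeneousComponent,
    MvPolynomial.coeff_homogeneousComponent, MvPolynomial.coeff_map, apply_ite f, map_zero]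

variable {k : ℕ → Type} [∀ j, Field (k j)] {K : Type} [Field K] {N d : ℕ}
  {I : ∀ j, Ideal (Pk (k j) N)}

namespace Ul

variable (U : Ul k K)

theorem cone_lim (hI : ∀ j, Cone (I j)) : Cone (U.lim I) := by
  refine ⟨⟨fun h => ?_, fun {a b} hab => ?_⟩, fun Ψ hΨ n => ?_⟩
  · have h1 : U.pl 1 ∈ U.lim I := h ▸ Submodule.mem_top
    obtain ⟨j, hj⟩ := ((U.mem_lim I 1).1 h1).exists
    rw [map_one] at hj
    exact (hI j).prime.ne_top ((Ideal.eq_top_iff_one _).2 hj)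
  · obtain ⟨a, rfl⟩ := U.pl_surj a
    obtain ⟨b, rfl⟩ := U.pl_surj b
    rw [← map_mul, U.mem_lim] at hab
    rw [U.mem_lim, U.mem_lim, ← Ultrafilter.eventually_or]
    exact hab.mono fun j hj => (hI j).prime.mem_or_mem (by rwa [map_mul] at hj)
  · obtain ⟨Φ, rfl⟩ := U.pl_surj Ψ
    have e1 : MvPolynomial.homogeneousComponent n (U.pl Φ) =
        U.pl (MvPolynomial.homogeneousComponent n Φ) := (uc_hom U.ρ n Φ).symm
    rw [e1, U.mem_lim]
    refine ((U.mem_lim I Φ).1 hΨ).mono fun j hj => ?_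
    have e2 : pj j (MvPolynomial.homogeneousComponent n Φ) =
        MvPolynomial.homogeneousComponent n (pj j Φ) := uc_hom _ n Φ
    rw [e2]
    exact (hI j).hom _ hj n

theorem on_iff (hd : ∀ j, GenDeg (I j) d) (x : ∀ j, V (k j) N) :
    On (U.lim I) (U.lv x) ↔ ∀ᶠ j in (U.F : Filter ℕ), On (I j) (x j) := by
  constructor
  · intro h
    by_contra h1
    have h2 : ∀ᶠ j in (U.F : Filter ℕ), ∃ Φ : Pk (k j) N, Φ.totalDegree ≤ d ∧
        (Φ ∈ I j ∧ MvPolynomial.aeval (x j) Φ ≠ 0) :=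
      (Ultrafilter.eventually_not.2 h1).mono fun j hj => by
        by_contra h3
        exact hj ((hd j).on fun Φ hΦ hD => not_not.1 fun h4 => h3 ⟨Φ, hD, hΦ, h4⟩)
    obtain ⟨Ψ, hΨ⟩ := U.exists_seq h2
    have h3 := h _ ((U.mem_lim I Ψ).2 (hΨ.mono fun j hj => hj.1))
    rw [U.aev_pl, U.ker] at h3
    obtain ⟨j, h4, h5⟩ := (hΨ.and h3).exists
    exact h4.2 h5
  · intro h Ψ hΨ
    obtain ⟨Φ, rfl⟩ := U.pl_surj Ψ
    rw [U.aev_pl, U.ker]
    exact (h.and ((U.mem_lim I Φ).1 hΨ)).mono fun j hj => hj.1 _ hj.2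

theorem uc_tg (x v : ∀ j, V (k j) N) (Φ : SP k N) :
    ∑ i, MvPolynomial.aeval (U.lv x) (MvPolynomial.pderiv i (U.pl Φ)) * U.lv v i = 0 ↔
      ∀ᶠ j in (U.F : Filter ℕ),
        ∑ i, MvPolynomial.aeval (x j) (MvPolynomial.pderiv i (pj j Φ)) * v j i = 0 := by
  have e1 : ∀ i, MvPolynomial.pderiv i (U.pl Φ) = U.pl (MvPolynomial.pderiv i Φ) := fun i =>
    MvPolynomial.pderiv_map
  have e2 : ∀ i j, MvPolynomial.pderiv i (pj j Φ) = pj j (MvPolynomial.pderiv i Φ) := fun i j =>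
    MvPolynomial.pderiv_map
  have e3 : ∑ i, MvPolynomial.aeval (U.lv x) (MvPolynomial.pderiv i (U.pl Φ)) * U.lv v i =
      U.ρ (∑ i, (fun j => MvPolynomial.aeval (x j) (pj j (MvPolynomial.pderiv i Φ))) *
        fun j => v j i) := by
    rw [map_sum]
    exact Finset.sum_congr rfl fun i _ => by rw [e1, U.aev_pl, map_mul]; rfl
  rw [e3, U.ker]
  simp only [Finset.sum_apply, Pi.mul_apply, e2]

theorem tg_iff (hd : ∀ j, GenDeg (I j) d) {x : ∀ j, V (k j) N}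
    (hx : ∀ᶠ j in (U.F : Filter ℕ), On (I j) (x j)) (v : ∀ j, V (k j) N) :
    Tg (U.lim I) (U.lv x) (U.lv v) ↔ ∀ᶠ j in (U.F : Filter ℕ), Tg (I j) (x j) (v j) := by
  constructor
  · intro h
    by_contra h1
    have h2 : ∀ᶠ j in (U.F : Filter ℕ), ∃ Φ : Pk (k j) N, Φ.totalDegree ≤ d ∧ (Φ ∈ I j ∧
        ∑ i, MvPolynomial.aeval (x j) (MvPolynomial.pderiv i Φ) * v j i ≠ 0) :=
      (hx.and (Ultrafilter.eventually_not.2 h1)).mono fun j hj => by
        by_contra h3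
        exact hj.2 ((hd j).tg hj.1 fun Φ hΦ hD => not_not.1 fun h4 => h3 ⟨Φ, hD, hΦ, h4⟩)
    obtain ⟨Ψ, hΨ⟩ := U.exists_seq h2
    have h3 := h _ ((U.mem_lim I Ψ).2 (hΨ.mono fun j hj => hj.1))
    rw [U.uc_tg] at h3
    obtain ⟨j, h4, h5⟩ := (hΨ.and h3).exists
    exact h4.2 h5
  · intro h Ψ hΨ
    obtain ⟨Φ, rfl⟩ := U.pl_surj Ψ
    rw [U.uc_tg]
    exact (h.and ((U.mem_lim I Φ).1 hΨ)).mono fun j hj => hj.1 _ hj.2

end Ul

end

end Pool.Agent.Lib.MP_41050a_ag
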