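import Pool.Agent.Lib.MP_41050a_ag.UH
import Pool.Agent.Lib.MP_41050a_ag.UC

/-! A uniform bound for the order of vanishing. -/

namespace Pool.Agent.Lib.MP_41050a_ag

open Polynomial Filter

set_option linter.unusedSectionVars false

noncomputable section

variable {k : ℕ → Type} [∀ j, Field (k j)] {K : Type} [Field K] {N d : ℕ}
  {I : ∀ j, Ideal (Pk (k j) N)}

theorem uj_map {R S : Type} [CommRing R] [CommRing S] (φ : R →+* S) (a : V R N)
    (f : MvPolynomial (Fin (N + 1)) R) :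
    MvPolynomial.map φ (MvPolynomial.aeval (fun i => MvPolynomial.X i + MvPolynomial.C (a i)) f :
      MvPolynomial (Fin (N + 1)) R) =
      MvPolynomial.aeval (fun i => MvPolynomial.X i + MvPolynomial.C (φ (a i)))
        (MvPolynomial.map φ f) := by
  induction f using MvPolynomial.induction_on with
  | C c => simp only [MvPolynomial.aeval_C, MvPolynomial.algebraMap_eq, MvPolynomial.map_C]
  | add p q hp hq => simp only [map_add, hp, hq]
  | mul_X p i hp =>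
    simp only [map_mul, hp, MvPolynomial.aeval_X, map_add, MvPolynomial.map_X, MvPolynomial.map_C]

theorem Ul.mx_lim (U : Ul k K) {a : ∀ j, V (k j) N} {n : ℕ} {f : SP k N}
    (h : ∀ᶠ j in (U.F : Filter ℕ), pj j f ∈ mx (a j) ^ n) : U.pl f ∈ mx (U.lv a) ^ n := by
  rw [mem_mx_pow]
  intro s hs
  have e := congrArg (MvPolynomial.coeff s) (uj_map U.ρ (fun i j => a j i) f)
  refine e.symm.trans ?_
  rw [MvPolynomial.coeff_map, U.ker]
  filter_upwards [h] with j hj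
  have e2 := congrArg (MvPolynomial.coeff s) (uj_map (Pi.evalRingHom k j) (fun i j => a j i) f)
  rw [MvPolynomial.coeff_map] at e2
  exact e2.trans ((mem_mx_pow _ _ _).1 hj s hs)

theorem Ul.qq_lim (U : Ul k K) (hI : ∀ j, Cone (I j)) (hd : ∀ j, GenDeg (I j) d) {Δ : SP k N}
    (h : U.pl Δ ∉ U.lim I) : ∃ μ, ∀ᶠ j in (U.F : Filter ℕ), QQ (I j) (pj j Δ) μ := by
  classical
  by_contra hne
  have hn : ∀ μ, ∀ᶠ j in (U.F : Filter ℕ), ¬ QQ (I j) (pj j Δ) μ := fun μ =>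
    Ultrafilter.eventually_not.2 fun e => hne ⟨μ, e⟩
  have hc : ∀ j, ∃ a : V (k j) N,
      ¬ QQ (I j) (pj j Δ) (Nat.findGreatest (fun μ => ¬ QQ (I j) (pj j Δ) μ) j) →
      On (I j) a ∧ pj j Δ ∈
        I j ⊔ mx a ^ (Nat.findGreatest (fun μ => ¬ QQ (I j) (pj j Δ) μ) j + 1) := by
    intro j
    by_cases hq : QQ (I j) (pj j Δ) (Nat.findGreatest (fun μ => ¬ QQ (I j) (pj j Δ) μ) j)
    · exact ⟨0, fun e => absurd hq e⟩
    · by_contra hx
      exact hq fun a ha _ hm => hx ⟨a, fun _ => ⟨ha, hm⟩⟩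
  choose a ha using hc
  have key : ∀ μ, ∀ᶠ j in (U.F : Filter ℕ),
      On (I j) (a j) ∧ pj j Δ ∈ I j ⊔ mx (a j) ^ (μ + 1) := by
    intro μ
    filter_upwards [hn μ, U.cof μ] with j h1 h2
    obtain ⟨h3, h4⟩ :=
      ha j (Nat.findGreatest_spec (P := fun μ => ¬ QQ (I j) (pj j Δ) μ) h2 h1)
    obtain ⟨x, hx, y, hy, e⟩ := Submodule.mem_sup.1 h4
    exact ⟨h3, Submodule.mem_sup.2 ⟨x, hx, y, Ideal.pow_le_pow_right (Nat.succ_le_succ
      (Nat.le_findGreatest (P := fun μ => ¬ QQ (I j) (pj j Δ) μ) h2 h1)) hy, e⟩⟩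
  refine h (krull_pt (U.cone_lim hI).prime
    ((U.on_iff hd a).2 ((key 0).mono fun j hj => hj.1)) fun μ => ?_)
  obtain ⟨Ψ, hΨ⟩ := U.exists_seq (D := d + μ)
    (r := fun j Φ => Φ ∈ I j ∧ pj j Δ - Φ ∈ mx (a j) ^ (μ + 1))
    ((key μ).mono fun j hj => (hd j).trunc hj.2)
  have h1 : U.pl Ψ ∈ U.lim I := (U.mem_lim I Ψ).2 (hΨ.mono fun j hj => hj.1)
  have h2 : U.pl (Δ - Ψ) ∈ mx (U.lv a) ^ (μ + 1) :=
    U.mx_lim (hΨ.mono fun j hj => by
      rw [map_sub]
      exact hj.2)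
  have e : U.pl Δ = U.pl Ψ + U.pl (Δ - Ψ) := by
    rw [map_sub, add_sub_cancel]
  rw [e]
  exact Submodule.add_mem_sup h1 h2

end

end Pool.Agent.Lib.MP_41050a_ag
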