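import Pool.Agent.Lib.MP_41050a_ag.Fam
import Pool.Agent.Lib.MP_41050a_ag.Member
import Pool.Agent.Lib.MP_41050a_ag.UF
import Pool.Agent.Lib.MP_41050a_ag.UG
import Pool.Agent.Lib.MP_41050a_ag.UI
import Pool.Agent.Lib.MP_41050a_ag.UJ

/-! Movable bend and break. -/

namespace Pool.Agent.Lib.MP_41050a_ag

open Polynomial

set_option linter.unusedSectionVars false

noncomputable section

/-- The data used in the proof are bounded by `b`. -/
def Bd {k : Type} [Field k] {N : ℕ} (I : Ideal (Pk k N)) (b : ℕ) : Prop :=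
  ∃ (x' : V k N) (j₀ : Fin (N + 1)) (Δ : Pk k N) (D m μ : ℕ) (Y Y' : Fin (N + 1) → Pk k N),
    Base I x' j₀ ∧ Δ.IsHomogeneous D ∧ Δ ∉ I ∧ Gen I x' j₀ Δ m Y Y' ∧ m ≤ b ∧ μ ≤ b ∧
    (∀ i, (Y i).totalDegree ≤ b) ∧ (∀ i, (Y' i).totalDegree ≤ b) ∧
    QQ I (Δ * MvPolynomial.X j₀) μ

theorem main_bd (N b : ℕ) : ∃ c : ℕ, ∀ (k : Type) [Field k] [IsAlgClosed k] [CharZero k]
    (I : Ideal (Pk k N)), SmoothVar I → Bd I b →
      ∀ e, c ≤ e → ∀ P ∈ (eqs I e).minimalPrimes, GenFree I e P → Breaks I e P := by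
  classical
  obtain ⟨c, hc⟩ := exists_split (b + 2 * (b + b) * b) (N + 1)
  refine ⟨c, fun k _ _ _ I hV ⟨x', j₀, Δ, D, m, μ, Y, Y', hB, hΔ, hI, hG, hm, hb, hY, hY', hQ⟩
    e he P hP hg => ?_⟩
  have hI' : Δ * MvPolynomial.X j₀ ∉ I := fun hm =>
    (hV.prime.mem_or_mem hm).elim hI hB.X_notMem
  have hμ := exists_member hV (hΔ.mul (MvPolynomial.isHomogeneous_X k j₀)) hI'
    (fun Λ _ _ _ e F hF h0 => by
      rw [map_mul, MvPolynomial.aeval_X] at h0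
      refine free_of_orb hV hB hF (hG.orb hV hΔ (hF.on.map (amH k Λ)) (Ne.isUnit ?_)
        (Ne.isUnit ?_))
      · exact RatFunc.algebraMap_ne_zero (right_ne_zero_of_mul h0)
      · rw [← amH_comp (k := k), ← map_aev]
        exact RatFunc.algebraMap_ne_zero (left_ne_zero_of_mul h0)) (hQ.jets hV)
  have hC := exists_dat hV hΔ hG μ hY hY'
  have hle : μ + 2 * (m + b) * μ ≤ b + 2 * (b + b) * b := by gcongr
  obtain ⟨a, h1, h2, h3, h4⟩ := hμ e P hP hg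
  obtain ⟨S, 𝒟, e1, e2, e3⟩ := hC e (pol a) h1 h2 h3
  obtain ⟨B, b1, b2, b3⟩ := hc S 𝒟.ee 𝒟.d (fun p => (e2 p).trans hle)
    (fun p i => (e3 p i).trans (Nat.cast_le.2 hle)) 𝒟.sum_d (he.trans e1.ge)
  obtain ⟨pB, hpB, -⟩ := Finset.exists_ne_zero_of_sum_ne_zero b2.ne'
  obtain ⟨pA, hpA, -⟩ := Finset.exists_ne_zero_of_sum_ne_zero b3.ne'
  obtain ⟨R, _, _, T, inc, i1, i2, i3⟩ := exists_par k
  obtain ⟨q, hq⟩ := Infinite.exists_notMem_finset (Finset.univ.image 𝒟.pt)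
  let 𝒞 : Cf k R S := ⟨T, 𝒟.pt, 𝒟.inj, q,
    fun p e => hq (Finset.mem_image.2 ⟨p, Finset.mem_univ p, e⟩), B⟩
  obtain ⟨y, y1, y2, ⟨c₀, y3, y4⟩, y5, y6⟩ :=
    exists_sol hV hB h1 𝒟 𝒞 rfl (Finset.mem_compl.1 hpA) hpB b1
  obtain ⟨F₁, F₂, G, H, hf⟩ := exists_fam hV 𝒞 y1 y2 y3 y4 y5 y6
  have es : ∑ p ∈ Bᶜ, 𝒟.ee p + ∑ p ∈ B, 𝒟.ee p = e := by
    rw [add_comm, Finset.sum_add_sum_compl, e1]
  obtain ⟨cR, rfl⟩ := exists_pol (e := e) (F := G) fun i => es ▸ hf.deg i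
  have : IsDomain R := i1.isDomain (inc : R →+* PowerSeries k)
  have e4 : (T.ψ : R →+* k) ∘ cR = a := pol_inj (funext fun i => by
    rw [← pol_map]
    exact hf.one i)
  have e5 : P ≤ RingHom.ker (MvPolynomial.aeval cR : MvPolynomial (Ix N e) k →ₐ[k] R) :=
    h4 _ (RingHom.ker_isPrime _) (fun g hg => eqs_iff.2 hf.on g hg) fun g hg => by
      rw [← e4]
      exact (MvPolynomial.comp_aeval_apply cR T.ψ g).symm.trans
        ((congrArg T.ψ hg).trans (map_zero _))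
  have e6 : PowerSeries.constantCoeff.comp (inc : R →+* PowerSeries k) = (T.s0 : R →+* k) :=
    RingHom.ext fun r => (i3 r).symm
  refine ⟨_, _, q, F₁, F₂, (inc : R →+* PowerSeries k) ∘ cR,
    fun i => (H i).map (inc : R →+* PowerSeries k), b3, b2, es, hf.map₁,
    free_of_orb hV hB hf.map₁ hf.orb₁, hf.map₂, free_of_orb hV hB hf.map₂ hf.orb₂,
    fun g hg => ?_, fun i => ?_, fun i => ?_, fun i => ?_⟩
  · exact (MvPolynomial.comp_aeval_apply cR inc g).symm.trans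
      ((congrArg inc (e5 hg)).trans (map_zero _))
  · rw [← pol_map, map_map, e6]
    exact hf.zero i
  · have h5 := congrArg (Polynomial.map (inc : R →+* PowerSeries k)) (hf.comp i)
    rw [map_comp, Polynomial.map_add, Polynomial.map_mul, Polynomial.map_mul, Polynomial.map_pow,
      map_C, map_C, map_X] at h5
    rw [← pol_map]
    have h6 : (inc : R →+* PowerSeries k) (algebraMap k R q) = PowerSeries.C q := inc.commutes q
    have h7 : (inc : R →+* PowerSeries k) T.s = PowerSeries.X := i2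
    rw [← h6, ← h7]
    exact h5
  · rw [map_map, e6]
    exact hf.zero' i

theorem exists_bd (N d : ℕ) : ∃ b : ℕ, ∀ (k : Type) [Field k] [IsAlgClosed k] [CharZero k]
    (I : Ideal (Pk k N)), Cone I → GenDeg I d → ∀ x₀, DenseOrbit I x₀ → Bd I b := by
  by_contra hne
  push Not at hne
  choose k i1 i2 i3 I hI hd x₀ hx hb using hne
  obtain ⟨K, _, _, _, ⟨U⟩⟩ := exists_ul k
  choose x' j₁ hB using fun j => exists_base (hI j) (hx j)
  obtain ⟨j₀, hj⟩ := U.fin_choice (r := fun j a => Base (I j) (x' j) a)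
    (Filter.Eventually.of_forall fun j => ⟨j₁ j, hB j⟩)
  have hK := U.cone_lim hI
  have hBK := U.base_lim hd hj
  obtain ⟨Δ, D, m, Y, Y', hΔ, hΔI, hG⟩ := hBK.exists_gen hK
  obtain ⟨M, Z, hP⟩ := hG.pg
  obtain ⟨Δ, rfl, hΔ'⟩ := U.exists_hom_lift hΔ
  choose Y₁ hY using fun i => U.pl_surj (Y i)
  choose Y₂ hY' using fun i => U.pl_surj (Y' i)
  choose Z₁ hZ using fun a b => U.pl_surj (Z a b)
  obtain rfl : (fun i => U.pl (Y₁ i)) = Y := funext hY
  obtain rfl : (fun i => U.pl (Y₂ i)) = Y' := funext hY'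
  obtain rfl : (Matrix.of Z₁).map U.pl = Z := Matrix.ext hZ
  obtain ⟨μ, hμ⟩ := U.qq_lim hI hd (Δ := Δ * MvPolynomial.X j₀) fun h => by
    rw [map_mul, U.pl_X] at h
    exact (hK.prime.mem_or_mem h).elim hΔI hBK.X_notMem
  have h1 := Ultrafilter.eventually_not.2 (mt (U.mem_lim I Δ).2 hΔI)
  obtain ⟨j, e1, e2, e3, e4, e5⟩ := (hj.and (h1.and ((U.pg_back hd hP).and (hμ.and
    (U.cof (m + μ + ∑ i, ((Y₁ i).totalDegree + (Y₂ i).totalDegree))))))).exists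
  have h2 : ∀ i, (Y₁ i).totalDegree + (Y₂ i).totalDegree ≤ j := fun i =>
    (Finset.single_le_sum (f := fun i => (Y₁ i).totalDegree + (Y₂ i).totalDegree)
      (fun _ _ => Nat.zero_le _) (Finset.mem_univ i)).trans (le_trans (Nat.le_add_left _ _) e5)
  rw [map_mul, pj_X] at e4
  exact hb j ⟨x' j, j₀, pj j Δ, D, m, μ, _, _, e1, hΔ' j, e2, e3.gen (hI j) (hΔ' j), by omega,
    by omega, fun i => (pj_deg j _).trans (le_trans (Nat.le_add_right _ _) (h2 i)),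
    fun i => (pj_deg j _).trans (le_trans (Nat.le_add_left _ _) (h2 i)), e4⟩

theorem main (N d : ℕ) : ∃ c : ℕ, ∀ (k : Type) [Field k] [IsAlgClosed k] [CharZero k]
    (I : Ideal (Pk k N)), SmoothVar I → GenDeg I d → ∀ x₀, DenseOrbit I x₀ →
      ∀ e, c ≤ e → ∀ P ∈ (eqs I e).minimalPrimes, GenFree I e P → Breaks I e P := by
  obtain ⟨b, hb⟩ := exists_bd N d
  obtain ⟨c, hc⟩ := main_bd N b
  exact ⟨c, fun k _ _ _ I hV hd x₀ h => hc k I hV (hb k I hV.toCone hd x₀ h)⟩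

end

end Pool.Agent.Lib.MP_41050a_ag
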