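import Pool.Agent.Lib.MP_41050a_ag.Defs

/-! The places of the field of rational functions. -/

namespace Pool.Agent.Lib.MP_41050a_ag

open Polynomial

set_option linter.unusedSectionVars false

noncomputable section

variable {Λ : Type} [Field Λ]

/-- Polynomials that do not vanish at zero. -/
def M0 (Λ : Type) [Field Λ] : Submonoid Λ[X] where
  carrier := {h | h.eval 0 ≠ 0}
  mul_mem' := fun {a b} ha hb => by
    simpa only [Set.mem_ofPred_eq, eval_mul] using mul_ne_zero ha hb
  one_mem' := by simp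

/-- The local ring of the line at zero. -/
abbrev LO (Λ : Type) [Field Λ] : Type := Localization (M0 Λ)

/-- The local parameter at a place. -/
def lp : Option Λ → RatFunc Λ
  | some a => RatFunc.X - RatFunc.C a
  | none => RatFunc.X⁻¹

theorem pl_X_eq (a : Λ) : (RatFunc.X : RatFunc Λ) = lp (some a) + algebraMap Λ (RatFunc Λ) a := by
  simp only [lp, RatFunc.algebraMap_eq_C, sub_add_cancel]

theorem pl_trans (p : Option Λ) : Transcendental Λ (lp p) := by
  intro h
  apply RatFunc.transcendental_X (K := Λ)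
  cases p with
  | none => exact IsAlgebraic.inv_iff.mp h
  | some a =>
    rw [pl_X_eq a]
    exact h.add (isAlgebraic_algebraMap a)

theorem aeval_lp_ne (p : Option Λ) {h : Λ[X]} (h0 : h ≠ 0) : aeval (lp p) h ≠ 0 := by
  exact fun e => pl_trans p ⟨h, h0, e⟩

/-- The value at the place. -/
def res : LO Λ →ₐ[Λ] Λ := IsLocalization.liftAlgHom (M := M0 Λ) (f := aeval (0 : Λ))
  fun y => by simpa only [coe_aeval_eq_eval] using Ne.isUnit y.2

/-- The embedding of the local ring at a place. -/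
def io (p : Option Λ) : LO Λ →ₐ[Λ] RatFunc Λ :=
  IsLocalization.liftAlgHom (M := M0 Λ) (f := aeval (lp p))
    fun y => Ne.isUnit (aeval_lp_ne p fun e => y.2 (by rw [e, eval_zero]))

/-- The uniformiser. -/
def unif (Λ : Type) [Field Λ] : LO Λ := algebraMap Λ[X] (LO Λ) X

/-- The local generator of the line bundle of degree `e`. -/
def om (e : ℕ) : Option Λ → RatFunc Λ
  | some _ => 1
  | none => RatFunc.X ^ e

/-- `c` is a local section of the line bundle of degree `e` at `p`. -/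
def Reg (e : ℕ) (p : Option Λ) (c : RatFunc Λ) : Prop := ∃ o, io p o * om e p = c

theorem res_am (g : Λ[X]) : res (algebraMap Λ[X] (LO Λ) g) = g.eval 0 := by
  rw [res, IsLocalization.liftAlgHom_apply, IsLocalization.lift_eq]
  exact congrFun (coe_aeval_eq_eval (0 : Λ)) g

theorem io_am (p : Option Λ) (g : Λ[X]) : io p (algebraMap Λ[X] (LO Λ) g) = aeval (lp p) g := by
  rw [io, IsLocalization.liftAlgHom_apply, IsLocalization.lift_eq]
  rfl

theorem pl_unit {h : Λ[X]} (hh : h.eval 0 ≠ 0) : IsUnit (algebraMap Λ[X] (LO Λ) h) :=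
  IsLocalization.map_units (M := M0 Λ) (LO Λ) ⟨h, hh⟩

theorem pl_rep (o : LO Λ) : ∃ g h : Λ[X], h.eval 0 ≠ 0 ∧
    o * algebraMap Λ[X] (LO Λ) h = algebraMap Λ[X] (LO Λ) g := by
  obtain ⟨⟨g, h⟩, e⟩ := IsLocalization.surj (M0 Λ) o
  exact ⟨g, h.1, h.2, e⟩

theorem io_inj (p : Option Λ) : Function.Injective (io p) := by
  rw [injective_iff_map_eq_zero]
  intro o ho
  obtain ⟨g, h, hh, e⟩ := pl_rep o
  have e2 := congrArg (io p) e
  rw [map_mul, ho, zero_mul, io_am] at e2
  have hg : g = 0 := by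
    by_contra hg
    exact aeval_lp_ne p hg e2.symm
  rw [hg, map_zero] at e
  exact (pl_unit hh).mul_left_eq_zero.mp e

theorem om_ne (e : ℕ) (p : Option Λ) : om e p ≠ 0 := by
  cases p with
  | none => exact pow_ne_zero e RatFunc.X_ne_zero
  | some a => exact one_ne_zero

theorem isUnit_of_res {o : LO Λ} (h : res o ≠ 0) : IsUnit o := by
  obtain ⟨g, d, hd, e⟩ := pl_rep o
  have e2 := congrArg res e
  rw [map_mul, res_am, res_am] at e2
  have hg : g.eval 0 ≠ 0 := e2 ▸ mul_ne_zero h hd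
  have hu := pl_unit hg
  rw [← e] at hu
  exact isUnit_of_mul_isUnit_left hu

theorem unif_dvd {o : LO Λ} (h : res o = 0) : unif Λ ∣ o := by
  obtain ⟨g, d, hd, e⟩ := pl_rep o
  have e2 := congrArg res e
  rw [map_mul, res_am, res_am, h, zero_mul] at e2
  have hx : (X : Λ[X]) ∣ g := by
    rw [X_dvd_iff, coeff_zero_eq_eval_zero]
    exact e2.symm
  have h2 : unif Λ ∣ algebraMap Λ[X] (LO Λ) g := map_dvd (algebraMap Λ[X] (LO Λ)) hx
  rw [← e] at h2
  exact (pl_unit hd).dvd_mul_right.mp h2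

theorem res_unif : res (unif Λ) = 0 := by
  rw [unif, res_am, eval_X]

theorem io_unif (p : Option Λ) : io p (unif Λ) = lp p := by
  rw [unif, io_am, aeval_X]

theorem pl_lp_ne (p : Option Λ) : lp p ≠ 0 := by
  have h := aeval_lp_ne p (X_ne_zero (R := Λ))
  rwa [aeval_X] at h

theorem pl_inv_mem (p : Option Λ) {o : LO Λ} (h : res o ≠ 0) : (io p o)⁻¹ ∈ (io p).range := by
  obtain ⟨o', e⟩ := (isUnit_of_res h).exists_right_inv
  refine ⟨o', ?_⟩
  have e2 := congrArg (io p) e
  rw [map_mul, map_one] at e2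
  exact eq_inv_of_mul_eq_one_right e2

theorem inv_lp_mem {p p' : Option Λ} (h : p' ≠ p) : (lp p)⁻¹ ∈ (io p').range := by
  cases p with
  | none =>
    cases p' with
    | none => exact absurd rfl h
    | some b =>
      have e : (lp (none : Option Λ))⁻¹ = lp (some b) + algebraMap Λ (RatFunc Λ) b := by
        rw [← pl_X_eq b]
        exact inv_inv _
      rw [e]
      exact add_mem ⟨unif Λ, io_unif _⟩ (Subalgebra.algebraMap_mem _ b)
  | some a =>
    cases p' with
    | none =>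
      have hr : res (1 - algebraMap Λ (LO Λ) a * unif Λ) ≠ 0 := by
        rw [map_sub, map_mul, res_unif, map_one, mul_zero, sub_zero]
        exact one_ne_zero
      have e : (lp (some a))⁻¹ =
          lp none * (io none (1 - algebraMap Λ (LO Λ) a * unif Λ))⁻¹ := by
        rw [map_sub, map_mul, io_unif, map_one, AlgHom.commutes]
        have hX : (RatFunc.X : RatFunc Λ) ≠ 0 := RatFunc.X_ne_zero
        simp only [lp, RatFunc.algebraMap_eq_C]
        rw [← mul_inv]
        congr 1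
        field_simp
      rw [e]
      exact mul_mem ⟨unif Λ, io_unif _⟩ (pl_inv_mem _ hr)
    | some b =>
      have hab : b - a ≠ 0 := fun e => h (by rw [sub_eq_zero.mp e])
      have hr : res (unif Λ + algebraMap Λ (LO Λ) (b - a)) ≠ 0 := by
        rw [map_add, res_unif, zero_add, AlgHom.commutes]
        exact hab
      have e : lp (some a) = io (some b) (unif Λ + algebraMap Λ (LO Λ) (b - a)) := by
        rw [map_add, io_unif, AlgHom.commutes]
        simp only [lp, RatFunc.algebraMap_eq_C, map_sub]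
        ring
      rw [e]
      exact pl_inv_mem _ hr

theorem pl_loc {e : ℕ} {g : Λ[X]} (hg : g.natDegree ≤ e) (p : Option Λ) :
    ∃ o, io p o * om e p = algebraMap Λ[X] (RatFunc Λ) g ∧ res o = val e p g := by
  cases p with
  | none =>
    refine ⟨algebraMap Λ[X] (LO Λ) (reflect e g), ?_, ?_⟩
    · rw [io_am, ← RatFunc.aeval_X_left_eq_algebraMap]
      let : Invertible (RatFunc.X : RatFunc Λ) := invertibleOfNonzero RatFunc.X_ne_zero
      have h := eval₂_reflect_mul_pow (algebraMap Λ (RatFunc Λ)) RatFunc.X e g hg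
      rw [invOf_eq_inv] at h
      exact h
    · rw [res_am, ← coeff_zero_eq_eval_zero, coeff_reflect, revAt_zero]
      rfl
  | some a =>
    refine ⟨algebraMap Λ[X] (LO Λ) (g.comp (X + C a)), ?_, ?_⟩
    · rw [io_am, aeval_comp, map_add, aeval_X, aeval_C, ← pl_X_eq,
        RatFunc.aeval_X_left_eq_algebraMap]
      exact mul_one _
    · rw [res_am, eval_comp, eval_add, eval_X, eval_C, zero_add]
      rfl

theorem pl_poly (p : Option Λ) (g : Λ[X]) :
    ∃ (n : ℕ) (o : LO Λ), algebraMap Λ[X] (RatFunc Λ) g = io p o * (lp p)⁻¹ ^ n := by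
  obtain ⟨o, e, -⟩ := pl_loc (le_refl g.natDegree) p
  cases p with
  | none => exact ⟨g.natDegree, o, by rw [← e]; simp only [om, lp, inv_inv]⟩
  | some a => exact ⟨0, o, by rw [← e]; simp only [om, pow_zero]⟩

theorem pl_fact {o : LO Λ} (h : o ≠ 0) : ∃ (n : ℕ) (u : LO Λ), IsUnit u ∧ o = unif Λ ^ n * u := by
  obtain ⟨g, d, hd, e⟩ := pl_rep o
  have hg : g ≠ 0 := by
    rintro rfl
    rw [map_zero] at e
    exact h ((pl_unit hd).mul_left_eq_zero.mp e)
  obtain ⟨g', e2, hn⟩ := exists_eq_pow_rootMultiplicity_mul_and_not_dvd g hg 0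
  rw [dvd_iff_isRoot] at hn
  obtain ⟨d', hd'⟩ := (pl_unit hd).exists_right_inv
  refine ⟨rootMultiplicity 0 g, algebraMap Λ[X] (LO Λ) g' * d',
    (pl_unit hn).mul (IsUnit.of_mul_eq_one_right _ hd'), ?_⟩
  have e3 := congrArg (algebraMap Λ[X] (LO Λ)) e2
  rw [map_mul, map_pow, C_0, sub_zero, ← e] at e3
  rw [unif, ← mul_assoc, ← e3, mul_assoc, hd', mul_one]

theorem pl_key (p : Option Λ) (c : RatFunc Λ) :
    ∃ (n : ℕ) (o : LO Λ), c = io p o * (lp p)⁻¹ ^ n := by
  obtain ⟨n₁, o₁, e₁⟩ := pl_poly p c.num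
  obtain ⟨n₂, o₂, e₂⟩ := pl_poly p c.denom
  have hd : algebraMap Λ[X] (RatFunc Λ) c.denom ≠ 0 := RatFunc.algebraMap_ne_zero c.denom_ne_zero
  have ho : o₂ ≠ 0 := by
    rintro rfl
    rw [map_zero, zero_mul] at e₂
    exact hd e₂
  obtain ⟨m, u, hu, rfl⟩ := pl_fact ho
  obtain ⟨u', hu'⟩ := hu.exists_right_inv
  have e3 := congrArg (io p) hu'
  rw [map_mul, map_one] at e3
  have hu0 : io p u ≠ 0 := left_ne_zero_of_mul_eq_one e3
  have hl := pl_lp_ne p
  refine ⟨n₁ + m, o₁ * u' * unif Λ ^ n₂, ?_⟩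
  rw [← c.num_div_denom, e₁, e₂]
  simp only [map_mul, map_pow, io_unif, eq_inv_of_mul_eq_one_right e3, inv_pow, pow_add]
  field_simp

/-- Principal parts. -/
theorem exists_pp (p : Option Λ) (c : RatFunc Λ) :
    ∃ c' o, c = c' + io p o ∧ ∀ p', p' ≠ p → c' ∈ (io p').range := by
  obtain ⟨n, o, rfl⟩ := pl_key p c
  induction n generalizing o with
  | zero => exact ⟨0, o, by rw [pow_zero, mul_one, zero_add], fun p' _ => zero_mem _⟩
  | succ n ih =>
    have h0 : res (o - algebraMap Λ (LO Λ) (res o)) = 0 := by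
      rw [map_sub, AlgHom.commutes]
      exact sub_self _
    obtain ⟨o', e⟩ := unif_dvd h0
    obtain ⟨c', o'', e2, hc⟩ := ih o'
    refine ⟨algebraMap Λ (RatFunc Λ) (res o) * (lp p)⁻¹ ^ (n + 1) + c', o'', ?_, fun p' hp => ?_⟩
    · have e3 := congrArg (io p) e
      rw [map_sub, AlgHom.commutes, map_mul, io_unif] at e3
      have e4 : lp p * (lp p)⁻¹ = 1 := mul_inv_cancel₀ (pl_lp_ne p)
      rw [add_assoc, ← e2, pow_succ]
      linear_combination ((lp p)⁻¹ ^ n * (lp p)⁻¹) * e3 + (io p o' * (lp p)⁻¹ ^ n) * e4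
    · exact add_mem (mul_mem (Subalgebra.algebraMap_mem _ _) (pow_mem (inv_lp_mem hp) _))
        (hc p' hp)

theorem finite_poles (e : ℕ) (c : RatFunc Λ) : {p | ¬ Reg e p c}.Finite := by
  refine (((finite_setOfPred_isRoot c.denom_ne_zero).image some).insert none).subset ?_
  intro p hp
  cases p with
  | none => exact Set.mem_insert _ _
  | some a =>
    refine Set.mem_insert_of_mem _ ⟨a, ?_, rfl⟩
    by_contra ha
    apply hp
    obtain ⟨o₁, e₁, -⟩ := pl_loc (le_refl c.num.natDegree) (some a)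
    obtain ⟨o₂, e₂, r₂⟩ := pl_loc (le_refl c.denom.natDegree) (some a)
    have hr : res o₂ ≠ 0 := by
      rw [r₂]
      exact ha
    obtain ⟨o₃, e₃⟩ := pl_inv_mem (some a) hr
    refine ⟨o₁ * o₃, ?_⟩
    simp only [om, mul_one] at e₁ e₂ ⊢
    have e₄ : io (some a) o₃ = (io (some a) o₂)⁻¹ := e₃
    rw [map_mul, e₄, e₁, e₂, ← div_eq_mul_inv, RatFunc.num_div_denom]

theorem exists_loc {e : ℕ} {g : Λ[X]} (hg : g.natDegree ≤ e) (p : Option Λ) :
    ∃ o, io p o * om e p = algebraMap Λ[X] (RatFunc Λ) g ∧ res o = val e p g := by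
  exact pl_loc hg p

theorem exists_poly [IsAlgClosed Λ] {e : ℕ} {c : RatFunc Λ} (h : ∀ p, Reg e p c) :
    ∃ g : Λ[X], g.natDegree ≤ e ∧ algebraMap Λ[X] (RatFunc Λ) g = c := by
  have hd : algebraMap Λ[X] (RatFunc Λ) c.denom ≠ 0 := RatFunc.algebraMap_ne_zero c.denom_ne_zero
  have hc : c * algebraMap Λ[X] (RatFunc Λ) c.denom = algebraMap Λ[X] (RatFunc Λ) c.num := by
    rw [← eq_div_iff hd, RatFunc.num_div_denom]
  have h1 : c.denom = 1 := by
    rw [← c.monic_denom.degree_le_zero_iff_eq_one]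
    by_contra hdeg
    obtain ⟨a, ha⟩ := IsAlgClosed.exists_root c.denom fun e => hdeg e.le
    obtain ⟨o, eo⟩ := h (some a)
    obtain ⟨o₁, e₁, r₁⟩ := pl_loc (le_refl c.num.natDegree) (some a)
    obtain ⟨o₂, e₂, r₂⟩ := pl_loc (le_refl c.denom.natDegree) (some a)
    simp only [om, mul_one, val] at e₁ e₂ eo r₁ r₂
    have e3 : o * o₂ = o₁ := io_inj (some a) (by rw [map_mul, eo, e₁, e₂, hc])
    have e4 := congrArg res e3
    rw [map_mul, r₁, r₂, ha.eq_zero, mul_zero] at e4
    obtain ⟨x, y, hxy⟩ := c.isCoprime_num_denom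
    have e5 := congrArg (eval a) hxy
    rw [eval_add, eval_mul, eval_mul, ← e4, ha.eq_zero, mul_zero, mul_zero, add_zero,
      eval_one] at e5
    exact zero_ne_one e5
  rw [h1, map_one, mul_one] at hc
  refine ⟨c.num, ?_, hc.symm⟩
  by_contra hlt
  obtain ⟨m, hm⟩ := Nat.exists_eq_add_of_lt (not_le.mp hlt)
  have h0 : c.num ≠ 0 := by
    intro e0
    rw [e0, natDegree_zero] at hlt
    exact hlt (Nat.zero_le _)
  obtain ⟨o, eo⟩ := h none
  obtain ⟨o₁, e₁, r₁⟩ := pl_loc (le_refl c.num.natDegree) none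
  simp only [om, val] at eo e₁ r₁
  have hX : (RatFunc.X : RatFunc Λ) ≠ 0 := RatFunc.X_ne_zero
  have e3 : o * unif Λ ^ (m + 1) = o₁ := by
    apply io_inj none
    rw [hm, ← hc, ← eo] at e₁
    rw [map_mul, map_pow, io_unif]
    apply mul_right_cancel₀ (pow_ne_zero (e + m + 1) hX)
    rw [e₁]
    simp only [lp]
    rw [inv_pow, add_assoc, pow_add _ e, mul_comm (RatFunc.X ^ e), ← mul_assoc,
      inv_mul_cancel_right₀ (pow_ne_zero (m + 1) hX)]
  have e4 := congrArg res e3
  rw [map_mul, map_pow, res_unif, r₁, pow_succ, mul_zero, mul_zero, coeff_natDegree] at e4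
  exact h0 (leadingCoeff_eq_zero.mp e4.symm)

theorem pl_pos (p : Option Λ) {n : ℤ} {o o' : LO Λ} (h : o * o' = 1)
    (e : io p o = lp p ^ n) (hn : 0 < n) : False := by
  obtain ⟨m, rfl⟩ := Int.eq_ofNat_of_zero_le hn.le
  have hm : m ≠ 0 := by
    rintro rfl
    exact lt_irrefl _ hn
  have e2 : o = unif Λ ^ m := io_inj p (by rw [map_pow, io_unif, e, zpow_natCast])
  have e3 := congrArg res h
  rw [map_mul, map_one, e2, map_pow, res_unif, zero_pow hm, zero_mul] at e3
  exact zero_ne_one e3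

/-- A power of the local parameter is a unit only for the exponent zero. -/
theorem zpow_lp_unit (p : Option Λ) {n : ℤ} {o o' : LO Λ} (h : o * o' = 1)
    (e : io p o = lp p ^ n) : n = 0 := by
  rcases lt_trichotomy n 0 with hn | hn | hn
  · have e2 := congrArg (io p) h
    rw [map_mul, map_one, e] at e2
    have e3 : io p o' = lp p ^ (-n) := by
      rw [zpow_neg]
      exact eq_inv_of_mul_eq_one_right e2
    exact (pl_pos p (by rwa [mul_comm] at h) e3 (neg_pos.mpr hn)).elim
  · exact hn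
  · exact (pl_pos p h e hn).elim

end

end Pool.Agent.Lib.MP_41050a_ag
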