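import Pool.Agent.Lib.MP_41050a_ag.Lift
import Pool.Agent.Lib.MP_41050a_ag.Pl

/-! Free curves: generic and global generation. -/

namespace Pool.Agent.Lib.MP_41050a_ag

open Polynomial

set_option linter.unusedSectionVars false

noncomputable section

variable {k : Type} [Field k] [IsAlgClosed k] [CharZero k] {N : ℕ} {I : Ideal (Pk k N)}
  {Λ : Type} [Field Λ] [Algebra k Λ] {e : ℕ} {F : V Λ[X] N}

/-- A tuple of polynomials as a tuple of rational functions. -/
def am (F : V Λ[X] N) : V (RatFunc Λ) N := fun i => algebraMap Λ[X] (RatFunc Λ) (F i)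

/-- The inclusion as a map of algebras over `k`. -/
def amH (k Λ : Type) [Field k] [Field Λ] [Algebra k Λ] : Λ[X] →ₐ[k] RatFunc Λ :=
  IsScalarTower.toAlgHom k Λ[X] (RatFunc Λ)

theorem amH_comp (F : V Λ[X] N) : amH k Λ ∘ F = am F := rfl

/-- Global sections. -/
def Sec (I : Ideal (Pk k N)) (e : ℕ) (F : V Λ[X] N) : Set (V (RatFunc Λ) N) :=
  {s | ∃ G : V Λ[X] N, (∀ i, (G i).natDegree ≤ e) ∧ Tg I F G ∧ s = am G}

/-- Generic generation by global sections. -/
def GS (I : Ideal (Pk k N)) (e : ℕ) (F : V Λ[X] N) : Prop :=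
  ∀ v, Tg I (am F) v → v ∈ Submodule.span (RatFunc Λ) (Sec I e F)

/-- The local form of a map. -/
theorem free0_loc (hV : SmoothVar I) (hF : IsMap I e F) (p : Option Λ) : ∃ o : V (LO Λ) N,
    (∀ i, io p (o i) * om e p = am F i) ∧ (∀ i, res (o i) = val e p (F i)) ∧ On I o := by
  choose o h1 h2 using fun i => exists_loc (hF.deg i) p
  refine ⟨o, h1, h2, On.of_map (φ := (io p).restrictScalars k) (io_inj p) ?_⟩
  have h3 := (hF.on.map (amH k Λ)).smul hV (om e p)⁻¹
  have h4 : (om e p)⁻¹ • (amH k Λ ∘ F) = (io p).restrictScalars k ∘ o := funext fun i => by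
    rw [amH_comp, Pi.smul_apply, smul_eq_mul, am, ← h1, mul_comm, mul_inv_cancel_right₀ (om_ne e p)]
    rfl
  rwa [h4] at h3

theorem free0_val_add (p : Option Λ) (f g : Λ[X]) : val e p (f + g) = val e p f + val e p g := by
  cases p with
  | none => exact coeff_add f g e
  | some a => exact eval_add

theorem free0_val_mul (p : Option Λ) (c : Λ) (g : Λ[X]) : val e p (C c * g) = c * val e p g := by
  cases p with
  | none => exact coeff_C_mul g
  | some a => exact eval_C_mul

theorem free0_val_zero (p : Option Λ) : val e p (0 : Λ[X]) = 0 := by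
  cases p with
  | none => exact coeff_zero e
  | some a => exact eval_zero

/-- Dual numbers that vanish at the place to first order. -/
def free0_id (Λ : Type) [Field Λ] : Ideal (DualNumber (LO Λ)) where
  carrier := {x | x.fst = 0 ∧ res x.snd = 0}
  zero_mem' := ⟨rfl, map_zero _⟩
  add_mem' := fun {a b} ha hb => ⟨by rw [TrivSqZeroExt.fst_add, ha.1, hb.1, add_zero],
    by rw [TrivSqZeroExt.snd_add, map_add, ha.2, hb.2, add_zero]⟩
  smul_mem' := fun c x hx => ⟨by rw [smul_eq_mul, TrivSqZeroExt.fst_mul, hx.1, mul_zero],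
    by rw [smul_eq_mul, DualNumber.snd_mul, hx.1, mul_zero, add_zero, map_mul, hx.2, mul_zero]⟩

theorem free0_sq : free0_id Λ ^ 2 ≤ ⊥ := by
  rw [Submodule.pow_succ, Submodule.pow_one]
  refine Ideal.mul_le.2 fun x hx y hy => (Ideal.mem_bot).2 (TrivSqZeroExt.ext ?_ ?_)
  · rw [TrivSqZeroExt.fst_mul, hx.1, zero_mul, TrivSqZeroExt.fst_zero]
  · rw [DualNumber.snd_mul, hx.1, hy.1, zero_mul, mul_zero, add_zero, TrivSqZeroExt.snd_zero]

theorem On.val (hV : SmoothVar I) (hF : IsMap I e F) (p : Option Λ) :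
    On I fun i => val e p (F i) := by
  obtain ⟨o, -, h2, h3⟩ := free0_loc hV hF p
  have h4 := h3.map ((res (Λ := Λ)).restrictScalars k)
  rwa [show (res (Λ := Λ)).restrictScalars k ∘ o = fun i => MP_41050a_ag.val e p (F i) from
    funext h2] at h4

/-- The pole at `p` of a rational section is removed. -/
theorem exists_cut {v : V (RatFunc Λ) N} (hv : v ∈ Submodule.span (RatFunc Λ) (Sec I e F))
    (p : Option Λ) : ∃ s, Tg I (am F) s ∧ (∀ p', p' ≠ p → ∀ i, Reg e p' (s i)) ∧
      ∃ (o : V (LO Λ) N) (G : V Λ[X] N), (∀ i, io p (o i) * om e p = v i - s i) ∧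
        (∀ i, (G i).natDegree ≤ e) ∧ Tg I F G ∧ ∀ i, res (o i) = val e p (G i) := by
  suffices h : ∀ c : RatFunc Λ, ∃ s, Tg I (am F) s ∧ (∀ p', p' ≠ p → ∀ i, Reg e p' (s i)) ∧
      ∃ (o : V (LO Λ) N) (G : V Λ[X] N), (∀ i, io p (o i) * om e p = (c • v) i - s i) ∧
        (∀ i, (G i).natDegree ≤ e) ∧ Tg I F G ∧ ∀ i, res (o i) = val e p (G i) by
    simpa only [one_smul] using h 1
  induction hv using Submodule.span_induction with
  | mem x hx =>
    intro c
    obtain ⟨G, h1, h2, rfl⟩ := hx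
    obtain ⟨c', o₁, rfl, h3⟩ := exists_pp p c
    choose o₂ h4 h5 using fun i => exists_loc (h1 i) p
    refine ⟨c' • am G, (h2.map (amH k Λ)).smul c', fun p' hp i => ?_, fun i => o₁ * o₂ i,
      (C (res o₁) : Λ[X]) • G, fun i => ?_, fun i => (natDegree_C_mul_le _ _).trans (h1 i),
      h2.smul _, fun i => ?_⟩
    · obtain ⟨a, ha⟩ := h3 p' hp
      obtain ⟨b, hb, -⟩ := exists_loc (h1 i) p'
      refine ⟨a * b, ?_⟩
      rw [map_mul, mul_assoc, hb, ← ha]
      rfl
    · rw [map_mul, mul_assoc, h4, add_smul, Pi.add_apply, add_sub_cancel_left]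
      rfl
    · rw [map_mul, h5, Pi.smul_apply, smul_eq_mul, free0_val_mul]
  | zero =>
    intro c
    refine ⟨0, Tg.zero, fun p' _ i => ⟨0, by simp⟩, 0, 0, fun i => by simp, fun i => by simp,
      Tg.zero, fun i => ?_⟩
    rw [Pi.zero_apply, Pi.zero_apply, map_zero, free0_val_zero]
  | add x y _ _ hx hy =>
    intro c
    obtain ⟨s, a1, a2, o, G, a3, a4, a5, a6⟩ := hx c
    obtain ⟨s', b1, b2, o', G', b3, b4, b5, b6⟩ := hy c
    refine ⟨s + s', a1.add b1, fun p' hp i => ?_, o + o', G + G', fun i => ?_,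
      fun i => natDegree_add_le_of_degree_le (a4 i) (b4 i), a5.add b5, fun i => ?_⟩
    · obtain ⟨a, ha⟩ := a2 p' hp i
      obtain ⟨b, hb⟩ := b2 p' hp i
      exact ⟨a + b, by rw [map_add, add_mul, ha, hb, Pi.add_apply]⟩
    · rw [Pi.add_apply, map_add, add_mul, a3, b3, smul_add, Pi.add_apply, Pi.add_apply,
        add_sub_add_comm]
    · rw [Pi.add_apply, map_add, a6, b6, Pi.add_apply, free0_val_add]
  | smul a x _ hx =>
    intro c
    rw [smul_smul]
    exact hx _

/-- Tangent vectors extend to local sections. -/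
theorem exists_local (hV : SmoothVar I) (hF : IsMap I e F) (p : Option Λ) {v : V Λ N}
    (hv : Tg I (fun i => val e p (F i)) v) : ∃ o : V (LO Λ) N, (∀ i, res (o i) = v i) ∧
      Tg I (am F) fun i => io p (o i) * om e p := by
  obtain ⟨o₀, h1, h2, h3⟩ := free0_loc hV hF p
  obtain ⟨i₀, hi⟩ := hF.bpf p
  have hr : (res (Λ := Λ)).restrictScalars k ∘ o₀ = fun i => val e p (F i) := funext h2
  obtain ⟨z, h4, h5⟩ := hV.lift (free0_sq (Λ := Λ))
    (z := du o₀ fun i => algebraMap Λ (LO Λ) (v i)) (fun Φ hΦ => by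
      rw [aev_du, h3 Φ hΦ]
      refine ⟨by simp, ?_⟩
      rw [TrivSqZeroExt.snd_add, TrivSqZeroExt.snd_inl, TrivSqZeroExt.snd_inr, zero_add, map_sum,
        ← hv Φ hΦ]
      refine Finset.sum_congr rfl fun i _ => ?_
      rw [map_mul, AlgHom.commutes, ← hr, ← map_aev]
      rfl) (i := i₀) (by
      rw [TrivSqZeroExt.isUnit_iff_isUnit_fst]
      refine isUnit_of_res ?_
      simpa [du, h2] using hi)
  have h6 : z = du o₀ fun i => (z i).snd := funext fun i => by
    have h7 : (z i).fst = o₀ i := by simpa [du, sub_eq_zero] using (h4 i).1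
    rw [du, ← h7, TrivSqZeroExt.inl_fst_add_inr_snd_eq]
  have h8 : On I (du o₀ fun i => (z i).snd) := h6 ▸ fun Φ hΦ => Ideal.mem_bot.1 (h5 Φ hΦ)
  refine ⟨fun i => (z i).snd, fun i => by simpa [du, sub_eq_zero] using (h4 i).2, ?_⟩
  have h9 := ((on_du.1 h8).2.map ((io p).restrictScalars k)).smul_both hV
    (h3.map ((io p).restrictScalars k)) (om e p)
  rwa [show om e p • ((io p).restrictScalars k ∘ o₀) = am F from
      funext fun i => (mul_comm _ _).trans (h1 i),
    show om e p • ((io p).restrictScalars k ∘ fun i => (z i).snd) =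
      fun i => io p (z i).snd * om e p from funext fun i => mul_comm _ _] at h9

end

end Pool.Agent.Lib.MP_41050a_ag
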