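import Pool.Agent.Lib.MP_41050a_ag.GG0

/-! Expansions along the sections. -/

namespace Pool.Agent.Lib.MP_41050a_ag

open Polynomial

set_option linter.unusedSectionVars false

noncomputable section

variable {k R σ : Type} [Field k] [CommRing R] [Algebra k R] [Fintype σ] [DecidableEq σ]

namespace Cf

variable {𝒞 : Cf k R σ}

variable (𝒞)

/-- The first coordinate near the section `p₀`. -/
def lt (p₀ : σ) : PowerSeries R :=
  if p₀ ∈ 𝒞.B then PowerSeries.C (𝒞.bp p₀) + PowerSeries.C 𝒞.T.s * PowerSeries.X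
  else PowerSeries.C (𝒞.bp p₀) + PowerSeries.X

/-- The second coordinate near the section `p₀`. -/
def lu (p₀ : σ) : PowerSeries R :=
  PowerSeries.C (algebraMap k R (𝒞.pt p₀ - 𝒞.q)) + PowerSeries.X

/-- The denominator of the second coordinate near the section `p₀`. -/
def lv (p₀ : σ) : PowerSeries R := if p₀ ∈ 𝒞.B then 1 else PowerSeries.C 𝒞.T.s

/-- The local equation of the section `p` near the section `p₀`. -/
def lπ (p₀ p : σ) : PowerSeries R :=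
  if p ∈ 𝒞.B then 𝒞.lu p₀ - algebraMap k _ (𝒞.pt p - 𝒞.q) * 𝒞.lv p₀
  else 𝒞.lt p₀ - algebraMap k _ (𝒞.pt p)

/-- The numerator of `zeta p` near the section `p₀`. -/
def lν (p₀ p : σ) : PowerSeries R := if p ∈ 𝒞.B then 𝒞.lv p₀ else 1

theorem gg_am (a : k) : algebraMap k (PowerSeries R) a = PowerSeries.C (algebraMap k R a) :=
  PowerSeries.algebraMap_apply

theorem lπ_self (p : σ) : 𝒞.lπ p p = PowerSeries.X := by
  by_cases h : p ∈ 𝒞.B
  · simp only [lπ, lu, lv, if_pos h, gg_am]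
    ring
  · simp only [lπ, lt, bp, if_neg h, gg_am]
    ring

theorem lν_self (p : σ) : 𝒞.lν p p = 1 := by
  by_cases h : p ∈ 𝒞.B
  · simp only [lν, lv, if_pos h]
  · simp only [lν, if_neg h]

theorem gg_unit {c : k} (hc : c ≠ 0) :
    IsUnit (PowerSeries.X + algebraMap k (PowerSeries R) c) := by
  rw [PowerSeries.isUnit_iff_constantCoeff, gg_am, map_add, PowerSeries.constantCoeff_X,
    PowerSeries.constantCoeff_C, zero_add]
  exact (IsUnit.mk0 c hc).map _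

theorem gg_rho {f : PowerSeries R} {c a b : k} (ha : a ≠ 0) (hc : c ≠ 0) (hab : a + b = c)
    (h0 : PowerSeries.constantCoeff f = algebraMap k R a + algebraMap k R b * 𝒞.T.s)
    (h1 : pm 𝒞.T.ψ f = PowerSeries.X + algebraMap k _ c) :
    ∃ ρ ∈ 𝒞.T.H1, f = (ρ : PowerSeries R) * (PowerSeries.X + algebraMap k _ c) := by
  have hf : IsUnit f := by
    rw [PowerSeries.isUnit_iff_constantCoeff, h0]
    exact 𝒞.T.unit a b ha (hab ▸ hc)
  obtain ⟨f, rfl⟩ := hf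
  obtain ⟨g, hg⟩ := gg_unit (R := R) hc
  refine ⟨f * g⁻¹, ?_, by rw [← hg, Units.val_mul, Units.inv_mul_cancel_right]⟩
  rw [Par.H1, MonoidHom.mem_ker, map_mul, map_inv, mul_inv_eq_one]
  refine Units.ext ?_
  change pm 𝒞.T.ψ (f : PowerSeries R) = pm 𝒞.T.ψ (g : PowerSeries R)
  rw [h1, hg, map_add, AlgHom.commutes, pm_apply, PowerSeries.map_X]

theorem exists_rho (p₀ p : σ) : ∃ ρ ∈ 𝒞.T.H1, 𝒞.lπ p₀ p =
    (ρ : PowerSeries R) * (PowerSeries.X + algebraMap k _ (𝒞.pt p₀ - 𝒞.pt p)) := by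
  have hs : (𝒞.T.ψ : R →+* k) 𝒞.T.s = 1 := 𝒞.T.ψ_s
  have hk : ∀ a : k, (𝒞.T.ψ : R →+* k) (algebraMap k R a) = a := fun a => 𝒞.T.ψ.commutes a
  by_cases h : p ∈ 𝒞.B <;> by_cases h₀ : p₀ ∈ 𝒞.B
  · refine ⟨1, one_mem _, ?_⟩
    simp only [lπ, lu, lv, if_pos h, if_pos h₀, gg_am, map_sub, Units.val_one]
    ring
  · have hne : 𝒞.pt p₀ - 𝒞.pt p ≠ 0 := sub_ne_zero.2 fun e => h₀ (𝒞.inj e ▸ h)
    refine 𝒞.gg_rho (a := 𝒞.pt p₀ - 𝒞.q) (b := -(𝒞.pt p - 𝒞.q)) (sub_ne_zero.2 (𝒞.q_ne p₀)) hne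
      (by ring) ?_ ?_
    · simp only [lπ, lu, lv, if_pos h, if_neg h₀, gg_am, map_sub, map_add, map_mul, map_neg,
        PowerSeries.constantCoeff_X, PowerSeries.constantCoeff_C]
      ring
    · simp only [lπ, lu, lv, if_pos h, if_neg h₀, gg_am, map_sub, map_add, map_mul, pm_apply,
        PowerSeries.map_X, PowerSeries.map_C, hs, hk, map_one, Algebra.algebraMap_self,
        RingHom.id_apply]
      ring
  · have hne : 𝒞.pt p₀ - 𝒞.pt p ≠ 0 := sub_ne_zero.2 fun e => h (𝒞.inj e ▸ h₀)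
    refine 𝒞.gg_rho (a := 𝒞.q - 𝒞.pt p) (b := 𝒞.pt p₀ - 𝒞.q) (sub_ne_zero.2 (𝒞.q_ne p).symm) hne
      (by ring) ?_ ?_
    · simp only [lπ, lt, bp, if_neg h, if_pos h₀, gg_am, map_sub, map_add, map_mul,
        PowerSeries.constantCoeff_X, PowerSeries.constantCoeff_C]
      ring
    · simp only [lπ, lt, bp, if_neg h, if_pos h₀, gg_am, map_sub, map_add, map_mul, pm_apply,
        PowerSeries.map_X, PowerSeries.map_C, hs, hk, map_one, Algebra.algebraMap_self,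
        RingHom.id_apply]
      ring
  · refine ⟨1, one_mem _, ?_⟩
    simp only [lπ, lt, bp, if_neg h, if_neg h₀, gg_am, map_sub, Units.val_one]
    ring

theorem isUnit_lπ {p₀ p : σ} (h : p ≠ p₀) : IsUnit (𝒞.lπ p₀ p) := by
  obtain ⟨ρ, -, e⟩ := 𝒞.exists_rho p₀ p
  rw [e]
  exact ρ.isUnit.mul (gg_unit (sub_ne_zero.2 fun e => h (𝒞.inj e).symm))

theorem gg_π (p₀ p : σ) : (if p ∈ 𝒞.B then ps k R (𝒞.lu p₀) -
    algebraMap k (La R) (𝒞.pt p - 𝒞.q) * ps k R (𝒞.lv p₀)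
      else ps k R (𝒞.lt p₀) - algebraMap k (La R) (𝒞.pt p)) = ps k R (𝒞.lπ p₀ p) := by
  rw [lπ]
  split_ifs
  · rw [map_sub (ps k R), map_mul, AlgHom.commutes]
  · rw [map_sub (ps k R), AlgHom.commutes]

theorem exists_locA (p₀ : σ) : ∃ A : 𝒞.Adm (La R), A.κ = lc k R ∧
    (∀ p, A.π p = ps k R (𝒞.lπ p₀ p)) ∧ ∀ p, A.ν p = ps k R (𝒞.lν p₀ p) := by
  refine ⟨⟨lc k R, ps k R (𝒞.lt p₀), ps k R (𝒞.lu p₀), ps k R (𝒞.lv p₀), ?_, fun p => ?_⟩, rfl,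
    fun p => 𝒞.gg_π p₀ p, fun p => ?_⟩
  · rw [lc_apply, ← (ps k R).commutes, ← map_sub, ← map_mul, ← map_mul]
    congr 1
    by_cases h₀ : p₀ ∈ 𝒞.B
    · simp only [lt, lu, lv, bp, if_pos h₀, gg_am, map_sub, map_add, map_mul]
      ring
    · simp only [lt, lu, lv, bp, if_neg h₀, gg_am, map_sub]
      ring
  · rw [gg_π]
    by_cases h : p = p₀
    · rw [h, lπ_self]
      exact isUnit_ps_X
    · exact (𝒞.isUnit_lπ h).map _
  · by_cases h : p ∈ 𝒞.B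
    · rw [Adm.ν, lν, if_pos h, if_pos h]
    · rw [Adm.ν, lν, if_neg h, if_neg h, map_one]

/-- The punctured formal neighbourhood of the section `p₀`. -/
def loc (p₀ : σ) : 𝒞.Adm (La R) := (𝒞.exists_locA p₀).choose

theorem loc_κ (p₀ : σ) : (𝒞.loc p₀).κ = lc k R := (𝒞.exists_locA p₀).choose_spec.1

theorem loc_π (p₀ p : σ) : (𝒞.loc p₀).π p = ps k R (𝒞.lπ p₀ p) :=
  (𝒞.exists_locA p₀).choose_spec.2.1 p

theorem loc_ν (p₀ p : σ) : (𝒞.loc p₀).ν p = ps k R (𝒞.lν p₀ p) :=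
  (𝒞.exists_locA p₀).choose_spec.2.2 p

theorem gg_self (p : σ) : (𝒞.loc p).ev (𝒞.zeta p) * ps k R PowerSeries.X = 1 := by
  have h := (𝒞.loc p).ev_zeta p
  rwa [loc_π, loc_ν, lπ_self, lν_self, map_one] at h

theorem gg_other {p₀ p : σ} (h : p ≠ p₀) : ∃ z, (𝒞.loc p₀).ev (𝒞.zeta p) = ps k R z := by
  obtain ⟨u, hu⟩ := 𝒞.isUnit_lπ h
  have e := (𝒞.loc p₀).ev_zeta p
  rw [loc_π, loc_ν, ← hu] at e
  refine ⟨𝒞.lν p₀ p * (u⁻¹ : (PowerSeries R)ˣ), ?_⟩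
  rw [map_mul, ← e, mul_assoc, ← map_mul, Units.mul_inv, map_one, mul_one]

/-- The principal part along a section. -/
theorem gg_split (p₀ : σ) (c : R) (P : σ → R[X]) : ∃ o, (𝒞.loc p₀).ev
    (algebraMap R 𝒞.GG c + ∑ p, 𝒞.zeta p * aeval (𝒞.zeta p) (P p)) =
      (𝒞.loc p₀).ev (𝒞.zeta p₀) *
        (P p₀).eval₂ (lc k R : R →+* La R) ((𝒞.loc p₀).ev (𝒞.zeta p₀)) + ps k R o := by
  have key : ∀ p, ∃ o, p ≠ p₀ → (𝒞.loc p₀).ev (𝒞.zeta p) *
      (P p).eval₂ (lc k R : R →+* La R) ((𝒞.loc p₀).ev (𝒞.zeta p)) = ps k R o := fun p => by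
    by_cases h : p = p₀
    · exact ⟨0, fun h' => absurd h h'⟩
    obtain ⟨z, hz⟩ := 𝒞.gg_other h
    refine ⟨z * (P p).eval₂ PowerSeries.C z, fun _ => ?_⟩
    rw [hz, map_mul]
    congr 1
    exact (hom_eval₂ (P p) PowerSeries.C (ps k R : PowerSeries R →+* La R) z).symm
  choose o ho using key
  refine ⟨PowerSeries.C c + ∑ p ∈ Finset.univ.erase p₀, o p, ?_⟩
  rw [Adm.ev_rep, loc_κ, ← Finset.add_sum_erase _ _ (Finset.mem_univ p₀), map_add, map_sum,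
    Finset.sum_congr rfl fun p hp => ho p (Finset.ne_of_mem_erase hp), lc_apply]
  ring

theorem gg_sum (a : σ → La R) : ∃ (o : σ → PowerSeries R) (g : 𝒞.GG),
    ∀ p, a p = ps k R (o p) + (𝒞.loc p).ev g := by
  choose P o h using fun p => exists_principal (𝒞.gg_self p) (a p)
  choose o' h' using fun p => 𝒞.gg_split p 0 P
  refine ⟨fun p => o p - o' p,
    algebraMap R 𝒞.GG 0 + ∑ p, 𝒞.zeta p * aeval (𝒞.zeta p) (P p), fun p => ?_⟩
  rw [h' p, map_sub, h p]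
  ring

theorem gg_rep {g : 𝒞.GG} {ee : σ → ℕ}
    (h : ∀ p, ∃ o, ps k R PowerSeries.X ^ ee p * (𝒞.loc p).ev g = ps k R o) :
    ∃ (c : R) (P : σ → R[X]), (∀ p, (P p).degree < ee p) ∧
      g = algebraMap R 𝒞.GG c + ∑ p, 𝒞.zeta p * aeval (𝒞.zeta p) (P p) := by
  obtain ⟨c, P, rfl⟩ := exists_rep g
  refine ⟨c, P, fun p => ?_, rfl⟩
  obtain ⟨o, ho⟩ := h p
  obtain ⟨o', ho'⟩ := 𝒞.gg_split p c P
  rw [ho'] at ho
  exact principal_deg (𝒞.gg_self p) ho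

theorem gg_inj [Nonempty σ] {g : 𝒞.GG} (h : ∀ p, (𝒞.loc p).ev g = 0) : g = 0 := by
  obtain ⟨c, P, hP, rfl⟩ := 𝒞.gg_rep (g := g) (ee := fun _ => 0) fun p =>
    ⟨0, by rw [h p, mul_zero, map_zero]⟩
  have h0 : ∀ p, P p = 0 := fun p => degree_eq_bot.1 (Nat.WithBot.lt_zero_iff.1 (hP p))
  obtain ⟨p⟩ := ‹Nonempty σ›
  have h1 := h p
  simp only [h0, map_zero, mul_zero, Finset.sum_const_zero, add_zero] at h1 ⊢
  rw [Adm.ev_am, loc_κ, lc_apply, ← map_zero (ps k R)] at h1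
  rw [PowerSeries.C_injective ((ps_inj h1).trans (map_zero _).symm), map_zero]

end Cf

end

end Pool.Agent.Lib.MP_41050a_ag
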