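import Pool.Agent.Lib.MP_41050a_ag.Par

/-! Functions on the degenerating line with poles along given sections. -/

namespace Pool.Agent.Lib.MP_41050a_ag

open Polynomial

set_option linter.unusedSectionVars false

noncomputable section

variable {k R σ : Type} [Field k] [CommRing R] [Algebra k R] [Fintype σ] [DecidableEq σ]

/-- The configuration: the points of `B` collide at `q` when `s = 0`. -/
structure Cf (k R σ : Type) [Field k] [CommRing R] [Algebra k R] where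
  T : Par k R
  pt : σ → k
  inj : Function.Injective pt
  q : k
  q_ne : ∀ p, pt p ≠ q
  B : Finset σ

namespace Cf

variable (𝒞 : Cf k R σ)

/-- The moving points. -/
def bp (p : σ) : R :=
  if p ∈ 𝒞.B then algebraMap k R 𝒞.q + 𝒞.T.s * algebraMap k R (𝒞.pt p - 𝒞.q)
  else algebraMap k R (𝒞.pt p)

/-- The coefficients of the relations. -/
def lam (p p' : σ) : R := if p ∉ 𝒞.B ∧ p' ∈ 𝒞.B then 𝒞.T.s else 1

/-- The coefficients of the relations. -/
def del (p p' : σ) : R :=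
  if (p ∈ 𝒞.B ↔ p' ∈ 𝒞.B) then algebraMap k R (𝒞.pt p - 𝒞.pt p') else 𝒞.bp p - 𝒞.bp p'

/-- The ideal of relations. -/
def rel : Ideal (MvPolynomial σ R) :=
  Ideal.span {g | ∃ p p', g = MvPolynomial.C (𝒞.del p p') * MvPolynomial.X p * MvPolynomial.X p' -
    (MvPolynomial.C (𝒞.lam p p') * MvPolynomial.X p -
      MvPolynomial.C (𝒞.lam p' p) * MvPolynomial.X p')}

/-- The ring of global functions. -/
abbrev GG : Type := MvPolynomial σ R ⧸ 𝒞.rel

/-- The function with a simple pole along the section `p`. -/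
def zeta (p : σ) : 𝒞.GG := Ideal.Quotient.mk 𝒞.rel (MvPolynomial.X p)

/-- A point of the total space off the sections: `t - q = s u / v`. -/
structure Adm (E : Type) [CommRing E] [Algebra k E] where
  κ : R →ₐ[k] E
  t : E
  u : E
  v : E
  eq : (t - algebraMap k E 𝒞.q) * v = κ 𝒞.T.s * u
  unit : ∀ p, IsUnit (if p ∈ 𝒞.B then u - algebraMap k E (𝒞.pt p - 𝒞.q) * v
    else t - algebraMap k E (𝒞.pt p))

variable {𝒞} {E : Type} [CommRing E] [Algebra k E]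

/-- The local equation of the section `p`. -/
def Adm.π (A : 𝒞.Adm E) (p : σ) : E :=
  if p ∈ 𝒞.B then A.u - algebraMap k E (𝒞.pt p - 𝒞.q) * A.v else A.t - algebraMap k E (𝒞.pt p)

/-- The numerator of `zeta p`. -/
def Adm.ν (A : 𝒞.Adm E) (p : σ) : E := if p ∈ 𝒞.B then A.v else 1

/-- The local equation as a unit. -/
def Adm.πu (A : 𝒞.Adm E) (p : σ) : Eˣ := (A.unit p).unit

theorem Adm.πu_val (A : 𝒞.Adm E) (p : σ) : (A.πu p : E) = A.π p := rfl

theorem gg0_key (A : 𝒞.Adm E) (p p' : σ) :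
    A.κ (𝒞.del p p') * A.ν p * A.ν p' =
      A.κ (𝒞.lam p p') * A.ν p * A.π p' - A.κ (𝒞.lam p' p) * A.ν p' * A.π p := by
  have h := A.eq
  by_cases hp : p ∈ 𝒞.B <;> by_cases hp' : p' ∈ 𝒞.B <;>
    simp only [del, lam, bp, Adm.ν, Adm.π, hp, hp', if_true, if_false, iff_true, iff_false,
      not_true, not_false_iff, and_true, and_false,
      map_sub, map_add, map_mul, map_one, AlgHom.commutes]
  · ring
  · linear_combination (-1 : E) * h
  · linear_combination h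
  · ring

theorem Adm.exists_ev (A : 𝒞.Adm E) : ∃ ev : 𝒞.GG →ₐ[k] E,
    (∀ r, ev (algebraMap R 𝒞.GG r) = A.κ r) ∧ ∀ p, ev (𝒞.zeta p) * A.π p = A.ν p := by
  let x : σ → E := fun p => A.ν p * ((A.πu p)⁻¹ : Eˣ)
  have hx : ∀ p, x p * A.π p = A.ν p := by
    intro p
    rw [← A.πu_val p]
    simp only [x, mul_assoc, Units.inv_mul, mul_one]
  let f : MvPolynomial σ R →ₐ[k] E :=
    { MvPolynomial.eval₂Hom (A.κ : R →+* E) x with
      commutes' := fun a => by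
        have : algebraMap k (MvPolynomial σ R) a = MvPolynomial.C (algebraMap k R a) := rfl
        simp [this] }
  have hfC : ∀ r, f (MvPolynomial.C r) = A.κ r := fun r => by simp [f]
  have hfX : ∀ p, f (MvPolynomial.X p) = x p := fun p => by simp [f]
  have hker : ∀ g ∈ 𝒞.rel, f g = 0 := by
    intro g hg
    have : 𝒞.rel ≤ RingHom.ker (f : MvPolynomial σ R →+* E) := by
      refine Ideal.span_le.mpr ?_
      rintro g ⟨p, p', rfl⟩
      simp only [SetLike.mem_coe, RingHom.mem_ker, RingHom.coe_coe, map_sub, map_mul, hfC, hfX]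
      have hu : IsUnit (A.π p * A.π p') := (A.unit p).mul (A.unit p')
      apply hu.mul_right_cancel
      have h := gg0_key A p p'
      rw [← hx p, ← hx p'] at h
      linear_combination h
    exact this hg
  refine ⟨Ideal.Quotient.liftₐ 𝒞.rel f hker, fun r => ?_, fun p => ?_⟩
  · have : algebraMap R 𝒞.GG r = Ideal.Quotient.mk 𝒞.rel (MvPolynomial.C r) := rfl
    rw [this, ← hfC r]
    rfl
  · rw [← hx p, ← hfX p]
    rfl

/-- Evaluation of global functions. -/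
def Adm.ev (A : 𝒞.Adm E) : 𝒞.GG →ₐ[k] E := A.exists_ev.choose

theorem Adm.ev_am (A : 𝒞.Adm E) (r : R) : A.ev (algebraMap R 𝒞.GG r) = A.κ r :=
  A.exists_ev.choose_spec.1 r

theorem Adm.ev_zeta (A : 𝒞.Adm E) (p : σ) : A.ev (𝒞.zeta p) * A.π p = A.ν p :=
  A.exists_ev.choose_spec.2 p

theorem gg_ext {f g : 𝒞.GG →ₐ[k] E} (h1 : ∀ r, f (algebraMap R 𝒞.GG r) = g (algebraMap R 𝒞.GG r))
    (h2 : ∀ p, f (𝒞.zeta p) = g (𝒞.zeta p)) : f = g := by
  refine AlgHom.ext fun g0 => ?_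
  obtain ⟨g0, rfl⟩ := Ideal.Quotient.mk_surjective g0
  induction g0 using MvPolynomial.induction_on with
  | C r => exact h1 r
  | add a b ha hb => rw [map_add, map_add, map_add, ha, hb]
  | mul_X a p ha =>
    rw [map_mul, map_mul, map_mul, ha]
    exact congrArg _ (h2 p)

theorem gg0_unit {p p' : σ} (hp : p ∉ 𝒞.B) (hp' : p' ∈ 𝒞.B) (h : p ≠ p') :
    IsUnit (𝒞.bp p - 𝒞.bp p') := by
  have h1 : 𝒞.pt p - 𝒞.q ≠ 0 := sub_ne_zero.mpr (𝒞.q_ne p)
  have h2 : 𝒞.pt p - 𝒞.q + -(𝒞.pt p' - 𝒞.q) ≠ 0 := by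
    have : 𝒞.pt p - 𝒞.q + -(𝒞.pt p' - 𝒞.q) = 𝒞.pt p - 𝒞.pt p' := by ring
    rw [this]
    exact sub_ne_zero.mpr fun e => h (𝒞.inj e)
  have h3 := 𝒞.T.unit _ _ h1 h2
  have : 𝒞.bp p - 𝒞.bp p' = algebraMap k R (𝒞.pt p - 𝒞.q) +
      algebraMap k R (-(𝒞.pt p' - 𝒞.q)) * 𝒞.T.s := by
    simp only [bp, hp, hp', if_true, if_false, map_sub, map_neg]
    ring
  rw [this]
  exact h3

theorem isUnit_del {p p' : σ} (h : p ≠ p') : IsUnit (𝒞.del p p') := by
  have h0 : 𝒞.pt p - 𝒞.pt p' ≠ 0 := sub_ne_zero.mpr fun e => h (𝒞.inj e)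
  unfold del
  split_ifs with hh
  · exact (IsUnit.mk0 _ h0).map (algebraMap k R)
  · by_cases hp : p ∈ 𝒞.B
    · have hp' : p' ∉ 𝒞.B := fun e => hh ⟨fun _ => e, fun _ => hp⟩
      have := (gg0_unit hp' hp h.symm).neg
      rwa [neg_sub] at this
    · have hp' : p' ∈ 𝒞.B := by
        by_contra e
        exact hh ⟨fun x => absurd x hp, fun x => absurd x e⟩
      exact gg0_unit hp hp' h

theorem gg0_rel (p p' : σ) : algebraMap R 𝒞.GG (𝒞.del p p') * 𝒞.zeta p * 𝒞.zeta p' =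
    algebraMap R 𝒞.GG (𝒞.lam p p') * 𝒞.zeta p - algebraMap R 𝒞.GG (𝒞.lam p' p) * 𝒞.zeta p' := by
  have h : ∀ r, algebraMap R 𝒞.GG r = Ideal.Quotient.mk 𝒞.rel (MvPolynomial.C r) := fun _ => rfl
  simp only [h, zeta, ← map_mul, ← map_sub]
  exact Ideal.Quotient.eq.mpr (Ideal.subset_span ⟨p, p', rfl⟩)

theorem exists_rep (g : 𝒞.GG) : ∃ (c : R) (P : σ → R[X]),
    g = algebraMap R 𝒞.GG c + ∑ p, 𝒞.zeta p * aeval (𝒞.zeta p) (P p) := by
  refine span_zeta 𝒞.zeta (fun p p' h => ?_) ?_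
  · obtain ⟨u, hu⟩ := isUnit_del (𝒞 := 𝒞) h
    refine ⟨(u⁻¹ : Rˣ) * 𝒞.lam p p', -((u⁻¹ : Rˣ) * 𝒞.lam p' p), ?_⟩
    have h1 := gg0_rel (𝒞 := 𝒞) p p'
    have h2 : algebraMap R 𝒞.GG ((u⁻¹ : Rˣ) : R) * algebraMap R 𝒞.GG (𝒞.del p p') = 1 := by
      rw [← map_mul, ← hu, Units.inv_mul, map_one]
    rw [Algebra.smul_def, Algebra.smul_def, map_neg, map_mul, map_mul]
    linear_combination algebraMap R 𝒞.GG ((u⁻¹ : Rˣ) : R) * h1 - 𝒞.zeta p * 𝒞.zeta p' * h2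
  · obtain ⟨g0, rfl⟩ := Ideal.Quotient.mk_surjective g
    induction g0 using MvPolynomial.induction_on with
    | C r => exact Subalgebra.algebraMap_mem _ r
    | add a b ha hb =>
      rw [map_add]
      exact Subalgebra.add_mem _ ha hb
    | mul_X a p ha =>
      rw [map_mul]
      exact Subalgebra.mul_mem _ ha (Algebra.subset_adjoin ⟨p, rfl⟩)

theorem Adm.ev_rep (A : 𝒞.Adm E) (c : R) (P : σ → R[X]) :
    A.ev (algebraMap R 𝒞.GG c + ∑ p, 𝒞.zeta p * aeval (𝒞.zeta p) (P p)) =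
      A.κ c + ∑ p, A.ev (𝒞.zeta p) * (P p).eval₂ (A.κ : R →+* E) (A.ev (𝒞.zeta p)) := by
  rw [map_add, map_sum, A.ev_am]
  congr 1
  refine Finset.sum_congr rfl fun p _ => ?_
  rw [map_mul]
  congr 1
  have h : (A.ev : 𝒞.GG →+* E).comp (algebraMap R 𝒞.GG) = (A.κ : R →+* E) :=
    RingHom.ext fun r => A.ev_am r
  rw [aeval_def, ← h]
  exact Polynomial.hom_eval₂ (P p) (algebraMap R 𝒞.GG) (A.ev : 𝒞.GG →+* E) (𝒞.zeta p)

theorem gg0_eps {b p : σ} (h : b ∈ 𝒞.B ↔ p ∈ 𝒞.B) : ∃ ε : 𝒞.GGˣ,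
    ∀ (E : Type) [CommRing E] [Algebra k E] (A : 𝒞.Adm E),
      Units.map (A.ev : 𝒞.GG →* E) ε * A.πu b = A.πu p := by
  have h1 := gg0_rel (𝒞 := 𝒞) b p
  have hd : 𝒞.del b p = algebraMap k R (𝒞.pt b - 𝒞.pt p) := if_pos h
  have hl : 𝒞.lam b p = 1 := if_neg fun e => e.1 (h.mpr e.2)
  have hl' : 𝒞.lam p b = 1 := if_neg fun e => e.1 (h.mp e.2)
  rw [hl, hl', map_one, one_mul, one_mul] at h1
  refine ⟨⟨1 + algebraMap R 𝒞.GG (𝒞.del b p) * 𝒞.zeta b,
    1 - algebraMap R 𝒞.GG (𝒞.del b p) * 𝒞.zeta p, ?_, ?_⟩, ?_⟩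
  · linear_combination (-algebraMap R 𝒞.GG (𝒞.del b p)) * h1
  · linear_combination (-algebraMap R 𝒞.GG (𝒞.del b p)) * h1
  · intro E _ _ A
    refine Units.ext ?_
    have h2 := A.ev_zeta b
    change A.ev (1 + algebraMap R 𝒞.GG (𝒞.del b p) * 𝒞.zeta b) * A.π b = A.π p
    rw [map_add, map_mul, map_one, A.ev_am, hd, AlgHom.commutes, add_mul, one_mul, mul_assoc, h2]
    by_cases hb : b ∈ 𝒞.B
    · have hp := h.mp hb
      simp only [Adm.π, Adm.ν, hb, hp, if_true, map_sub]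
      ring
    · have hp : p ∉ 𝒞.B := fun e => hb (h.mpr e)
      simp only [Adm.π, Adm.ν, hb, hp, if_false, map_sub]
      ring

/-- Quotients of the local equations of two sections on the same side. -/
theorem exists_eps {pA pB : σ} (hA : pA ∉ 𝒞.B) (hB : pB ∈ 𝒞.B) : ∃ ε : σ → 𝒞.GGˣ,
    ∀ (E : Type) [CommRing E] [Algebra k E] (A : 𝒞.Adm E) (p : σ),
      Units.map (A.ev : 𝒞.GG →* E) (ε p) * A.πu (if p ∈ 𝒞.B then pB else pA) = A.πu p := by
  have h : ∀ p, (if p ∈ 𝒞.B then pB else pA) ∈ 𝒞.B ↔ p ∈ 𝒞.B := by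
    intro p
    split_ifs with hp
    · exact ⟨fun _ => hp, fun _ => hB⟩
    · exact ⟨fun e => absurd e hA, fun e => absurd e hp⟩
  choose ε hε using fun p => gg0_eps (𝒞 := 𝒞) (h p)
  exact ⟨ε, fun E _ _ A p => hε p E A⟩

end Cf

end

end Pool.Agent.Lib.MP_41050a_ag
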