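import Pool.Agent.Lib.MP_41050a_ag.Nf

/-! A uniform description of an open part of the orbit. -/

namespace Pool.Agent.Lib.MP_41050a_ag

open Polynomial

set_option linter.unusedSectionVars false

noncomputable section

variable {k : Type} [Field k] [IsAlgClosed k] [CharZero k] {N : ℕ} {I : Ideal (Pk k N)}
  {x' : V k N} {j₀ : Fin (N + 1)}

/-- Where `Δ` is a unit, points lie in the orbit, with torus part given by universal formulas. -/
def Gen (I : Ideal (Pk k N)) (x' : V k N) (j₀ : Fin (N + 1)) (Δ : Pk k N) (m : ℕ)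
    (Y Y' : Fin (N + 1) → Pk k N) : Prop :=
  ∀ (E : Type) [CommRing E] [Algebra k E] (z : V E N), On I z → z j₀ = 1 →
    IsUnit (MvPolynomial.aeval z Δ) → ∃ (n : Mt E N) (η : Fin (N + 1) → Eˣ),
      NN I n ∧ RelS I x' η ∧ z = n.mulVec (tw x' η) ∧ ∀ i,
        (η i : E) * MvPolynomial.aeval z Δ ^ m = MvPolynomial.aeval z (Y i) ∧
        ((η i)⁻¹ : Eˣ) * MvPolynomial.aeval z Δ ^ m = MvPolynomial.aeval z (Y' i)

/-- Homogenisation with respect to `X j`. -/
theorem exists_homog (G : Pk k N) (j : Fin (N + 1)) {D : ℕ} (hD : G.totalDegree ≤ D) :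
    ∃ G' : Pk k N, G'.IsHomogeneous D ∧ ∀ (E : Type) [CommRing E] [Algebra k E] (z : V E N),
      z j = 1 → MvPolynomial.aeval z G' = MvPolynomial.aeval z G := by
  refine ⟨∑ d ∈ Finset.range (D + 1),
    MvPolynomial.X j ^ (D - d) * MvPolynomial.homogeneousComponent d G, ?_, fun E _ _ z hz => ?_⟩
  · refine MvPolynomial.IsHomogeneous.sum _ _ _ fun d hd => ?_
    have h := (MvPolynomial.isHomogeneous_X_pow (R := k) j (D - d)).mul
      (MvPolynomial.homogeneousComponent_isHomogeneous d G)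
    rwa [Nat.sub_add_cancel (Nat.lt_succ_iff.1 (Finset.mem_range.1 hd))] at h
  · have h : ∑ d ∈ Finset.range (D + 1), MvPolynomial.homogeneousComponent d G = G := by
      refine Eq.trans (Finset.sum_subset (Finset.range_mono (Nat.succ_le_succ hD))
        fun d _ hd => ?_).symm (MvPolynomial.sum_homogeneousComponent G)
      exact MvPolynomial.homogeneousComponent_eq_zero _ _
        (Nat.succ_le_iff.1 (not_lt.1 fun h => hd (Finset.mem_range.2 h)))
    conv_rhs => rw [← h]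
    simp only [map_sum, map_mul, map_pow, MvPolynomial.aeval_X, hz, one_pow, one_mul]

/-- The subalgebra obtained by inverting the image of `Δ`, with its universal property. -/
theorem gen_hom {P L : Type} [CommRing P] [Algebra k P] [Field L] [Algebra k L] (f : P →ₐ[k] L)
    {Δ : P} (hΔ : f Δ ≠ 0) : ∃ A : Subalgebra k L, (∀ a Y, a * f Δ = f Y → a ∈ A) ∧
      ∃ hf : ∀ p, f p ∈ A, ∀ (E : Type) [CommRing E] [Algebra k E] (h : P →ₐ[k] E),
        (∀ p, f p = 0 → h p = 0) → IsUnit (h Δ) →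
          ∃ φ : A →ₐ[k] E, ∀ p, φ ⟨f p, hf p⟩ = h p := by
  have lf : ∀ (E : Type) [CommRing E] [Algebra k E] (h : P →ₐ[k] E), IsUnit (h Δ) →
      ∃ H : Localization.Away Δ →ₐ[k] E, ∀ p, H (algebraMap P _ p) = h p := fun E _ _ h hu => by
    have h1 : ∀ y : Submonoid.powers Δ, IsUnit (h y) := by
      rintro ⟨_, n, rfl⟩
      simpa using hu.pow n
    exact ⟨IsLocalization.liftAlgHom h1, fun p => IsLocalization.lift_eq h1 p⟩
  obtain ⟨F, hF⟩ := lf L f hΔ.isUnit
  refine ⟨F.range, fun a Y e => ?_, fun p => ⟨_, hF p⟩, fun E _ _ h hk hu => ?_⟩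
  · obtain ⟨u, hu⟩ := (IsLocalization.Away.algebraMap_isUnit (S := Localization.Away Δ)
      Δ).exists_right_inv
    refine ⟨algebraMap P _ Y * u, ?_⟩
    have h1 := congrArg F hu
    rw [map_mul, hF, map_one] at h1
    change F (_ * u) = a
    rw [map_mul, hF, ← e, mul_assoc, h1, mul_one]
  · obtain ⟨H, hH⟩ := lf E h hu
    have h1 : RingHom.ker F.rangeRestrict.toRingHom ≤ RingHom.ker H.toRingHom := fun x hx => by
      have h2 : F x = 0 := congrArg Subtype.val (RingHom.mem_ker.1 hx)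
      obtain ⟨n, p, e⟩ := IsLocalization.Away.surj Δ x
      have h3 := congrArg F e
      have h4 := congrArg H e
      rw [map_mul, h2, zero_mul, hF] at h3
      rw [map_mul, map_pow, hH, hH, hk p h3.symm] at h4
      exact (hu.pow n).mul_left_eq_zero.1 h4
    refine ⟨AlgHom.liftOfSurjective _ F.rangeRestrict_surjective H h1, fun p => ?_⟩
    rw [← hH, ← AlgHom.liftOfSurjective_apply _ F.rangeRestrict_surjective H h1]
    exact congrArg _ (Subtype.ext (hF p).symm)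

/-- A common denominator. -/
theorem gen_den {L σ : Type} [Field L] [Algebra k L] [Fintype σ] (ξ : V L N) (a : σ → L)
    (ha : ∀ s, a s ∈ IntermediateField.adjoin k (Set.range ξ)) :
    ∃ δ : Pk k N, MvPolynomial.aeval ξ δ ≠ 0 ∧
      ∀ s, ∃ Y : Pk k N, a s * MvPolynomial.aeval ξ δ = MvPolynomial.aeval ξ Y := by
  classical
  have h : ∀ s, ∃ r t : Pk k N, MvPolynomial.aeval ξ t ≠ 0 ∧
      a s * MvPolynomial.aeval ξ t = MvPolynomial.aeval ξ r := fun s => by
    obtain ⟨r, t, e⟩ := (IntermediateField.mem_adjoin_range_iff k ξ _).1 (ha s)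
    by_cases h0 : MvPolynomial.aeval ξ t = 0
    · exact ⟨0, 1, by simp, by simp [e, h0]⟩
    · exact ⟨r, t, h0, by rw [e, div_mul_cancel₀ _ h0]⟩
  choose r t h1 h2 using h
  refine ⟨∏ s, t s, ?_, fun s => ⟨r s * ∏ s' ∈ Finset.univ.erase s, t s', ?_⟩⟩
  · rw [map_prod]
    exact Finset.prod_ne_zero_iff.2 fun s _ => h1 s
  · rw [← Finset.mul_prod_erase _ _ (Finset.mem_univ s), map_mul, map_mul, ← mul_assoc, h2]

/-- A normalised generic point whose data are defined over its field of definition. -/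
theorem gen_point (hV : Cone I) (hB : Base I x' j₀) :
    ∃ (L : Type) (_ : Field L) (_ : Algebra k L) (ξ : V L N) (n : Mt L N) (η : Fin (N + 1) → Lˣ),
      NN I n ∧ RelS I x' η ∧ ξ = n.mulVec (tw x' η) ∧ ξ j₀ = 1 ∧ On I ξ ∧
      (∀ (G : Pk k N) (D : ℕ), G.IsHomogeneous D → MvPolynomial.aeval ξ G = 0 → G ∈ I) ∧
      (∀ a b, n a b ∈ IntermediateField.adjoin k (Set.range ξ)) ∧
      ∀ i, (η i : L) ∈ IntermediateField.adjoin k (Set.range ξ) := by
  classical
  obtain ⟨L, _, _, m, τ, hm, hτ, hG⟩ := hB.generic hV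
  obtain ⟨τ', hτ', h0, h1⟩ : ∃ τ' : Fin (N + 1) → Lˣ, TT I τ' ∧ τ' j₀ = 1 ∧
      tw x' τ = (τ j₀ : L) • tw x' τ' := by
    refine ⟨τ * fun _ => (τ j₀)⁻¹, hτ.mul (tt_scalar hV _), mul_inv_cancel _, funext fun i => ?_⟩
    simp only [tw, Pi.mul_apply, Pi.smul_apply, smul_eq_mul, Units.val_mul]
    rw [← mul_assoc, mul_left_comm, Units.mul_inv, mul_one]
  obtain ⟨ξ, hξ⟩ : ∃ ξ, ξ = m.mulVec (tw x' τ') := ⟨_, rfl⟩
  let K := IntermediateField.adjoin k (Set.range ξ)
  let z : V K N := fun i => ⟨ξ i, IntermediateField.subset_adjoin k _ ⟨i, rfl⟩⟩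
  obtain ⟨n, hn, e⟩ := hB.descend hV K.val (z := z) hm hτ' hξ
  obtain ⟨n', hn', -, e'⟩ := hn.inv hV
  have h2 : ∀ i, x' i ≠ 0 → (fun i => if x' i = 0 then 1 else τ' i) i = τ' i :=
    fun i hi => if_neg hi
  refine ⟨L, inferInstance, inferInstance, ξ, n'.map K.val, fun i => if x' i = 0 then 1 else τ' i,
    hn'.map _, hτ'.relS.congr h2, ?_, ?_, ?_, fun G D hD h => hG G ?_, fun a b => (n' a b).2,
    fun i => ?_⟩
  · rw [tw_congr h2, ← e, ← map_mulVec, Matrix.mulVec_mulVec, e', Matrix.one_mulVec]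
    rfl
  · rw [hξ, hm.mulVec_apply fun c hc => by simp [tw, hB.top c hc]]
    simp [tw, h0, hB.one]
  · have h3 := hτ'.pres x' hB.on
    rw [← tw_one, dg_tw, mul_one] at h3
    exact hξ ▸ hm.pres.on hV h3
  · rw [h1, Matrix.mulVec_smul, aev_smul hD, ← hξ, h, mul_zero]
  · by_cases hi : x' i = 0
    · simp only [if_pos hi, Units.val_one]
      exact one_mem _
    · have h3 : (n.mulVec z i : L) = τ' i * algebraMap k L (x' i) := congrFun e i
      have h4 : (τ' i : L) = n.mulVec z i * algebraMap k L (x' i)⁻¹ := by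
        rw [h3, mul_assoc, ← map_mul, mul_inv_cancel₀ hi, map_one, mul_one]
      simp only [if_neg hi]
      rw [h4]
      exact mul_mem (n.mulVec z i).2 (IntermediateField.algebraMap_mem _ _)

theorem Base.exists_gen (hV : Cone I) (hB : Base I x' j₀) :
    ∃ (Δ : Pk k N) (D m : ℕ) (Y Y' : Fin (N + 1) → Pk k N),
      Δ.IsHomogeneous D ∧ Δ ∉ I ∧ Gen I x' j₀ Δ m Y Y' := by
  obtain ⟨L, _, _, ξ, n, η, hn, hη, e, h1, hon, hG, hnK, hηK⟩ := gen_point hV hB
  obtain ⟨δ, hδ, hY⟩ := gen_den (k := k) ξ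
    (Sum.elim (fun p : Fin (N + 1) × Fin (N + 1) => n p.1 p.2)
      (Sum.elim (fun i => (η i : L)) fun i => (((η i)⁻¹ : Lˣ) : L))) (by
    rintro (p | i | i)
    · exact hnK _ _
    · exact hηK i
    · simpa using inv_mem (hηK i))
  obtain ⟨Δ, hΔ, eΔ⟩ := exists_homog δ j₀ le_rfl
  rw [← eΔ L ξ h1] at hδ hY
  choose Y hY using hY
  obtain ⟨A, hA, hf, hφ⟩ := gen_hom (MvPolynomial.aeval ξ) hδ
  refine ⟨Δ, _, 1, fun i => Y (.inr (.inl i)), fun i => Y (.inr (.inr i)), hΔ,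
    fun h => hδ (hon Δ h), fun E _ _ z hz z1 hu => ?_⟩
  obtain ⟨φ, hφ⟩ := hφ E (MvPolynomial.aeval z) (fun G h => by
    obtain ⟨G', k1, k2⟩ := exists_homog G j₀ le_rfl
    rw [← k2 E z z1]
    exact hz G' (hG G' _ k1 ((k2 L ξ h1).trans h))) hu
  have inj : Function.Injective A.val := Subtype.val_injective
  let n₁ : Mt A N := fun a b => ⟨n a b, hA _ _ (hY (.inl (a, b)))⟩
  let η₁ : Fin (N + 1) → Aˣ := fun i =>
    ⟨⟨η i, hA _ _ (hY (.inr (.inl i)))⟩, ⟨((η i)⁻¹ : Lˣ), hA _ _ (hY (.inr (.inr i)))⟩,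
      Subtype.ext (η i).mul_inv, Subtype.ext (η i).inv_mul⟩
  have k1 : n₁.map A.val = n := rfl
  have k2 : um A.val η₁ = η := funext fun i => Units.ext rfl
  let z₁ : V A N := fun i => ⟨_, hf (MvPolynomial.X i)⟩
  have k3 : z₁ = n₁.mulVec (tw x' η₁) := by
    refine inj.comp_left ?_
    change A.val ∘ z₁ = A.val ∘ n₁.mulVec (tw x' η₁)
    rw [map_mulVec, map_tw, k1, k2, ← e]
    exact funext fun i => MvPolynomial.aeval_X ξ i
  have k4 : ∀ (a : A) (s), (a : L) * MvPolynomial.aeval ξ Δ = MvPolynomial.aeval ξ (Y s) →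
      φ a * MvPolynomial.aeval z Δ ^ 1 = MvPolynomial.aeval z (Y s) := fun a s h => by
    rw [pow_one, ← hφ, ← hφ, ← map_mul]
    exact congrArg φ (Subtype.ext h)
  refine ⟨n₁.map φ, um φ η₁, (NN.of_map inj (k1 ▸ hn)).map φ, (RelS.of_map inj (k2 ▸ hη)).map φ,
    ?_, fun i => ⟨k4 _ _ (hY (.inr (.inl i))), k4 (η₁ i).inv _ (hY (.inr (.inr i)))⟩⟩
  rw [← map_tw, ← map_mulVec, ← k3]
  exact funext fun i => ((hφ (MvPolynomial.X i)).trans (MvPolynomial.aeval_X z i)).symm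

end

end Pool.Agent.Lib.MP_41050a_ag
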