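import Pool.Agent.Lib.MP_41050a_ag.Grp0

/-! Matrices that preserve the cone. -/

namespace Pool.Agent.Lib.MP_41050a_ag

open Polynomial

set_option linter.unusedSectionVars false

noncomputable section

variable {k : Type} [Field k] {N : ℕ} {I : Ideal (Pk k N)} {R S : Type} [CommRing R] [Algebra k R]
  [CommRing S] [Algebra k S] {z v w : V R N} {g h A B : Mt R N}

/-- Use `exists_expand` for the coefficients: `Ψ = ∑ C (ω a) * map (Ψ a)` with `Ψ a` over `k`
vanishing on the cone, hence in `I` (`MvPolynomial.vanishingIdeal_zeroLocus_eq_radical`). -/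
theorem van [IsAlgClosed k] (hV : Cone I) {Ψ : MvPolynomial (Fin (N + 1)) R}
    (hΨ : ∀ x : V k N, On I x → MvPolynomial.eval (cs R x) Ψ = 0) (φ : R →ₐ[k] S) {y : V S N}
    (hy : On I y) : MvPolynomial.eval₂ (φ : R →+* S) y Ψ = 0 := by
  obtain ⟨n, ω, ℓ, hw⟩ := exists_expand (k := k) fun d : Ψ.support => Ψ.coeff d.1
  have key (l : R →ₗ[k] k) :
      (∑ d ∈ Ψ.support, MvPolynomial.monomial d (l (Ψ.coeff d)) : Pk k N) ∈ I := by
    have := hV.prime
    rw [← MvPolynomial.IsPrime.vanishingIdeal_zeroLocus (K := k) I]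
    intro x hx
    have e := congrArg l (hΨ x hx)
    rw [MvPolynomial.eval_eq, map_sum, map_zero] at e
    rw [map_sum, ← e]
    refine Finset.sum_congr rfl fun d _ => ?_
    have e1 : ∏ i ∈ d.support, cs R x i ^ d i = algebraMap k R (∏ i ∈ d.support, x i ^ d i) := by
      simp only [cs, map_prod, map_pow]
    rw [MvPolynomial.aeval_monomial, e1, mul_comm (Ψ.coeff d), ← Algebra.smul_def (A := R),
      map_smul, smul_eq_mul, mul_comm]
    rfl
  refine Eq.trans ?_ (Finset.sum_eq_zero (s := Finset.univ) fun a _ =>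
    mul_eq_zero_of_right (φ (ω a)) (hy _ (key (ℓ a))))
  simp only [map_sum, Finset.mul_sum]
  rw [MvPolynomial.eval₂_eq, Finset.sum_comm]
  refine Finset.sum_congr rfl fun d hd => ?_
  refine (congrArg (fun t => φ t * ∏ i ∈ d.support, y i ^ d i) (hw ⟨d, hd⟩)).trans ?_
  simp only [map_sum, map_mul, AlgHom.commutes, Finset.sum_mul, MvPolynomial.aeval_monomial,
    mul_assoc, Finsupp.prod]

theorem grp_van [IsAlgClosed k] (hV : Cone I) {Ψ : MvPolynomial (Fin (N + 1)) R}
    (hΨ : ∀ x : V k N, On I x → MvPolynomial.aeval (cs R x) Ψ = 0) (hz : On I z) :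
    MvPolynomial.aeval z Ψ = 0 := van hV hΨ (AlgHom.id k R) hz

/-- The linear forms given by the rows of a matrix. -/
def grpLin (g : Mt R N) : V (MvPolynomial (Fin (N + 1)) R) N :=
  fun i => ∑ j, MvPolynomial.C (g i j) * MvPolynomial.X j

theorem grp_lin (g : Mt R N) (u : V R N) (i : Fin (N + 1)) :
    MvPolynomial.aeval u (grpLin g i) = g.mulVec u i := by
  simp [grpLin, Matrix.mulVec, dotProduct]

theorem grp_aev (u : V R N) (y : V (MvPolynomial (Fin (N + 1)) R) N) (Φ : Pk k N) :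
    MvPolynomial.aeval u (MvPolynomial.aeval y Φ) =
      MvPolynomial.aeval (fun i => MvPolynomial.aeval u (y i)) Φ :=
  map_aev ((MvPolynomial.aeval u).restrictScalars k) y Φ

theorem grp_cs (x : V k N) (Φ : Pk k N) :
    MvPolynomial.aeval (cs R x) Φ = algebraMap k R (MvPolynomial.aeval x Φ) :=
  (map_aev (Algebra.ofId k R) x Φ).symm

theorem grp_sum (hA : SU A) {a : Fin (N + 1)} (hw : ∀ c, a < c → w c = 0) :
    ∑ c, A a c * w c = 0 :=
  Finset.sum_eq_zero fun c _ => (le_or_gt c a).elim (fun e => mul_eq_zero_of_left (hA a c e) _)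
    fun e => mul_eq_zero_of_right _ (hw c e)

theorem grp_sub (φ : R →ₐ[k] S) (g : Mt R N) : g.map φ - 1 = (g - 1).map φ := by
  rw [Matrix.map_sub _ (map_sub φ), Matrix.map_one _ (map_zero φ) (map_one φ)]

theorem Pres.map (hg : Pres I g) (φ : R →ₐ[k] S) : Pres I (g.map φ) := by
  intro x hx
  have e := (hg x hx).map φ
  rwa [map_mulVec, map_cs] at e

theorem Pres.of_map {φ : R →ₐ[k] S} (hφ : Function.Injective φ) (hg : Pres I (g.map φ)) :
    Pres I g := by
  intro x hx
  refine On.of_map hφ ?_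
  rw [map_mulVec, map_cs]
  exact hg x hx

theorem pres_one : Pres I (1 : Mt R N) := by
  intro x hx
  rw [Matrix.one_mulVec]
  exact hx.cs

/-- `van` for `Ψ = Φ (g X)`. -/
theorem Pres.on [IsAlgClosed k] (hV : Cone I) (hg : Pres I g) (hz : On I z) :
    On I (g.mulVec z) := by
  intro Φ hΦ
  have e (u : V R N) : MvPolynomial.aeval u (MvPolynomial.aeval (grpLin g) Φ) =
      MvPolynomial.aeval (g.mulVec u) Φ := by
    rw [grp_aev]
    exact congrArg (fun t => MvPolynomial.aeval t Φ) (funext (grp_lin g u))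
  rw [← e]
  exact grp_van hV (fun x hx => (e _).trans (hg x hx Φ hΦ)) hz

theorem Pres.mul [IsAlgClosed k] (hV : Cone I) (hg : Pres I g) (hh : Pres I h) :
    Pres I (g * h) := by
  intro x hx
  rw [← Matrix.mulVec_mulVec]
  exact hg.on hV (hh x hx)

/-- `Pres.on` over the dual numbers. -/
theorem Pres.tg [IsAlgClosed k] (hV : Cone I) (hg : Pres I g) (hz : On I z) (hv : Tg I z v) :
    Tg I (g.mulVec z) (g.mulVec v) := by
  have e : (g.map (TrivSqZeroExt.inlAlgHom k R R)).mulVec (du z v) =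
      du (g.mulVec z) (g.mulVec v) := by
    funext i
    ext <;> simp [du, Matrix.mulVec, dotProduct, TrivSqZeroExt.fst_sum, TrivSqZeroExt.snd_sum]
  have h1 := (hg.map (TrivSqZeroExt.inlAlgHom k R R)).on hV (on_du.2 ⟨hz, hv⟩)
  rw [e] at h1
  exact (on_du.1 h1).2

/-- `van` for `Ψ = ∑ i, (pderiv i Φ) * (A X) i`. -/
theorem Tan.tg [IsAlgClosed k] (hV : Cone I) (hA : Tan I A) (hz : On I z) :
    Tg I z (A.mulVec z) := by
  intro Φ hΦ
  have e (u : V R N) : MvPolynomial.aeval u (∑ i, MvPolynomial.aeval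
      (MvPolynomial.X : V (MvPolynomial (Fin (N + 1)) R) N) (MvPolynomial.pderiv i Φ) *
        grpLin A i) = ∑ i, MvPolynomial.aeval u (MvPolynomial.pderiv i Φ) * A.mulVec u i := by
    rw [map_sum]
    refine Finset.sum_congr rfl fun i _ => ?_
    rw [map_mul, grp_lin, grp_aev]
    simp only [MvPolynomial.aeval_X]
  rw [← e]
  exact grp_van hV (fun x hx => (e _).trans (hA x hx Φ hΦ)) hz

theorem Tan.conj [IsAlgClosed k] (hV : Cone I) (hA : Tan I A) (hg : Pres I g) (hh : Pres I h)
    (e : g * h = 1) : Tan I (g * A * h) := by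
  intro x hx
  have h1 := hg.tg hV (hh x hx) (hA.tg hV (hh x hx))
  rwa [Matrix.mulVec_mulVec, e, Matrix.one_mulVec, Matrix.mulVec_mulVec,
    Matrix.mulVec_mulVec] at h1

/-- The condition is linear in the entries of `A`, with coefficients in `k`. -/
theorem Tan.lin (hA : Tan I A) (ℓ : R →ₗ[k] S) : Tan I (A.map ℓ) := by
  intro x hx Φ hΦ
  have e := congrArg ℓ (hA x hx Φ hΦ)
  rw [map_zero, map_sum] at e
  refine Eq.trans (Finset.sum_congr rfl fun i _ => ?_) e
  rw [grp_cs, grp_cs, ← Algebra.smul_def, ← Algebra.smul_def, map_smul]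
  congr 1
  simp only [Matrix.mulVec, dotProduct, map_sum, Matrix.map_apply, cs]
  refine Finset.sum_congr rfl fun j _ => ?_
  rw [mul_comm, mul_comm (A i j), ← Algebra.smul_def, ← Algebra.smul_def, map_smul]

theorem Tan.smul (hA : Tan I A) (c : R) : Tan I (c • A) := by
  intro x hx
  rw [Matrix.smul_mulVec]
  exact (hA x hx).smul c

theorem tan_of_du {G : Mt (DualNumber R) N} (hG : Pres I G)
    (h1 : G.map TrivSqZeroExt.fst = (1 : Mt R N)) : Tan I (G.map TrivSqZeroExt.snd) := by
  intro x hx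
  have e : G.mulVec (cs (DualNumber R) x) =
      du (cs R x) ((G.map TrivSqZeroExt.snd).mulVec (cs R x)) := by
    funext i
    ext
    · have e1 := congrFun (congrArg (fun M : Mt R N => M.mulVec (cs R x)) h1) i
      rw [Matrix.one_mulVec] at e1
      simpa [du, cs, Matrix.mulVec, dotProduct, TrivSqZeroExt.fst_sum,
        TrivSqZeroExt.algebraMap_eq_inl'] using e1
    · simp [du, cs, Matrix.mulVec, dotProduct, TrivSqZeroExt.snd_sum,
        TrivSqZeroExt.algebraMap_eq_inl', mul_comm]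
  have h2 := hG x hx
  rw [e] at h2
  exact (on_du.1 h2).2

theorem SU.add (hA : SU A) (hB : SU B) : SU (A + B) := by
  intro a b e
  rw [Matrix.add_apply, hA a b e, hB a b e, add_zero]

theorem SU.smul (hA : SU A) (c : R) : SU (c • A) := by
  intro a b e
  rw [Matrix.smul_apply, hA a b e, smul_zero]

theorem SU.mul (hA : SU A) (hB : SU B) : SU (A * B) := by
  exact fun a b e => grp_sum hA fun c hc => hB c b (e.trans hc.le)

theorem SU.map (hA : SU A) {f : R → S} (hf : f 0 = 0) : SU (A.map f) := by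
  intro a b e
  rw [Matrix.map_apply, hA a b e, hf]

theorem SU.pow_eq_zero (hA : SU A) : A ^ (N + 1) = 0 := by
  have key (n : ℕ) : ∀ a b : Fin (N + 1), (b : ℕ) < a + n → (A ^ n) a b = 0 := by
    induction n with
    | zero => exact fun a b e => Matrix.one_apply_ne fun e' => by simp [e'] at e
    | succ n ih =>
      intro a b e
      rw [pow_succ']
      exact grp_sum hA fun c hc => ih c b (by have : (a : ℕ) < c := hc; omega)
  ext a b
  exact key _ a b (by omega)

theorem SU.mulVec_apply (hA : SU A) {a : Fin (N + 1)} (hw : ∀ c, a < c → w c = 0) :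
    A.mulVec w a = 0 := by
  exact grp_sum hA hw

theorem SU.mul_apply (hA : SU A) {a b : Fin (N + 1)} (hB : ∀ c, a < c → B c b = 0) :
    (A * B) a b = 0 := by
  exact grp_sum hA hB

theorem nn_one : NN I (1 : Mt R N) := by
  refine ⟨?_, pres_one⟩
  rw [sub_self]
  exact fun _ _ _ => rfl

theorem NN.mul [IsAlgClosed k] (hV : Cone I) (hg : NN I g) (hh : NN I h) : NN I (g * h) := by
  refine ⟨?_, hg.pres.mul hV hh.pres⟩
  have e : g * h - 1 = (g - 1) + (h - 1) + (g - 1) * (h - 1) := by noncomm_ring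
  rw [e]
  exact (hg.su.add hh.su).add (hg.su.mul hh.su)

theorem NN.map (hg : NN I g) (φ : R →ₐ[k] S) : NN I (g.map φ) := by
  refine ⟨?_, hg.pres.map φ⟩
  rw [grp_sub]
  exact hg.su.map (map_zero φ)

theorem NN.of_map {φ : R →ₐ[k] S} (hφ : Function.Injective φ) (hg : NN I (g.map φ)) : NN I g := by
  refine ⟨fun a b e => hφ ?_, hg.pres.of_map hφ⟩
  have h1 := hg.su a b e
  rw [grp_sub] at h1
  exact h1.trans (map_zero φ).symm

theorem nn_pi {σ : Type} {g : Mt (σ → R) N}
    (hg : ∀ p, NN I (g.map (Pi.evalAlgHom k (fun _ => R) p))) : NN I g := by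
  refine ⟨fun a b e => funext fun p => ?_, fun x hx Φ hΦ => funext fun p => ?_⟩
  · have h1 := (hg p).su a b e
    rwa [grp_sub] at h1
  · have h1 := (hg p).pres x hx Φ hΦ
    rwa [← map_cs (Pi.evalAlgHom k (fun _ : σ => R) p), ← map_mulVec, ← map_aev] at h1

theorem NN.mulVec_apply (hg : NN I g) {a : Fin (N + 1)} (hw : ∀ c, a < c → w c = 0) :
    g.mulVec w a = w a := by
  have h1 := hg.su.mulVec_apply hw
  rwa [Matrix.sub_mulVec, Matrix.one_mulVec, Pi.sub_apply, sub_eq_zero] at h1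

theorem nn_iff {g : Mt k N} : NN I g ↔ Uni I g := ⟨fun h => ⟨h.su, h.pres⟩, fun h => ⟨h.1, h.2⟩⟩

end

end Pool.Agent.Lib.MP_41050a_ag
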