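import Pool.Agent.Lib.MP_41050a_ag.Defs

/-! Points, tangent vectors and matrices with values in an algebra. -/

namespace Pool.Agent.Lib.MP_41050a_ag

open Polynomial

set_option linter.unusedSectionVars false

noncomputable section

/-- Vectors. -/
abbrev V (R : Type) (N : ℕ) : Type := Fin (N + 1) → R

/-- Matrices. -/
abbrev Mt (R : Type) (N : ℕ) : Type := Matrix (Fin (N + 1)) (Fin (N + 1)) R

variable {k : Type} [Field k] {N : ℕ}

/-- A constant vector. -/
def cs (R : Type) [CommRing R] [Algebra k R] (x : V k N) : V R N := fun i => algebraMap k R (x i)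

/-- Strictly upper triangular. -/
def SU {R : Type} [CommRing R] (A : Mt R N) : Prop := ∀ a b, b ≤ a → A a b = 0

/-- The point `z + ε v`. -/
def du {R : Type} [CommRing R] (z v : V R N) : V (DualNumber R) N :=
  fun i => TrivSqZeroExt.inl (z i) + TrivSqZeroExt.inr (v i)

section

variable (I : Ideal (Pk k N)) {R : Type} [CommRing R] [Algebra k R]

/-- The matrix preserves the cone. -/
def Pres (g : Mt R N) : Prop := ∀ x : V k N, On I x → On I (g.mulVec (cs R x))

/-- The matrix is tangent to the cone. -/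
def Tan (A : Mt R N) : Prop := ∀ x : V k N, On I x → Tg I (cs R x) (A.mulVec (cs R x))

/-- The unipotent group. -/
structure NN (g : Mt R N) : Prop where
  su : SU (g - 1)
  pres : Pres I g

end

variable {I : Ideal (Pk k N)} {R S : Type} [CommRing R] [Algebra k R] [CommRing S] [Algebra k S]
  {z v w : V R N} {g h A B : Mt R N}

instance : Coe (SmoothVar I) (Cone I) := ⟨SmoothVar.toCone⟩

theorem cs_self (x : V k N) : cs k x = x := rfl

theorem map_cs (φ : R →ₐ[k] S) (x : V k N) : φ ∘ cs R x = cs S x := by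
  funext i
  exact φ.commutes _

theorem map_mulVec (φ : R →ₐ[k] S) (g : Mt R N) (z : V R N) :
    φ ∘ g.mulVec z = (g.map φ).mulVec (φ ∘ z) := by
  funext i
  exact RingHom.map_mulVec φ.toRingHom g z i

theorem map_aev (φ : R →ₐ[k] S) (z : V R N) (Φ : Pk k N) :
    φ (MvPolynomial.aeval z Φ) = MvPolynomial.aeval (φ ∘ z) Φ := by
  exact MvPolynomial.comp_aeval_apply z φ Φ

theorem On.map (hz : On I z) (φ : R →ₐ[k] S) : On I (φ ∘ z) := by
  intro Φ hΦ
  rw [← map_aev, hz Φ hΦ, map_zero]

theorem On.of_map {φ : R →ₐ[k] S} (hφ : Function.Injective φ) (hz : On I (φ ∘ z)) : On I z := by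
  intro Φ hΦ
  apply hφ
  rw [map_aev, hz Φ hΦ, map_zero]

theorem On.cs {x : V k N} (hx : On I x) : On I (cs R x) := by
  exact hx.map (Algebra.ofId k R)

theorem grp0_map (φ : R →ₐ[k] S) (z v : V R N) (Φ : Pk k N) :
    φ (∑ i, MvPolynomial.aeval z (MvPolynomial.pderiv i Φ) * v i) =
      ∑ i, MvPolynomial.aeval (φ ∘ z) (MvPolynomial.pderiv i Φ) * (φ ∘ v) i := by
  simp only [map_sum, map_mul, map_aev, Function.comp_apply]

theorem Tg.map (hz : Tg I z v) (φ : R →ₐ[k] S) : Tg I (φ ∘ z) (φ ∘ v) := by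
  intro Φ hΦ
  rw [← grp0_map, hz Φ hΦ, map_zero]

theorem Tg.of_map {φ : R →ₐ[k] S} (hφ : Function.Injective φ) (hz : Tg I (φ ∘ z) (φ ∘ v)) :
    Tg I z v := by
  intro Φ hΦ
  apply hφ
  rw [grp0_map, hz Φ hΦ, map_zero]

theorem Tg.add (h1 : Tg I z v) (h2 : Tg I z w) : Tg I z (v + w) := by
  intro Φ hΦ
  simp only [Pi.add_apply, mul_add, Finset.sum_add_distrib, h1 Φ hΦ, h2 Φ hΦ, add_zero]

theorem Tg.sub (h1 : Tg I z v) (h2 : Tg I z w) : Tg I z (v - w) := by
  intro Φ hΦ
  simp only [Pi.sub_apply, mul_sub, Finset.sum_sub_distrib, h1 Φ hΦ, h2 Φ hΦ, sub_zero]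

theorem Tg.smul (h1 : Tg I z v) (c : R) : Tg I z (c • v) := by
  intro Φ hΦ
  simp only [Pi.smul_apply, smul_eq_mul, mul_left_comm _ c, ← Finset.mul_sum, h1 Φ hΦ, mul_zero]

theorem Tg.zero : Tg I z 0 := by
  intro Φ _
  simp

theorem aev_smul {Φ : Pk k N} {d : ℕ} (hΦ : Φ.IsHomogeneous d) (c : R) (z : V R N) :
    MvPolynomial.aeval (c • z) Φ = c ^ d * MvPolynomial.aeval z Φ := by
  rw [MvPolynomial.aeval_def, MvPolynomial.aeval_def, MvPolynomial.eval₂_eq',
    MvPolynomial.eval₂_eq', Finset.mul_sum]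
  refine Finset.sum_congr rfl fun m hm => ?_
  have h1 : ∑ i, m i = d := by
    rw [← hΦ (MvPolynomial.mem_support_iff.1 hm), Finsupp.weight_apply, Finsupp.sum_fintype]
    · simp
    · simp
  simp only [Pi.smul_apply, smul_eq_mul, mul_pow, Finset.prod_mul_distrib,
    Finset.prod_pow_eq_pow_sum, h1]
  ring

/-- Write `Φ` as the sum of its homogeneous components. -/
theorem Cone.smul_mem (hV : Cone I) {J : Ideal R}
    (hz : ∀ Φ ∈ I, MvPolynomial.aeval z Φ ∈ J) (c : R) :
    ∀ Φ ∈ I, MvPolynomial.aeval (c • z) Φ ∈ J := by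
  intro Φ hΦ
  rw [← MvPolynomial.sum_homogeneousComponent Φ, map_sum]
  refine J.sum_mem fun d _ => ?_
  rw [aev_smul (MvPolynomial.homogeneousComponent_isHomogeneous d Φ)]
  exact J.mul_mem_left _ (hz _ (hV.hom Φ hΦ d))

theorem On.smul (hV : Cone I) (hz : On I z) (c : R) : On I (c • z) := by
  exact hV.smul_mem (J := ⊥) hz c

theorem grp0_mul_X (z w : V R N) (p : Pk k N) (j : Fin (N + 1)) :
    ∑ i, MvPolynomial.aeval z (MvPolynomial.pderiv i (p * MvPolynomial.X j)) * w i =
      (∑ i, MvPolynomial.aeval z (MvPolynomial.pderiv i p) * w i) * z j +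
        MvPolynomial.aeval z p * w j := by
  have e : ∀ i, MvPolynomial.aeval z (MvPolynomial.pderiv i (p * MvPolynomial.X j)) * w i =
      MvPolynomial.aeval z (MvPolynomial.pderiv i p) * w i * z j +
        if j = i then MvPolynomial.aeval z p * w i else 0 := by
    intro i
    rw [MvPolynomial.pderiv_mul, MvPolynomial.pderiv_X, map_add, map_mul, map_mul,
      MvPolynomial.aeval_X, Pi.single_apply]
    split_ifs
    · rw [map_one]
      ring
    · rw [map_zero]
      ring
  simp only [e, Finset.sum_add_distrib, Finset.sum_ite_eq, Finset.mem_univ, if_true,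
    Finset.sum_mul]

/-- First order expansion; induction on `Φ`. -/
theorem taylor_dvd (z w : V R N) (a : R) (Φ : Pk k N) :
    a ^ 2 ∣ MvPolynomial.aeval (z + a • w) Φ - MvPolynomial.aeval z Φ -
      a * ∑ i, MvPolynomial.aeval z (MvPolynomial.pderiv i Φ) * w i := by
  induction Φ using MvPolynomial.induction_on with
  | C c => simp
  | add p q hp hq =>
    obtain ⟨u, hu⟩ := hp
    obtain ⟨u', hu'⟩ := hq
    refine ⟨u + u', ?_⟩
    simp only [map_add, add_mul, Finset.sum_add_distrib]
    linear_combination hu + hu'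
  | mul_X p j hp =>
    obtain ⟨q, hq⟩ := hp
    rw [grp0_mul_X, map_mul, map_mul, MvPolynomial.aeval_X, MvPolynomial.aeval_X]
    refine ⟨q * (z j + a * w j) +
      (∑ i, MvPolynomial.aeval z (MvPolynomial.pderiv i p) * w i) * w j, ?_⟩
    simp only [Pi.add_apply, Pi.smul_apply, smul_eq_mul]
    linear_combination (z j + a * w j) * hq

theorem aev_congr {J : Ideal R} (hzw : ∀ i, z i - w i ∈ J) (Φ : Pk k N) :
    MvPolynomial.aeval z Φ - MvPolynomial.aeval w Φ ∈ J := by
  induction Φ using MvPolynomial.induction_on with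
  | C c => simp
  | add p q hp hq =>
    have := J.add_mem hp hq
    rw [map_add, map_add, add_sub_add_comm]
    exact this
  | mul_X p j hp =>
    have := J.add_mem (J.mul_mem_right (z j) hp) (J.mul_mem_left (MvPolynomial.aeval w p) (hzw j))
    rw [map_mul, map_mul, MvPolynomial.aeval_X, MvPolynomial.aeval_X]
    have e : MvPolynomial.aeval z p * z j - MvPolynomial.aeval w p * w j =
        (MvPolynomial.aeval z p - MvPolynomial.aeval w p) * z j +
          MvPolynomial.aeval w p * (z j - w j) := by ring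
    rw [e]
    exact this

theorem aev_du (z v : V R N) (Φ : Pk k N) : MvPolynomial.aeval (du z v) Φ =
    TrivSqZeroExt.inl (MvPolynomial.aeval z Φ) +
      TrivSqZeroExt.inr (∑ i, MvPolynomial.aeval z (MvPolynomial.pderiv i Φ) * v i) := by
  induction Φ using MvPolynomial.induction_on with
  | C c =>
    simp only [MvPolynomial.aeval_C, MvPolynomial.pderiv_C, map_zero, zero_mul,
      Finset.sum_const_zero, TrivSqZeroExt.inr_zero, add_zero]
    rfl
  | add p q hp hq =>
    simp only [map_add, hp, hq, add_mul, Finset.sum_add_distrib, TrivSqZeroExt.inl_add,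
      TrivSqZeroExt.inr_add]
    abel
  | mul_X p j hp =>
    rw [grp0_mul_X, map_mul, map_mul, MvPolynomial.aeval_X, MvPolynomial.aeval_X, hp]
    ext
    · simp [du]
    · simp [du]
      ring

theorem on_du : On I (du z v) ↔ On I z ∧ Tg I z v := by
  constructor
  · intro h
    refine ⟨fun Φ hΦ => ?_, fun Φ hΦ => ?_⟩
    · simpa using congrArg TrivSqZeroExt.fst ((aev_du z v Φ).symm.trans (h Φ hΦ))
    · simpa using congrArg TrivSqZeroExt.snd ((aev_du z v Φ).symm.trans (h Φ hΦ))
  · rintro ⟨h1, h2⟩ Φ hΦ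
    rw [aev_du, h1 Φ hΦ, h2 Φ hΦ, TrivSqZeroExt.inl_zero, TrivSqZeroExt.inr_zero, add_zero]

/-- `c • (z + ε v)` is on the cone. -/
theorem Tg.smul_both (hV : Cone I) (hz : On I z) (hv : Tg I z v) (c : R) :
    Tg I (c • z) (c • v) := by
  have h1 := (on_du.2 ⟨hz, hv⟩).smul hV (TrivSqZeroExt.inl c)
  have e : (TrivSqZeroExt.inl c : DualNumber R) • du z v = du (c • z) (c • v) := by
    funext i
    ext
    · simp [du]
    · simp [du]
  rw [e] at h1
  exact (on_du.1 h1).2

/-- Elements of `E` are determined by their images under linear forms. -/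
theorem eq_zero_of_forms {E : Type} [AddCommGroup E] [Module k E] {a : E}
    (h : ∀ ℓ : E →ₗ[k] k, ℓ a = 0) : a = 0 := by
  exact (Module.forall_dual_apply_eq_zero_iff k a).1 h

/-- Expand the finitely many entries of `w` in a basis of `R` over `k`. -/
theorem exists_expand {ι : Type} [Fintype ι] (w : ι → R) : ∃ (n : ℕ) (ω : Fin n → R)
    (ℓ : Fin n → (R →ₗ[k] k)), ∀ i, w i = ∑ a, ω a * algebraMap k R (ℓ a (w i)) := by
  classical
  let b := Module.Basis.ofVectorSpace k R
  let s := Finset.univ.biUnion fun i => (b.repr (w i)).support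
  refine ⟨s.card, fun a => b (s.equivFin.symm a), fun a => b.coord (s.equivFin.symm a),
    fun i => ?_⟩
  rw [Equiv.sum_comp s.equivFin.symm fun x : s => b x * algebraMap k R (b.coord x (w i)),
    Finset.sum_coe_sort s fun x => b x * algebraMap k R (b.coord x (w i))]
  conv_lhs => rw [← b.linearCombination_repr (w i), Finsupp.linearCombination_apply]
  rw [Finsupp.sum_of_support_subset (s := s) _
    (Finset.subset_biUnion_of_mem (fun i => (b.repr (w i)).support) (Finset.mem_univ i))
    (fun x a => a • b x) fun _ _ => zero_smul _ _]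
  refine Finset.sum_congr rfl fun x _ => ?_
  rw [Algebra.smul_def, mul_comm]
  rfl

end

end Pool.Agent.Lib.MP_41050a_ag
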