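import Pool.Agent.Lib.MP_41050a_ag.Defs
import Pool.Agent.Lib.MP_751085_ag.PP1

/-! Covers of a free line. -/

namespace Pool.Agent.Lib.MP_41050a_ag

open Polynomial

variable {k : Type} [Field k] {N d : ℕ}

theorem hyfr_hom {D : ℕ} {g : Pk k N} (hg : g.IsHomogeneous D) (p q : Fin (N + 1) → k)
    {R : Type} [CommRing R] [Algebra k R] (A B : R) :
    MvPolynomial.aeval (fun i => A * algebraMap k R (p i) + B * algebraMap k R (q i)) g =
      MvPolynomial.aeval ![B, A] ((Pool.Agent.HZ.pol g p q).homogenize D) := by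
  have h1 : ∀ i, (MvPolynomial.X 1 * MvPolynomial.C (p i) +
      MvPolynomial.X 0 * MvPolynomial.C (q i) : MvPolynomial (Fin 2) k).IsHomogeneous 1 := fun i =>
    ((MvPolynomial.isHomogeneous_X k 1).mul (MvPolynomial.isHomogeneous_C _ _)).add
      ((MvPolynomial.isHomogeneous_X k 0).mul (MvPolynomial.isHomogeneous_C _ _))
  have h2 := hg.aeval _ h1
  rw [one_mul] at h2
  rw [homogenize_eq_of_isHomogeneous h2, ← AlgHom.comp_apply, MvPolynomial.comp_aeval]
  · congr 2
    funext i
    simp
  · rw [← AlgHom.comp_apply, MvPolynomial.comp_aeval, Pool.Agent.HZ.pol]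
    congr 2
    funext i
    simp

theorem hy_on {f : Pk k N} (hf : f.IsHomogeneous d) {p q : Fin (N + 1) → k}
    (h0 : Pool.Agent.HZ.pol f p q = 0) {R : Type} [CommRing R] [Algebra k R] (A B : R) :
    MvPolynomial.aeval (fun i => A * algebraMap k R (p i) + B * algebraMap k R (q i)) f = 0 := by
  rw [hyfr_hom hf, h0, homogenize_zero, map_zero]

/-- The derivative of `f` along the line in the direction `z`. -/
noncomputable def hyfr_L (f : Pk k N) (p q z : Fin (N + 1) → k) : k[X] :=
  ∑ a, C (z a) * Pool.Agent.HZ.pol (MvPolynomial.pderiv a f) p q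

theorem hyfr_deg {f : Pk k N} (hf : f.IsHomogeneous d) (p q z : Fin (N + 1) → k) :
    (hyfr_L f p q z).natDegree ≤ d - 1 := by
  refine natDegree_sum_le_of_forall_le _ _ fun a _ => (natDegree_C_mul_le _ _).trans ?_
  have := MvPolynomial.aeval_natDegree_le (n := 1) _ (hf.pderiv (i := a)).totalDegree_le
    (fun a => C (p a) + X * C (q a)) fun a => by compute_degree
  rwa [mul_one] at this

theorem hyfr_lin (f : Pk k N) (p q z z' : Fin (N + 1) → k) (c : k) :
    hyfr_L f p q (fun i => z i + c * z' i) = hyfr_L f p q z + C c * hyfr_L f p q z' := by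
  simp only [hyfr_L, Finset.mul_sum, ← Finset.sum_add_distrib, map_add, map_mul]
  exact Finset.sum_congr rfl fun a _ => by ring

theorem hyfr_ev {f : Pk k N} (hf : f.IsHomogeneous d) (p q z : Fin (N + 1) → k)
    {R : Type} [CommRing R] [Algebra k R] (A B : R) :
    ∑ a, MvPolynomial.aeval (fun i => A * algebraMap k R (p i) + B * algebraMap k R (q i))
      (MvPolynomial.pderiv a f) * algebraMap k R (z a) =
      MvPolynomial.aeval ![B, A] ((hyfr_L f p q z).homogenize (d - 1)) := by
  rw [hyfr_L, homogenize_finsetSum, map_sum]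
  refine Finset.sum_congr rfl fun a _ => ?_
  rw [homogenize_C_mul, map_mul, MvPolynomial.aeval_C, hyfr_hom hf.pderiv, mul_comm]

theorem hyfr_surj {f : Pk k N} (hf : f.IsHomogeneous d) (hd : 2 ≤ d) {p q : Fin (N + 1) → k}
    (h1 : LinearIndependent k fun (i : Fin d) (a : Fin (N + 1)) =>
      (Pool.Agent.HZ.pol (MvPolynomial.pderiv a f) p q).coeff i) {w : k[X]}
    (hw : w.natDegree ≤ d - 1) : ∃ z, hyfr_L f p q z = w := by
  let M : Matrix (Fin d) (Fin (N + 1)) k := Matrix.of fun i a =>
    (Pool.Agent.HZ.pol (MvPolynomial.pderiv a f) p q).coeff i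
  have h2 : M.rank = Fintype.card (Fin d) := LinearIndependent.rank_matrix (M := M) h1
  have h3 : LinearMap.range M.mulVecLin = ⊤ :=
    Submodule.eq_top_of_finrank_eq (by rw [Module.finrank_fintype_fun_eq_card]; exact h2)
  obtain ⟨z, hz⟩ := LinearMap.range_eq_top.1 h3 fun i => w.coeff i
  refine ⟨z, Polynomial.ext fun n => ?_⟩
  by_cases hn : n < d
  · rw [← congrFun hz ⟨n, hn⟩, hyfr_L, finsetSum_coeff]
    simp only [coeff_C_mul, Matrix.mulVecLin_apply, Matrix.mulVec, dotProduct, M, Matrix.of_apply]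
    exact Finset.sum_congr rfl fun a _ => mul_comm _ _
  · rw [coeff_eq_zero_of_natDegree_lt (by have := hyfr_deg hf p q z; omega),
      coeff_eq_zero_of_natDegree_lt (by omega)]

theorem hyfr_div {m : ℕ} {g : k[X]} (hg : g.natDegree ≤ m + 1) {a b : k} (hab : a ≠ 0 ∨ b ≠ 0)
    (h : MvPolynomial.aeval ![b, a] (g.homogenize (m + 1)) = 0) :
    ∃ w : k[X], w.natDegree ≤ m ∧ g = (C a * X - C b) * w := by
  by_cases ha : a = 0
  · have hb : b ≠ 0 := hab.resolve_left (not_not.2 ha)
    have h0 : g.coeff (m + 1) = 0 := by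
      rw [homogenize, map_sum, Finset.sum_eq_single (m + 1, 0)] at h
      · simpa [MvPolynomial.aeval_monomial, hb] using h
      · intro kl hkl hne
        have h2 : kl.2 ≠ 0 := fun h2 => hne (Prod.ext (by
          have := Finset.HasAntidiagonal.mem_antidiagonal.1 hkl
          simp only; omega) h2)
        simp [MvPolynomial.aeval_monomial, Finsupp.prod_fintype, ha, h2]
      · simp
    refine ⟨C (-b⁻¹) * g, (natDegree_C_mul_le _ _).trans ?_, ?_⟩
    · exact natDegree_le_iff_coeff_eq_zero.2 fun n hn => by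
        rcases (Nat.succ_le_of_lt hn).eq_or_lt with h1 | h1
        · exact h1 ▸ h0
        · exact coeff_eq_zero_of_natDegree_lt (hg.trans_lt h1)
    · rw [ha, map_zero, zero_mul, zero_sub, ← mul_assoc, ← C_neg, ← C_mul, neg_mul_neg,
        mul_inv_cancel₀ hb, C_1, one_mul]
  · have h1 := eval_homogenize hg ![b, a] ha
    rw [← MvPolynomial.coe_aeval_eq_eval] at h1
    have h2 : g.IsRoot (b / a) := by
      have h3 := h1.symm.trans h
      simpa [ha] using h3
    obtain ⟨w, hw⟩ := dvd_iff_isRoot.2 h2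
    refine ⟨C a⁻¹ * w, (natDegree_C_mul_le _ _).trans ?_, ?_⟩
    · by_cases h0 : w = 0
      · simp [h0]
      · rw [hw, natDegree_mul (X_sub_C_ne_zero _) h0, natDegree_X_sub_C] at hg
        omega
    · have h4 : C a * C a⁻¹ = (1 : k[X]) := by rw [← C_mul, mul_inv_cancel₀ ha, C_1]
      rw [hw, div_eq_mul_inv, C_mul]
      linear_combination (-X * w) * h4

theorem hyfr_tg {f : Pk k N} {R : Type} [CommRing R] [Algebra k R] {x v : Fin (N + 1) → R}
    (h0 : MvPolynomial.aeval x f = 0)
    (h : ∑ i, MvPolynomial.aeval x (MvPolynomial.pderiv i f) * v i = 0) :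
    Tg (Ideal.span {f}) x v := by
  intro Φ hΦ
  obtain ⟨g, rfl⟩ := Ideal.mem_span_singleton'.1 hΦ
  simp only [Derivation.leibniz, smul_eq_mul, map_add, map_mul, h0, zero_mul, add_zero, mul_assoc]
  rw [← Finset.mul_sum, h, mul_zero]

theorem hyfr_val (e : ℕ) (c : Option k) (A B : k[X]) (x y : k) :
    val e c (A * C x + B * C y) = val e c A * x + val e c B * y := by
  cases c <;> simp [val]

theorem hy_free {f : Pk k N} (hf : f.IsHomogeneous d) (hd : 2 ≤ d) {p q : Fin (N + 1) → k}
    (h0 : Pool.Agent.HZ.pol f p q = 0)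
    (h1 : LinearIndependent k fun (i : Fin d) (a : Fin (N + 1)) =>
      (Pool.Agent.HZ.pol (MvPolynomial.pderiv a f) p q).coeff i) {e : ℕ} {A B : k[X]}
    (hA : A.natDegree ≤ e) (hB : B.natDegree ≤ e) (hAB : ∀ c, val e c A ≠ 0 ∨ val e c B ≠ 0) :
    IsMap (Ideal.span {f}) e (fun i => A * C (p i) + B * C (q i)) ∧
      Free (Ideal.span {f}) e fun i => A * C (p i) + B * C (q i) := by
  obtain ⟨m, rfl⟩ : ∃ m, d = m + 2 := ⟨d - 2, by omega⟩
  have hdeg : ∀ x y : k, (A * C x + B * C y).natDegree ≤ e := fun x y =>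
    (natDegree_add_le _ _).trans
      (max_le ((natDegree_mul_C_le _ _).trans hA) ((natDegree_mul_C_le _ _).trans hB))
  have hon := hy_on hf h0 A B
  refine ⟨⟨fun i => hdeg _ _, fun Φ hΦ => ?_, fun c => ?_⟩, fun c v hv => ?_⟩
  · obtain ⟨g, rfl⟩ := Ideal.mem_span_singleton'.1 hΦ
    rw [map_mul]
    exact mul_eq_zero_of_right _ hon
  · by_contra hn
    simp only [hyfr_val, not_exists, not_not] at hn
    have key : ∀ z, MvPolynomial.aeval ![val e c B, val e c A]
        ((hyfr_L f p q z).homogenize (m + 1)) = 0 := fun z => by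
      refine (hyfr_ev hf p q z _ _).symm.trans (Finset.sum_eq_zero fun a _ => ?_)
      have := Pool.Agent.HZ.pp1_scale (hf.pderiv (i := a)) (0 : k) p
      simp only [Algebra.algebraMap_self, RingHom.id_apply, hn]
      simp only [zero_mul] at this
      rw [this]
      simp
    obtain ⟨z, hz⟩ := hyfr_surj hf hd h1 (w := X ^ (m + 1)) (by simp)
    obtain ⟨z', hz'⟩ := hyfr_surj hf hd h1 (w := 1) (by simp)
    have k1 := key z
    have k2 := key z'
    rw [hz, homogenize_X_pow le_rfl] at k1
    rw [hz', homogenize_one] at k2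
    rcases hAB c with h | h
    · exact h (by simpa using k2)
    · exact h (by simpa using k1)
  · have h2 := hv f (Ideal.mem_span_singleton_self f)
    simp only [hyfr_val] at h2
    obtain ⟨w, hw, hL⟩ := hyfr_div (hyfr_deg hf p q v) (hAB c)
      ((hyfr_ev hf p q v (val e c A) (val e c B)).symm.trans h2)
    obtain ⟨z0, hz0⟩ := hyfr_surj hf hd h1 (w := X * w)
      (natDegree_mul_le.trans (by rw [natDegree_X]; omega))
    obtain ⟨z1, hz1⟩ := hyfr_surj hf hd h1 (w := C (-1) * w)
      (natDegree_mul_le.trans (by rw [natDegree_C]; omega))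
    obtain ⟨α, β, hαβ⟩ : ∃ α β : k, val e c A * α + val e c B * β = 1 := by
      rcases hAB c with h | h
      · exact ⟨_, 0, by rw [mul_inv_cancel₀ h, mul_zero, add_zero]⟩
      · exact ⟨0, _, by rw [mul_inv_cancel₀ h, mul_zero, zero_add]⟩
    set u : Fin (N + 1) → k := fun i => v i + -val e c A * z0 i + -val e c B * z1 i with hu
    have hu0 : hyfr_L f p q u = 0 := by
      rw [hu, hyfr_lin, hyfr_lin, hL, hz0, hz1]
      simp only [map_neg, map_one]
      ring
    refine ⟨fun i => A * C (z0 i + α * u i) + B * C (z1 i + β * u i), fun i => hdeg _ _,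
      hyfr_tg hon ?_, fun i => ?_⟩
    · have e0 := hyfr_ev hf p q (fun i => z0 i + α * u i) A B
      have e1 := hyfr_ev hf p q (fun i => z1 i + β * u i) A B
      rw [hyfr_lin, hu0, mul_zero, add_zero, hz0, show m + 2 - 1 = 1 + m by omega,
        homogenize_mul _ _ natDegree_X_le hw, homogenize_X one_ne_zero] at e0
      rw [hyfr_lin, hu0, mul_zero, add_zero, hz1, show m + 2 - 1 = 1 + m by omega,
        homogenize_mul _ _ (by simp) hw, homogenize_C] at e1
      simp only [map_mul, MvPolynomial.aeval_X, map_neg, map_one, pow_one,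
        Nat.sub_self, pow_zero, Matrix.cons_val_zero, Matrix.cons_val_one, algebraMap_eq] at e0 e1
      simp only [mul_add, Finset.sum_add_distrib, mul_left_comm _ A, mul_left_comm _ B,
        ← Finset.mul_sum]
      rw [e0, e1]
      ring
    · rw [hyfr_val]
      simp only [hu]
      linear_combination (v i + -val e c A * z0 i + -val e c B * z1 i) * hαβ

end Pool.Agent.Lib.MP_41050a_ag
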