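import Pool.Agent.Lib.MP_41050a_ag.HyFr
import Pool.Agent.Lib.MP_751085_ag.Ln
import Pool.Agent.Lib.MP_751085_ag.FL

/-! Movable bend and break for hypersurfaces. -/

namespace Pool.Agent.Lib.MP_41050a_ag

open Polynomial

variable {k : Type} [Field k] {N d : ℕ}

theorem hymain_coeff {R : Type} [CommRing R] [Algebra k R] {e : ℕ}
    (c : Fin (N + 1) × Fin (e + 1) → R) (Φ : Pk k N) (m : ℕ) :
    MvPolynomial.aeval c ((MvPolynomial.aeval
      (pol (MvPolynomial.X : _ → MvPolynomial (Fin (N + 1) × Fin (e + 1)) k)) Φ).coeff m) =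
      (MvPolynomial.aeval (pol c) Φ).coeff m := by
  have h1 : ∀ i, Polynomial.mapAlgHom (MvPolynomial.aeval c : _ →ₐ[k] R)
      (pol (MvPolynomial.X : _ → MvPolynomial (Fin (N + 1) × Fin (e + 1)) k) i) = pol c i := by
    intro i
    simp [pol]
  have h2 := MvPolynomial.comp_aeval_apply
    (pol (MvPolynomial.X : _ → MvPolynomial (Fin (N + 1) × Fin (e + 1)) k))
    (Polynomial.mapAlgHom (MvPolynomial.aeval c : _ →ₐ[k] R)) Φ
  simp only [h1] at h2
  rw [show MvPolynomial.aeval (pol c) Φ = MvPolynomial.aeval (fun i => pol c i) Φ from rfl, ← h2]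
  simp

theorem hymain_eqs {R : Type} [CommRing R] [Algebra k R] {e : ℕ} (f : Pk k N)
    (c : Fin (N + 1) × Fin (e + 1) → R) :
    (∀ g ∈ eqs (Ideal.span {f}) e, MvPolynomial.aeval c g = 0) ↔
      MvPolynomial.aeval (pol c) f = 0 := by
  constructor
  · intro h
    ext m
    rw [← hymain_coeff, coeff_zero]
    exact h _ (Ideal.subset_span ⟨f, Ideal.mem_span_singleton_self f, m, rfl⟩)
  · intro h g hg
    have h1 : eqs (Ideal.span {f}) e ≤
        RingHom.ker (MvPolynomial.aeval c : MvPolynomial _ k →ₐ[k] R) := by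
      refine Ideal.span_le.2 ?_
      rintro _ ⟨Φ, hΦ, m, rfl⟩
      obtain ⟨w, rfl⟩ := Ideal.mem_span_singleton'.1 hΦ
      rw [SetLike.mem_coe, RingHom.mem_ker, hymain_coeff, map_mul, h, mul_zero, coeff_zero]
    exact h1 hg

theorem hymain_pol {R : Type} [CommRing R] {e : ℕ} (F : Fin (N + 1) → R[X])
    (hF : ∀ i, (F i).natDegree ≤ e) (i : Fin (N + 1)) :
    pol (fun x : Fin (N + 1) × Fin (e + 1) => (F x.1).coeff x.2) i = F i := by
  rw [pol, Fin.sum_univ_eq_sum_range (fun j => monomial j ((F i).coeff j)) (e + 1)]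
  exact ((F i).as_sum_range' (e + 1) (Nat.lt_succ_of_le (hF i))).symm

theorem hy_prime [IsAlgClosed k] {f : Pk k N} (hf : Pool.Agent.HZ.Hyp f d) {e : ℕ}
    (he : Pool.Agent.HZ.eC (N + 1) d 0 0 0 0 ≤ e) : (eqs (Ideal.span {f}) e).radical.IsPrime := by
  obtain ⟨e0, h1, h2⟩ := Pool.Agent.HZ.line_core hf (Δ := 1) monic_one (ξ := 0) (kk := 1)
    (by simp) (by simp) 0
  have h3 : (MvPolynomial.vanishingIdeal k (Pool.Agent.HZ.LS f 1 0 1 e)).IsPrime :=
    (h2 e (by rw [h1 rfl]; exact he)).1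
  have h4 : Pool.Agent.HZ.LS f 1 0 1 e = MvPolynomial.zeroLocus k (eqs (Ideal.span {f}) e) := by
    ext y
    rw [MvPolynomial.mem_zeroLocus_iff, hymain_eqs]
    constructor
    · exact fun h => h.1
    · exact fun h => ⟨h, by simp⟩
  rwa [h4, MvPolynomial.vanishingIdeal_zeroLocus_eq_radical] at h3

theorem hy_breaks [IsAlgClosed k] {f : Pk k N} (hf : Pool.Agent.HZ.Hyp f d) {e : ℕ} (he : 2 ≤ e) :
    Breaks (Ideal.span {f}) e (eqs (Ideal.span {f}) e).radical := by
  obtain ⟨p, q, h0, h1⟩ := Pool.Agent.HZ.exists_free_line hf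
  obtain ⟨r, rfl⟩ : ∃ r, e = r + 2 := ⟨e - 2, by omega⟩
  have a1 := hy_free hf.hom hf.hd h0 h1 (e := r + 1) (A := X ^ (r + 1)) (B := 1)
    (by simp) (by simp) (by rintro (_ | c) <;> simp [val])
  have a2 := hy_free hf.hom hf.hd h0 h1 (e := 1) (A := 1) (B := X)
    (by simp) (by simp) (by rintro (_ | c) <;> simp [val])
  let F : Fin (N + 1) → (PowerSeries k)[X] := fun i =>
    (X ^ (r + 2) + C PowerSeries.X) * C (PowerSeries.C (p i)) + X * C (PowerSeries.C (q i))
  have hF : ∀ i, (F i).natDegree ≤ r + 2 := by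
    intro i
    simp only [F]
    compute_degree!
  have hp := hymain_pol F hF
  refine ⟨r + 1, 1, 0, _, _, fun x => (F x.1).coeff x.2, fun i =>
    (C PowerSeries.X ^ (r + 1) * X ^ (r + 2) + 1) * C (PowerSeries.C (p i)) +
      X * C (PowerSeries.C (q i)), by omega, by omega, rfl, a1.1, a1.2, a2.1, a2.2, ?_, ?_, ?_, ?_⟩
  · rintro g ⟨n, hn⟩
    have h2 := (hymain_eqs f fun x : Fin (N + 1) × Fin (r + 2 + 1) => (F x.1).coeff x.2).2
      (by
        rw [funext hp]
        exact hy_on hf.hom h0 (X ^ (r + 2) + C PowerSeries.X : (PowerSeries k)[X]) X) _ hn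
    rw [map_pow] at h2
    exact eq_zero_of_pow_eq_zero h2
  · intro i
    rw [hp]
    simp [F]
    ring
  · intro i
    rw [hp]
    simp [F]
    ring
  · intro i
    simp

theorem hy_main (N d : ℕ) (hd : 2 ≤ d) (hn : 4 * d ≤ N + 2) :
    ∃ c : ℕ, ∀ (k : Type) [Field k] [IsAlgClosed k], ((d.factorial : ℕ) : k) ≠ 0 →
      ∀ f : Pk k N, f.IsHomogeneous d → (∀ x : Fin (N + 1) → k, MvPolynomial.aeval x f = 0 →
        (∀ i, MvPolynomial.aeval x (MvPolynomial.pderiv i f) = 0) → x = 0) →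
      ∀ e, c ≤ e → ∀ P ∈ (eqs (Ideal.span {f}) e).minimalPrimes, Breaks (Ideal.span {f}) e P := by
  refine ⟨max (Pool.Agent.HZ.eC (N + 1) d 0 0 0 0) 2, ?_⟩
  intro k _ _ hk f hf hs e he P hP
  have h1 : ∀ m : ℕ, m ∣ d.factorial → (m : k) ≠ 0 := by
    rintro m ⟨w, hw⟩ hm
    exact hk (by rw [hw, Nat.cast_mul, hm, zero_mul])
  have hH : Pool.Agent.HZ.Hyp f d :=
    { hom := hf
      ns := Pool.Agent.HZ.ns_of_closed hf (h1 d (Nat.dvd_factorial (by omega) le_rfl)) hs
      bin := fun i hi => h1 _ (Dvd.dvd.trans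
        ⟨i.factorial * (d - 1 - i).factorial, by
          rw [← Nat.choose_mul_factorial_mul_factorial hi, mul_assoc]⟩
        (Nat.factorial_dvd_factorial (Nat.sub_le d 1)))
      hd := hd
      hn := hn }
  have h2 := hy_prime hH (le_trans (le_max_left _ _) he)
  rw [← Ideal.radical_minimalPrimes, Ideal.minimalPrimes_eq_subsingleton_self,
    Set.mem_singleton_iff] at hP
  rw [hP]
  exact hy_breaks hH (le_trans (le_max_right _ _) he)

end Pool.Agent.Lib.MP_41050a_ag
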