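import Pool.Agent.Lib.MP_41050a_ag.Grp

/-! Consequences of smoothness. -/

namespace Pool.Agent.Lib.MP_41050a_ag

open Polynomial

set_option linter.unusedSectionVars false

noncomputable section

variable {k : Type} [Field k] [IsAlgClosed k] [CharZero k] {N : ℕ} {I : Ideal (Pk k N)}

theorem SmoothVar.lift (hV : SmoothVar I) {R : Type} [CommRing R] [Algebra k R] {𝔞 𝔟 : Ideal R}
    {n : ℕ} (h : 𝔞 ^ n ≤ 𝔟) {z : V R N} (hz : ∀ Φ ∈ I, MvPolynomial.aeval z Φ ∈ 𝔞)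
    {i : Fin (N + 1)} (hi : IsUnit (z i)) :
    ∃ z' : V R N, (∀ j, z' j - z j ∈ 𝔞) ∧ ∀ Φ ∈ I, MvPolynomial.aeval z' Φ ∈ 𝔟 := by
  have hS := hV.smooth i
  let J : Ideal (R ⧸ 𝔟) := 𝔞.map (Ideal.Quotient.mk 𝔟)
  have hJ : IsNilpotent J := by
    refine ⟨n, ?_⟩
    rw [← Ideal.map_pow, Ideal.zero_eq_bot, ← le_bot_iff, Ideal.map_le_iff_le_comap]
    intro a ha
    exact Ideal.mem_comap.2 (Ideal.mem_bot.2 (Ideal.Quotient.eq_zero_iff_mem.2 (h ha)))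
  let g0 : Pk k N →ₐ[k] (R ⧸ 𝔟) ⧸ J :=
    (Ideal.Quotient.mkₐ k J).comp ((Ideal.Quotient.mkₐ k 𝔟).comp (MvPolynomial.aeval z))
  have hg0 : ∀ Φ, g0 Φ =
      Ideal.Quotient.mk J (Ideal.Quotient.mk 𝔟 (MvPolynomial.aeval z Φ)) := fun _ => rfl
  let g1 : (Pk k N ⧸ I) →ₐ[k] (R ⧸ 𝔟) ⧸ J := Ideal.Quotient.liftₐ I g0 fun Φ hΦ => by
    rw [hg0]
    exact Ideal.Quotient.eq_zero_iff_mem.2 (Ideal.mem_map_of_mem _ (hz Φ hΦ))
  have hg1 : ∀ j, g1 (Ideal.Quotient.mk I (MvPolynomial.X j)) =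
      Ideal.Quotient.mk J (Ideal.Quotient.mk 𝔟 (z j)) := fun j => by
    have e : g1 (Ideal.Quotient.mk I (MvPolynomial.X j)) = g0 (MvPolynomial.X j) := rfl
    rw [e, hg0, MvPolynomial.aeval_X]
  have hu : IsUnit (g1 (Ideal.Quotient.mk I (MvPolynomial.X i))) := by
    rw [hg1]
    exact (hi.map _).map _
  let g2 : Localization.Away (Ideal.Quotient.mk I (MvPolynomial.X i)) →ₐ[k] (R ⧸ 𝔟) ⧸ J :=
    IsLocalization.Away.liftAlgHom (Ideal.Quotient.mk I (MvPolynomial.X i)) hu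
  have hg2 : ∀ a, g2 (algebraMap (Pk k N ⧸ I) _ a) = g1 a := fun a =>
    IsLocalization.Away.lift_eq (Ideal.Quotient.mk I (MvPolynomial.X i)) hu a
  obtain ⟨f, hf⟩ := Algebra.FormallySmooth.exists_lift J hJ g2
  let F : Pk k N →ₐ[k] R ⧸ 𝔟 :=
    f.comp ((IsScalarTower.toAlgHom k (Pk k N ⧸ I) _).comp (Ideal.Quotient.mkₐ k I))
  have hF : ∀ Φ, F Φ = f (algebraMap (Pk k N ⧸ I) _ (Ideal.Quotient.mk I Φ)) := fun _ => rfl
  have key : ∀ j, ∃ a ∈ 𝔞, Ideal.Quotient.mk 𝔟 a =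
      F (MvPolynomial.X j) - Ideal.Quotient.mk 𝔟 (z j) := fun j => by
    refine (Ideal.mem_map_iff_of_surjective _ Ideal.Quotient.mk_surjective).1 ?_
    refine Ideal.Quotient.eq.1 ?_
    rw [← hg1, ← hg2, ← hf, hF]
    rfl
  choose a ha e using key
  refine ⟨fun j => z j + a j, fun j => by simpa using ha j, fun Φ hΦ => ?_⟩
  have e2 : (Ideal.Quotient.mkₐ k 𝔟).comp (MvPolynomial.aeval fun j => z j + a j) = F := by
    refine MvPolynomial.algHom_ext fun j => ?_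
    rw [AlgHom.comp_apply, MvPolynomial.aeval_X, Ideal.Quotient.mkₐ_eq_mk, map_add, e]
    ring
  refine Ideal.Quotient.eq_zero_iff_mem.1 ?_
  have e3 := AlgHom.congr_fun e2 Φ
  rw [AlgHom.comp_apply, Ideal.Quotient.mkₐ_eq_mk] at e3
  rw [e3, hF, Ideal.Quotient.eq_zero_iff_mem.2 hΦ, map_zero, map_zero]

end

end Pool.Agent.Lib.MP_41050a_ag
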