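import Pool.Agent.Lib.MP_41050a_ag.Nf0

/-! Descent and the generic point. -/

namespace Pool.Agent.Lib.MP_41050a_ag

open Polynomial

set_option linter.unusedSectionVars false

noncomputable section

variable {k : Type} [Field k] [IsAlgClosed k] [CharZero k] {N : ℕ} {I : Ideal (Pk k N)}
  {x' : V k N} {j₀ : Fin (N + 1)}

theorem nf_lin {L : Type} [CommRing L] [Algebra k L] (ℓ : L →ₗ[k] k) (A : Mt L N) (x : V k N)
    (i : Fin (N + 1)) : ℓ (A.mulVec (cs L x) i) = (A.map ℓ).mulVec x i := by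
  simp only [Matrix.mulVec, dotProduct, cs, map_sum, Matrix.map_apply]
  refine Finset.sum_congr rfl fun a _ => ?_
  rw [mul_comm, ← Algebra.smul_def, map_smul, smul_eq_mul, mul_comm]

/-- A coordinate that cannot be moved over `k` cannot be moved over an algebra. -/
theorem Base.fixed (hV : Cone I) {L : Type} [CommRing L] [Algebra k L] {g : Mt L N}
    (hg : NN I g) {j : Fin (N + 1)} (hj : ∀ A : Mt k N, SU A → Tan I A →
      (∀ i, j < i → A.mulVec x' i = 0) → A.mulVec x' j = 0)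
    (h : ∀ i, j < i → g.mulVec (cs L x') i = cs L x' i) : g.mulVec (cs L x') j = cs L x' j := by
  obtain ⟨S, hS, hT⟩ := hg.exists_log hV
  have h1 : ∀ i, (g - 1).mulVec (cs L x') i = g.mulVec (cs L x') i - cs L x' i := fun i => by
    rw [Matrix.sub_mulVec, Matrix.one_mulVec, Pi.sub_apply]
  have h2 : ∀ i, j ≤ i → ((1 + S) * (g - 1)).mulVec (cs L x') i =
      g.mulVec (cs L x') i - cs L x' i := fun i hi => by
    rw [← Matrix.mulVec_mulVec, Matrix.add_mulVec, Matrix.one_mulVec, Pi.add_apply,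
      hS.mulVec_apply fun c hc => by rw [h1, h c (hi.trans_lt hc), sub_self], add_zero, h1]
  have h3 : SU ((1 + S) * (g - 1)) := by
    rw [add_mul, one_mul]
    exact hg.su.add (hS.mul hg.su)
  rw [← sub_eq_zero, ← h2 j le_rfl]
  refine eq_zero_of_forms (k := k) fun ℓ => ?_
  rw [nf_lin]
  refine hj _ (h3.map (map_zero ℓ)) (hT.lin ℓ) fun i hi => ?_
  rw [← nf_lin, h2 i hi.le, h i hi, sub_self, map_zero]

theorem nf_retr {L L' : Type} [Field L] [Algebra k L] [Field L'] [Algebra k L'] (ι : L →ₐ[k] L') :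
    ∃ r : L' →ₗ[k] L, r 1 = 1 ∧ ∀ a b, r (a * ι b) = r a * b := by
  let := (ι : L →+* L').toAlgebra
  obtain ⟨r, hr⟩ := (Algebra.linearMap L L').exists_leftInverse_of_injective
    (LinearMap.ker_eq_bot.2 (ι : L →+* L').injective)
  have h1 : ∀ a b, r (a * ι b) = r a * b := fun a b => by
    rw [mul_comm, mul_comm (r a)]
    exact r.map_smul b a
  refine ⟨⟨⟨r, r.map_add⟩, fun c a => ?_⟩, ?_, h1⟩
  · change r (c • a) = c • r a
    rw [Algebra.smul_def, Algebra.smul_def, ← ι.commutes, mul_comm, h1, mul_comm]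
  · simpa using LinearMap.congr_fun hr 1

theorem nf_step (hV : Cone I) (hB : Base I x' j₀) {L L' : Type} [Field L] [Algebra k L]
    [Field L'] [Algebra k L'] (ι : L →ₐ[k] L') {w : V L N} {m : Mt L' N} {τ : Fin (N + 1) → L'ˣ}
    (hm : NN I m) (hτ : TT I τ) (e : ι ∘ w = m.mulVec (tw x' τ)) {j : Fin (N + 1)}
    (h : ∀ i, j < i → ι (w i) = tw x' τ i) :
    ∃ n : Mt L N, NN I n ∧ ∀ i, j ≤ i → ι (n.mulVec w i) = tw x' τ i := by
  by_cases hj : ∀ A : Mt k N, SU A → Tan I A → (∀ i, j < i → A.mulVec x' i = 0) →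
      A.mulVec x' j = 0
  · have h1 : ∀ i, (dg τ⁻¹ * m * dg τ⁻¹⁻¹).mulVec (cs L' x') i = ↑(τ i)⁻¹ * ι (w i) := fun i => by
      rw [← Matrix.mulVec_mulVec, ← Matrix.mulVec_mulVec, ← tw_one, dg_tw, inv_inv, mul_one, ← e,
        dg_mulVec]
      rfl
    have h2 := Base.fixed hV (hm.conj hV hτ.inv) hj fun i hi => by
      rw [h1, h i hi, tw, Units.inv_mul_cancel_left, cs]
    refine ⟨1, nn_one, fun i hi => ?_⟩
    rw [Matrix.one_mulVec]
    rcases hi.eq_or_lt with rfl | hi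
    · rw [h1, Units.inv_mul_eq_iff_eq_mul] at h2
      exact h2
    · exact h i hi
  push Not at hj
  obtain ⟨A, hA, hT, h0, h1⟩ := hj
  have hx : x' j = 0 := by_contra fun hx => h1 (hB.nf j hx A hA hT h0)
  obtain ⟨r, hr1, hr⟩ := nf_retr ι
  have hA1 : SU (dg τ * A.map (Algebra.linearMap k L') * dg τ⁻¹) := (hA.map (map_zero _)).conj _ _
  have hT1 : Tan I (dg τ * A.map (Algebra.linearMap k L') * dg τ⁻¹) :=
    (hT.lin _).conj hV hτ.pres hτ.inv.pres (by rw [← dg_mul, mul_inv_cancel, dg_one])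
  have h2 : ∀ i, j ≤ i → (dg τ * A.map (Algebra.linearMap k L') * dg τ⁻¹).mulVec (ι ∘ w) i =
      τ i * algebraMap k L' (A.mulVec x' i) := fun i hi => by
    have h3 := hA1.mulVec_apply (w := ι ∘ w - tw x' τ) (a := i) fun c hc =>
      sub_eq_zero.2 (h c (hi.trans_lt hc))
    rw [Matrix.mulVec_sub, Pi.sub_apply, sub_eq_zero] at h3
    rw [h3, ← Matrix.mulVec_mulVec, ← Matrix.mulVec_mulVec, dg_tw, inv_mul_cancel, tw_one,
      dg_mulVec]
    exact congrArg (_ * ·) (congrFun (map_mulVec (Algebra.ofId k L') A x') i).symm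
  generalize dg τ * A.map (Algebra.linearMap k L') * dg τ⁻¹ = B at hA1 hT1 h2
  have hc : ↑(τ j) * algebraMap k L' (A.mulVec x' j) ≠ 0 :=
    mul_ne_zero (τ j).ne_zero ((_root_.map_ne_zero _).2 h1)
  set c := ↑(τ j) * algebraMap k L' (A.mulVec x' j) with hc'
  have h4 : ∀ i, (-w j • (c⁻¹ • B).map r).mulVec w i = -w j * r (c⁻¹ * B.mulVec (ι ∘ w) i) := by
    intro i
    rw [Matrix.smul_mulVec, Pi.smul_apply, smul_eq_mul, ← smul_eq_mul c⁻¹, ← Pi.smul_apply,
      ← Matrix.smul_mulVec]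
    simp only [Matrix.mulVec, dotProduct, map_sum, Matrix.map_apply, Function.comp_apply, hr]
  obtain ⟨n, hn, h5, h6⟩ := exists_step hV (((hA1.smul c⁻¹).map (map_zero r)).smul (-w j))
    (((hT1.smul c⁻¹).lin r).smul (-w j)) (z := w) (j := j) fun i hi => by
      rw [h4, h2 i hi.le, h0 i hi]
      simp
  refine ⟨n, hn, fun i hi => ?_⟩
  rcases hi.eq_or_lt with rfl | hi
  · rw [h6, h4, h2 j le_rfl, ← hc', inv_mul_cancel₀ hc, hr1, tw, hx]
    simp
  · rw [h5 i hi, h i hi]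

/-- Descent of the unipotent part to the field of definition of the point. -/
theorem Base.descend (hV : Cone I) (hB : Base I x' j₀) {L L' : Type} [Field L] [Algebra k L]
    [Field L'] [Algebra k L'] (ι : L →ₐ[k] L') {z : V L N} {m : Mt L' N} {τ : Fin (N + 1) → L'ˣ}
    (hm : NN I m) (hτ : TT I τ) (e : ι ∘ z = m.mulVec (tw x' τ)) :
    ∃ n : Mt L N, NN I n ∧ ι ∘ n.mulVec z = tw x' τ := by
  have key : ∀ t : ℕ, ∃ n : Mt L N, NN I n ∧ ∀ i : Fin (N + 1), N < i + t →
      ι (n.mulVec z i) = tw x' τ i := by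
    intro t
    induction t with
    | zero => exact ⟨1, nn_one, fun i hi => absurd hi (by omega)⟩
    | succ t ih =>
      obtain ⟨n, hn, h⟩ := ih
      obtain ⟨n', hn', h'⟩ := nf_step hV hB ι ((hn.map ι).mul hV hm) hτ (w := n.mulVec z)
        (by rw [map_mulVec, e, Matrix.mulVec_mulVec]) (j := ⟨N - t, by omega⟩)
        fun i hi => h i (by rw [Fin.lt_def] at hi; simp only at hi; omega)
      refine ⟨n' * n, hn'.mul hV hn, fun i hi => ?_⟩
      rw [← Matrix.mulVec_mulVec]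
      exact h' i (by rw [Fin.le_def]; simp only; omega)
  obtain ⟨n, hn, h⟩ := key (N + 1)
  exact ⟨n, hn, funext fun i => h i (by omega)⟩

/-- A generic point of the cone in the orbit. -/
theorem Base.generic (hV : Cone I) (hB : Base I x' j₀) :
    ∃ (L : Type) (_ : Field L) (_ : Algebra k L) (m : Mt L N) (τ : Fin (N + 1) → Lˣ),
      NN I m ∧ TT I τ ∧ ∀ G : Pk k N, MvPolynomial.aeval (m.mulVec (tw x' τ)) G = 0 → G ∈ I := by
  let Y := {p : Mt k N × (Fin (N + 1) → kˣ) // NN I p.1 ∧ TT I p.2}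
  let n : Mt (Y → k) N := fun a b p => p.1.1 a b
  let τ : Fin (N + 1) → (Y → k)ˣ := fun i => MulEquiv.piUnits.symm fun p => p.1.2 i
  have h1 : ∀ p : Y, n.map (Pi.evalAlgHom k (fun _ => k) p) = p.1.1 := fun p => rfl
  have h2 : ∀ p : Y, um (Pi.evalAlgHom k (fun _ => k) p) τ = p.1.2 := fun p =>
    funext fun i => Units.ext rfl
  have hn : NN I n := nn_pi fun p => h1 p ▸ p.2.1
  have hτ : TT I τ := fun c hc => by
    simp only [τ, ← map_zpow, ← map_prod]
    rw [map_eq_one_iff _ (MulEquiv.injective _)]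
    funext p
    simpa using p.2.2 c hc
  have := hV.prime
  obtain ⟨q, hq, -, h3⟩ := Ideal.exists_le_prime_disjoint (⊥ : Ideal (Y → k))
    (I.primeCompl.map (MvPolynomial.aeval (n.mulVec (tw x' τ)) : Pk k N →ₐ[k] (Y → k))) (by
      rw [Set.disjoint_right]
      rintro _ ⟨G, hG, rfl⟩ h
      refine hG (hB.dense G fun m θ hm hθ => ?_)
      have h4 := map_aev (Pi.evalAlgHom k (fun _ => k) (⟨(m, θ), hm, hθ⟩ : Y))
        (n.mulVec (tw x' τ)) G
      rw [map_mulVec, map_tw, h1, h2, Ideal.mem_bot.1 h, map_zero] at h4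
      exact h4.symm)
  let φ : (Y → k) →ₐ[k] FractionRing ((Y → k) ⧸ q) :=
    (IsScalarTower.toAlgHom k _ _).comp (Ideal.Quotient.mkₐ k q)
  refine ⟨FractionRing ((Y → k) ⧸ q), inferInstance, inferInstance, n.map φ, um φ τ, hn.map φ,
    hτ.map φ, fun G hG => by_contra fun h => ?_⟩
  rw [← map_tw, ← map_mulVec, ← map_aev] at hG
  exact Set.disjoint_right.1 h3 ⟨G, h, rfl⟩ (Ideal.Quotient.eq_zero_iff_mem.1
    ((IsFractionRing.to_map_eq_zero_iff (K := FractionRing ((Y → k) ⧸ q))).1 hG))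

end

end Pool.Agent.Lib.MP_41050a_ag
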