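import Pool.Agent.Lib.MP_41050a_ag.Tor0

/-! The diagonal group preserves the cone; extension of characters. -/

namespace Pool.Agent.Lib.MP_41050a_ag

open Polynomial

set_option linter.unusedSectionVars false

noncomputable section

variable {k : Type} [Field k] {N : ℕ} {I : Ideal (Pk k N)} {R S : Type} [CommRing R] [Algebra k R]
  [CommRing S] [Algebra k S] {θ θ' η : Fin (N + 1) → Rˣ} {x' : V k N} {z : V R N} {g : Mt R N}

theorem tor_zpow {G ι : Type} [CommGroup G] [Fintype ι] (u : ι → G) (d d' : ι → ℕ) :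
    ∏ i, u i ^ ((d i : ℤ) - d' i) = 1 ↔ ∏ i, u i ^ d i = ∏ i, u i ^ d' i := by
  simp only [zpow_sub, zpow_natCast, Finset.prod_mul_distrib, Finset.prod_inv_distrib,
    mul_inv_eq_one]

/-- The diagonal matrices over `k` that preserve the cone. -/
def tor_G (I : Ideal (Pk k N)) : Submonoid (Fin (N + 1) → kˣ) where
  carrier := {τ | Tor I τ}
  one_mem' x hx := by simpa using hx
  mul_mem' {a b} ha hb x hx := by simpa [mul_assoc] using ha _ (hb x hx)

/-- The character of a monomial. -/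
def tor_chi (I : Ideal (Pk k N)) (d : Fin (N + 1) →₀ ℕ) : tor_G I →* k where
  toFun τ := ∏ i, (τ.1 i : k) ^ d i
  map_one' := by simp
  map_mul' a b := by simp [mul_pow, Finset.prod_mul_distrib]

theorem tor_chi_eq (h : TT I θ) {d d' : Fin (N + 1) →₀ ℕ} (e : tor_chi I d = tor_chi I d') :
    ∏ i, (θ i : R) ^ d i = ∏ i, (θ i : R) ^ d' i := by
  have h1 := (tor_zpow θ d d').1 (h _ fun τ hτ => (tor_zpow τ d d').2 (Units.ext (by
    simpa [tor_chi] using DFunLike.congr_fun e ⟨τ, hτ⟩)))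
  simpa using congrArg Units.val h1

theorem tor_su {A : Mt R N} (hA : SU A) (θ θ' : Fin (N + 1) → Rˣ) : SU (dg θ * A * dg θ') := by
  intro a b hab
  simp [dg, hA a b hab]

theorem tor_ext {ι M : Type} [Fintype ι] [AddCommGroup M]
    (hM : ∀ {r : ℕ}, r ≠ 0 → Function.Surjective fun a : M => r • a) (L : AddSubgroup (ι → ℤ))
    (p : ι → Prop) (η : ι → M) (h : ∀ c ∈ L, (∀ i, p i → c i = 0) → ∑ i, c i • η i = 0) :
    ∃ θ : ι → M, (∀ c ∈ L, ∑ i, c i • θ i = 0) ∧ ∀ i, ¬ p i → θ i = η i := by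
  classical
  let := divisibleByOfSMulRightSurj M ℕ hM
  let := AddGroup.divisibleByIntOfDivisibleByNat M
  let W : AddSubgroup (ι → ℤ) :=
    { carrier := {c | ∀ i, p i → c i = 0}
      zero_mem' := fun _ _ => rfl
      add_mem' := fun ha hb i hi => by rw [Pi.add_apply, ha i hi, hb i hi, add_zero]
      neg_mem' := fun ha i hi => by rw [Pi.neg_apply, ha i hi, neg_zero] }
  let φ := (QuotientAddGroup.mk' L).comp W.subtype
  let g : W →+ M := (Fintype.linearCombination ℤ η).toAddMonoidHom.comp W.subtype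
  have hle : φ.ker ≤ g.ker := fun c hc =>
    h c.1 ((QuotientAddGroup.eq_zero_iff _).1 hc) c.2
  obtain ⟨f, hf⟩ := (Module.Baer.of_divisible M).extension_property_addMonoidHom
    (QuotientAddGroup.kerLift φ) (QuotientAddGroup.kerLift_injective φ)
    (QuotientAddGroup.lift φ.ker g hle)
  refine ⟨fun i => f (QuotientAddGroup.mk' L (Pi.single i 1)), fun c hc => ?_, fun i hi => ?_⟩
  · have e : ∑ i, c i • (Pi.single i 1 : ι → ℤ) = c := by
      funext j
      simp [Finset.sum_apply, Pi.single_apply]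
    simp only [← map_zsmul, ← map_sum, e]
    rw [show QuotientAddGroup.mk' L c = 0 from (QuotientAddGroup.eq_zero_iff _).2 hc, map_zero]
  · have hw : (Pi.single i 1 : ι → ℤ) ∈ W := fun j hj =>
      Pi.single_eq_of_ne (fun e : j = i => hi (e ▸ hj)) _
    refine (DFunLike.congr_fun hf ((⟨_, hw⟩ : W) : W ⧸ φ.ker)).trans ?_
    change Fintype.linearCombination ℤ η (Pi.single i 1) = η i
    simp

/-- Independence of characters. -/
theorem TT.pres (h : TT I θ) : Pres I (dg θ) := by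
  classical
  intro x hx Φ hΦ
  obtain ⟨t, ht⟩ : ∃ t : (tor_G I →* k) → R, ∀ d, t (tor_chi I d) = ∏ i, (θ i : R) ^ d i := by
    refine ⟨fun ψ => if e : ∃ d, tor_chi I d = ψ then ∏ i, (θ i : R) ^ e.choose i else 0,
      fun d => ?_⟩
    have e : ∃ d', tor_chi I d' = tor_chi I d := ⟨d, rfl⟩
    simp only [dif_pos e]
    exact tor_chi_eq h e.choose_spec
  have h1 := linearIndependent_iff.1 (linearIndependent_monoidHom (tor_G I) k)
    (∑ d ∈ Φ.support, Finsupp.single (tor_chi I d) (Φ.coeff d * ∏ i, x i ^ d i)) (by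
      funext τ
      have h2 := τ.2 x hx Φ hΦ
      rw [MvPolynomial.aeval_def, MvPolynomial.eval₂_eq'] at h2
      simp only [map_sum, Finsupp.linearCombination_single, Finset.sum_apply, Pi.smul_apply,
        smul_eq_mul, Pi.zero_apply]
      refine Eq.trans (Finset.sum_congr rfl fun d _ => ?_) h2
      simp only [tor_chi, MonoidHom.coe_mk, OneHom.coe_mk, mul_pow, Finset.prod_mul_distrib,
        Algebra.algebraMap_self, RingHom.id_apply]
      ring)
  have h3 := congrArg (Finsupp.linearCombination k t) h1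
  simp only [map_sum, Finsupp.linearCombination_single, ht, map_zero] at h3
  rw [dg_mulVec, MvPolynomial.aeval_def, MvPolynomial.eval₂_eq']
  refine Eq.trans (Finset.sum_congr rfl fun d _ => ?_) h3
  simp only [cs, Algebra.smul_def, map_mul, map_prod, map_pow, mul_pow, Finset.prod_mul_distrib]
  ring

theorem TT.tor {τ : Fin (N + 1) → kˣ} (h : TT I τ) : Tor I τ := by
  intro x hx
  have h1 := h.pres x hx
  rwa [dg_mulVec, cs_self] at h1

theorem NN.conj [IsAlgClosed k] (hV : Cone I) (hg : NN I g) (h : TT I θ) :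
    NN I (dg θ * g * dg θ⁻¹) := by
  refine ⟨?_, (h.pres.mul hV hg.pres).mul hV h.inv.pres⟩
  have h1 := tor_su hg.su θ θ⁻¹
  rwa [mul_sub, sub_mul, mul_one, ← dg_mul, mul_inv_cancel, dg_one] at h1

theorem SU.conj {A : Mt R N} (hA : SU A) (θ θ' : Fin (N + 1) → Rˣ) : SU (dg θ * A * dg θ') := by
  exact tor_su hA θ θ'

/-- Divisible groups are injective. -/
theorem exists_tt {H : Subgroup Rˣ} (hH : Rt H) (h : RelS I x' η) (hη : ∀ i, η i ∈ H) :
    ∃ θ, TT I θ ∧ (∀ i, θ i ∈ H) ∧ ∀ i, x' i ≠ 0 → θ i = η i := by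
  let L : AddSubgroup (Fin (N + 1) → ℤ) :=
    { carrier := {c | Rel I c}
      zero_mem' := fun τ _ => by simp
      add_mem' := fun ha hb τ hτ => by
        simp only [Pi.add_apply, zpow_add, Finset.prod_mul_distrib, ha τ hτ, hb τ hτ, mul_one]
      neg_mem' := fun ha τ hτ => by
        simp only [Pi.neg_apply, zpow_neg, Finset.prod_inv_distrib, ha τ hτ, inv_one] }
  have key : ∀ (u : Fin (N + 1) → Additive H) (c : Fin (N + 1) → ℤ),
      ∑ i, c i • u i = 0 ↔ ∏ i, ((u i).toMul : Rˣ) ^ c i = 1 := by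
    intro u c
    rw [← Additive.toMul.injective.eq_iff, Subtype.ext_iff]
    simp [toMul_sum]
  obtain ⟨θ, h1, h2⟩ := tor_ext (M := Additive H) (fun {r} hr u => by
      obtain ⟨ρ, k1, k2⟩ := hH _ u.toMul.2 r (Nat.pos_of_ne_zero hr)
      exact ⟨Additive.ofMul ⟨ρ, k1⟩, Additive.toMul.injective (Subtype.ext k2)⟩)
    L (fun i => x' i = 0) (fun i => Additive.ofMul ⟨η i, hη i⟩)
    fun c hc hc' => (key _ c).2 (h c hc hc')
  exact ⟨fun i => (θ i).toMul, fun c hc => (key θ c).1 (h1 c hc), fun i => (θ i).toMul.2,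
    fun i hi => by simp only [h2 i hi]; rfl⟩

theorem Orb.map (h : Orb I x' z) (φ : R →ₐ[k] S) : Orb I x' (φ ∘ z) := by
  obtain ⟨n, η, h1, h2, rfl⟩ := h
  exact ⟨n.map φ, um φ η, h1.map φ, h2.map φ, by rw [map_mulVec, map_tw]⟩

theorem Orb.smul [CharZero k] (hV : Cone I) (h : Orb I x' z) {u : R} (hu : IsUnit u) :
    Orb I x' (u • z) := by
  obtain ⟨n, η, h1, h2, rfl⟩ := h
  obtain ⟨u, rfl⟩ := hu
  refine ⟨n, (fun _ => u) * η, h1, (tt_scalar hV u).relS.mul h2, ?_⟩
  rw [← Matrix.mulVec_smul]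
  congr 1
  funext i
  simp [tw, mul_assoc]

theorem rt_field (Λ : Type) [Field Λ] [IsAlgClosed Λ] : Rt (⊤ : Subgroup Λˣ) := by
  intro u _ r hr
  obtain ⟨z, hz⟩ := IsAlgClosed.exists_pow_nat_eq (u : Λ) hr
  have h1 : IsUnit z := (isUnit_pow_iff hr.ne').1 (hz ▸ u.isUnit)
  exact ⟨h1.unit, Subgroup.mem_top _, Units.ext (by simpa using hz)⟩

theorem rt_dual (Λ : Type) [Field Λ] [IsAlgClosed Λ] [CharZero Λ] :
    Rt (⊤ : Subgroup (DualNumber Λ)ˣ) := by
  intro u _ r hr
  obtain ⟨z, hz⟩ := IsAlgClosed.exists_pow_nat_eq (u : DualNumber Λ).fst hr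
  have h0 : IsUnit z :=
    (isUnit_pow_iff hr.ne').1 (hz ▸ TrivSqZeroExt.isUnit_iff_isUnit_fst.1 u.isUnit)
  have h2 : (r : Λ) * z ^ r.pred ≠ 0 :=
    mul_ne_zero (Nat.cast_ne_zero.2 hr.ne') (pow_ne_zero _ h0.ne_zero)
  obtain ⟨y, hy⟩ : ∃ y : DualNumber Λ, y ^ r = u := by
    refine ⟨TrivSqZeroExt.inl z +
      TrivSqZeroExt.inr (((r : Λ) * z ^ r.pred)⁻¹ * (u : DualNumber Λ).snd), ?_⟩
    refine TrivSqZeroExt.ext ?_ ?_
    · simpa using hz
    · rw [TrivSqZeroExt.snd_pow]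
      simp only [TrivSqZeroExt.fst_add, TrivSqZeroExt.fst_inl, TrivSqZeroExt.fst_inr, add_zero,
        TrivSqZeroExt.snd_add, TrivSqZeroExt.snd_inl, TrivSqZeroExt.snd_inr, zero_add,
        smul_eq_mul, nsmul_eq_mul]
      rw [← mul_assoc, mul_inv_cancel_left₀ h2]
  have h1 : IsUnit y := (isUnit_pow_iff hr.ne').1 (hy ▸ u.isUnit)
  exact ⟨h1.unit, Subgroup.mem_top _, Units.ext (by simpa using hy)⟩

end

end Pool.Agent.Lib.MP_41050a_ag
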