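import Pool.Agent.Lib.MP_41050a_ag.Exp
import Pool.Agent.Lib.MP_41050a_ag.Tor

/-! A base point in normal form. -/

namespace Pool.Agent.Lib.MP_41050a_ag

open Polynomial

set_option linter.unusedSectionVars false

noncomputable section

variable {k : Type} [Field k] [IsAlgClosed k] [CharZero k] {N : ℕ} {I : Ideal (Pk k N)}

/-- A base point of the dense orbit in normal form: the coordinates that can be moved by the
unipotent group are zero. -/
structure Base (I : Ideal (Pk k N)) (x' : V k N) (j₀ : Fin (N + 1)) : Prop where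
  on : On I x'
  one : x' j₀ = 1
  top : ∀ i, j₀ < i → x' i = 0
  nf : ∀ j, x' j ≠ 0 → ∀ A : Mt k N, SU A → Tan I A → (∀ i, j < i → A.mulVec x' i = 0) →
    A.mulVec x' j = 0
  dense : ∀ G : Pk k N, (∀ (n : Mt k N) (τ : Fin (N + 1) → kˣ), NN I n → TT I τ →
    MvPolynomial.aeval (n.mulVec (tw x' τ)) G = 0) → G ∈ I

variable {x' : V k N} {j₀ : Fin (N + 1)}

/-- One coordinate is moved, the later ones are fixed. -/
theorem exists_step (hV : Cone I) {R : Type} [CommRing R] [Algebra k R] {A : Mt R N}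
    (hA : SU A) (hT : Tan I A) {z : V R N} {j : Fin (N + 1)}
    (h : ∀ i, j < i → A.mulVec z i = 0) : ∃ n, NN I n ∧ (∀ i, j < i → n.mulVec z i = z i) ∧
      n.mulVec z j = z j + A.mulVec z j := by
  obtain ⟨g, S, hg, hS, e⟩ := exists_exp hV hA hT
  have h1 : g.mulVec z = z + (A.mulVec z + S.mulVec (A.mulVec z)) := by
    rw [show g = 1 + (1 + S) * A by rw [← e]; abel, Matrix.add_mulVec, Matrix.one_mulVec,
      ← Matrix.mulVec_mulVec, Matrix.add_mulVec, Matrix.one_mulVec]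
  refine ⟨g, hg, fun i hi => ?_, ?_⟩
  · rw [h1, Pi.add_apply, Pi.add_apply, h i hi, hS.mulVec_apply fun c hc => h c (hi.trans hc),
      add_zero, add_zero]
  · rw [h1, Pi.add_apply, Pi.add_apply, hS.mulVec_apply h, add_zero]

theorem nf0_ind (hV : Cone I) (x₀ : V k N) (m : ℕ) : ∃ n : Mt k N, NN I n ∧
    ∀ j : Fin (N + 1), N + 1 ≤ j + m → n.mulVec x₀ j ≠ 0 → ∀ A : Mt k N, SU A → Tan I A →
      (∀ i, j < i → A.mulVec (n.mulVec x₀) i = 0) → A.mulVec (n.mulVec x₀) j = 0 := by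
  induction m with
  | zero => exact ⟨1, nn_one, fun j hj => absurd j.2 (by omega)⟩
  | succ m ih =>
    obtain ⟨n, hn, ih⟩ := ih
    by_contra hc
    push Not at hc
    obtain ⟨j, hj, h0, A, hA, hT, h1, h2⟩ := hc n hn
    have hjm : ¬N + 1 ≤ j + m := fun k => h2 (ih j k h0 A hA hT h1)
    obtain ⟨n', hn', e1, e2⟩ := exists_step hV
      (hA.smul (-(n.mulVec x₀ j / A.mulVec (n.mulVec x₀) j))) (hT.smul _) (z := n.mulVec x₀) (j := j)
      fun i hi => by rw [Matrix.smul_mulVec, Pi.smul_apply, h1 i hi, smul_zero]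
    rw [Matrix.smul_mulVec, Pi.smul_apply, smul_eq_mul, neg_mul, div_mul_cancel₀ _ h2,
      add_neg_cancel] at e2
    obtain ⟨j', hj', k0, B, hB, hT', k1, k2⟩ := hc (n' * n) (hn'.mul hV hn)
    rw [← Matrix.mulVec_mulVec] at k0 k1 k2
    have hlt : j < j' := by
      rcases lt_trichotomy j j' with l | l | l
      · exact l
      · exact absurd (l ▸ e2) k0
      · exact absurd (Fin.lt_def.1 l) (by omega)
    have k3 : ∀ i, j' ≤ i → B.mulVec (n'.mulVec (n.mulVec x₀)) i = B.mulVec (n.mulVec x₀) i :=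
      fun i hi => by
        rw [← sub_eq_zero, ← Pi.sub_apply, ← Matrix.mulVec_sub]
        exact hB.mulVec_apply fun c hc => sub_eq_zero.2 (e1 c (hlt.trans (hi.trans_lt hc)))
    refine k2 ((k3 j' le_rfl).trans (ih j' (by have := Fin.lt_def.1 hlt; omega)
      (e1 j' hlt ▸ k0) B hB hT' fun i hi => (k3 i hi.le).symm.trans (k1 i hi)))

theorem exists_base (hV : Cone I) {x₀ : V k N} (h : DenseOrbit I x₀) :
    ∃ x' j₀, Base I x' j₀ := by
  classical
  obtain ⟨n, hn, hz⟩ := nf0_ind hV x₀ (N + 1)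
  obtain ⟨n', hn', -, e⟩ := hn.inv hV
  have hx : n'.mulVec (n.mulVec x₀) = x₀ := by rw [Matrix.mulVec_mulVec, e, Matrix.one_mulVec]
  set z := n.mulVec x₀ with hzdef
  have hz0 : (Finset.univ.filter fun i => z i ≠ 0).Nonempty := by
    by_contra k
    have : z = 0 := funext fun i => by
      by_contra k'
      exact k ⟨i, Finset.mem_filter.2 ⟨Finset.mem_univ _, k'⟩⟩
    exact h.ne (by rw [← hx, this, Matrix.mulVec_zero])
  set j₀ := (Finset.univ.filter fun i => z i ≠ 0).max' hz0 with hj₀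
  have h1 : z j₀ ≠ 0 := (Finset.mem_filter.1 (Finset.max'_mem _ hz0)).2
  have h2 : ∀ i, j₀ < i → z i = 0 := fun i hi => by
    by_contra k
    exact not_le.2 hi (Finset.le_max' _ i (Finset.mem_filter.2 ⟨Finset.mem_univ _, k⟩))
  refine ⟨(z j₀)⁻¹ • z, j₀, (hn.pres.on hV h.on).smul hV _, inv_mul_cancel₀ h1,
    fun i hi => by rw [Pi.smul_apply, h2 i hi, smul_zero], fun j hj A hA hT hi => ?_,
    fun G hG => h.dense G fun g τ hg hτ => ?_⟩
  · rw [Matrix.mulVec_smul, Pi.smul_apply, hz j (by omega) (right_ne_zero_of_mul hj) A hA hT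
      fun i k => ?_, smul_zero]
    have := hi i k
    rw [Matrix.mulVec_smul, Pi.smul_apply, smul_eq_mul] at this
    exact (mul_eq_zero.1 this).resolve_left (inv_ne_zero h1)
  · have h3 := hG _ _ ((nn_iff.2 hg).mul hV (hn'.conj hV (tt_of_tor hτ)))
      ((tt_of_tor hτ).mul (tt_scalar hV (Units.mk0 _ h1)))
    have h4 : tw ((z j₀)⁻¹ • z) (fun _ => Units.mk0 _ h1) = z := funext fun i => by
      simp [tw, h1]
    rwa [← dg_tw, h4, ← Matrix.mulVec_mulVec, Matrix.mulVec_mulVec z, Matrix.mul_assoc, ← dg_mul,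
      inv_mul_cancel, dg_one, Matrix.mul_one, ← Matrix.mulVec_mulVec, hx, dg_mulVec] at h3

theorem Base.X_notMem (hB : Base I x' j₀) : MvPolynomial.X j₀ ∉ I := by
  intro h
  have := hB.on _ h
  rw [MvPolynomial.aeval_X, hB.one] at this
  exact one_ne_zero this

end

end Pool.Agent.Lib.MP_41050a_ag
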