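import Pool.Agent.Lib.MP_41050a_ag.HyMain

open Pool.Agent.Lib.MP_41050a_ag

/-- Movable bend and break for all smooth hypersurfaces of degree `d` in projective `N`-space with
`4 d ≤ N + 2`, in characteristic zero or larger than `d`. The constant depends only on `N`. -/
theorem Pool.Agent.Lib.MP_41050a_ag.oldHypersurfaceBreak (N : ℕ) :
    ∃ c : ℕ, ∀ d : ℕ, 2 ≤ d → 4 * d ≤ N + 2 → ∀ (k : Type) [Field k] [IsAlgClosed k],
      ((d.factorial : ℕ) : k) ≠ 0 → ∀ f : Pk k N, f.IsHomogeneous d →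
      (∀ x : Fin (N + 1) → k, MvPolynomial.aeval x f = 0 →
        (∀ i, MvPolynomial.aeval x (MvPolynomial.pderiv i f) = 0) → x = 0) →
      ∀ e, c ≤ e → ∀ P ∈ (eqs (Ideal.span {f}) e).minimalPrimes,
        Breaks (Ideal.span {f}) e P := by
  have h : ∀ d : ℕ, ∃ c : ℕ, 2 ≤ d → 4 * d ≤ N + 2 → ∀ (k : Type) [Field k] [IsAlgClosed k],
      ((d.factorial : ℕ) : k) ≠ 0 → ∀ f : Pk k N, f.IsHomogeneous d →
      (∀ x : Fin (N + 1) → k, MvPolynomial.aeval x f = 0 →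
        (∀ i, MvPolynomial.aeval x (MvPolynomial.pderiv i f) = 0) → x = 0) →
      ∀ e, c ≤ e → ∀ P ∈ (eqs (Ideal.span {f}) e).minimalPrimes,
        Breaks (Ideal.span {f}) e P := fun d => by
    by_cases h1 : 2 ≤ d ∧ 4 * d ≤ N + 2
    · obtain ⟨c, hc⟩ := hy_main N d h1.1 h1.2
      exact ⟨c, fun _ _ => hc⟩
    · exact ⟨0, fun h2 h3 => absurd ⟨h2, h3⟩ h1⟩
  choose c hc using h
  refine ⟨(Finset.range (N + 3)).sup c, fun d h1 h2 k _ _ h3 f h4 h5 e he => ?_⟩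
  exact hc d h1 h2 k h3 f h4 h5 e
    ((Finset.le_sup (f := c) (Finset.mem_range.2 (by omega))).trans he)
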