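import Pool.Agent.Lib.MP_41050a_ag.Par0

/-! Laurent series and sums of polar parts. -/

namespace Pool.Agent.Lib.MP_41050a_ag

open Polynomial

set_option linter.unusedSectionVars false

noncomputable section

variable {k : Type} [Field k] {R S : Type} [CommRing R] [Algebra k R] [CommRing S] [Algebra k S]

/-- Laurent series. -/
abbrev La (R : Type) [CommRing R] : Type := Localization.Away (PowerSeries.X : PowerSeries R)

variable (k) in
/-- Power series as Laurent series. -/
def ps (R : Type) [CommRing R] [Algebra k R] : PowerSeries R →ₐ[k] La R :=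
  IsScalarTower.toAlgHom k (PowerSeries R) (La R)

theorem ps_apply (f : PowerSeries R) : ps k R f = algebraMap (PowerSeries R) (La R) f := rfl

theorem ps_inj : Function.Injective (ps k R) := by
  refine IsLocalization.injective (La R) (M := Submonoid.powers PowerSeries.X) ?_
  rw [Submonoid.powers_le, mem_nonZeroDivisors_iff_left]
  exact fun x hx => PowerSeries.X_mul_cancel (by rw [hx, mul_zero])

theorem isUnit_ps_X : IsUnit (ps k R PowerSeries.X) := by
  exact IsLocalization.Away.algebraMap_isUnit _

theorem exists_lm (φ : R →ₐ[k] S) :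
    ∃ Φ : La R →ₐ[k] La S, ∀ f, Φ (ps k R f) = ps k S (pm φ f) := by
  have hu : IsUnit (((ps k S).comp (pm φ)) PowerSeries.X) := by
    rw [AlgHom.comp_apply, pm_apply, PowerSeries.map_X]
    exact isUnit_ps_X
  exact ⟨IsLocalization.Away.liftAlgHom PowerSeries.X hu, fun f =>
    IsLocalization.Away.lift_eq PowerSeries.X hu f⟩

theorem la_ext {E : Type} [CommRing E] [Algebra k E] {f g : La R →ₐ[k] E}
    (h : ∀ x, f (ps k R x) = g (ps k R x)) : f = g := by
  exact AlgHom.coe_ringHom_injective (IsLocalization.ringHom_ext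
    (Submonoid.powers (PowerSeries.X : PowerSeries R)) (RingHom.ext h))

theorem par_ne (a : k) {g : k[X]} (hg : g ≠ 0) :
    aeval (PowerSeries.C a + PowerSeries.X : PowerSeries k) g ≠ 0 := by
  have e : aeval (PowerSeries.C a + PowerSeries.X : PowerSeries k) g =
      ((taylor a g : k[X]) : PowerSeries k) := by
    have := aeval_algHom_apply (coeToPowerSeries.algHom (R := k) k) (X + C a) g
    rw [coeToPowerSeries.algHom_apply, coeToPowerSeries.algHom_apply] at this
    simpa [add_comm, taylor_apply, comp_eq_aeval] using this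
  rw [e]
  exact fun h => hg ((taylor_eq_zero a g).1 (Polynomial.coe_eq_zero_iff.1 h))

/-- Expansion of rational functions at a point. -/
theorem exists_ex (a : k) : ∃ ex : RatFunc k →ₐ[k] La k, ∀ g : k[X],
    ex (algebraMap k[X] (RatFunc k) g) = ps k k (aeval (PowerSeries.C a + PowerSeries.X) g) := by
  have hu : ∀ y : nonZeroDivisors k[X],
      IsUnit (((ps k k).comp (aeval (PowerSeries.C a + PowerSeries.X))) y) := by
    intro y
    have h0 := par_ne a (nonZeroDivisors.ne_zero y.2)
    rw [AlgHom.comp_apply, ← PowerSeries.X_pow_order_mul_divXPowOrder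
      (f := aeval (PowerSeries.C a + PowerSeries.X) (y : k[X])), map_mul, map_pow]
    exact (isUnit_ps_X.pow _).mul ((PowerSeries.isUnit_divided_by_X_pow_order h0).map _)
  exact ⟨IsLocalization.liftAlgHom hu, fun g => IsLocalization.lift_eq hu g⟩

/-- Constants as Laurent series. -/
def lc (k R : Type) [Field k] [CommRing R] [Algebra k R] : R →ₐ[k] La R :=
  (ps k R).comp (IsScalarTower.toAlgHom k R (PowerSeries R))

theorem lc_apply (r : R) : lc k R r = ps k R (PowerSeries.C r) := rfl

theorem exists_principal {w : La R} (hw : w * ps k R PowerSeries.X = 1) (f : La R) :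
    ∃ (P : R[X]) (o : PowerSeries R), f = w * P.eval₂ (lc k R : R →+* La R) w + ps k R o := by
  obtain ⟨n, g, hg⟩ := IsLocalization.Away.surj (PowerSeries.X : PowerSeries R) f
  have e : f = w ^ n * ps k R g := by
    rw [ps_apply, ← hg, mul_left_comm, ← mul_pow, ← ps_apply (k := k), hw, one_pow, mul_one]
  rw [e]
  clear e hg
  induction n generalizing g with
  | zero => exact ⟨0, g, by simp⟩
  | succ n ih =>
    obtain ⟨P, o, h⟩ := ih (PowerSeries.mk fun p => PowerSeries.coeff (p + 1) g)
    refine ⟨P + C (PowerSeries.constantCoeff g) * X ^ n, o, ?_⟩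
    conv_lhs => rw [PowerSeries.eq_shift_mul_X_add_const g]
    rw [eval₂_add, eval₂_mul, eval₂_C, eval₂_X_pow, map_add, map_mul, RingHom.coe_coe, lc_apply]
    linear_combination h + w ^ n * ps k R (PowerSeries.mk fun p => PowerSeries.coeff (p + 1) g) * hw

theorem par_rev {w : La R} (hw : w * ps k R PowerSeries.X = 1) (P : R[X]) :
    ps k R PowerSeries.X ^ P.natDegree * P.eval₂ (lc k R : R →+* La R) w =
      ps k R (∑ i ∈ Finset.range (P.natDegree + 1),
        PowerSeries.C (P.coeff i) * PowerSeries.X ^ (P.natDegree - i)) := by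
  rw [eval₂_eq_sum_range, Finset.mul_sum, map_sum]
  refine Finset.sum_congr rfl fun i hi => ?_
  obtain ⟨c, hc⟩ := Nat.exists_eq_add_of_le (Nat.lt_succ_iff.1 (Finset.mem_range.1 hi))
  rw [hc, Nat.add_sub_cancel_left, map_mul, map_pow, RingHom.coe_coe, lc_apply, pow_add]
  have : w ^ i * ps k R PowerSeries.X ^ i = 1 := by rw [← mul_pow, hw, one_pow]
  linear_combination ps k R (PowerSeries.C (P.coeff i)) * ps k R PowerSeries.X ^ c * this

theorem principal_deg {w : La R} (hw : w * ps k R PowerSeries.X = 1) {P : R[X]}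
    {o o' : PowerSeries R} {e : ℕ} (h : ps k R PowerSeries.X ^ e *
      (w * P.eval₂ (lc k R : R →+* La R) w + ps k R o) = ps k R o') : P.degree < e := by
  by_contra hd
  have h0 : P ≠ 0 := by
    rintro rfl
    exact hd (by simp)
  rw [degree_eq_natDegree h0, Nat.cast_lt, not_lt] at hd
  obtain ⟨c, hc⟩ := Nat.exists_eq_add_of_le hd
  have e1 := par_rev hw P
  have e2 : (∑ i ∈ Finset.range (P.natDegree + 1),
      PowerSeries.C (P.coeff i) * PowerSeries.X ^ (P.natDegree - i)) +
      PowerSeries.X ^ (P.natDegree + 1) * o = PowerSeries.X ^ (c + 1) * o' := by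
    apply ps_inj (k := k)
    rw [map_add, ← e1, map_mul, map_mul, map_pow, map_pow, ← h, hc]
    linear_combination (-(ps k R PowerSeries.X ^ (e + c) * P.eval₂ (lc k R : R →+* La R) w)) * hw
  have e3 := congrArg PowerSeries.constantCoeff e2
  rw [Finset.sum_range_succ, map_add, map_add, map_sum, Finset.sum_eq_zero (fun i hi => by
    have : P.natDegree - i ≠ 0 := by have := Finset.mem_range.1 hi; omega
    simp [this])] at e3
  exact h0 (by simpa using e3)

/-- Decomposition into polar parts. -/
theorem span_zeta {C σ : Type} [CommRing C] [Algebra R C] [Fintype σ] (ζ : σ → C)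
    (h : ∀ p p', p ≠ p' → ∃ a b : R, ζ p * ζ p' = a • ζ p + b • ζ p') {g : C}
    (hg : g ∈ Algebra.adjoin R (Set.range ζ)) :
    ∃ (c : R) (P : σ → R[X]), g = algebraMap R C c + ∑ p, ζ p * aeval (ζ p) (P p) := by
  classical
  let M : Submodule R C := Submodule.span R (insert 1 (Set.range fun x : σ × ℕ => ζ x.1 ^ (x.2 + 1)))
  have m1 : (1 : C) ∈ M := Submodule.subset_span (Set.mem_insert _ _)
  have m2 : ∀ p j, ζ p ^ (j + 1) ∈ M := fun p j =>
    Submodule.subset_span (Set.mem_insert_of_mem _ ⟨(p, j), rfl⟩)
  have m3 : ∀ p p' j, ζ p * ζ p' ^ j ∈ M := by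
    intro p p' j
    by_cases e : p = p'
    · rw [e, ← pow_succ']; exact m2 _ _
    obtain ⟨a, b, hab⟩ := h p p' e
    induction j with
    | zero => simpa using m2 p 0
    | succ j ih =>
      rw [pow_succ', ← mul_assoc, hab, add_mul, smul_mul_assoc, smul_mul_assoc, ← pow_succ']
      exact M.add_mem (M.smul_mem _ ih) (M.smul_mem _ (m2 _ _))
  have m4 : ∀ x ∈ M, g * x ∈ M := by
    induction hg using Algebra.adjoin_induction with
    | mem y hy =>
      obtain ⟨p, rfl⟩ := hy
      intro x hx
      induction hx using Submodule.span_induction with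
      | mem x hx =>
        rcases hx with rfl | ⟨q, rfl⟩
        · simpa using m2 p 0
        · exact m3 _ _ _
      | zero => simp
      | add x y _ _ hx hy => rw [mul_add]; exact M.add_mem hx hy
      | smul a x _ hx => rw [mul_smul_comm]; exact M.smul_mem _ hx
    | algebraMap r => exact fun x hx => by rw [← Algebra.smul_def]; exact M.smul_mem _ hx
    | add y z _ _ hy hz => exact fun x hx => by rw [add_mul]; exact M.add_mem (hy x hx) (hz x hx)
    | mul y z _ _ hy hz => exact fun x hx => by rw [mul_assoc]; exact hy _ (hz x hx)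
  have m5 := m4 1 m1
  rw [mul_one] at m5
  clear m4 hg
  induction m5 using Submodule.span_induction with
  | mem x hx =>
    rcases hx with rfl | ⟨q, rfl⟩
    · exact ⟨1, 0, by simp⟩
    · refine ⟨0, Pi.single q.1 (X ^ q.2), ?_⟩
      rw [Finset.sum_eq_single q.1 (fun b _ hb => by simp [hb]) (by simp)]
      simp [pow_succ']
  | zero => exact ⟨0, 0, by simp⟩
  | add x y _ _ hx hy =>
    obtain ⟨c, P, rfl⟩ := hx
    obtain ⟨c', P', rfl⟩ := hy
    refine ⟨c + c', P + P', ?_⟩
    simp only [map_add, Pi.add_apply, mul_add, Finset.sum_add_distrib]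
    ring
  | smul a x _ hx =>
    obtain ⟨c, P, rfl⟩ := hx
    refine ⟨a * c, a • P, ?_⟩
    simp only [map_mul, Pi.smul_apply, map_smul, smul_add, Finset.smul_sum, mul_smul_comm]
    rw [Algebra.smul_def]

end

end Pool.Agent.Lib.MP_41050a_ag
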