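import Pool.Agent.Lib.MP_41050a_ag.Tor

/-! The ring of parameters; Laurent series. -/

namespace Pool.Agent.Lib.MP_41050a_ag

open Polynomial

set_option linter.unusedSectionVars false

noncomputable section

variable {k : Type} [Field k]

/-- A ring of parameters with a point at `s = 0` and a point at `s = 1`. -/
structure Par (k R : Type) [Field k] [CommRing R] [Algebra k R] where
  s : R
  ψ : R →ₐ[k] k
  s0 : R →ₐ[k] k
  ψ_s : ψ s = 1
  s0_s : s0 s = 0
  unit : ∀ a b : k, a ≠ 0 → a + b ≠ 0 → IsUnit (algebraMap k R a + algebraMap k R b * s)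
  rt : Rt (⊤ : Subgroup Rˣ)

theorem par0_root {A : Type} [CommRing A] (f : PowerSeries A) {a : A} {r : ℕ} (h0 : 0 < r)
    (ha : IsUnit a) (hr : IsUnit (r : A)) (h : a ^ r = PowerSeries.constantCoeff f) :
    ∃ ρ : PowerSeries A, ρ ^ r = f ∧ PowerSeries.constantCoeff ρ = a := by
  obtain ⟨ρ, h1, h2⟩ := HenselianRing.is_henselian
    (I := (Ideal.span {PowerSeries.X} : Ideal (PowerSeries A))) (X ^ r - C f)
    (monic_X_pow_sub_C f h0.ne') (PowerSeries.C a)
    (by simp [Ideal.mem_span_singleton, PowerSeries.X_dvd_iff, h])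
    (IsUnit.map _ (by
      rw [PowerSeries.isUnit_iff_constantCoeff]
      simpa [derivative_X_pow] using hr.mul (ha.pow _)))
  refine ⟨ρ, by simpa [sub_eq_zero] using h1, ?_⟩
  simpa [Ideal.mem_span_singleton, PowerSeries.X_dvd_iff, sub_eq_zero] using h2

theorem par0_point [IsAlgClosed k] {D R : Type} [CommRing D] [CommRing R] [Algebra k D]
    [Algebra D R] [Algebra k R] [IsScalarTower k D R] [Algebra.IsIntegral D R] (e : D →ₐ[k] k)
    (h : ∀ d, algebraMap D R d = 0 → e d = 0) : ∃ ψ : R →ₐ[k] k, ∀ d, ψ (algebraMap D R d) = e d := by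
  have hm : (RingHom.ker (e : D →+* k)).IsMaximal :=
    RingHom.ker_isMaximal_of_surjective _ fun a => ⟨algebraMap k D a, e.commutes a⟩
  obtain ⟨Q, hQ, hc⟩ := Ideal.exists_ideal_over_maximal_of_isIntegral (S := R) _ (P_max := hm) h
  have key : ∀ d, algebraMap k (R ⧸ Q) (e d) = Ideal.Quotient.mk Q (algebraMap D R d) := by
    intro d
    rw [← Ideal.Quotient.mk_algebraMap, Ideal.Quotient.eq, IsScalarTower.algebraMap_apply k D R,
      ← map_sub, ← Ideal.mem_comap, hc]
    simp [RingHom.mem_ker]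
  have : Algebra.IsIntegral k (R ⧸ Q) := ⟨fun x => by
    obtain ⟨x, rfl⟩ := Ideal.Quotient.mk_surjective x
    obtain ⟨p, hp, hx⟩ := Algebra.IsIntegral.isIntegral (R := D) x
    refine ⟨p.map (e : D →+* k), hp.map _, ?_⟩
    rw [eval₂_map, show (algebraMap k (R ⧸ Q)).comp (e : D →+* k) =
      (Ideal.Quotient.mk Q).comp (algebraMap D R) from RingHom.ext key, ← hom_eval₂, hx, map_zero]⟩
  let E := AlgEquiv.ofBijective (Algebra.ofId k (R ⧸ Q))
    (IsAlgClosed.algebraMap_bijective_of_isIntegral (k := k))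
  exact ⟨(E.symm : R ⧸ Q →ₐ[k] k).comp (Ideal.Quotient.mkₐ k Q), fun d =>
    E.symm_apply_eq.mpr (key d).symm⟩

/-- Polynomials that vanish neither at zero nor at one. -/
def par0_M (k : Type) [Field k] : Submonoid k[X] where
  carrier := {g | g.eval 0 ≠ 0 ∧ g.eval 1 ≠ 0}
  one_mem' := by simp
  mul_mem' := fun ha hb => by
    simpa only [Set.mem_ofPred_eq, eval_mul] using And.intro (mul_ne_zero ha.1 hb.1)
      (mul_ne_zero ha.2 hb.2)

theorem exists_par (k : Type) [Field k] [IsAlgClosed k] [CharZero k] :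
    ∃ (R : Type) (_ : CommRing R) (_ : Algebra k R) (T : Par k R) (inc : R →ₐ[k] PowerSeries k),
      Function.Injective inc ∧ inc T.s = PowerSeries.X ∧
      ∀ r, T.s0 r = PowerSeries.constantCoeff (inc r) := by
  have h0 : ∀ y : par0_M k, IsUnit (coeToPowerSeries.algHom k (y : k[X])) := fun y => by
    rw [PowerSeries.isUnit_iff_constantCoeff]
    simpa [coeff_zero_eq_eval_zero] using y.2.1
  have h1 : ∀ y : par0_M k, IsUnit (aeval (1 : k) (y : k[X])) := fun y => by simpa using y.2.2
  let φ : Localization (par0_M k) →ₐ[k] PowerSeries k := IsLocalization.liftAlgHom h0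
  let e : Localization (par0_M k) →ₐ[k] k := IsLocalization.liftAlgHom h1
  have hφ : ∀ g : k[X], φ (algebraMap _ _ g) = coeToPowerSeries.algHom k g := fun g =>
    IsLocalization.lift_eq h0 g
  have he : ∀ g : k[X], e (algebraMap _ _ g) = aeval (1 : k) g := fun g =>
    IsLocalization.lift_eq h1 g
  let : Algebra (Localization (par0_M k)) (PowerSeries k) := φ.toRingHom.toAlgebra
  have : IsScalarTower k (Localization (par0_M k)) (PowerSeries k) :=
    IsScalarTower.of_algebraMap_eq fun a => (φ.commutes a).symm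
  let R := integralClosure (Localization (par0_M k)) (PowerSeries k)
  let inc : R →ₐ[k] PowerSeries k := R.val.restrictScalars k
  obtain ⟨ψ, hψ⟩ := par0_point (R := R) e fun d hd => by
    obtain ⟨⟨g, y⟩, hg⟩ := IsLocalization.surj (par0_M k) d
    have h2 : φ d = 0 := congrArg Subtype.val hd
    have h3 := congrArg φ hg
    rw [map_mul, h2, zero_mul, hφ] at h3
    have h4 : g = 0 := by simpa using h3.symm
    have h5 := congrArg e hg
    rwa [map_mul, he, he, h4, map_zero, (h1 y).mul_left_eq_zero] at h5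
  have hs : inc (algebraMap (Localization (par0_M k)) R (algebraMap k[X] _ X)) = PowerSeries.X :=
    (hφ X).trans (by simp)
  let c0 : PowerSeries k →ₐ[k] k :=
    { PowerSeries.constantCoeff (R := k) with commutes' := fun a => by simp }
  refine ⟨R, inferInstance, inferInstance, ⟨algebraMap (Localization (par0_M k)) R
    (algebraMap k[X] _ X), ψ, c0.comp inc, by rw [hψ, he, aeval_X], ?_, fun a b ha hb => ?_,
    fun u _ r hr => ?_⟩, inc, Subtype.val_injective, hs, fun _ => rfl⟩
  · rw [AlgHom.comp_apply, hs]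
    exact PowerSeries.constantCoeff_X
  · have := (IsLocalization.map_units (Localization (par0_M k))
      (⟨C a + C b * X, by simpa using ha, by simpa using hb⟩ : par0_M k)).map
      (algebraMap (Localization (par0_M k)) R)
    simp only [map_add, map_mul] at this
    rwa [IsScalarTower.algebraMap_apply k (Localization (par0_M k)) R,
      IsScalarTower.algebraMap_apply k (Localization (par0_M k)) R b,
      IsScalarTower.algebraMap_apply k k[X] (Localization (par0_M k)),
      IsScalarTower.algebraMap_apply k k[X] (Localization (par0_M k)) b]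
  · obtain ⟨a, ha⟩ := IsAlgClosed.exists_pow_nat_eq (c0 (inc u)) hr
    obtain ⟨ρ, h2, -⟩ := par0_root (inc u) hr ((isUnit_pow_iff hr.ne').mp
      (ha ▸ (u.isUnit.map inc).map c0)) (Nat.cast_ne_zero.mpr hr.ne').isUnit ha
    have h3 : (⟨ρ, IsIntegral.of_pow hr (h2 ▸ (u : R).2)⟩ : R) ^ r = u := Subtype.ext h2
    have h4 := (isUnit_pow_iff hr.ne').mp (h3 ▸ u.isUnit)
    exact ⟨h4.unit, trivial, Units.ext h3⟩

variable {R S : Type} [CommRing R] [Algebra k R] [CommRing S] [Algebra k S]

/-- The map on power series. -/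
def pm (φ : R →ₐ[k] S) : PowerSeries R →ₐ[k] PowerSeries S := PowerSeries.mapAlgHom φ

theorem pm_apply (φ : R →ₐ[k] S) (f : PowerSeries R) :
    pm φ f = PowerSeries.map (φ : R →+* S) f := rfl

/-- Units of the power series ring that become one at `s = 1`. -/
def Par.H1 (T : Par k R) : Subgroup (PowerSeries R)ˣ :=
  (Units.map (pm T.ψ : PowerSeries R →* PowerSeries k)).ker

theorem Par.rt_H1 [CharZero k] (T : Par k R) : Rt T.H1 := by
  intro u hu r hr
  have h0 : pm T.ψ u = 1 := congrArg Units.val (MonoidHom.mem_ker.mp hu)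
  have hc : ∀ f : PowerSeries R, PowerSeries.constantCoeff (pm T.ψ f) =
      T.ψ (PowerSeries.constantCoeff f) := fun f => by
    rw [pm_apply, ← PowerSeries.coeff_zero_eq_constantCoeff_apply, PowerSeries.coeff_map]
    simp
  obtain ⟨a, -, ha⟩ := T.rt (u.isUnit.map PowerSeries.constantCoeff).unit trivial r hr
  have h1 : (a : R) ^ r = PowerSeries.constantCoeff (u : PowerSeries R) := congrArg Units.val ha
  have h2 : T.ψ a ^ r = 1 := by rw [← map_pow, h1, ← hc, h0, map_one]
  have h3 : T.ψ a ≠ 0 := (a.isUnit.map T.ψ).ne_zero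
  have h4 : (r : k) ≠ 0 := Nat.cast_ne_zero.mpr hr.ne'
  obtain ⟨ρ, h5, h6⟩ := par0_root (u : PowerSeries R) (a := a * algebraMap k R (T.ψ a)⁻¹) hr
    (a.isUnit.mul ((inv_ne_zero h3).isUnit.map _)) (by simpa using h4.isUnit.map (algebraMap k R))
    (by rw [mul_pow, h1, ← map_pow, inv_pow, h2, inv_one, map_one, mul_one])
  have h7 : PowerSeries.constantCoeff (pm T.ψ ρ) = 1 := by
    rw [hc, h6, map_mul, AlgHom.commutes]
    exact mul_inv_cancel₀ h3
  have h8 := geom_sum_mul (pm T.ψ ρ) r
  rw [← map_pow, h5, h0, sub_self, mul_eq_zero, sub_eq_zero] at h8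
  have h9 := (isUnit_pow_iff hr.ne').mp (h5 ▸ u.isUnit)
  refine ⟨h9.unit, MonoidHom.mem_ker.mpr (Units.ext (h8.resolve_left fun e => h4 ?_)),
    Units.ext h5⟩
  simpa [h7] using congrArg PowerSeries.constantCoeff e

end

end Pool.Agent.Lib.MP_41050a_ag
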