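import Pool.Agent.Lib.MP_41050a_ag.Sol0

/-! The global solution. -/

namespace Pool.Agent.Lib.MP_41050a_ag

open Polynomial

set_option linter.unusedSectionVars false

noncomputable section

variable {k R σ : Type} [Field k] [IsAlgClosed k] [CharZero k] [CommRing R] [Algebra k R]
  [Fintype σ] [DecidableEq σ] {N : ℕ} {I : Ideal (Pk k N)} {x' : V k N} {j₀ : Fin (N + 1)}
  {F : V k[X] N}

theorem sol_zs {G ι : Type} [CommGroup G] (u : G) (s : Finset ι) (f : ι → ℤ) :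
    ∏ p ∈ s, u ^ f p = u ^ ∑ p ∈ s, f p := by
  classical
  induction s using Finset.induction_on with
  | empty => simp
  | insert a s ha ih => rw [Finset.prod_insert ha, Finset.sum_insert ha, ih, zpow_add]

theorem sol_rel {E : Type} [CommRing E] {d : σ → Fin (N + 1) → ℤ}
    (h : ∀ p a, Rel I a → (∀ i, x' i = 0 → a i = 0) → ∑ i, a i * d p i = 0) (u : σ → Eˣ) :
    RelS I x' fun i => ∏ p, u p ^ d p i := fun a h1 h2 => by
  simp only [← Finset.prod_zpow, ← zpow_mul]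
  rw [Finset.prod_comm]
  refine Finset.prod_eq_one fun p _ => ?_
  simp only [sol_zs, mul_comm (d p _), h p a h1 h2, zpow_zero]

theorem sol_cu {E E' : Type} [CommRing E] [Algebra k E] [CommRing E'] [Algebra k E']
    (φ : E →ₐ[k] E') (a : kˣ) : Units.map (φ : E →* E') (cu a) = cu a :=
  Units.ext (φ.commutes a)

theorem sol_cc (a : k) (g : k[X]) :
    PowerSeries.constantCoeff (aeval (PowerSeries.C a + PowerSeries.X) g) = g.eval a := by
  induction g using Polynomial.induction_on' with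
  | add p q hp hq => simp only [map_add, hp, hq, eval_add]
  | monomial n c => simp

theorem sol_lin (a : k) : (lin a : RatFunc k) = algebraMap k[X] (RatFunc k) (X - C a) := by
  rw [map_sub, RatFunc.algebraMap_X, RatFunc.algebraMap_C]
  rfl

theorem exists_sol (hV : Cone I) (hB : Base I x' j₀) {e : ℕ} (hF : IsMap I e F)
    (𝒟 : Dat I x' j₀ F σ) (𝒞 : Cf k R σ) (hpt : 𝒞.pt = 𝒟.pt) {pA pB : σ} (hA : pA ∉ 𝒞.B)
    (hB' : pB ∈ 𝒞.B) (hd : ∀ i, ∑ p ∈ 𝒞.B, 𝒟.d p i = 0) : ∃ y : V 𝒞.GG N, Orb I x' y ∧ On I y ∧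
      (∃ c : k, c ≠ 0 ∧ y j₀ = algebraMap k _ c) ∧
      (∀ i, (∏ p, 𝒞.one.π p ^ 𝒟.ee p) * 𝒞.one.ev (y i) = am F i) ∧
      ∀ p₀, ∃ Γ : V (PowerSeries R) N,
        (∀ i, ps k R (Γ i) = (∏ p, (𝒞.loc p₀).π p ^ 𝒟.ee p) * (𝒞.loc p₀).ev (y i)) ∧
        ∃ i, 𝒞.T.s0 (PowerSeries.constantCoeff (Γ i)) ≠ 0 := by
  obtain ⟨pt, inj, ee, d, c, κ, n, F0, sum_d, rel_d, rel_κ, nn, eq⟩ := 𝒟
  dsimp only at hpt hd ⊢
  subst hpt
  obtain ⟨ε, hε⟩ := Cf.exists_eps hA hB'
  choose ρ ρ1 ρ2 using 𝒞.exists_rho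
  choose θ θ1 θ2 θ3 using fun p₀ => exists_tt 𝒞.T.rt_H1 (sol_rel rel_d (ρ p₀))
    fun i => Subgroup.prod_mem _ fun p _ => Subgroup.zpow_mem _ (ρ1 p₀ p) _
  choose ex hex using fun p => exists_ex (𝒞.pt p)
  obtain ⟨ic, hic⟩ := exists_lm (Algebra.ofId k R)
  obtain ⟨b, b1, b2, b3⟩ := exists_approx hV 𝒞 nn hex hic θ1 θ2
  let η : Fin (N + 1) → 𝒞.GGˣ := fun i => cu (κ i) * ∏ p, ε p ^ d p i
  have top : ∀ {E : Type} [CommRing E] [Algebra k E] {g : Mt E N} (w : Fin (N + 1) → Eˣ),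
      NN I g → g.mulVec (tw x' w) j₀ = w j₀ := fun w hg => by
    rw [hg.mulVec_apply fun i hi => by rw [tw, hB.top i hi, map_zero, mul_zero], tw, hB.one,
      map_one, mul_one]
  have aF : am F j₀ = algebraMap k _ (c : k) * ∏ p, (lin (𝒞.pt p) : RatFunc k) ^ ee p := by
    simp only [am, F0, map_mul, map_prod, map_pow, sol_lin, RatFunc.algebraMap_C]
    rfl
  obtain ⟨d0, κ0⟩ : (∀ p, d p j₀ = 0) ∧ κ j₀ = 1 := by
    have e := congrFun eq j₀
    rw [Pi.smul_apply, top _ (nn.map _), smul_eq_mul, left_eq_mul₀] at e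
    · exact lin_zpow_inj inj (Units.ext e)
    rw [aF]
    exact mul_ne_zero ((_root_.map_ne_zero _).2 c.ne_zero)
      (Finset.prod_ne_zero_iff.2 fun p _ => pow_ne_zero _ (Units.ne_zero _))
  let y : V 𝒞.GG N := algebraMap k 𝒞.GG c • b.mulVec (tw x' η)
  have hy : ∀ (E : Type) [CommRing E] [Algebra k E] (A : 𝒞.Adm E), A.ev ∘ y = algebraMap k E c •
      (b.map A.ev).mulVec (tw x' fun i => cu (κ i) * ∏ p, A.πu p ^ d p i) := fun E _ _ A => by
    have e : um A.ev η = fun i => cu (κ i) * ∏ p, A.πu p ^ d p i := by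
      funext i
      have h0 : ∑ p with p ∉ 𝒞.B, d p i = 0 := by
        have := Finset.sum_filter_add_sum_filter_not Finset.univ (· ∈ 𝒞.B) fun p => d p i
        rwa [sum_d, Finset.filter_mem_eq_inter, Finset.univ_inter, hd, zero_add] at this
      have h1 : ∏ p, A.πu (if p ∈ 𝒞.B then pB else pA) ^ d p i = 1 := by
        simp only [apply_ite A.πu, ite_pow]
        rw [Finset.prod_ite, sol_zs, sol_zs, h0, Finset.filter_mem_eq_inter, Finset.univ_inter, hd,
          zpow_zero, zpow_zero, one_mul]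
      simp only [um, η, map_mul, map_prod, map_zpow, sol_cu]
      rw [← mul_one (∏ p, _), ← h1, ← Finset.prod_mul_distrib]
      simp only [← mul_zpow, hε]
    rw [← e, ← map_tw, ← map_mulVec]
    funext i
    simp only [y, Function.comp, Pi.smul_apply, smul_eq_mul, map_mul, AlgHom.commutes]
  have loc : ∀ p₀, ∃ Γ : V (PowerSeries R) N, On I Γ ∧
      (∀ i, ps k R (Γ i) = (∏ p, (𝒞.loc p₀).π p ^ ee p) * (𝒞.loc p₀).ev (y i)) ∧
      ∃ i, 𝒞.T.s0 (PowerSeries.constantCoeff (Γ i)) ≠ 0 := fun p₀ => by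
    obtain ⟨a, a1, a2⟩ := b3 p₀
    let χ := ic.comp (ex p₀)
    let τ : k[X] →ₐ[k] PowerSeries R :=
      (pm (Algebra.ofId k R)).comp (aeval (PowerSeries.C (𝒞.pt p₀) + PowerSeries.X))
    have hχ : ∀ g, χ (algebraMap k[X] (RatFunc k) g) = ps k R (τ g) := fun g => by
      rw [AlgHom.comp_apply, hex, hic]
      rfl
    have hπ : ∀ p, (𝒞.loc p₀).πu p = Units.map (ps k R : PowerSeries R →* La R) (ρ p₀ p) *
        Units.map (χ : RatFunc k →* La R) (lin (𝒞.pt p)) := fun p => Units.ext (by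
      rw [Cf.Adm.πu_val, 𝒞.loc_π, ρ2, map_mul, Units.val_mul]
      refine congrArg₂ _ rfl (Eq.trans ?_ ((congrArg χ (sol_lin _)).trans (hχ _)).symm)
      congr 1
      simp only [τ, AlgHom.comp_apply, map_sub, map_add, aeval_X, aeval_C, AlgHom.commutes,
        pm_apply, PowerSeries.map_X, PowerSeries.map_C]
      rw [← add_sub_assoc, add_comm, PowerSeries.algebraMap_apply]
      rfl)
    let u := ∏ p, ρ p₀ p ^ ee p
    refine ⟨(u : PowerSeries R) • (a * dg (θ p₀)).mulVec (τ ∘ F),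
      ((a1.pres.mul hV (θ1 p₀).pres).on hV (hF.on.map τ)).smul hV _, fun i => ?_, ?_⟩
    · have e1 : (tw x' fun i => cu (κ i) * ∏ p, (𝒞.loc p₀).πu p ^ d p i) =
          (dg (um (ps k R) (θ p₀))).mulVec
            (χ ∘ tw x' fun i => cu (κ i) * ∏ p, lin (𝒞.pt p) ^ d p i) := by
        rw [map_tw, dg_tw]
        refine tw_congr fun i hi => ?_
        simp only [Pi.mul_apply, um, θ3 p₀ i hi, map_mul, map_prod, map_zpow, sol_cu, hπ, mul_zpow,
          Finset.prod_mul_distrib]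
        exact mul_left_comm _ _ _
      have e2 : ps k R ∘ τ ∘ F = χ (am F j₀) • (n.map (ic.comp ((ex p₀).comp (GK 𝒞.pt).val))).mulVec
          (χ ∘ tw x' fun i => cu (κ i) * ∏ p, lin (𝒞.pt p) ^ d p i) := by
        funext i
        have := congrArg χ (congrFun eq i)
        rw [Pi.smul_apply, smul_eq_mul, map_mul] at this
        exact ((hχ _).symm.trans this).trans
          (congrArg _ (congrFun (map_mulVec χ _ _) i))
      have e3 := congrFun (hy _ (𝒞.loc p₀)) i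
      have e4 : (dg (θ p₀)⁻¹).map (ps k R) * dg (um (ps k R) (θ p₀)) = 1 := by
        rw [← dg_map, ← Matrix.map_mul, ← dg_mul, inv_mul_cancel, dg_one,
          Matrix.map_one _ (map_zero _) (map_one _)]
      rw [e1, a2, Matrix.mulVec_mulVec, mul_assoc, e4, mul_one, ← Matrix.mulVec_mulVec] at e3
      have e5 := congrFun (map_mulVec (ps k R) (a * dg (θ p₀)) (τ ∘ F)) i
      rw [e2, Matrix.mulVec_smul, Function.comp_apply] at e5
      rw [Pi.smul_apply, smul_eq_mul, map_mul, e5, Function.comp_apply.symm.trans e3]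
      simp only [← Cf.Adm.πu_val, hπ, aF, u, Pi.smul_apply, smul_eq_mul, map_mul, map_prod, map_pow,
        Units.val_mul, mul_pow, Finset.prod_mul_distrib, Units.coe_prod, Units.val_pow_eq_pow_val,
        Units.coe_map, MonoidHom.coe_coe, AlgHom.commutes]
      ring
    · by_contra! hn
      obtain ⟨a', -, -, a3⟩ := a1.inv hV
      obtain ⟨i, hi⟩ := hF.bpf (some (𝒞.pt p₀))
      have e : τ ∘ F = (dg (θ p₀)⁻¹ * a').mulVec (((u⁻¹ : (PowerSeries R)ˣ) : PowerSeries R) •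
          (u : PowerSeries R) • (a * dg (θ p₀)).mulVec (τ ∘ F)) := by
        rw [smul_smul, Units.inv_mul, one_smul, Matrix.mulVec_mulVec, mul_assoc, ← mul_assoc a', a3,
          one_mul, ← dg_mul, inv_mul_cancel, dg_one, Matrix.one_mulVec]
      have e' := congrArg (fun f => 𝒞.T.s0 (PowerSeries.constantCoeff f)) (congrFun e i)
      generalize (u : PowerSeries R) • (a * dg (θ p₀)).mulVec (τ ∘ F) = Γ at hn e'
      simp only [Matrix.mulVec, dotProduct, map_sum, map_mul, Pi.smul_apply, smul_eq_mul, hn,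
        mul_zero, Finset.sum_const_zero] at e'
      refine hi (Eq.trans ?_ e')
      exact (sol_cc _ _).symm.trans (𝒞.T.s0.commutes _).symm
  choose Γ Γ1 Γ2 using loc
  refine ⟨y, Orb.smul hV ⟨b, η, b1, (rel_κ.map (Algebra.ofId k _)).mul (sol_rel rel_d ε), rfl⟩
    (c.isUnit.map _), fun Φ hΦ => ?_, ⟨c, c.ne_zero, ?_⟩, fun i => ?_, fun p => ⟨Γ p, Γ2 p⟩⟩
  · have : Nonempty σ := ⟨pA⟩
    refine 𝒞.gg_inj fun p => ?_
    rw [map_aev]
    have := ((Γ1 p).map (ps k R)).smul hV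
      (((∏ q, (𝒞.loc p).πu q ^ ee q)⁻¹ : (La R)ˣ) : La R) Φ hΦ
    refine Eq.trans (congrArg (fun z => MvPolynomial.aeval z Φ) (funext fun i => ?_)) this
    rw [Pi.smul_apply, smul_eq_mul, Function.comp, Function.comp, (Γ2 p).1,
      Units.eq_inv_mul_iff_mul_eq]
    simp only [Units.coe_prod, Units.val_pow_eq_pow_val, Cf.Adm.πu_val]
  · simp only [y, Pi.smul_apply, top _ b1, η, d0, κ0, cu, map_one, zpow_zero, Finset.prod_const_one,
      mul_one, Units.val_one, smul_eq_mul]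
  · have e := congrFun (hy _ 𝒞.one) i
    rw [b2, Function.comp_apply] at e
    rw [e, congrFun eq i, aF]
    simp only [← Cf.Adm.πu_val, Cf.one_πu, Pi.smul_apply, smul_eq_mul]
    ring

end

end Pool.Agent.Lib.MP_41050a_ag
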