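import Pool.Agent.Lib.MP_41050a_ag.GG
import Pool.Agent.Lib.MP_41050a_ag.Dat
import Pool.Agent.Lib.MP_41050a_ag.Fact

/-! The solution of the approximation problem on the degenerating line. -/

namespace Pool.Agent.Lib.MP_41050a_ag

open Polynomial

set_option linter.unusedSectionVars false

noncomputable section

variable {k R σ : Type} [Field k] [IsAlgClosed k] [CharZero k] [CommRing R] [Algebra k R]
  [Fintype σ] [DecidableEq σ] {N : ℕ} {I : Ideal (Pk k N)} {x' : V k N} {j₀ : Fin (N + 1)}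
  {F : V k[X] N}

theorem sol0_lin (a : k) : (lin a : RatFunc k) = RatFunc.X - algebraMap k _ a := rfl

theorem sol0_lin_am (a : k) :
    (lin a : RatFunc k) = algebraMap k[X] (RatFunc k) (X - C a) := by
  rw [sol0_lin, map_sub, RatFunc.algebraMap_X, ← Polynomial.algebraMap_eq,
    ← IsScalarTower.algebraMap_apply]

theorem sol0_ex_lin {a : k} {ex : RatFunc k →ₐ[k] La k} (hex : ∀ g : k[X],
    ex (algebraMap k[X] (RatFunc k) g) =
      ps k k (aeval (PowerSeries.C a + PowerSeries.X) g)) (b : k) :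
    ex (lin b : RatFunc k) = ps k k (PowerSeries.X + algebraMap k _ (a - b)) := by
  have h : algebraMap k (PowerSeries k) a = PowerSeries.C a := rfl
  rw [sol0_lin_am, hex, map_sub, aeval_X, aeval_C, map_sub (algebraMap k (PowerSeries k)), h]
  congr 1
  ring

theorem sol0_mm {A B E : Type} [CommRing A] [Algebra k A] [CommRing B] [Algebra k B]
    [CommRing E] [Algebra k E] (φ : A →ₐ[k] B) (χ : B →ₐ[k] E) (g : Mt A N) :
    (g.map φ).map χ = g.map (χ.comp φ) := rfl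

theorem sol0_m1 {A B : Type} [CommRing A] [Algebra k A] [CommRing B] [Algebra k B]
    (φ : A →ₐ[k] B) : (1 : Mt A N).map φ = 1 :=
  Matrix.map_one _ (map_zero φ) (map_one φ)

theorem sol0_of {A B : Type} [CommRing A] [Algebra k A] [CommRing B] [Algebra k B]
    (φ : A →ₐ[k] B) (c : Mt k N) :
    (c.map (Algebra.ofId k A)).map φ = c.map (Algebra.ofId k B) := by
  ext i j
  exact φ.commutes (c i j)

namespace Cf

variable (𝒞 : Cf k R σ)

/-- The fibre at `s = 1`. -/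
def one : 𝒞.Adm (RatFunc k) where
  κ := (Algebra.ofId k (RatFunc k)).comp 𝒞.T.ψ
  t := RatFunc.X
  u := RatFunc.X - algebraMap k _ 𝒞.q
  v := 1
  eq := by
    rw [AlgHom.comp_apply, 𝒞.T.ψ_s, map_one, mul_one, one_mul]
  unit := by
    intro p
    have h := (lin (𝒞.pt p)).isUnit
    rw [sol0_lin] at h
    split_ifs
    · have e : RatFunc.X - algebraMap k (RatFunc k) 𝒞.q -
          algebraMap k (RatFunc k) (𝒞.pt p - 𝒞.q) * 1 =
          RatFunc.X - algebraMap k (RatFunc k) (𝒞.pt p) := by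
        rw [map_sub]
        ring
      rw [e]
      exact h
    · exact h

theorem sol0_π (p : σ) : 𝒞.one.π p = (lin (𝒞.pt p) : RatFunc k) := by
  rw [sol0_lin]
  unfold Adm.π
  split_ifs
  · change RatFunc.X - algebraMap k (RatFunc k) 𝒞.q -
      algebraMap k (RatFunc k) (𝒞.pt p - 𝒞.q) * 1 = _
    rw [map_sub]
    ring
  · rfl

theorem one_πu (p : σ) : 𝒞.one.πu p = lin (𝒞.pt p) := by
  exact Units.ext (𝒞.sol0_π p)

theorem one_ν (p : σ) : 𝒞.one.ν p = 1 := by
  unfold Adm.ν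
  split_ifs <;> rfl

theorem sol0_zeta (p : σ) :
    𝒞.one.ev (𝒞.zeta p) = (((lin (𝒞.pt p))⁻¹ : (RatFunc k)ˣ) : RatFunc k) := by
  have h := 𝒞.one.ev_zeta p
  rw [sol0_π, one_ν] at h
  exact (Units.inv_eq_of_mul_eq_one_left h).symm

theorem one_ev_mem (g : 𝒞.GG) : 𝒞.one.ev g ∈ GK 𝒞.pt := by
  obtain ⟨c, P, rfl⟩ := exists_rep g
  rw [Adm.ev_rep]
  have hκ : ∀ r, 𝒞.one.κ r ∈ GK 𝒞.pt := fun r => (GK 𝒞.pt).algebraMap_mem (𝒞.T.ψ r)
  have hζ : ∀ p, 𝒞.one.ev (𝒞.zeta p) ∈ GK 𝒞.pt := fun p => by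
    rw [sol0_zeta]
    exact Algebra.subset_adjoin ⟨p, rfl⟩
  refine add_mem (hκ c) (sum_mem fun p _ => mul_mem (hζ p) ?_)
  rw [eval₂_eq_sum_range]
  exact sum_mem fun j _ => mul_mem (hκ _) (pow_mem (hζ p) j)

/-- Expansion at a section commutes with putting `s = 1`. -/
theorem ex_one (p₀ : σ) {ex : RatFunc k →ₐ[k] La k} (hex : ∀ g : k[X],
    ex (algebraMap k[X] (RatFunc k) g) =
      ps k k (aeval (PowerSeries.C (𝒞.pt p₀) + PowerSeries.X) g)) {Ψ : La R →ₐ[k] La k}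
    (hΨ : ∀ f, Ψ (ps k R f) = ps k k (pm 𝒞.T.ψ f)) (g : 𝒞.GG) :
    ex (𝒞.one.ev g) = Ψ ((𝒞.loc p₀).ev g) := by
  have hC : ∀ r : R, pm 𝒞.T.ψ (PowerSeries.C r) = algebraMap k (PowerSeries k) (𝒞.T.ψ r) :=
    fun r => by
      rw [pm_apply, PowerSeries.map_C]
      rfl
  have hX : pm 𝒞.T.ψ (PowerSeries.X : PowerSeries R) = PowerSeries.X := by
    rw [pm_apply, PowerSeries.map_X]
  have key : ex.comp 𝒞.one.ev = Ψ.comp (𝒞.loc p₀).ev := by
    refine gg_ext (fun r => ?_) fun p => ?_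
    · rw [AlgHom.comp_apply, AlgHom.comp_apply, Adm.ev_am, Adm.ev_am, loc_κ, lc_apply, hΨ, hC,
        AlgHom.commutes]
      exact ex.commutes (𝒞.T.ψ r)
    · rw [AlgHom.comp_apply, AlgHom.comp_apply]
      have h1 := congrArg ex (𝒞.one.ev_zeta p)
      rw [map_mul, one_ν, map_one, sol0_π] at h1
      have h2 := congrArg Ψ ((𝒞.loc p₀).ev_zeta p)
      obtain ⟨ρ, hρ, e⟩ := 𝒞.exists_rho p₀ p
      have hρ' : pm 𝒞.T.ψ (ρ : PowerSeries R) = 1 := congrArg Units.val (MonoidHom.mem_ker.1 hρ)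
      have hν : pm 𝒞.T.ψ (𝒞.lν p₀ p) = 1 := by
        unfold lν lv
        split_ifs
        · exact map_one _
        · rw [hC, 𝒞.T.ψ_s, map_one]
        · exact map_one _
      rw [map_mul, loc_π, loc_ν, hΨ, hΨ, hν, map_one, e, map_mul, hρ', one_mul, map_add, hX,
        AlgHom.commutes, ← sol0_ex_lin hex] at h2
      exact left_inv_eq_right_inv h1 ((mul_comm _ _).trans h2)
  exact DFunLike.congr_fun key g

end Cf

/-- A function without poles is constant. -/
theorem const_of_reg {pt : σ → k} (hpt : Function.Injective pt) {ex : σ → RatFunc k →ₐ[k] La k}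
    (hex : ∀ p (g : k[X]), ex p (algebraMap k[X] (RatFunc k) g) =
      ps k k (aeval (PowerSeries.C (pt p) + PowerSeries.X) g)) {m : RatFunc k} (hm : m ∈ GK pt)
    (h : ∀ p, ∃ o, ex p m = ps k k o) : ∃ c : k, m = algebraMap k (RatFunc k) c := by
  let ζ : σ → RatFunc k := fun p => (((lin (pt p))⁻¹ : (RatFunc k)ˣ) : RatFunc k)
  have hζ : ∀ p, ζ p * (RatFunc.X - algebraMap k _ (pt p)) = 1 := fun p => (lin (pt p)).inv_mul
  have hrel : ∀ p p', p ≠ p' → ∃ a b : k, ζ p * ζ p' = a • ζ p + b • ζ p' := by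
    intro p p' hne
    have hd : pt p - pt p' ≠ 0 := sub_ne_zero.2 fun e => hne (hpt e)
    refine ⟨(pt p - pt p')⁻¹, -(pt p - pt p')⁻¹, ?_⟩
    have h3 : algebraMap k (RatFunc k) (pt p - pt p')⁻¹ *
        (algebraMap k (RatFunc k) (pt p) - algebraMap k (RatFunc k) (pt p')) = 1 := by
      rw [← map_sub, ← map_mul, inv_mul_cancel₀ hd, map_one]
    rw [Algebra.smul_def, Algebra.smul_def, map_neg]
    linear_combination (-(ζ p * ζ p')) * h3 -
      (algebraMap k (RatFunc k) (pt p - pt p')⁻¹ * ζ p') * hζ p +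
      (algebraMap k (RatFunc k) (pt p - pt p')⁻¹ * ζ p) * hζ p'
  obtain ⟨c, P, hc⟩ := span_zeta ζ hrel hm
  have hP : ∀ p, P p = 0 := by
    intro p₀
    have hw : ∀ p, ex p₀ (ζ p) *
        ps k k (PowerSeries.X + algebraMap k _ (pt p₀ - pt p)) = 1 := fun p => by
      rw [← sol0_ex_lin (hex p₀), ← map_mul]
      exact (congrArg (ex p₀) (lin (pt p)).inv_mul).trans (map_one _)
    have hw0 := hw p₀
    rw [sub_self, map_zero, add_zero] at hw0
    have hr : ∀ p, p ≠ p₀ → ex p₀ (ζ p) ∈ (ps k k).range := by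
      intro p hne
      have hd : pt p₀ - pt p ≠ 0 := sub_ne_zero.2 fun e => hne (hpt e).symm
      have hu : IsUnit (PowerSeries.X + algebraMap k (PowerSeries k) (pt p₀ - pt p)) := by
        rw [PowerSeries.isUnit_iff_constantCoeff, map_add, PowerSeries.constantCoeff_X, zero_add]
        exact Ne.isUnit hd
      obtain ⟨y, hy⟩ := hu.exists_right_inv
      refine ⟨y, (left_inv_eq_right_inv (hw p) ?_).symm⟩
      exact (map_mul (ps k k) _ y).symm.trans ((congrArg (ps k k) hy).trans (map_one _))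
    have hs : algebraMap k (La k) c + ∑ p ∈ Finset.univ.erase p₀,
        ex p₀ (ζ p * aeval (ζ p) (P p)) ∈ (ps k k).range := by
      refine add_mem (Subalgebra.algebraMap_mem _ c) (sum_mem fun p hp => ?_)
      have h4 := hr p (Finset.ne_of_mem_erase hp)
      rw [map_mul, ← aeval_algHom_apply, aeval_eq_sum_range]
      exact mul_mem h4 (sum_mem fun j _ => Subalgebra.smul_mem _ (pow_mem h4 j) _)
    obtain ⟨o, ho⟩ := hs
    obtain ⟨o', ho'⟩ := h p₀
    have hl : (lc k k : k →+* La k) = algebraMap k (La k) :=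
      RingHom.ext fun a => (lc k k).commutes a
    have h5 : (P p₀).degree < (0 : ℕ) := by
      refine principal_deg (o := o) (o' := o') hw0 ?_
      have ho2 : ps k k o = _ := ho
      rw [pow_zero, one_mul, ho2, ← ho', hc, map_add, map_sum, AlgHom.commutes,
        ← Finset.add_sum_erase _ _ (Finset.mem_univ p₀), hl, ← aeval_def, aeval_algHom_apply,
        ← map_mul]
      ring
    exact degree_eq_bot.1 (Nat.WithBot.lt_zero_iff.1 h5)
  refine ⟨c, ?_⟩
  rw [hc]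
  simp only [hP, map_zero, mul_zero, Finset.sum_const_zero, add_zero]

theorem exists_approx (hV : Cone I) (𝒞 : Cf k R σ) {n : Mt (GK 𝒞.pt) N} (hn : NN I n)
    {ex : σ → RatFunc k →ₐ[k] La k} (hex : ∀ p (g : k[X]), ex p (algebraMap k[X] (RatFunc k) g) =
      ps k k (aeval (PowerSeries.C (𝒞.pt p) + PowerSeries.X) g)) {ic : La k →ₐ[k] La R}
    (hic : ∀ f, ic (ps k k f) = ps k R (pm (Algebra.ofId k R) f))
    {θ : σ → Fin (N + 1) → (PowerSeries R)ˣ} (hθ : ∀ p, TT I (θ p)) (h1 : ∀ p i, θ p i ∈ 𝒞.T.H1) :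
    ∃ b : Mt 𝒞.GG N, NN I b ∧ b.map 𝒞.one.ev = n.map (GK 𝒞.pt).val ∧ ∀ p,
      ∃ a : Mt (PowerSeries R) N, NN I a ∧ b.map (𝒞.loc p).ev = (a * dg (θ p)).map (ps k R) *
        n.map (ic.comp ((ex p).comp (GK 𝒞.pt).val)) * (dg (θ p)⁻¹).map (ps k R) := by
  let nh : σ → Mt (La R) N := fun p => n.map (ic.comp ((ex p).comp (GK 𝒞.pt).val))
  let g : Mt (σ → La R) N := Matrix.of fun i j p =>
    (dg (um (ps k R) (θ p)) * nh p * dg (um (ps k R) (θ p))⁻¹) i j
  have hg : NN I g := nn_pi fun p => (hn.map _).conj hV ((hθ p).map (ps k R))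
  obtain ⟨a, b, ha, hb, hab⟩ := fact hV
    (AlgHom.pi fun p => (ps k R).comp (Pi.evalAlgHom k (fun _ : σ => PowerSeries R) p))
    (AlgHom.pi fun p => (𝒞.loc p).ev)
    (fun f => by
      obtain ⟨o, y, e⟩ := 𝒞.gg_sum f
      exact ⟨o, y, funext e⟩) hg
  let ap : σ → Mt (PowerSeries R) N := fun p =>
    a.map (Pi.evalAlgHom k (fun _ : σ => PowerSeries R) p)
  have hp : ∀ p, b.map (𝒞.loc p).ev = (ap p).map (ps k R) *
      (dg (um (ps k R) (θ p)) * nh p * dg (um (ps k R) (θ p))⁻¹) := fun p => by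
    have e := congrArg (fun M : Mt (σ → La R) N =>
      M.map (Pi.evalAlgHom k (fun _ : σ => La R) p)) hab
    simp only [Matrix.map_mul] at e
    exact e
  have hinv : ∀ p, (um (ps k R) (θ p))⁻¹ = um (ps k R) (θ p)⁻¹ := fun p =>
    funext fun i => (map_inv (Units.map (ps k R : PowerSeries R →* La R)) (θ p i)).symm
  obtain ⟨n', hn', e1, e2⟩ := hn.inv hV
  obtain ⟨Ψ, hΨ⟩ := exists_lm (k := k) 𝒞.T.ψ
  have hΨic : Ψ.comp ic = AlgHom.id k (La k) := la_ext fun f => by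
    rw [AlgHom.comp_apply, hic, hΨ, AlgHom.id_apply]
    congr 1
    ext j
    rw [pm_apply, pm_apply, PowerSeries.coeff_map, PowerSeries.coeff_map]
    exact 𝒞.T.ψ.commutes _
  have hθ1 : ∀ p, um Ψ (um (ps k R) (θ p)) = 1 := fun p => funext fun i => Units.ext (by
    have e : pm 𝒞.T.ψ (θ p i : PowerSeries R) = 1 :=
      congrArg Units.val (MonoidHom.mem_ker.1 (h1 p i))
    change Ψ (ps k R (θ p i)) = 1
    rw [hΨ, e, map_one])
  have hθ2 : ∀ p, um Ψ (um (ps k R) (θ p))⁻¹ = 1 := fun p => funext fun i => by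
    have e := congrFun (hθ1 p) i
    exact (map_inv (Units.map (Ψ : La R →* La k)) _).trans (inv_eq_one.2 e)
  let M : Mt (RatFunc k) N := b.map 𝒞.one.ev * n'.map (GK 𝒞.pt).val
  have hM : NN I M := (hb.map _).mul hV (hn'.map _)
  have hMex : ∀ p, M.map (ex p) = ((ap p).map (ps k R)).map Ψ := fun p => by
    have e3 : (b.map 𝒞.one.ev).map (ex p) = (b.map (𝒞.loc p).ev).map Ψ := by
      ext i j
      exact 𝒞.ex_one p (hex p) hΨ (b i j)
    have e4 : (nh p).map Ψ = n.map ((ex p).comp (GK 𝒞.pt).val) := by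
      rw [sol0_mm, ← AlgHom.comp_assoc, hΨic, AlgHom.id_comp]
    rw [Matrix.map_mul, e3, hp, Matrix.map_mul, Matrix.map_mul, Matrix.map_mul, dg_map, dg_map,
      hθ1, hθ2, dg_one, one_mul, mul_one, e4, sol0_mm (GK 𝒞.pt).val, mul_assoc,
      ← Matrix.map_mul, e1, sol0_m1, mul_one]
  have hc : ∀ i j, ∃ c : k, M i j = algebraMap k (RatFunc k) c := fun i j => by
    refine const_of_reg 𝒞.inj hex ?_ fun p => ⟨pm 𝒞.T.ψ (ap p i j), ?_⟩
    · change ∑ l, 𝒞.one.ev (b i l) * (n' l j : RatFunc k) ∈ GK 𝒞.pt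
      exact sum_mem fun l _ => mul_mem (𝒞.one_ev_mem _) (n' l j).2
    · exact (congrFun (congrFun (hMex p) i) j).trans (hΨ _)
  choose c hc using hc
  have hMc : M = (Matrix.of c).map (Algebra.ofId k (RatFunc k)) := by
    ext i j
    exact hc i j
  have hcN : NN I (Matrix.of c : Mt k N) :=
    NN.of_map (φ := Algebra.ofId k (RatFunc k)) (algebraMap k (RatFunc k)).injective (hMc ▸ hM)
  obtain ⟨c', hc', e5, e6⟩ := hcN.inv hV
  refine ⟨c'.map (Algebra.ofId k 𝒞.GG) * b, (hc'.map _).mul hV hb, ?_, fun p =>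
    ⟨c'.map (Algebra.ofId k (PowerSeries R)) * ap p, (hc'.map _).mul hV (ha.map _), ?_⟩⟩
  · have e7 : b.map 𝒞.one.ev = M * n.map (GK 𝒞.pt).val := by
      rw [mul_assoc, ← Matrix.map_mul, e2, sol0_m1, mul_one]
    rw [Matrix.map_mul, sol0_of, e7, hMc, ← mul_assoc, ← Matrix.map_mul, e6, sol0_m1, one_mul]
  · rw [Matrix.map_mul, sol0_of, hp, Matrix.map_mul, Matrix.map_mul, sol0_of, dg_map, dg_map,
      hinv]
    simp only [mul_assoc]
    rfl

end

end Pool.Agent.Lib.MP_41050a_ag
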