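import Pool.Agent.Lib.MP_41050a_ag.Gen

/-! Tangent matrices span the tangent spaces along the orbit. -/

namespace Pool.Agent.Lib.MP_41050a_ag

open Polynomial

set_option linter.unusedSectionVars false

noncomputable section

variable {k : Type} [Field k] [IsAlgClosed k] [CharZero k] {N : ℕ} {I : Ideal (Pk k N)}
  {x' : V k N} {j₀ : Fin (N + 1)}

theorem Gen.orb (hV : Cone I) {Δ : Pk k N} {D m : ℕ} {Y Y' : Fin (N + 1) → Pk k N}
    (hG : Gen I x' j₀ Δ m Y Y') (hΔ : Δ.IsHomogeneous D) {E : Type} [CommRing E] [Algebra k E]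
    {z : V E N} (hz : On I z) (h0 : IsUnit (z j₀)) (h1 : IsUnit (MvPolynomial.aeval z Δ)) :
    Orb I x' z := by
  obtain ⟨u, hu⟩ := h0
  obtain ⟨n, η, hn, hη, e, -⟩ := hG E (((u⁻¹ : Eˣ) : E) • z) (hz.smul hV _)
    (by rw [Pi.smul_apply, smul_eq_mul, ← hu, Units.inv_mul])
    (by rw [aev_smul hΔ]; exact ((u⁻¹).isUnit.pow D).mul h1)
  have h := Orb.smul hV (⟨n, η, hn, hη, e⟩ : Orb I x' _) u.isUnit
  rwa [smul_smul, Units.mul_inv, one_smul] at h

theorem span_grp (hV : Cone I) {R : Type} [CommRing R] [Algebra k R] {n : Mt R N}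
    {θ : Fin (N + 1) → Rˣ} (hn : NN I n) (hθ : TT I θ) : ∃ g g' : Mt R N, Pres I g ∧ Pres I g' ∧
      g * g' = 1 ∧ g' * g = 1 ∧ g.mulVec (cs R x') = n.mulVec (tw x' θ) := by
  obtain ⟨n', hn', e1, e2⟩ := hn.inv hV
  refine ⟨n * dg θ, dg θ⁻¹ * n', hn.pres.mul hV hθ.pres, hθ.inv.pres.mul hV hn'.pres, ?_, ?_, ?_⟩
  · rw [mul_assoc, ← mul_assoc (dg θ), ← dg_mul, mul_inv_cancel, dg_one, one_mul, e1]
  · rw [mul_assoc, ← mul_assoc n', e2, one_mul, ← dg_mul, inv_mul_cancel, dg_one]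
  · rw [← Matrix.mulVec_mulVec, ← tw_one, dg_tw, mul_one]

theorem span_orb (hV : Cone I) {R : Type} [CommRing R] [Algebra k R]
    (hR : Rt (⊤ : Subgroup Rˣ)) {z : V R N} (hz : Orb I x' z) : ∃ g g' : Mt R N, Pres I g ∧
      Pres I g' ∧ g * g' = 1 ∧ g' * g = 1 ∧ g.mulVec (cs R x') = z := by
  obtain ⟨n, η, hn, hη, e⟩ := hz
  obtain ⟨θ, hθ, -, hc⟩ := exists_tt hR hη fun _ => Subgroup.mem_top _
  obtain ⟨g, g', h1, h2, h3, h4, h5⟩ := span_grp (x' := x') hV hn hθ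
  exact ⟨g, g', h1, h2, h3, h4, by rw [h5, tw_congr hc, e]⟩

theorem span_dual (hV : Cone I) {R : Type} [CommRing R] [Algebra k R]
    {G G' : Mt (DualNumber R) N} (hG : Pres I G) (hG' : Pres I G') (e1 : G * G' = 1)
    (e2 : G' * G = 1) {z w : V R N} (e : G.mulVec (cs _ x') = du z w) :
    ∃ A : Mt R N, Tan I A ∧ A.mulVec z = w := by
  set f : DualNumber R →ₐ[k] R := TrivSqZeroExt.fstHom k R R with hf
  set ι : R →ₐ[k] DualNumber R := TrivSqZeroExt.inlAlgHom k R R with hι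
  have hm : ∀ a b : Mt (DualNumber R) N, (a * b).map f = a.map f * b.map f := fun a b =>
    Matrix.map_mul (f := (f : DualNumber R →+* R))
  have h1 : (1 : Mt (DualNumber R) N).map f = 1 := Matrix.map_one _ (map_zero f) (map_one f)
  have hz : (G.map f).mulVec (cs R x') = z := by
    rw [← map_cs f, ← map_mulVec, e]
    funext i
    simp [hf, du]
  have hx : (G'.map f).mulVec z = cs R x' := by
    rw [← hz, Matrix.mulVec_mulVec, ← hm, e2, h1, Matrix.one_mulVec]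
  have hfi : ((G'.map f).map ι).map f = G'.map f := by
    ext a b
    simp [hf, hι]
  refine ⟨(G * (G'.map f).map ι).map TrivSqZeroExt.snd,
    tan_of_du (hG.mul hV ((hG'.map f).map ι)) ?_, ?_⟩
  · change (G * (G'.map f).map ι).map f = 1
    rw [hm, hfi, ← hm, e1, h1]
  · have h2 : (G * (G'.map f).map ι).mulVec (ι ∘ z) = du z w := by
      rw [← Matrix.mulVec_mulVec, ← map_mulVec, hx, map_cs, e]
    funext i
    have h3 := congrArg TrivSqZeroExt.snd (congrFun h2 i)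
    simpa [Matrix.mulVec, dotProduct, du, hι, TrivSqZeroExt.snd_sum, mul_comm] using h3

theorem span_base (hV : Cone I) (hB : Base I x' j₀) (Λ : Type) [Field Λ] [Algebra k Λ]
    [IsAlgClosed Λ] {v : V Λ N} (hv : Tg I (cs Λ x') v) :
    ∃ A : Mt Λ N, Tan I A ∧ A.mulVec (cs Λ x') = v := by
  have : CharZero Λ := charZero_of_injective_algebraMap (algebraMap k Λ).injective
  obtain ⟨Δ, D, m, Y, Y', hΔ, hI, hG⟩ := hB.exists_gen hV
  obtain ⟨n, τ, hn, hτ, h0⟩ : ∃ (n : Mt k N) (τ : Fin (N + 1) → kˣ), NN I n ∧ TT I τ ∧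
      MvPolynomial.aeval (n.mulVec (tw x' τ)) Δ ≠ 0 := by
    by_contra h
    exact hI (hB.dense Δ fun n τ hn hτ => by_contra fun h' => h ⟨n, τ, hn, hτ, h'⟩)
  set φ := Algebra.ofId k Λ with hφ
  obtain ⟨g, g', h1, h2, h3, h4, h5⟩ := span_grp (x' := x') hV (hn.map φ) (hτ.map φ)
  have h6 : On I (g.mulVec (cs Λ x')) := h1 x' hB.on
  have h7 := h1.tg hV hB.on.cs hv
  have h8 : g.mulVec (cs Λ x') = φ ∘ n.mulVec (tw x' τ) := by rw [h5, map_mulVec, map_tw]
  have u0 : IsUnit (du (g.mulVec (cs Λ x')) (g.mulVec v) j₀) := by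
    rw [TrivSqZeroExt.isUnit_iff_isUnit_fst, h5]
    simp only [du, TrivSqZeroExt.fst_add, TrivSqZeroExt.fst_inl, TrivSqZeroExt.fst_inr, add_zero]
    rw [(hn.map φ).mulVec_apply fun c hc => by rw [tw, hB.top c hc, map_zero, mul_zero], tw, hB.one,
      map_one, mul_one]
    exact Units.isUnit _
  have u1 : IsUnit (MvPolynomial.aeval (du (g.mulVec (cs Λ x')) (g.mulVec v)) Δ) := by
    rw [TrivSqZeroExt.isUnit_iff_isUnit_fst, aev_du]
    simp only [TrivSqZeroExt.fst_add, TrivSqZeroExt.fst_inl, TrivSqZeroExt.fst_inr, add_zero]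
    rw [h8, ← map_aev]
    exact (Ne.isUnit h0).map φ
  obtain ⟨G, G', k1, k2, k3, k4, k5⟩ :=
    span_orb hV (rt_dual Λ) (hG.orb hV hΔ (on_du.2 ⟨h6, h7⟩) u0 u1)
  obtain ⟨A, hA, eA⟩ := span_dual hV k1 k2 k3 k4 k5
  refine ⟨g' * A * g, hA.conj hV h2 h1 h4, ?_⟩
  rw [← Matrix.mulVec_mulVec, ← Matrix.mulVec_mulVec, eA, Matrix.mulVec_mulVec, h4,
    Matrix.one_mulVec]

theorem Base.span (hV : Cone I) (hB : Base I x' j₀) {v : V k N} (hv : Tg I x' v) :
    ∃ A : Mt k N, Tan I A ∧ A.mulVec x' = v := by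
  exact span_base hV hB k hv

theorem Orb.exists_tan (hV : Cone I) (hB : Base I x' j₀) {K : Type} [Field K] [Algebra k K]
    {z v : V K N} (hz : Orb I x' z) (hv : Tg I z v) : ∃ A : Mt K N, Tan I A ∧ A.mulVec z = v := by
  set ι := IsScalarTower.toAlgHom k K (AlgebraicClosure K) with hι
  obtain ⟨g, g', h1, h2, h3, h4, h5⟩ := span_orb hV (rt_field (AlgebraicClosure K)) (hz.map ι)
  have h6 : On I (ι ∘ z) := h5 ▸ h1 x' hB.on
  have h7 : g'.mulVec (ι ∘ z) = cs _ x' := by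
    rw [← h5, Matrix.mulVec_mulVec, h4, Matrix.one_mulVec]
  have h8 := h2.tg hV h6 (hv.map ι)
  rw [h7] at h8
  obtain ⟨A, hA, eA⟩ := span_base hV hB _ h8
  have h9 : (g * A * g').mulVec (ι ∘ z) = ι ∘ v := by
    rw [← Matrix.mulVec_mulVec, ← Matrix.mulVec_mulVec, h7, eA, Matrix.mulVec_mulVec, h3,
      Matrix.one_mulVec]
  obtain ⟨r, hr⟩ := (Algebra.linearMap K (AlgebraicClosure K)).exists_leftInverse_of_injective
    (LinearMap.ker_eq_bot.2 (algebraMap K (AlgebraicClosure K)).injective)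
  refine ⟨(g * A * g').map (r.restrictScalars k), (hA.conj hV h1 h2 h3).lin _, funext fun i => ?_⟩
  have e1 : r (ι (v i)) = v i := LinearMap.congr_fun hr (v i)
  have e2 := congrArg r (congrFun h9 i)
  rw [Function.comp_apply, e1, Matrix.mulVec, dotProduct, map_sum] at e2
  rw [← e2, Matrix.mulVec, dotProduct]
  refine Finset.sum_congr rfl fun j _ => ?_
  rw [mul_comm, mul_comm _ ((ι ∘ z) j), ← smul_eq_mul (z j)]
  refine (r.map_smul (z j) _).symm.trans ?_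
  rw [Algebra.smul_def]
  rfl

theorem Orb.span (hV : Cone I) (hB : Base I x' j₀) {K : Type} [Field K] [Algebra k K]
    {z v : V K N} (hz : Orb I x' z) (hv : Tg I z v) : v ∈ Submodule.span K
      {w | ∃ A : Mt k N, Tan I A ∧ w = (A.map (algebraMap k K)).mulVec z} := by
  obtain ⟨A, hA, e⟩ := hz.exists_tan hV hB hv
  obtain ⟨n, ω, ℓ, h⟩ := exists_expand (k := k) fun p : Fin (N + 1) × Fin (N + 1) => A p.1 p.2
  have e1 : A = ∑ a, ω a • (A.map (ℓ a)).map (algebraMap k K) := by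
    ext i j
    rw [Matrix.sum_apply]
    exact h (i, j)
  rw [← e, e1, Matrix.sum_mulVec]
  refine Submodule.sum_mem _ fun a _ => ?_
  rw [Matrix.smul_mulVec]
  exact Submodule.smul_mem _ _ (Submodule.subset_span ⟨_, hA.lin (ℓ a), rfl⟩)

end

end Pool.Agent.Lib.MP_41050a_ag
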