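import Pool.Agent.Lib.MP_41050a_ag.Grp

/-! The diagonal group. -/

namespace Pool.Agent.Lib.MP_41050a_ag

open Polynomial

set_option linter.unusedSectionVars false

noncomputable section

variable {k : Type} [Field k] {N : ℕ}

/-- A diagonal matrix. -/
def dg {R : Type} [CommRing R] (θ : Fin (N + 1) → Rˣ) : Mt R N := Matrix.diagonal fun i => (θ i : R)

section

variable (I : Ideal (Pk k N)) {R : Type} [CommRing R] [Algebra k R]

/-- A multiplicative relation that holds on the diagonal group. -/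
def Rel (c : Fin (N + 1) → ℤ) : Prop := ∀ τ, Tor I τ → ∏ i, τ i ^ c i = 1

/-- Points of the diagonal group. -/
def TT {R : Type} [CommRing R] (θ : Fin (N + 1) → Rˣ) : Prop :=
  ∀ c, Rel I c → ∏ i, θ i ^ c i = 1

/-- The relations supported on the support of `x'` hold. -/
def RelS {R : Type} [CommRing R] (x' : V k N) (η : Fin (N + 1) → Rˣ) : Prop :=
  ∀ c, Rel I c → (∀ i, x' i = 0 → c i = 0) → ∏ i, η i ^ c i = 1

/-- The vector `η x'`. -/
def tw (x' : V k N) (η : Fin (N + 1) → Rˣ) : V R N := fun i => η i * algebraMap k R (x' i)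

/-- Points of the orbit of `x'`. -/
def Orb (x' : V k N) (z : V R N) : Prop :=
  ∃ (n : Mt R N) (η : Fin (N + 1) → Rˣ), NN I n ∧ RelS I x' η ∧ z = n.mulVec (tw x' η)

end

/-- All roots exist in the subgroup `H`. -/
def Rt {G : Type} [Group G] (H : Subgroup G) : Prop :=
  ∀ u ∈ H, ∀ r : ℕ, 0 < r → ∃ ρ ∈ H, ρ ^ r = u

variable {I : Ideal (Pk k N)} {R S : Type} [CommRing R] [Algebra k R] [CommRing S] [Algebra k S]
  {θ θ' η : Fin (N + 1) → Rˣ} {x' : V k N} {z : V R N} {g : Mt R N}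

/-- The map on units. -/
abbrev um (φ : R →ₐ[k] S) (θ : Fin (N + 1) → Rˣ) : Fin (N + 1) → Sˣ :=
  fun i => Units.map (φ : R →* S) (θ i)

theorem tor0_prod_mul (θ θ' : Fin (N + 1) → Rˣ) (c : Fin (N + 1) → ℤ) :
    ∏ i, (θ * θ') i ^ c i = (∏ i, θ i ^ c i) * ∏ i, θ' i ^ c i := by
  rw [← Finset.prod_mul_distrib]
  exact Finset.prod_congr rfl fun i _ => by rw [Pi.mul_apply, mul_zpow]

theorem tor0_prod_map (φ : R →ₐ[k] S) (θ : Fin (N + 1) → Rˣ) (c : Fin (N + 1) → ℤ) :
    ∏ i, um φ θ i ^ c i = Units.map (φ : R →* S) (∏ i, θ i ^ c i) := by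
  rw [map_prod]
  exact Finset.prod_congr rfl fun i _ => (map_zpow _ _ _).symm

theorem tor0_prod_const (u : Rˣ) (c : Fin (N + 1) → ℤ) : ∏ i, u ^ c i = u ^ ∑ i, c i := by
  classical
  have h : ∀ s : Finset (Fin (N + 1)), ∏ i ∈ s, u ^ c i = u ^ ∑ i ∈ s, c i := by
    intro s
    induction s using Finset.induction_on with
    | empty => simp
    | insert a s ha ih => rw [Finset.prod_insert ha, Finset.sum_insert ha, ih, zpow_add]
  exact h _

theorem dg_mul (θ θ' : Fin (N + 1) → Rˣ) : dg (θ * θ') = dg θ * dg θ' := by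
  simp [dg, Matrix.diagonal_mul_diagonal]

theorem dg_one : dg (1 : Fin (N + 1) → Rˣ) = 1 := by
  simp [dg]

theorem dg_map (φ : R →ₐ[k] S) (θ : Fin (N + 1) → Rˣ) : (dg θ).map φ = dg (um φ θ) := by
  unfold dg
  rw [Matrix.diagonal_map (map_zero φ)]
  rfl

theorem dg_mulVec (θ : Fin (N + 1) → Rˣ) (z : V R N) : (dg θ).mulVec z = fun i => θ i * z i := by
  funext i
  exact Matrix.mulVec_diagonal _ _ i

theorem dg_tw (x' : V k N) (θ η : Fin (N + 1) → Rˣ) :
    (dg θ).mulVec (tw x' η) = tw x' (θ * η) := by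
  rw [dg_mulVec]
  funext i
  simp [tw, mul_assoc]

theorem tw_one (x' : V k N) : tw x' (1 : Fin (N + 1) → Rˣ) = cs R x' := by
  funext i
  simp [tw, cs]

theorem tw_congr (h : ∀ i, x' i ≠ 0 → θ i = η i) : tw x' θ = tw x' η := by
  funext i
  by_cases hi : x' i = 0
  · simp [tw, hi]
  · simp [tw, h i hi]

theorem map_tw (φ : R →ₐ[k] S) (x' : V k N) (η : Fin (N + 1) → Rˣ) :
    φ ∘ tw x' η = tw x' (um φ η) := by
  funext i
  simp [tw]

theorem tt_of_tor {τ : Fin (N + 1) → kˣ} (h : Tor I τ) : TT I τ := fun _ hc => hc τ h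

theorem TT.mul (h : TT I θ) (h' : TT I θ') : TT I (θ * θ') := by
  intro c hc
  rw [tor0_prod_mul, h c hc, h' c hc, one_mul]

theorem TT.inv (h : TT I θ) : TT I θ⁻¹ := by
  intro c hc
  have e := tor0_prod_mul θ θ⁻¹ c
  rw [h c hc, one_mul, mul_inv_cancel] at e
  rw [← e]
  simp

theorem TT.map (h : TT I θ) (φ : R →ₐ[k] S) : TT I (um φ θ) := by
  intro c hc
  rw [tor0_prod_map, h c hc, map_one]

theorem TT.relS (h : TT I θ) : RelS I x' θ := fun c hc _ => h c hc

theorem RelS.mul (h : RelS I x' θ) (h' : RelS I x' θ') : RelS I x' (θ * θ') := by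
  intro c hc hs
  rw [tor0_prod_mul, h c hc hs, h' c hc hs, one_mul]

theorem RelS.map (h : RelS I x' η) (φ : R →ₐ[k] S) : RelS I x' (um φ η) := by
  intro c hc hs
  rw [tor0_prod_map, h c hc hs, map_one]

theorem RelS.of_map {φ : R →ₐ[k] S} (hφ : Function.Injective φ) (h : RelS I x' (um φ η)) :
    RelS I x' η := by
  intro c hc hs
  have e := h c hc hs
  rw [tor0_prod_map] at e
  exact Units.map_injective (f := (φ : R →* S)) hφ (e.trans (map_one _).symm)

theorem RelS.congr (h : RelS I x' η) (e : ∀ i, x' i ≠ 0 → θ i = η i) : RelS I x' θ := by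
  intro c hc hs
  rw [← h c hc hs]
  refine Finset.prod_congr rfl fun i _ => ?_
  by_cases hi : x' i = 0
  · rw [hs i hi, zpow_zero, zpow_zero]
  · rw [e i hi]

/-- The scalar `2` lies in the diagonal group and has infinite order. -/
theorem Rel.sum [CharZero k] (hV : Cone I) {c : Fin (N + 1) → ℤ} (hc : Rel I c) :
    ∑ i, c i = 0 := by
  have h2 : (2 : k) ≠ 0 := two_ne_zero
  have ht : Tor I (fun _ => Units.mk0 (2 : k) h2) := fun x hx => On.smul hV hx (2 : k)
  have e := hc _ ht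
  rw [tor0_prod_const] at e
  have e' : (2 : k) ^ (∑ i, c i) = 1 := by
    have := congrArg Units.val e
    simpa using this
  have e'' : (2 : ℚ) ^ (∑ i, c i) = 1 := by
    apply Rat.cast_injective (α := k)
    push_cast
    exact e'
  exact (zpow_eq_one_iff_right₀ (by norm_num) (by norm_num)).1 e''

theorem tt_scalar [CharZero k] (hV : Cone I) (u : Rˣ) : TT I (fun _ => u) := by
  intro c hc
  rw [tor0_prod_const, Rel.sum hV hc, zpow_zero]

end

end Pool.Agent.Lib.MP_41050a_ag
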