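import Pool.Agent.Lib.MP_41050a_ag.Defs

/-! Ultraproducts of fields. -/

namespace Pool.Agent.Lib.MP_41050a_ag

open Polynomial Filter

set_option linter.unusedSectionVars false

noncomputable section

/-- An ultraproduct of fields. -/
structure Ul (k : ℕ → Type) [∀ j, Field (k j)] (K : Type) [Field K] where
  F : Ultrafilter ℕ
  ρ : (∀ j, k j) →+* K
  surj : Function.Surjective ρ
  ker : ∀ a, ρ a = 0 ↔ ∀ᶠ j in (F : Filter ℕ), a j = 0
  cof : ∀ n, ∀ᶠ j in (F : Filter ℕ), n ≤ j

theorem exists_ul (k : ℕ → Type) [∀ j, Field (k j)] [∀ j, IsAlgClosed (k j)]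
    [∀ j, CharZero (k j)] :
    ∃ (K : Type) (_ : Field K) (_ : IsAlgClosed K) (_ : CharZero K), Nonempty (Ul k K) := by
  classical
  let F := hyperfilter ℕ
  let P : Ideal (∀ j, k j) :=
    { carrier := {a | ∀ᶠ j in (F : Filter ℕ), a j = 0}
      add_mem' := fun ha hb => (Eventually.and ha hb).mono fun j h => by simp [h.1, h.2]
      zero_mem' := Eventually.of_forall fun _ => rfl
      smul_mem' := fun c a ha => Eventually.mono ha fun j h => by simp [h] }
  have hP : ∀ a, a ∈ P ↔ ∀ᶠ j in (F : Filter ℕ), a j = 0 := fun _ => Iff.rfl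
  have h1 : (1 : ∀ j, k j) ∉ P := fun h => by
    obtain ⟨j, hj⟩ := ((hP _).1 h).exists
    exact one_ne_zero hj
  have hm : P.IsMaximal := by
    refine Ideal.isMaximal_iff.2 ⟨h1, fun J a hJ ha haJ => ?_⟩
    have h2 : (1 - (fun j => (a j)⁻¹) * a : ∀ j, k j) ∈ P :=
      (Ultrafilter.eventually_not.2 ha).mono fun j h => by simp [inv_mul_cancel₀ h]
    simpa using J.add_mem (hJ h2) (J.mul_mem_left (fun j => (a j)⁻¹) haJ)
  let _ := Ideal.Quotient.field P
  refine ⟨(∀ j, k j) ⧸ P, inferInstance, IsAlgClosed.of_exists_root _ fun p hp hi => ?_,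
    charZero_of_inj_zero fun n hn => ?_, ⟨⟨F, Ideal.Quotient.mk P, Ideal.Quotient.mk_surjective,
      fun a => Ideal.Quotient.eq_zero_iff_mem, fun n =>
        Nat.hyperfilter_le_atTop (eventually_ge_atTop n)⟩⟩⟩
  · obtain ⟨q, rfl, hd, hq⟩ := lifts_and_natDegree_eq_and_monic
      ((mem_lifts p).2 (map_surjective _ (Ideal.Quotient.mk_surjective (I := P)) p)) hp
    have h2 : ∀ j, ∃ x : k j, (q.map (Pi.evalRingHom k j)).IsRoot x := fun j => by
      refine IsAlgClosed.exists_root _ (natDegree_pos_iff_degree_pos.1 ?_).ne'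
      rw [hq.natDegree_map, hd]
      exact hi.natDegree_pos
    choose x hx using h2
    have h3 : q.eval x = 0 := funext fun j => by
      have := hx j
      rwa [IsRoot, eval_map, show x j = Pi.evalRingHom k j x from rfl, eval₂_at_apply] at this
    exact ⟨Ideal.Quotient.mk P x, by rw [eval_map, eval₂_at_apply, h3, map_zero]⟩
  · rw [← map_natCast (Ideal.Quotient.mk P), Ideal.Quotient.eq_zero_iff_mem, hP] at hn
    obtain ⟨j, hj⟩ := hn.exists
    simpa using hj

end

end Pool.Agent.Lib.MP_41050a_ag
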