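import Pool.Agent.Lib.MP_41050a_ag.UA
import Pool.Agent.Lib.MP_41050a_ag.Tor

/-! Limits of vectors, matrices and polynomials. -/

namespace Pool.Agent.Lib.MP_41050a_ag

open Polynomial Filter

set_option linter.unusedSectionVars false

noncomputable section

/-- Sequences of polynomials of bounded degree. -/
abbrev SP (k : ℕ → Type) [∀ j, Field (k j)] (N : ℕ) : Type := MvPolynomial (Fin (N + 1)) (∀ j, k j)

variable {k : ℕ → Type} [∀ j, Field (k j)] {K : Type} [Field K] {N : ℕ}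

/-- The terms of a sequence of polynomials. -/
def pj (j : ℕ) : SP k N →+* Pk (k j) N := MvPolynomial.map (Pi.evalRingHom k j)

theorem pj_X (j : ℕ) (i : Fin (N + 1)) : pj j (MvPolynomial.X i : SP k N) = MvPolynomial.X i :=
  MvPolynomial.map_X _ _

theorem pj_deg (j : ℕ) (Φ : SP k N) : (pj j Φ).totalDegree ≤ Φ.totalDegree := by
  exact Finset.sup_mono (MvPolynomial.support_map_subset _ _)

namespace Ul

variable (U : Ul k K)

/-- The limit of a sequence of polynomials. -/
def pl : SP k N →+* Pk K N := MvPolynomial.map U.ρ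

/-- The limit of a sequence of vectors. -/
def lv (x : ∀ j, V (k j) N) : V K N := fun i => U.ρ fun j => x j i

/-- The limit of a sequence of matrices. -/
def lm (g : ∀ j, Mt (k j) N) : Mt K N := Matrix.of fun a b => U.ρ fun j => g j a b

/-- The limit of a sequence of tuples of units. -/
def lu (τ : ∀ j, Fin (N + 1) → (k j)ˣ) : Fin (N + 1) → Kˣ := fun i =>
  Units.map (U.ρ : (∀ j, k j) →* K) (MulEquiv.piUnits.symm fun j => τ j i)

/-- Sequences of polynomials that lie in the ideals for most indices. -/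
def sq (I : ∀ j, Ideal (Pk (k j) N)) : Ideal (SP k N) where
  carrier := {Φ | ∀ᶠ j in (U.F : Filter ℕ), pj j Φ ∈ I j}
  add_mem' := fun ha hb => (Eventually.and ha hb).mono fun j h => by
    rw [map_add]
    exact (I j).add_mem h.1 h.2
  zero_mem' := Eventually.of_forall fun j => by
    rw [map_zero]
    exact (I j).zero_mem
  smul_mem' := fun c a ha => Eventually.mono ha fun j h => by
    rw [smul_eq_mul, map_mul]
    exact (I j).mul_mem_left _ h

/-- The limit of a sequence of ideals. -/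
def lim (I : ∀ j, Ideal (Pk (k j) N)) : Ideal (Pk K N) := (U.sq I).map U.pl

theorem pl_X (i : Fin (N + 1)) : U.pl (MvPolynomial.X i : SP k N) = MvPolynomial.X i :=
  MvPolynomial.map_X _ _

theorem lu_val (τ : ∀ j, Fin (N + 1) → (k j)ˣ) (i : Fin (N + 1)) :
    (U.lu τ i : K) = U.ρ fun j => τ j i := rfl

theorem lu_inv (τ : ∀ j, Fin (N + 1) → (k j)ˣ) (i : Fin (N + 1)) :
    (((U.lu τ i)⁻¹ : Kˣ) : K) = U.ρ fun j => (((τ j i)⁻¹ : (k j)ˣ) : k j) := rfl

theorem ρ_eq (a b : ∀ j, k j) : U.ρ a = U.ρ b ↔ ∀ᶠ j in (U.F : Filter ℕ), a j = b j := by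
  rw [← sub_eq_zero, ← map_sub, U.ker]
  simp only [Pi.sub_apply, sub_eq_zero]

theorem choice {β : ℕ → Type} [∀ j, Nonempty (β j)] {r : ∀ j, β j → Prop}
    (h : ∀ᶠ j in (U.F : Filter ℕ), ∃ y, r j y) :
    ∃ f : ∀ j, β j, ∀ᶠ j in (U.F : Filter ℕ), r j (f j) := by
  classical
  refine ⟨fun j => if h : ∃ y, r j y then h.choose else Classical.arbitrary _,
    h.mono fun j hj => ?_⟩
  simp only [dif_pos hj]
  exact hj.choose_spec

theorem fin_choice {α : Type} [Finite α] {r : ℕ → α → Prop}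
    (h : ∀ᶠ j in (U.F : Filter ℕ), ∃ a, r j a) : ∃ a, ∀ᶠ j in (U.F : Filter ℕ), r j a := by
  exact Ultrafilter.eventually_exists_iff.1 h

theorem lv_surj (z : V K N) : ∃ x, U.lv x = z := by
  choose a ha using fun i => U.surj (z i)
  exact ⟨fun j i => a i j, funext ha⟩

theorem lm_surj (h : Mt K N) : ∃ g, U.lm g = h := by
  choose a ha using fun p q => U.surj (h p q)
  exact ⟨fun j => Matrix.of fun p q => a p q j, Matrix.ext ha⟩

theorem lu_surj (θ : Fin (N + 1) → Kˣ) : ∃ τ, U.lu τ = θ := by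
  classical
  choose a ha using fun i => U.surj (θ i)
  refine ⟨fun j i => if h : a i j = 0 then 1 else Units.mk0 _ h, funext fun i => Units.ext ?_⟩
  rw [lu_val, ← ha, ρ_eq]
  have h : ¬ ∀ᶠ j in (U.F : Filter ℕ), a i j = 0 := fun h =>
    (θ i).ne_zero (ha i ▸ (U.ker _).2 h)
  exact (Ultrafilter.eventually_not.2 h).mono fun j hj => by simp [hj]

theorem lv_eq (x y : ∀ j, V (k j) N) :
    U.lv x = U.lv y ↔ ∀ᶠ j in (U.F : Filter ℕ), x j = y j := by
  simp only [funext_iff, eventually_all]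
  exact forall_congr' fun i => U.ρ_eq _ _

theorem lv_eq_zero (x : ∀ j, V (k j) N) : U.lv x = 0 ↔ ∀ᶠ j in (U.F : Filter ℕ), x j = 0 := by
  simp only [funext_iff, eventually_all]
  exact forall_congr' fun i => U.ker _

theorem lm_mulVec (g : ∀ j, Mt (k j) N) (x : ∀ j, V (k j) N) :
    (U.lm g).mulVec (U.lv x) = U.lv fun j => (g j).mulVec (x j) := by
  funext a
  simp only [Matrix.mulVec, dotProduct, lm, lv, Matrix.of_apply, ← map_mul, ← map_sum]
  congr 1
  funext j
  rw [Finset.sum_apply]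
  rfl

theorem lv_tw (x : ∀ j, V (k j) N) (τ : ∀ j, Fin (N + 1) → (k j)ˣ) :
    tw (U.lv x) (U.lu τ) = U.lv fun j => tw (x j) (τ j) := by
  funext i
  exact (map_mul U.ρ (fun j => (τ j i : k j)) fun j => x j i).symm

theorem lm_sub_one (g : ∀ j, Mt (k j) N) : U.lm g - 1 = U.lm fun j => g j - 1 := by
  ext a b
  have e : (fun j => (g j - 1) a b) = (fun j => g j a b) - (1 : Mt (∀ j, k j) N) a b := by
    funext j
    by_cases h : a = b <;> simp [Matrix.one_apply, h]
  simp only [lm, Matrix.sub_apply, Matrix.of_apply] at e ⊢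
  rw [e, map_sub]
  by_cases h : a = b <;> simp [Matrix.one_apply, h]

theorem su_iff (g : ∀ j, Mt (k j) N) : SU (U.lm g) ↔ ∀ᶠ j in (U.F : Filter ℕ), SU (g j) := by
  simp only [SU, eventually_all]
  exact forall_congr' fun a => forall_congr' fun b => forall_congr' fun _ => U.ker _

theorem aev_pl (x : ∀ j, V (k j) N) (Φ : SP k N) : MvPolynomial.aeval (U.lv x) (U.pl Φ) =
    U.ρ fun j => MvPolynomial.aeval (x j) (pj j Φ) := by
  induction Φ using MvPolynomial.induction_on with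
  | C a => simp [pl, pj]
  | add p q hp hq =>
    simp only [map_add]
    rw [hp, hq, ← map_add]
    rfl
  | mul_X p i hp =>
    simp only [map_mul, pl_X, pj_X, MvPolynomial.aeval_X]
    rw [hp, lv, ← map_mul]
    rfl

theorem pl_surj (Ψ : Pk K N) : ∃ Φ, U.pl Φ = Ψ := by
  exact MvPolynomial.map_surjective _ U.surj Ψ

theorem pl_eq_zero (Φ : SP k N) : U.pl Φ = 0 ↔ ∀ᶠ j in (U.F : Filter ℕ), pj j Φ = 0 := by
  constructor
  · intro h
    have h1 : ∀ s ∈ Φ.support, ∀ᶠ j in (U.F : Filter ℕ), MvPolynomial.coeff s Φ j = 0 :=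
      fun s _ => (U.ker _).1 (by
        have := congrArg (MvPolynomial.coeff s) h
        rwa [pl, MvPolynomial.coeff_map] at this)
    refine ((eventually_all_finset _).2 h1).mono fun j hj => MvPolynomial.ext _ _ fun s => ?_
    rw [pj, MvPolynomial.coeff_map]
    by_cases hs : s ∈ Φ.support
    · exact hj s hs
    · rw [MvPolynomial.notMem_support_iff.1 hs, map_zero]
      rfl
  · intro h
    refine MvPolynomial.ext _ _ fun s => ?_
    rw [pl, MvPolynomial.coeff_map]
    refine (U.ker _).2 (h.mono fun j hj => ?_)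
    have := congrArg (MvPolynomial.coeff s) hj
    rwa [pj, MvPolynomial.coeff_map] at this

theorem mem_lim (I : ∀ j, Ideal (Pk (k j) N)) (Φ : SP k N) :
    U.pl Φ ∈ U.lim I ↔ ∀ᶠ j in (U.F : Filter ℕ), pj j Φ ∈ I j := by
  refine ⟨fun h => ?_, fun h => Ideal.mem_map_of_mem _ h⟩
  obtain ⟨Φ', h1, h2⟩ := (Ideal.mem_map_iff_of_surjective _ U.pl_surj).1 h
  have h3 := (U.pl_eq_zero (Φ - Φ')).1 (by rw [map_sub, h2, sub_self])
  refine (Eventually.and h1 h3).mono fun j hj => ?_
  rw [map_sub, sub_eq_zero] at hj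
  exact hj.2 ▸ hj.1

theorem exists_seq {D : ℕ} {r : ∀ j, Pk (k j) N → Prop}
    (h : ∀ᶠ j in (U.F : Filter ℕ), ∃ Φ, Φ.totalDegree ≤ D ∧ r j Φ) :
    ∃ Ψ : SP k N, ∀ᶠ j in (U.F : Filter ℕ), r j (pj j Ψ) := by
  classical
  obtain ⟨Φ, hΦ⟩ := U.choice h
  refine ⟨∑ s ∈ (Finsupp.finite_of_degree_le (σ := Fin (N + 1)) D).toFinset,
    MvPolynomial.monomial s fun j => MvPolynomial.coeff s (Φ j), hΦ.mono fun j hj => ?_⟩
  have e : pj j (∑ s ∈ (Finsupp.finite_of_degree_le (σ := Fin (N + 1)) D).toFinset,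
      MvPolynomial.monomial s fun j => MvPolynomial.coeff s (Φ j)) = Φ j := by
    simp only [map_sum, pj, MvPolynomial.map_monomial, Pi.evalRingHom_apply]
    conv_rhs => rw [(Φ j).as_sum]
    refine (Finset.sum_subset (fun s hs => ?_) fun s _ hs => ?_).symm
    · rw [Set.Finite.mem_toFinset]
      exact (MvPolynomial.le_totalDegree hs).trans hj.1
    · rw [MvPolynomial.notMem_support_iff.1 hs, map_zero]
  rw [e]
  exact hj.2

theorem exists_hom_lift {Δ : Pk K N} {D : ℕ} (h : Δ.IsHomogeneous D) :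
    ∃ Φ : SP k N, U.pl Φ = Δ ∧ ∀ j, (pj j Φ).IsHomogeneous D := by
  obtain ⟨Φ, rfl⟩ := U.pl_surj Δ
  refine ⟨MvPolynomial.homogeneousComponent D Φ, MvPolynomial.ext _ _ fun s => ?_,
    fun j => (MvPolynomial.homogeneousComponent_isHomogeneous D Φ).map _⟩
  rw [pl, MvPolynomial.coeff_map, MvPolynomial.coeff_homogeneousComponent]
  split_ifs with hs
  · rw [MvPolynomial.coeff_map]
  · rw [map_zero]
    exact (h.coeff_eq_zero hs).symm

end Ul

end

end Pool.Agent.Lib.MP_41050a_ag
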