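import Pool.Agent.Lib.MP_41050a_ag.UC
import Pool.Agent.Lib.MP_41050a_ag.Nf0

/-! The groups and the base point of the limit. -/

namespace Pool.Agent.Lib.MP_41050a_ag

open Polynomial Filter

set_option linter.unusedSectionVars false

noncomputable section

variable {k : ℕ → Type} [∀ j, Field (k j)] {K : Type} [Field K] {N d : ℕ}
  {I : ∀ j, Ideal (Pk (k j) N)}

namespace Ul

variable (U : Ul k K)

/-- Transfer of a statement about all points of the cone. -/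
theorem ud_all (hd : ∀ j, GenDeg (I j) d) {P : V K N → Prop} {Q : ∀ j, V (k j) N → Prop}
    (h : ∀ x : ∀ j, V (k j) N, (∀ᶠ j in (U.F : Filter ℕ), On (I j) (x j)) →
      (P (U.lv x) ↔ ∀ᶠ j in (U.F : Filter ℕ), Q j (x j))) :
    (∀ z, On (U.lim I) z → P z) ↔ ∀ᶠ j in (U.F : Filter ℕ), ∀ z, On (I j) z → Q j z := by
  constructor
  · intro H
    by_contra hc
    have h1 : ∀ᶠ j in (U.F : Filter ℕ), ∃ z : V (k j) N, On (I j) z ∧ ¬ Q j z :=
      (Ultrafilter.eventually_not.2 hc).mono fun j hj => by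
        by_contra h2
        exact hj fun z hz => by_contra fun h3 => h2 ⟨z, hz, h3⟩
    obtain ⟨x, hx⟩ := U.choice h1
    have h2 := hx.mono fun j hj => hj.1
    obtain ⟨j, a, b⟩ := (hx.and ((h x h2).1 (H _ ((U.on_iff hd x).2 h2)))).exists
    exact a.2 b
  · intro H z hz
    obtain ⟨x, rfl⟩ := U.lv_surj z
    have h2 := (U.on_iff hd x).1 hz
    exact (h x h2).2 ((H.and h2).mono fun j hj => hj.1 _ hj.2)

theorem ud_zero (x : ∀ j, V (k j) N) (i : Fin (N + 1)) :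
    U.lv x i = 0 ↔ ∀ᶠ j in (U.F : Filter ℕ), x j i = 0 :=
  U.ker fun j => x j i

theorem pres_iff (hd : ∀ j, GenDeg (I j) d) (g : ∀ j, Mt (k j) N) :
    Pres (U.lim I) (U.lm g) ↔ ∀ᶠ j in (U.F : Filter ℕ), Pres (I j) (g j) := by
  refine U.ud_all hd (P := fun z => On (U.lim I) ((U.lm g).mulVec z))
    (Q := fun j z => On (I j) ((g j).mulVec z)) fun x _ => ?_
  rw [U.lm_mulVec, U.on_iff hd]

theorem tan_iff (hd : ∀ j, GenDeg (I j) d) (g : ∀ j, Mt (k j) N) :
    Tan (U.lim I) (U.lm g) ↔ ∀ᶠ j in (U.F : Filter ℕ), Tan (I j) (g j) := by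
  refine U.ud_all hd (P := fun z => Tg (U.lim I) z ((U.lm g).mulVec z))
    (Q := fun j z => Tg (I j) z ((g j).mulVec z)) fun x hx => ?_
  rw [U.lm_mulVec, U.tg_iff hd hx]

theorem nn_lim (hd : ∀ j, GenDeg (I j) d) (g : ∀ j, Mt (k j) N) :
    NN (U.lim I) (U.lm g) ↔ ∀ᶠ j in (U.F : Filter ℕ), NN (I j) (g j) := by
  constructor
  · intro h
    have h1 := h.su
    rw [U.lm_sub_one, U.su_iff] at h1
    exact (h1.and ((U.pres_iff hd g).1 h.pres)).mono fun j hj => ⟨hj.1, hj.2⟩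
  · intro h
    refine ⟨?_, (U.pres_iff hd g).2 (h.mono fun j hj => hj.pres)⟩
    rw [U.lm_sub_one, U.su_iff]
    exact h.mono fun j hj => hj.su

theorem tor_iff (hd : ∀ j, GenDeg (I j) d) (τ : ∀ j, Fin (N + 1) → (k j)ˣ) :
    Tor (U.lim I) (U.lu τ) ↔ ∀ᶠ j in (U.F : Filter ℕ), Tor (I j) (τ j) := by
  refine U.ud_all hd (P := fun z => On (U.lim I) fun i => U.lu τ i * z i)
    (Q := fun j z => On (I j) fun i => τ j i * z i) fun x _ => ?_
  have e : (fun i => (U.lu τ i : K) * U.lv x i) = U.lv fun j i => τ j i * x j i := by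
    funext i
    exact (map_mul U.ρ (fun j => (τ j i : k j)) fun j => x j i).symm
  rw [e, U.on_iff hd]

theorem base_lim (hd : ∀ j, GenDeg (I j) d) {x' : ∀ j, V (k j) N} {j₀ : Fin (N + 1)}
    (h : ∀ᶠ j in (U.F : Filter ℕ), Base (I j) (x' j) j₀) : Base (U.lim I) (U.lv x') j₀ := by
  refine ⟨(U.on_iff hd x').2 (h.mono fun j hj => hj.on), ?_,
    fun i hi => (U.ud_zero x' i).2 (h.mono fun j hj => hj.top i hi), ?_, ?_⟩
  · rw [← map_one U.ρ]
    exact (U.ρ_eq (fun j => x' j j₀) 1).2 (h.mono fun j hj => hj.one)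
  · intro l hl A hA hT hi
    obtain ⟨g, rfl⟩ := U.lm_surj A
    rw [U.lm_mulVec] at hi ⊢
    have h1 : ∀ᶠ j in (U.F : Filter ℕ), x' j l ≠ 0 :=
      Ultrafilter.eventually_not.2 fun e => hl ((U.ud_zero x' l).2 e)
    have h2 : ∀ᶠ j in (U.F : Filter ℕ), ∀ i, l < i → (g j).mulVec (x' j) i = 0 := by
      refine eventually_all.2 fun i => ?_
      by_cases hli : l < i
      · exact ((U.ud_zero _ i).1 (hi i hli)).mono fun j hj _ => hj
      · exact Eventually.of_forall fun j hj => absurd hj hli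
    refine (U.ud_zero _ l).2 ?_
    filter_upwards [h, h1, h2, (U.su_iff g).1 hA, (U.tan_iff hd g).1 hT] with j a b c e f
    exact a.nf l b _ e f c
  · intro G hG
    obtain ⟨Φ, rfl⟩ := U.pl_surj G
    by_contra hc
    have h1 : ∀ᶠ j in (U.F : Filter ℕ), pj j Φ ∉ I j :=
      Ultrafilter.eventually_not.2 fun e => hc ((U.mem_lim I Φ).2 e)
    have h2 : ∀ᶠ j in (U.F : Filter ℕ), ∃ y : Mt (k j) N × (Fin (N + 1) → (k j)ˣ),
        NN (I j) y.1 ∧ TT (I j) y.2 ∧
          MvPolynomial.aeval (y.1.mulVec (tw (x' j) y.2)) (pj j Φ) ≠ 0 := by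
      filter_upwards [h, h1] with j a b
      by_contra h3
      exact b (a.dense _ fun n τ hn hτ => by_contra fun h4 => h3 ⟨(n, τ), hn, hτ, h4⟩)
    obtain ⟨y, hy⟩ := U.choice h2
    have h3 := hG (U.lm fun j => (y j).1) (U.lu fun j => (y j).2)
      ((U.nn_lim hd _).2 (hy.mono fun j hj => hj.1))
      (tt_of_tor ((U.tor_iff hd _).2 (hy.mono fun j hj => hj.2.1.tor)))
    rw [U.lv_tw, U.lm_mulVec, U.aev_pl, U.ker] at h3
    obtain ⟨j, a, b⟩ := (hy.and h3).exists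
    exact a.2.2 b

end Ul

end

end Pool.Agent.Lib.MP_41050a_ag
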