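import Pool.Agent.Lib.MP_41050a_ag.Grp

/-! The order of vanishing at a point. -/

namespace Pool.Agent.Lib.MP_41050a_ag

open Polynomial Filter

set_option linter.unusedSectionVars false

noncomputable section

variable {N : ℕ}

/-- The ideal of a point. -/
def mx {R : Type} [CommRing R] (a : V R N) : Ideal (MvPolynomial (Fin (N + 1)) R) :=
  Ideal.span (Set.range fun i => MvPolynomial.X i - MvPolynomial.C (a i))

theorem uh_gen {R : Type} [CommRing R] (a : V R N) (i : Fin (N + 1)) :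
    MvPolynomial.X i - MvPolynomial.C (a i) ∈ mx a := Ideal.subset_span ⟨i, rfl⟩

theorem uh_back {R : Type} [CommRing R] (a : V R N) (f : MvPolynomial (Fin (N + 1)) R) :
    (MvPolynomial.aeval (fun i => MvPolynomial.X i - MvPolynomial.C (a i))
      (MvPolynomial.aeval (fun i => MvPolynomial.X i + MvPolynomial.C (a i)) f :
        MvPolynomial (Fin (N + 1)) R) : MvPolynomial (Fin (N + 1)) R) = f := by
  induction f using MvPolynomial.induction_on with
  | C c => simp
  | add p q hp hq => rw [map_add, map_add, hp, hq]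
  | mul_X p i hp => rw [map_mul, map_mul, hp]; simp

theorem uh_pow {S : Type} [CommRing S] {J J' : Ideal S} (φ : S →+* S) (h : J.map φ ≤ J')
    (n : ℕ) {f : S} (hf : f ∈ J ^ n) : φ f ∈ J' ^ n := by
  have h1 := Ideal.mem_map_of_mem φ hf
  rw [Ideal.map_pow] at h1
  exact Ideal.pow_right_mono h n h1

theorem mem_mx_pow {R : Type} [CommRing R] (a : V R N) (n : ℕ) (f : MvPolynomial (Fin (N + 1)) R) :
    f ∈ mx a ^ n ↔ ∀ s : Fin (N + 1) →₀ ℕ, s.degree < n → MvPolynomial.coeff s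
      (MvPolynomial.aeval (fun i => MvPolynomial.X i + MvPolynomial.C (a i)) f :
        MvPolynomial (Fin (N + 1)) R) = 0 := by
  rw [← MvPolynomial.mem_pow_idealOfVars_iff']
  constructor
  · intro hf
    refine uh_pow (MvPolynomial.aeval (R := R)
      (fun i => MvPolynomial.X i + MvPolynomial.C (a i))).toRingHom ?_ n hf
    rw [Ideal.map_le_iff_le_comap, mx, Ideal.span_le]
    rintro _ ⟨i, rfl⟩
    refine Ideal.mem_comap.2 (Ideal.subset_span ⟨i, ?_⟩)
    simp
  · intro hf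
    rw [← uh_back a f]
    refine uh_pow (MvPolynomial.aeval (R := R)
      (fun i => MvPolynomial.X i - MvPolynomial.C (a i))).toRingHom ?_ n hf
    rw [Ideal.map_le_iff_le_comap, Ideal.span_le]
    rintro _ ⟨i, rfl⟩
    refine Ideal.mem_comap.2 (Ideal.subset_span ⟨i, ?_⟩)
    simp

variable {k : Type} [Field k] {I : Ideal (Pk k N)} {Δ : Pk k N}

/-- `Δ` vanishes to order at most `μ` at every point of the punctured cone. -/
def QQ (I : Ideal (Pk k N)) (Δ : Pk k N) (μ : ℕ) : Prop :=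
  ∀ a : V k N, On I a → a ≠ 0 → Δ ∉ I ⊔ mx a ^ (μ + 1)

theorem krull_pt (hI : I.IsPrime) {a : V k N} (ha : On I a)
    (h : ∀ μ : ℕ, Δ ∈ I ⊔ mx a ^ (μ + 1)) : Δ ∈ I := by
  have h1 : Ideal.Quotient.mk I Δ ∈ (⨅ n : ℕ, ((mx a).map (Ideal.Quotient.mk I)) ^ n • ⊤ :
      Submodule (Pk k N ⧸ I) (Pk k N ⧸ I)) := by
    rw [Submodule.mem_iInf]
    intro n
    obtain ⟨u, hu, b, hb, rfl⟩ := Submodule.mem_sup.1 (h n)
    rw [map_add, Ideal.Quotient.eq_zero_iff_mem.2 hu, zero_add, smul_eq_mul, Ideal.mul_top,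
      ← Ideal.map_pow]
    exact Ideal.mem_map_of_mem _ (Ideal.pow_le_pow_right (Nat.le_succ n) hb)
  obtain ⟨⟨r, hr⟩, h2⟩ := (Ideal.mem_iInf_smul_pow_eq_bot_iff _ _).1 h1
  obtain ⟨s, hs, rfl⟩ := (Ideal.mem_map_iff_of_surjective _ Ideal.Quotient.mk_surjective).1 hr
  have h3 : (1 - s) * Δ ∈ I := by
    rw [← Ideal.Quotient.eq_zero_iff_mem, map_mul, map_sub, map_one, sub_mul, one_mul,
      sub_eq_zero]
    exact h2.symm
  refine (hI.mem_or_mem h3).resolve_left fun h4 => ?_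
  have h5 : mx a ≤ RingHom.ker (MvPolynomial.aeval (R := k) a).toRingHom := by
    rw [mx, Ideal.span_le]
    rintro _ ⟨i, rfl⟩
    refine RingHom.mem_ker.2 ?_
    simp
  have h6 : MvPolynomial.aeval a s = 0 := h5 hs
  have h7 := ha _ h4
  rw [map_sub, map_one, h6, sub_zero] at h7
  exact one_ne_zero h7

theorem uh_cut (a : V k N) (f : Pk k N) :
    ∀ n : ℕ, ∃ g : Pk k N, g.totalDegree ≤ n ∧ f - g ∈ mx a ^ (n + 1) := by
  induction f using MvPolynomial.induction_on with
  | C c => exact fun n => ⟨MvPolynomial.C c, by simp, by simp⟩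
  | add p q hp hq =>
    intro n
    obtain ⟨g, h1, h2⟩ := hp n
    obtain ⟨g', h1', h2'⟩ := hq n
    refine ⟨g + g', (MvPolynomial.totalDegree_add _ _).trans (max_le h1 h1'), ?_⟩
    rw [add_sub_add_comm]
    exact add_mem h2 h2'
  | mul_X p i hp =>
    intro n
    obtain ⟨g, h1, h2⟩ := hp n
    have h3 : (MvPolynomial.C (a i) * g).totalDegree ≤ n :=
      (MvPolynomial.totalDegree_mul _ _).trans (by simpa using h1)
    cases n with
    | zero =>
      refine ⟨MvPolynomial.C (a i) * g, h3, ?_⟩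
      have e : p * MvPolynomial.X i - MvPolynomial.C (a i) * g =
          p * (MvPolynomial.X i - MvPolynomial.C (a i)) + MvPolynomial.C (a i) * (p - g) := by
        ring
      rw [e]
      refine add_mem ?_ (Ideal.mul_mem_left _ _ h2)
      rw [zero_add, pow_one]
      exact Ideal.mul_mem_left _ _ (uh_gen a i)
    | succ m =>
      obtain ⟨g', h1', h2'⟩ := hp m
      have h4 : (MvPolynomial.X i - MvPolynomial.C (a i) : Pk k N).totalDegree ≤ 1 :=
        (MvPolynomial.totalDegree_sub _ _).trans (by simp)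
      refine ⟨g' * (MvPolynomial.X i - MvPolynomial.C (a i)) + MvPolynomial.C (a i) * g,
        (MvPolynomial.totalDegree_add _ _).trans (max_le
          ((MvPolynomial.totalDegree_mul _ _).trans (add_le_add h1' h4)) h3), ?_⟩
      have e : p * MvPolynomial.X i - (g' * (MvPolynomial.X i - MvPolynomial.C (a i)) +
          MvPolynomial.C (a i) * g) = (p - g') * (MvPolynomial.X i - MvPolynomial.C (a i)) +
            MvPolynomial.C (a i) * (p - g) := by
        ring
      rw [e]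
      refine add_mem ?_ (Ideal.mul_mem_left _ _ h2)
      rw [pow_succ]
      exact Ideal.mul_mem_mul h2' (uh_gen a i)

theorem GenDeg.trunc {d μ : ℕ} (hd : GenDeg I d) {a : V k N} (h : Δ ∈ I ⊔ mx a ^ (μ + 1)) :
    ∃ Φ, Φ.totalDegree ≤ d + μ ∧ Φ ∈ I ∧ Δ - Φ ∈ mx a ^ (μ + 1) := by
  obtain ⟨u, hu, b, hb, rfl⟩ := Submodule.mem_sup.1 h
  have key : ∀ f : Pk k N, ∃ Φ, Φ.totalDegree ≤ d + μ ∧ Φ ∈ I ∧ f * u - Φ ∈ mx a ^ (μ + 1) := by
    refine Submodule.span_induction (p := fun u _ => ∀ f : Pk k N,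
      ∃ Φ, Φ.totalDegree ≤ d + μ ∧ Φ ∈ I ∧ f * u - Φ ∈ mx a ^ (μ + 1)) ?_ ?_ ?_ ?_ (hd hu)
    · rintro Φ ⟨h1, h2⟩ f
      obtain ⟨g, h3, h4⟩ := uh_cut a f μ
      refine ⟨Φ * g, (MvPolynomial.totalDegree_mul _ _).trans (add_le_add h2 h3),
        Ideal.mul_mem_right _ _ h1, ?_⟩
      rw [mul_comm Φ g, ← sub_mul]
      exact Ideal.mul_mem_right _ _ h4
    · exact fun f => ⟨0, by simp, zero_mem _, by simp⟩
    · intro x y _ _ hx hy f
      obtain ⟨Φ, h1, h2, h3⟩ := hx f
      obtain ⟨Φ', h1', h2', h3'⟩ := hy f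
      refine ⟨Φ + Φ', (MvPolynomial.totalDegree_add _ _).trans (max_le h1 h1'),
        add_mem h2 h2', ?_⟩
      rw [mul_add, add_sub_add_comm]
      exact add_mem h3 h3'
    · intro c x _ hx f
      rw [smul_eq_mul, ← mul_assoc]
      exact hx _
  obtain ⟨Φ, h1, h2, h3⟩ := key 1
  refine ⟨Φ, h1, h2, ?_⟩
  rw [one_mul] at h3
  rw [add_sub_right_comm]
  exact add_mem h3 hb

end

end Pool.Agent.Lib.MP_41050a_ag
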